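import Mathlib

set_option maxHeartbeats 4000000

open Finset Filter Topology

namespace Sand

/-- number of surjective homomorphisms `X → H` -/
noncomputable def sur (X H : Type) [AddCommGroup X] [AddCommGroup H] : ℕ :=
  Nat.card {f : X →+ H // Function.Surjective f}

/-- number of alternating bilinear pairings `H × H → ℂˣ` -/
noncomputable def alt (H : Type) [AddCommGroup H] : ℕ :=
  Nat.card {α : H →+ AddChar H ℂ // ∀ x, α x x = 1}

/-- number of symmetric perfect pairings `H × H → ℂˣ` -/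
noncomputable def symPerf (H : Type) [AddCommGroup H] : ℕ :=
  Nat.card {β : H →+ AddChar H ℂ // (∀ x y, β x y = β y x) ∧ Function.Bijective β}

/-- `|GL_i(F_p)|` -/
def gl (p i : ℕ) : ℕ := ∏ j ∈ range i, (p ^ i - p ^ j)

/-- the group `⊕ ℤ/p^{λ_a}` -/
abbrev Gp (p : ℕ) {r : ℕ} (lam : Fin r → ℕ) : Type := (a : Fin r) → ZMod (p ^ lam a)

/-- the relation `k ↦ (p^{λ} k, -∑ k_a δ_a)` -/
def relHom (p : ℕ) {r i : ℕ} (lam : Fin r → ℕ) (δ : Fin r → Fin i → ZMod p) :
    (Fin r → ℤ) →+ (Fin r → ℤ) × (Fin i → ZMod p) where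
  toFun k := (fun a => k a * (p : ℤ) ^ lam a, - ∑ a, k a • δ a)
  map_zero' := by ext <;> simp
  map_add' := by
    intro x y
    ext a
    · simp [add_mul]
    · simp [add_smul, Finset.sum_add_distrib]; ring

/-- the extension of `Gp p lam` by `F_p^i` with invariant `δ`:
generators `e_a` (`a < r`), `ε_k` (`k < i`), relations `p ε_k = 0`, `p^{λ_a} e_a = ∑_k (δ_a)_k ε_k` -/
abbrev Ex (p : ℕ) {r i : ℕ} (lam : Fin r → ℕ) (δ : Fin r → Fin i → ZMod p) : Type :=
  ((Fin r → ℤ) × (Fin i → ZMod p)) ⧸ (relHom p lam δ).range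

/-- cokernel of a matrix over `ℤ/N` -/
abbrev Cok {N m : ℕ} (M : Matrix (Fin m) (Fin m) (ZMod N)) : Type :=
  (Fin m → ZMod N) ⧸ LinearMap.range M.mulVecLin

/-- number of generating `m`-tuples -/
noncomputable def gen (m : ℕ) (H : Type) [AddCommGroup H] : ℕ :=
  Nat.card {f : Fin m → H // AddSubgroup.closure (Set.range f) = ⊤}

/-- proportion of invertible matrices among symmetric `m × m` matrices over `F_p` -/
noncomputable def sig (p m : ℕ) : ℝ :=
  (Nat.card {M : Matrix (Fin m) (Fin m) (ZMod p) // M.IsSymm ∧ IsUnit M.det} : ℝ)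
    / Nat.card {M : Matrix (Fin m) (Fin m) (ZMod p) // M.IsSymm}

/-- unordered pairs `u < v` -/
abbrev Prs (n : ℕ) : Type := {x : Fin n × Fin n // x.1 < x.2}

/-- the reduced Laplacian of a graph on `Fin (m+1)`: last row and column removed -/
noncomputable def redLap {m : ℕ} (G : SimpleGraph (Fin (m + 1))) : Matrix (Fin m) (Fin m) ℤ := by
  classical exact (G.lapMatrix ℤ).submatrix Fin.castSucc Fin.castSucc

/-- the critical group `ℤ^{n-1} / L_0 ℤ^{n-1}` -/
abbrev Crit {m : ℕ} (G : SimpleGraph (Fin (m + 1))) : Type :=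
  (Fin m → ℤ) ⧸ LinearMap.range (redLap G).mulVecLin

/-- the probability of the graph `G` in `G(n,q)` -/
noncomputable def wt {n : ℕ} (q : ℝ) (G : SimpleGraph (Fin n)) : ℝ := by
  classical exact ∏ x : {x : Fin n × Fin n // x.1 < x.2}, if G.Adj x.1.1 x.1.2 then q else 1 - q

/-- the probability that `G(n,q)` has property `P` -/
noncomputable def prob (n : ℕ) (q : ℝ) (P : SimpleGraph (Fin n) → Prop) : ℝ := by
  classical exact ∑ G : SimpleGraph (Fin n), if P G then wt q G else 0

/-- extend a tuple by `0` at the last vertex -/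
def ext0 {T : Type} [Zero T] {m : ℕ} (t : Fin m → T) : Fin (m + 1) → T :=
  Fin.snoc (α := fun _ => T) t 0

end Sand
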