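import Pool.Agent.Helper793.Sand.Stub

set_option maxHeartbeats 4000000
set_option linter.style.haveILetI false

open Finset Filter Topology

namespace Sand

/-- truncated alternating sum over `X` -/
noncomputable def Bk (p : ℕ) [Fact p.Prime] {r : ℕ} (lam : Fin r → ℕ) (X : Type) [AddCommGroup X]
    (k : ℕ) : ℝ :=
  ∑ i ∈ range (k + 1), (-1 : ℝ) ^ i * ((p : ℝ) ^ (i.choose 2) / gl p i) *
    (((∑ δ : Fin r → Fin i → ZMod p, sur X (Ex p lam δ) : ℕ) : ℝ) / (p : ℝ) ^ (i * r))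

/-- limit of the truncated alternating sums -/
noncomputable def Lk (p : ℕ) [Fact p.Prime] {r : ℕ} (lam : Fin r → ℕ) (k : ℕ) : ℝ :=
  ∑ i ∈ range (k + 1), (-1 : ℝ) ^ i * ((p : ℝ) ^ (i.choose 2) / gl p i) *
    (((∑ δ : Fin r → Fin i → ZMod p, alt (Ex p lam δ) : ℕ) : ℝ) / (p : ℝ) ^ (i * r))

open Classical in
/-- `|Aut G|` times the indicator of `X ≅ G` -/
noncomputable def ind (X G : Type) [AddCommGroup X] [AddCommGroup G] : ℝ :=
  if Nonempty (X ≃+ G) then (Nat.card (G ≃+ G) : ℝ) else 0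

lemma ind_eq (X G : Type) [AddCommGroup X] [AddCommGroup G] [Finite X] [Finite G] :
    ind X G = Nat.card {π : {f : X →+ G // Function.Surjective f} // Subsingleton π.1.ker} := by
  classical
  have e1 : {π : {f : X →+ G // Function.Surjective f} // Subsingleton π.1.ker} ≃ (X ≃+ G) := {
    toFun := fun π => AddEquiv.ofBijective π.1.1 ⟨by
      have := π.2
      rw [← AddMonoidHom.ker_eq_bot_iff]
      exact AddSubgroup.eq_bot_of_subsingleton _, π.1.2⟩
    invFun := fun e => ⟨⟨e.toAddMonoidHom, e.surjective⟩, by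
      have : e.toAddMonoidHom.ker = ⊥ := (AddMonoidHom.ker_eq_bot_iff _).2 e.injective
      show Subsingleton e.toAddMonoidHom.ker
      rw [this]; infer_instance⟩
    left_inv := fun π => by
      apply Subtype.ext; apply Subtype.ext; ext x; rfl
    right_inv := fun e => by ext x; rfl }
  rw [Nat.card_congr e1]
  unfold ind
  split_ifs with h
  · obtain ⟨e⟩ := h
    have e2 : (X ≃+ G) ≃ (G ≃+ G) := {
      toFun := fun f => e.symm.trans f
      invFun := fun f => e.trans f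
      left_inv := fun f => by ext x; simp
      right_inv := fun f => by ext x; simp }
    rw [Nat.card_congr e2]
  · haveI : IsEmpty (X ≃+ G) := not_nonempty_iff.1 h
    simp

lemma Bk_eq (p : ℕ) [Fact p.Prime] {r : ℕ} (lam : Fin r → ℕ) (hlam : ∀ a, 1 ≤ lam a)
    (X : Type) [AddCommGroup X] [Finite X] [Fintype {f : X →+ Gp p lam // Function.Surjective f}]
    (k : ℕ) :
    Bk p lam X k = ∑ π : {f : X →+ Gp p lam // Function.Surjective f},
      ∑ i ∈ range (k + 1), (-1 : ℝ) ^ i * ((p : ℝ) ^ (i.choose 2) / gl p i) *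
        sur π.1.ker (Fin i → ZMod p) := by
  classical
  have hp : (p : ℝ) ≠ 0 := by exact_mod_cast (Fact.out : p.Prime).ne_zero
  rw [Finset.sum_comm]
  unfold Bk
  refine Finset.sum_congr rfl fun i _ => ?_
  haveI : ∀ π : {f : X →+ Gp p lam // Function.Surjective f},
      Finite {φ : π.1.ker →+ (Fin i → ZMod p) // Function.Surjective φ} := by
    intro π
    haveI : NeZero p := ⟨(Fact.out : p.Prime).ne_zero⟩
    haveI : Finite (π.1.ker →+ (Fin i → ZMod p)) :=
      Finite.of_injective (fun f => (f : π.1.ker → (Fin i → ZMod p))) DFunLike.coe_injective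
    infer_instance
  rw [pairs_identity p lam hlam X i, Nat.card_sigma]
  rw [← Finset.mul_sum]
  congr 1
  push_cast
  rw [mul_comm, mul_div_assoc, div_self (pow_ne_zero _ hp), mul_one]
  rfl

lemma ind_sandwich (p : ℕ) [Fact p.Prime] {r : ℕ} (lam : Fin r → ℕ) (hlam : ∀ a, 1 ≤ lam a)
    (X : Type) [AddCommGroup X] [Finite X] (hX : ∀ x : X, ∃ k : ℕ, p ^ k • x = 0) (k : ℕ) :
    (Even k → ind X (Gp p lam) ≤ Bk p lam X k) ∧ (Odd k → Bk p lam X k ≤ ind X (Gp p lam)) := by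
  classical
  haveI : Finite (Gp p lam) := by
    haveI : ∀ a, NeZero (p ^ lam a) := fun a => ⟨pow_ne_zero _ (Fact.out : p.Prime).ne_zero⟩
    infer_instance
  haveI : Finite (X →+ Gp p lam) := by
    exact Finite.of_injective (fun f => (f : X → Gp p lam)) DFunLike.coe_injective
  haveI : Fintype {f : X →+ Gp p lam // Function.Surjective f} := Fintype.ofFinite _
  have h1 : ind X (Gp p lam) = ∑ π : {f : X →+ Gp p lam // Function.Surjective f},
      if Subsingleton π.1.ker then (1 : ℝ) else 0 := by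
    rw [ind_eq, Nat.card_eq_fintype_card, Fintype.card_subtype]
    simp
  have hK : ∀ π : {f : X →+ Gp p lam // Function.Surjective f}, ∀ x : π.1.ker, ∃ k : ℕ,
      p ^ k • x = 0 := by
    intro π x
    obtain ⟨k, hk⟩ := hX x
    exact ⟨k, Subtype.ext (by simpa using hk)⟩
  constructor
  · intro hk
    rw [h1, Bk_eq p lam hlam X k]
    exact Finset.sum_le_sum fun π _ => (bonferroni p π.1.ker (hK π) k).1 hk
  · intro hk
    rw [h1, Bk_eq p lam hlam X k]
    exact Finset.sum_le_sum fun π _ => (bonferroni p π.1.ker (hK π) k).2 hk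

/-- weighted family: moments converge implies truncated sums converge -/
lemma Bk_tendsto (p : ℕ) [Fact p.Prime] {r : ℕ} (lam : Fin r → ℕ)
    (Ω : ℕ → Type) [∀ n, Fintype (Ω n)] (w : ∀ n, Ω n → ℝ) (X : ∀ n, Ω n → Type)
    [∀ n ω, AddCommGroup (X n ω)]
    (hmom : ∀ (i : ℕ) (δ : Fin r → Fin i → ZMod p), Tendsto
      (fun n => ∑ ω : Ω n, w n ω * (sur (X n ω) (Ex p lam δ) : ℝ)) atTop
      (𝓝 (alt (Ex p lam δ) : ℝ))) (k : ℕ) :
    Tendsto (fun n => ∑ ω : Ω n, w n ω * Bk p lam (X n ω) k) atTop (𝓝 (Lk p lam k)) := by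
  have h1 : ∀ n, ∑ ω : Ω n, w n ω * Bk p lam (X n ω) k =
      ∑ i ∈ range (k + 1), (-1 : ℝ) ^ i * ((p : ℝ) ^ (i.choose 2) / gl p i) *
        ((∑ δ : Fin r → Fin i → ZMod p, ∑ ω : Ω n, w n ω * (sur (X n ω) (Ex p lam δ) : ℝ)) /
          (p : ℝ) ^ (i * r)) := by
    intro n
    unfold Bk
    simp_rw [Finset.mul_sum]
    rw [Finset.sum_comm]
    refine Finset.sum_congr rfl fun i _ => ?_
    rw [Finset.sum_comm, Finset.sum_div, Finset.mul_sum]
    refine Finset.sum_congr rfl fun ω _ => ?_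
    rw [← Finset.mul_sum]
    push_cast
    ring
  simp_rw [h1]
  unfold Lk
  refine tendsto_finset_sum _ fun i _ => ?_
  refine Tendsto.const_mul _ ?_
  refine Tendsto.div_const ?_ _
  push_cast
  exact tendsto_finset_sum _ fun δ _ => hmom i δ

/-- two families with the same limiting moments have the same limiting law -/
theorem squeeze_law (p : ℕ) [Fact p.Prime] {r : ℕ} (lam : Fin r → ℕ) (hlam : ∀ a, 1 ≤ lam a)
    (a b : ℕ → ℝ) (U V : ℕ → ℕ → ℝ)
    (hU : ∀ k, Tendsto (U k) atTop (𝓝 (Lk p lam k)))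
    (hV : ∀ k, Tendsto (V k) atTop (𝓝 (Lk p lam k)))
    (ha0 : ∀ k, Even k → ∀ n, a n ≤ U k n) (ha1 : ∀ k, Odd k → ∀ n, U k n ≤ a n)
    (hb0 : ∀ k, Even k → ∀ n, b n ≤ V k n) (hb1 : ∀ k, Odd k → ∀ n, V k n ≤ b n)
    (μ : ℝ) (hb : Tendsto b atTop (𝓝 μ)) : Tendsto a atTop (𝓝 μ) := by
  have hgap : Tendsto (fun k => |Lk p lam (k + 1) - Lk p lam k|) atTop (𝓝 0) := by
    have h := (tail p lam hlam).comp (tendsto_add_atTop_nat 1)
    refine squeeze_zero (fun _ => abs_nonneg _) (fun k => ?_) h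
    unfold Lk
    rw [Finset.sum_range_succ _ (k + 1), add_sub_cancel_left]
    simp only [Function.comp]
    rw [abs_mul, abs_mul, abs_pow, abs_neg, abs_one, one_pow, one_mul]
    rw [abs_of_nonneg (a := (p : ℝ) ^ ((k + 1).choose 2) / (gl p (k + 1) : ℝ)) (by positivity),
      abs_of_nonneg (a := ((_ : ℕ) : ℝ) / (p : ℝ) ^ ((k + 1) * r)) (by positivity)]
  have hμ0 : ∀ k, Even k → μ ≤ Lk p lam k := fun k hk =>
    le_of_tendsto_of_tendsto' hb (hV k) (hb0 k hk)
  have hμ1 : ∀ k, Odd k → Lk p lam k ≤ μ := fun k hk =>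
    le_of_tendsto_of_tendsto' (hV k) hb (hb1 k hk)
  rw [Metric.tendsto_atTop]
  intro ε hε
  have h2 := (hgap.eventually (gt_mem_nhds (show (0 : ℝ) < ε / 2 by linarith))).exists_forall_of_atTop
  obtain ⟨K, hK⟩ := h2
  have hk := hK (2 * K) (by omega)
  have he : Even (2 * K) := even_two_mul K
  have ho : Odd (2 * K + 1) := ⟨K, rfl⟩
  have h3 := (Metric.tendsto_atTop.1 (hU (2 * K)) (ε / 2) (by linarith))
  have h4 := (Metric.tendsto_atTop.1 (hU (2 * K + 1)) (ε / 2) (by linarith))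
  obtain ⟨N1, hN1⟩ := h3
  obtain ⟨N2, hN2⟩ := h4
  refine ⟨max N1 N2, fun n hn => ?_⟩
  have h5 := hN1 n (le_trans (le_max_left _ _) hn)
  have h6 := hN2 n (le_trans (le_max_right _ _) hn)
  rw [Real.dist_eq] at *
  have a0 := ha0 _ he n
  have a1 := ha1 _ ho n
  have m0 := hμ0 _ he
  have m1 := hμ1 _ ho
  rw [abs_lt] at *
  constructor <;> linarith [hk.1, hk.2, h5.1, h5.2, h6.1, h6.2]

end Sand
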