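import Pool.Agent.Helper793.Sand.Defs

set_option maxHeartbeats 4000000

open Finset Filter Topology

namespace Sand



theorem bp_sur (p : ℕ) [Fact p.Prime] (K : Type) [AddCommGroup K] [Finite K] (i : ℕ) :
    sur K (Fin i → ZMod p) =
      ∏ j ∈ range i, (p ^ (Module.finrank (ZMod p) (K →+ ZMod p)) - p ^ j) := by
  classical
  haveI : Finite (K →+ ZMod p) :=
    Finite.of_injective (fun f => (f : K → ZMod p)) DFunLike.coe_injective
  have key : ∀ f : K →+ (Fin i → ZMod p), Function.Surjective f ↔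
      LinearIndependent (ZMod p) (fun k : Fin i => (Pi.evalAddMonoidHom (fun _ : Fin i => ZMod p) k).comp f) := by
    intro f
    constructor
    · intro hf
      rw [Fintype.linearIndependent_iff]
      intro c hc k
      obtain ⟨x, hx⟩ := hf (Pi.single k 1)
      have := DFunLike.congr_fun hc x
      simp only [AddMonoidHom.coe_finsetSum, Finset.sum_apply] at this
      rw [Finset.sum_eq_single k] at this
      · simpa [hx] using this
      · intro b _ hb
        simp [hx, hb]
      · simp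
    · intro hli
      by_contra hns
      let S : Submodule (ZMod p) (Fin i → ZMod p) := AddSubgroup.toZModSubmodule p f.range
      have hS : S < ⊤ := by
        rw [lt_top_iff_ne_top]
        intro h
        apply hns
        intro y
        have : y ∈ S := by rw [h]; trivial
        simpa [S] using this
      obtain ⟨φ, hφ0, hφ⟩ := Submodule.exists_dual_map_eq_bot_of_lt_top hS inferInstance
      have hφS : ∀ x : K, φ (f x) = 0 := by
        intro x
        have h1 : φ (f x) ∈ S.map φ := Submodule.mem_map_of_mem (by simp [S])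
        rw [hφ] at h1
        exact (Submodule.mem_bot _).1 h1
      rw [Fintype.linearIndependent_iff] at hli
      have := hli (fun k => φ (fun j => if k = j then 1 else 0)) (by
        ext x
        have h2 := hφS x
        rw [LinearMap.pi_apply_eq_sum_univ φ (f x)] at h2
        simp only [AddMonoidHom.coe_finsetSum, Finset.sum_apply, AddMonoidHom.zero_apply]
        refine Eq.trans ?_ h2
        refine Finset.sum_congr rfl (fun k _ => ?_)
        simp only [AddMonoidHom.smul_apply, AddMonoidHom.comp_apply, Pi.evalAddMonoidHom_apply,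
          smul_eq_mul]
        ring)
      apply hφ0
      refine LinearMap.ext (fun y => ?_)
      rw [LinearMap.pi_apply_eq_sum_univ φ y, LinearMap.zero_apply]
      refine Finset.sum_eq_zero (fun k _ => ?_)
      rw [this k, smul_zero]
  have hcard : sur K (Fin i → ZMod p) =
      Nat.card {s : Fin i → (K →+ ZMod p) // LinearIndependent (ZMod p) s} := by
    unfold sur
    refine Nat.card_congr ?_
    refine
      { toFun := fun f => ⟨fun k => (Pi.evalAddMonoidHom (fun _ : Fin i => ZMod p) k).comp f.1, (key f.1).1 f.2⟩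
        invFun := fun s => ⟨AddMonoidHom.pi s.1, (key _).2 (by
          have : (fun k : Fin i => (Pi.evalAddMonoidHom (fun _ : Fin i => ZMod p) k).comp
            (AddMonoidHom.pi s.1)) = s.1 := by
            funext k; ext x; rfl
          rw [this]; exact s.2)⟩
        left_inv := ?_
        right_inv := ?_ }
    · intro f
      apply Subtype.ext
      ext x k
      rfl
    · intro s
      apply Subtype.ext
      funext k
      ext x
      rfl
  rw [hcard]
  by_cases hi : i ≤ Module.finrank (ZMod p) (K →+ ZMod p)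
  · rw [card_linearIndependent hi, Finset.prod_range]
    simp [ZMod.card]
  · push Not at hi
    rw [Finset.prod_eq_zero (Finset.mem_range.2 hi) (by simp)]
    rw [Nat.card_eq_zero]
    left
    constructor
    rintro ⟨s, hs⟩
    have := hs.fintype_card_le_finrank
    simp at this
    omega

theorem bp_func (p : ℕ) [Fact p.Prime] (Q : Type) [AddCommGroup Q] [Module (ZMod p) Q] (x : Q)
    (hx : x ≠ 0) : ∃ φ : Q →+ ZMod p, φ x ≠ 0 := by
  by_contra h
  push Not at h
  exact hx ((Module.forall_dual_apply_eq_zero_iff (ZMod p) x).1 (fun φ => h φ.toAddMonoidHom))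

theorem bp_pos (p : ℕ) [Fact p.Prime] (K : Type) [AddCommGroup K] [Finite K]
    (hK : ∀ x : K, ∃ k : ℕ, p ^ k • x = 0) (hn : ¬ Subsingleton K) :
    0 < Module.finrank (ZMod p) (K →+ ZMod p) := by
  classical
  haveI : Finite (K →+ ZMod p) :=
    Finite.of_injective (fun f => (f : K → ZMod p)) DFunLike.coe_injective
  have hnt : Nontrivial (K →+ ZMod p) := by
    let N : AddSubgroup K := (nsmulAddMonoidHom p : K →+ K).range
    have hN : N ≠ ⊤ := by
      intro h
      have hsurj : Function.Surjective (nsmulAddMonoidHom p : K →+ K) := by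
        rw [← AddMonoidHom.range_eq_top]; exact h
      have hinj : Function.Injective (nsmulAddMonoidHom p : K →+ K) :=
        Finite.injective_iff_surjective.2 hsurj
      apply hn
      constructor
      have hz : ∀ x : K, x = 0 := by
        intro x
        obtain ⟨k, hk⟩ := hK x
        induction k with
        | zero => simpa using hk
        | succ k ih =>
          apply ih
          apply hinj
          simp only [nsmulAddMonoidHom_apply, smul_zero]
          rw [smul_smul, ← pow_succ']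
          exact hk
      intro a b
      rw [hz a, hz b]
    letI : Module (ZMod p) (K ⧸ N) := AddCommGroup.zmodModule (by
      intro x
      induction x using QuotientAddGroup.induction_on with
      | H z =>
        rw [← QuotientAddGroup.mk_nsmul, QuotientAddGroup.eq_zero_iff]
        exact ⟨z, rfl⟩)
    obtain ⟨x, hx⟩ : ∃ x : K, x ∉ N := by
      by_contra h
      push Not at h
      exact hN (eq_top_iff.2 (fun y _ => h y))
    have hx0 : (QuotientAddGroup.mk x : K ⧸ N) ≠ 0 := by
      intro h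
      exact hx ((QuotientAddGroup.eq_zero_iff x).1 h)
    obtain ⟨φ, hφ⟩ := bp_func p (K ⧸ N) _ hx0
    refine ⟨⟨φ.comp (QuotientAddGroup.mk' N), 0, ?_⟩⟩
    intro h
    apply hφ
    have := DFunLike.congr_fun h x
    simpa using this
  exact Module.finrank_pos

theorem bp_cast (p : ℕ) [Fact p.Prime] (d i : ℕ) :
    ((∏ j ∈ range i, (p ^ d - p ^ j) : ℕ) : ℝ) = ∏ j ∈ range i, ((p : ℝ) ^ d - (p : ℝ) ^ j) := by
  have hp : 1 ≤ p := (Fact.out : p.Prime).one_lt.le
  by_cases hi : i ≤ d
  · rw [Nat.cast_prod]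
    refine Finset.prod_congr rfl (fun j hj => ?_)
    have : p ^ j ≤ p ^ d := Nat.pow_le_pow_right hp (by have := Finset.mem_range.1 hj; omega)
    rw [Nat.cast_sub this]
    push_cast
    ring
  · push Not at hi
    rw [Finset.prod_eq_zero (Finset.mem_range.2 hi) (by simp),
      Finset.prod_eq_zero (Finset.mem_range.2 hi) (by simp)]
    simp

theorem bp_shift (p : ℕ) (d k : ℕ) :
    ∏ j ∈ range (k + 1), ((p : ℝ) ^ (d + 1) - (p : ℝ) ^ j) =
      ((p : ℝ) ^ (d + 1) - 1) * ((p : ℝ) ^ k * ∏ j ∈ range k, ((p : ℝ) ^ d - (p : ℝ) ^ j)) := by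
  rw [Finset.prod_range_succ']
  have : ∏ j ∈ range k, ((p : ℝ) ^ (d + 1) - (p : ℝ) ^ (j + 1)) =
      (p : ℝ) ^ k * ∏ j ∈ range k, ((p : ℝ) ^ d - (p : ℝ) ^ j) := by
    rw [← Finset.card_range k, ← Finset.prod_const, Finset.card_range, ← Finset.prod_mul_distrib]
    refine Finset.prod_congr rfl (fun j _ => ?_)
    ring
  rw [this]
  ring

theorem bp_ne (p : ℕ) [Fact p.Prime] (k : ℕ) :
    ∏ j ∈ range k, ((p : ℝ) ^ k - (p : ℝ) ^ j) ≠ 0 := by
  rw [Finset.prod_ne_zero_iff]
  intro j hj
  have hp : (1 : ℝ) < p := by exact_mod_cast (Fact.out : p.Prime).one_lt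
  have : (p : ℝ) ^ j < (p : ℝ) ^ k := pow_lt_pow_right₀ hp (Finset.mem_range.1 hj)
  linarith

theorem bp_pascal (p : ℕ) [Fact p.Prime] (d k : ℕ) :
    (∏ j ∈ range (k + 1), ((p : ℝ) ^ (d + 1) - (p : ℝ) ^ j)) /
      (∏ j ∈ range (k + 1), ((p : ℝ) ^ (k + 1) - (p : ℝ) ^ j)) =
    (p : ℝ) ^ (k + 1) * ((∏ j ∈ range (k + 1), ((p : ℝ) ^ d - (p : ℝ) ^ j)) /
      (∏ j ∈ range (k + 1), ((p : ℝ) ^ (k + 1) - (p : ℝ) ^ j))) +
    (∏ j ∈ range k, ((p : ℝ) ^ d - (p : ℝ) ^ j)) /
      (∏ j ∈ range k, ((p : ℝ) ^ k - (p : ℝ) ^ j)) := by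
  have hp : (1 : ℝ) < p := by exact_mod_cast (Fact.out : p.Prime).one_lt
  rw [bp_shift p d k, bp_shift p k k, Finset.prod_range_succ _ k]
  have h1 := bp_ne p k
  have h2 : (p : ℝ) ^ (k + 1) - 1 ≠ 0 := by
    have : (1 : ℝ) < (p : ℝ) ^ (k + 1) := one_lt_pow₀ hp (by omega)
    linarith
  have h3 : (p : ℝ) ^ k ≠ 0 := by positivity
  generalize (∏ j ∈ range k, ((p : ℝ) ^ d - (p : ℝ) ^ j)) = A at *
  generalize (∏ j ∈ range k, ((p : ℝ) ^ k - (p : ℝ) ^ j)) = B at *
  field_simp
  ring

theorem bp_sum (p : ℕ) [Fact p.Prime] (d k : ℕ) :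
    ∑ i ∈ range (k + 1), (-1 : ℝ) ^ i * ((p : ℝ) ^ (i.choose 2) / gl p i) *
      ((∏ j ∈ range i, (p ^ (d + 1) - p ^ j) : ℕ) : ℝ) =
    (-1) ^ k * (p : ℝ) ^ ((k + 1).choose 2) * ((∏ j ∈ range k, ((p : ℝ) ^ d - (p : ℝ) ^ j)) /
      (∏ j ∈ range k, ((p : ℝ) ^ k - (p : ℝ) ^ j))) := by
  induction k with
  | zero => simp [gl]
  | succ k ih =>
    rw [Finset.sum_range_succ, ih]
    unfold gl
    rw [bp_cast, bp_cast]
    have h := bp_pascal p d k
    have hch : (k + 1 + 1).choose 2 = (k + 1).choose 2 + (k + 1) := by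
      rw [Nat.choose_succ_succ' (k + 1) 1]
      simp
      ring
    rw [hch, pow_add (p : ℝ) ((k + 1).choose 2) (k + 1)]
    have e : (-1 : ℝ) ^ (k + 1) * ((p : ℝ) ^ ((k + 1).choose 2) /
        ∏ j ∈ range (k + 1), ((p : ℝ) ^ (k + 1) - (p : ℝ) ^ j)) *
        ∏ j ∈ range (k + 1), ((p : ℝ) ^ (d + 1) - (p : ℝ) ^ j) =
      (-1 : ℝ) ^ (k + 1) * (p : ℝ) ^ ((k + 1).choose 2) *
       ((∏ j ∈ range (k + 1), ((p : ℝ) ^ (d + 1) - (p : ℝ) ^ j)) /
        ∏ j ∈ range (k + 1), ((p : ℝ) ^ (k + 1) - (p : ℝ) ^ j)) := by ring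
    rw [e, h]
    ring

theorem bp_nonneg (p : ℕ) [Fact p.Prime] (d k : ℕ) :
    0 ≤ (∏ j ∈ range k, ((p : ℝ) ^ d - (p : ℝ) ^ j)) /
      (∏ j ∈ range k, ((p : ℝ) ^ k - (p : ℝ) ^ j)) := by
  rw [← bp_cast, ← bp_cast]
  positivity

open Classical in
theorem bonferroni (p : ℕ) [Fact p.Prime] (K : Type) [AddCommGroup K] [Finite K]
    (hK : ∀ x : K, ∃ k : ℕ, p ^ k • x = 0) (k : ℕ) :
    (Even k → (if Subsingleton K then (1 : ℝ) else 0) ≤
      ∑ i ∈ range (k + 1), (-1 : ℝ) ^ i * ((p : ℝ) ^ (i.choose 2) / gl p i) * sur K (Fin i → ZMod p)) ∧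
    (Odd k → ∑ i ∈ range (k + 1), (-1 : ℝ) ^ i * ((p : ℝ) ^ (i.choose 2) / gl p i) *
      sur K (Fin i → ZMod p) ≤ (if Subsingleton K then (1 : ℝ) else 0)) := by
  by_cases hS : Subsingleton K
  · have hd : Module.finrank (ZMod p) (K →+ ZMod p) = 0 := by
      haveI : Subsingleton (K →+ ZMod p) := ⟨fun f g => by
        ext x
        rw [Subsingleton.elim x 0, map_zero, map_zero]⟩
      exact Module.finrank_zero_of_subsingleton
    have hsum : ∑ i ∈ range (k + 1), (-1 : ℝ) ^ i * ((p : ℝ) ^ (i.choose 2) / gl p i) *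
        sur K (Fin i → ZMod p) = 1 := by
      rw [Finset.sum_range_succ', Finset.sum_eq_zero]
      · rw [bp_sur]
        simp [gl]
      · intro i _
        rw [bp_sur, hd, Finset.prod_eq_zero (Finset.mem_range.2 (Nat.succ_pos i)) (by simp)]
        simp
    rw [hsum]
    simp [hS]
  · obtain ⟨d, hd⟩ : ∃ d, Module.finrank (ZMod p) (K →+ ZMod p) = d + 1 :=
      ⟨_, (Nat.succ_pred_eq_of_pos (bp_pos p K hK hS)).symm⟩
    have hsum : ∑ i ∈ range (k + 1), (-1 : ℝ) ^ i * ((p : ℝ) ^ (i.choose 2) / gl p i) *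
        sur K (Fin i → ZMod p) = (-1) ^ k * (p : ℝ) ^ ((k + 1).choose 2) *
        ((∏ j ∈ range k, ((p : ℝ) ^ d - (p : ℝ) ^ j)) /
        (∏ j ∈ range k, ((p : ℝ) ^ k - (p : ℝ) ^ j))) := by
      rw [← bp_sum]
      refine Finset.sum_congr rfl (fun i _ => ?_)
      rw [bp_sur, hd]
    rw [hsum]
    have h0 := bp_nonneg p d k
    have h1 : (0 : ℝ) ≤ (p : ℝ) ^ ((k + 1).choose 2) := by positivity
    simp only [hS, if_false]
    constructor
    · intro hk
      rw [hk.neg_one_pow]
      have := mul_nonneg h1 h0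
      linarith
    · intro hk
      rw [hk.neg_one_pow]
      have := mul_nonneg h1 h0
      linarith

end Sand
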