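import Pool.Agent.Helper793.Sand.Defs

set_option maxHeartbeats 4000000

open Finset Filter Topology

namespace Sand


/-- the bimultiplicative form of `χ (c, f) = c f` -/
noncomputable def isoB {H : Type} [AddCommGroup H] (s : AddChar H ℂ × H) :
    AddChar (AddChar H ℂ × H) ℂ where
  toFun t := s.1 t.2 * t.1 s.2
  map_zero_eq_one' := by simp
  map_add_eq_mul' a b := by
    simp only [Prod.snd_add, Prod.fst_add, AddChar.map_add_eq_mul, AddChar.add_apply]
    ring

theorem isoB_apply {H : Type} [AddCommGroup H] (s t : AddChar H ℂ × H) :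
    isoB s t = s.1 t.2 * t.1 s.2 := rfl

theorem isoB_symm {H : Type} [AddCommGroup H] (s t : AddChar H ℂ × H) :
    isoB s t = isoB t s := by
  rw [isoB_apply, isoB_apply, mul_comm]

theorem iso_chi_add {H : Type} [AddCommGroup H] (s t : AddChar H ℂ × H) :
    (s + t).1 (s + t).2 = s.1 s.2 * t.1 t.2 * isoB s t := by
  simp only [Prod.snd_add, Prod.fst_add, AddChar.map_add_eq_mul, AddChar.add_apply, isoB_apply]
  ring

theorem iso_chi_neg {H : Type} [AddCommGroup H] (s : AddChar H ℂ × H) :
    (-s).1 (-s).2 = s.1 s.2 := by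
  simp only [Prod.snd_neg, Prod.fst_neg, AddChar.neg_apply, neg_neg]

theorem isoB_nondeg {H : Type} [AddCommGroup H] [Finite H] (s : AddChar H ℂ × H)
    (h : isoB s = 0) : s = 0 := by
  obtain ⟨c, f⟩ := s
  have h1 : ∀ t : AddChar H ℂ × H, c t.2 * t.1 f = 1 := fun t => by
    have := DFunLike.congr_fun h t
    simpa [isoB_apply] using this
  have hf : f = 0 := by
    rw [← AddChar.forall_apply_eq_zero]
    intro ψ
    have := h1 (ψ, 0)
    simpa using this
  have hc : c = 0 := by
    ext x
    have := h1 (0, x)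
    simpa using this
  rw [hf, hc]; rfl

open Classical in
/-- counting -/
theorem iso_count {H : Type} [AddCommGroup H] [Fintype H] (W : AddSubgroup (AddChar H ℂ × H)) :
    (Fintype.card W : ℂ) * (Finset.univ.filter (fun t : AddChar H ℂ × H =>
      ∀ w : W, isoB (w : AddChar H ℂ × H) t = 1)).card = (Fintype.card H : ℂ) ^ 2 := by
  have hT : Fintype.card (AddChar H ℂ × H) = Fintype.card H ^ 2 := by
    rw [Fintype.card_prod, AddChar.card_eq, sq]
  have h1 : ∑ t : AddChar H ℂ × H, ∑ w : W, isoB (w : AddChar H ℂ × H) t =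
      (Fintype.card W : ℂ) * (Finset.univ.filter (fun t : AddChar H ℂ × H =>
      ∀ w : W, isoB (w : AddChar H ℂ × H) t = 1)).card := by
    have h2 : ∀ t : AddChar H ℂ × H, ∑ w : W, isoB (w : AddChar H ℂ × H) t =
        if (∀ w : W, isoB (w : AddChar H ℂ × H) t = 1) then (Fintype.card W : ℂ) else 0 := by
      intro t
      have h3 : ∀ w : W, isoB (w : AddChar H ℂ × H) t =
          ((isoB t).compAddMonoidHom W.subtype) w := by
        intro w
        rw [isoB_symm]; rfl
      have h4 : ∑ w : W, isoB (w : AddChar H ℂ × H) t =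
          ∑ w : W, ((isoB t).compAddMonoidHom W.subtype) w := Finset.sum_congr rfl (fun w _ => h3 w)
      rw [h4, AddChar.sum_eq_ite]
      congr 1
      rw [eq_iff_iff]
      constructor
      · intro h w
        rw [h3, h]; rfl
      · intro h
        ext w
        rw [← h3, h]; rfl
    simp_rw [h2]
    rw [← Finset.sum_filter, Finset.sum_const, nsmul_eq_mul, mul_comm]
  have h5 : ∑ t : AddChar H ℂ × H, ∑ w : W, isoB (w : AddChar H ℂ × H) t =
      (Fintype.card (AddChar H ℂ × H) : ℂ) := by
    rw [Finset.sum_comm, Finset.sum_eq_single (0 : W)]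
    · have : ∀ t, isoB ((0 : W) : AddChar H ℂ × H) t = 1 := by
        intro t
        simp [isoB_apply]
      simp_rw [this]
      simp
    · intro w _ hw
      rw [AddChar.sum_eq_zero_iff_ne_zero]
      intro h
      apply hw
      exact Subtype.ext (isoB_nondeg _ h)
    · intro h; exact absurd (Finset.mem_univ _) h
  rw [← h1, h5, hT]
  push_cast
  rfl

theorem iso_set (H : Type) [AddCommGroup H] [Finite H] (S : Finset (AddChar H ℂ × H))
    (hS : ∀ x ∈ S, ∀ y ∈ S, (x.1 - y.1) (x.2 - y.2) = 1) :
    S.card ≤ Nat.card H ∧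
    (S.card = Nat.card H → ∀ x ∉ S,
      (Nat.card H : ℝ) ≤ ∑ y ∈ S, (1 - ((x.1 - y.1) (x.2 - y.2)).re)) := by
  classical
  cases nonempty_fintype H
  rw [Nat.card_eq_fintype_card]
  have hHpos : 0 < Fintype.card H := Fintype.card_pos
  rcases S.eq_empty_or_nonempty with hemp | ⟨x0, hx0⟩
  · subst hemp
    refine ⟨by simp, fun h => ?_⟩
    rw [Finset.card_empty] at h
    omega
  let S' : Set (AddChar H ℂ × H) := (fun x => x - x0) '' (S : Set (AddChar H ℂ × H))
  let W : AddSubgroup (AddChar H ℂ × H) := AddSubgroup.closure S'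
  have hchi : ∀ s ∈ S', s.1 s.2 = 1 := by
    rintro _ ⟨x, hx, rfl⟩
    exact hS x hx x0 hx0
  have hB1 : ∀ s ∈ S', ∀ t ∈ S', isoB s t = 1 := by
    rintro s hs t ht
    have hst : (s - t).1 (s - t).2 = 1 := by
      obtain ⟨x, hx, rfl⟩ := hs
      obtain ⟨y, hy, rfl⟩ := ht
      have h1 : (x - x0) - (y - x0) = x - y := by abel
      show ((x - x0) - (y - x0)).1 ((x - x0) - (y - x0)).2 = 1
      rw [h1]
      exact hS x hx y hy
    rw [sub_eq_add_neg, iso_chi_add, iso_chi_neg, hchi s hs, hchi t ht, one_mul, one_mul,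
      AddChar.map_neg_eq_inv] at hst
    rw [← inv_inj, hst, inv_one]
  have hB2 : ∀ s ∈ S', ∀ t ∈ W, isoB s t = 1 := by
    intro s hs t ht
    induction ht using AddSubgroup.closure_induction with
    | mem t ht => exact hB1 s hs t ht
    | zero => exact AddChar.map_zero_eq_one _
    | add a b _ _ ha hb => rw [AddChar.map_add_eq_mul, ha, hb, one_mul]
    | neg a _ ha => rw [AddChar.map_neg_eq_inv, ha, inv_one]
  have hB3 : ∀ s ∈ W, ∀ t ∈ W, isoB s t = 1 := by
    intro s hs t ht
    rw [isoB_symm]
    induction hs using AddSubgroup.closure_induction with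
    | mem s hs => rw [isoB_symm]; exact hB2 s hs t ht
    | zero => exact AddChar.map_zero_eq_one _
    | add a b _ _ ha hb => rw [AddChar.map_add_eq_mul, ha, hb, one_mul]
    | neg a _ ha => rw [AddChar.map_neg_eq_inv, ha, inv_one]
  have hchiW : ∀ w ∈ W, w.1 w.2 = 1 := by
    intro w hw
    induction hw using AddSubgroup.closure_induction with
    | mem s hs => exact hchi s hs
    | zero => simp
    | add a b ha' hb' ha hb => rw [iso_chi_add, ha, hb, hB3 a ha' b hb', one_mul, one_mul]
    | neg a _ ha => rw [iso_chi_neg, ha]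
  set P : Finset (AddChar H ℂ × H) := Finset.univ.filter (fun t : AddChar H ℂ × H => ∀ w : W, isoB (w : AddChar H ℂ × H) t = 1) with hP
  have hcount := iso_count W
  rw [← hP] at hcount
  have hcount' : Fintype.card W * P.card = Fintype.card H ^ 2 := by exact_mod_cast hcount
  have hWP : (W : Set (AddChar H ℂ × H)).toFinset ⊆ P := by
    intro w hw
    rw [hP, Finset.mem_filter]
    refine ⟨Finset.mem_univ _, fun v => ?_⟩
    exact hB3 v v.2 w (by simpa using hw)
  have hWcard : (W : Set (AddChar H ℂ × H)).toFinset.card = Fintype.card W := by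
    rw [Set.toFinset_card]
    rfl
  have hle1 : Fintype.card W ≤ P.card := by
    rw [← hWcard]; exact Finset.card_le_card hWP
  have hWH : Fintype.card W ≤ Fintype.card H := by
    by_contra hcon
    push Not at hcon
    nlinarith
  have hSim : S.image (fun x => x - x0) ⊆ (W : Set (AddChar H ℂ × H)).toFinset := by
    intro w hw
    rw [Finset.mem_image] at hw
    obtain ⟨x, hx, rfl⟩ := hw
    rw [Set.mem_toFinset]
    exact AddSubgroup.subset_closure ⟨x, hx, rfl⟩
  have hScard : (S.image (fun x => x - x0)).card = S.card :=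
    Finset.card_image_of_injective _ (fun a b h => by simpa using h)
  have hSW : S.card ≤ Fintype.card W := by
    rw [← hScard, ← hWcard]; exact Finset.card_le_card hSim
  refine ⟨hSW.trans hWH, fun hSH x hx => ?_⟩
  have hWeq : Fintype.card W = Fintype.card H := by omega
  have hPc : P.card = Fintype.card H := by
    rw [hWeq, sq] at hcount'
    exact Nat.eq_of_mul_eq_mul_left hHpos hcount'
  have hWP' : (W : Set (AddChar H ℂ × H)).toFinset = P := Finset.eq_of_subset_of_card_le hWP (by omega)
  have hSW' : S.image (fun x => x - x0) = (W : Set (AddChar H ℂ × H)).toFinset :=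
    Finset.eq_of_subset_of_card_le hSim (by omega)
  have hy : x - x0 ∉ W := by
    intro hy
    have : x - x0 ∈ S.image (fun x => x - x0) := by
      rw [hSW', Set.mem_toFinset]; exact hy
    rw [Finset.mem_image] at this
    obtain ⟨x', hx', he⟩ := this
    apply hx
    have : x' = x := by simpa using he
    rwa [← this]
  have hyP : ¬ ∀ w : W, isoB (w : AddChar H ℂ × H) (x - x0) = 1 := by
    intro h
    have h1 : x - x0 ∈ P := by rw [hP, Finset.mem_filter]; exact ⟨Finset.mem_univ _, h⟩
    rw [← hWP', Set.mem_toFinset] at h1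
    exact hy h1
  have hsum : ∑ y ∈ S, (x.1 - y.1) (x.2 - y.2) = 0 := by
    have h1 : ∑ y ∈ S, (x.1 - y.1) (x.2 - y.2) =
        ∑ w ∈ S.image (fun x => x - x0), ((x - x0) - w).1 ((x - x0) - w).2 := by
      rw [Finset.sum_image (fun a _ b _ h => by simpa using h)]
      refine Finset.sum_congr rfl (fun y _ => ?_)
      have : (x - x0) - (y - x0) = x - y := by abel
      rw [this]; rfl
    rw [h1, hSW']
    have h2 : ∀ w ∈ (W : Set (AddChar H ℂ × H)).toFinset, ((x - x0) - w).1 ((x - x0) - w).2 =
        (x - x0).1 (x - x0).2 * (isoB (x - x0) w)⁻¹ := by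
      intro w hw
      have hw' : w ∈ W := by simpa using hw
      rw [sub_eq_add_neg (x - x0) w, iso_chi_add, iso_chi_neg, hchiW w hw', mul_one,
        AddChar.map_neg_eq_inv]
    rw [Finset.sum_congr rfl h2, ← Finset.mul_sum]
    have h3 : ∑ w ∈ (W : Set (AddChar H ℂ × H)).toFinset, (isoB (x - x0) w)⁻¹ =
        ∑ w : W, (-((isoB (x - x0)).compAddMonoidHom W.subtype)) w := by
      rw [Finset.sum_subtype (W : Set (AddChar H ℂ × H)).toFinset (p := fun x => x ∈ W)
        (fun x => by simp)]
      refine Finset.sum_congr rfl (fun w _ => ?_)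
      rw [AddChar.neg_apply']
      rfl
    rw [h3]
    have h4 : -((isoB (x - x0)).compAddMonoidHom W.subtype) ≠ 0 := by
      intro h
      apply hyP
      intro w
      have h6 := DFunLike.congr_fun h w
      rw [AddChar.neg_apply', AddChar.zero_apply, inv_eq_one] at h6
      rw [isoB_symm]
      exact h6
    rw [AddChar.sum_eq_zero_iff_ne_zero.2 h4, mul_zero]
  have hre : ∑ y ∈ S, ((x.1 - y.1) (x.2 - y.2)).re = 0 := by
    rw [← Complex.re_sum, hsum, Complex.zero_re]
  rw [Finset.sum_sub_distrib, hre]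
  simp [hSH]

end Sand
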