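import Pool.Agent.Helper793.Sand.Defs

set_option maxHeartbeats 4000000

open Finset Filter Topology

namespace Sand


theorem redLap_mulVec10022 {m : ℕ} (G : SimpleGraph (Fin (m + 1))) [inst : DecidableRel G.Adj]
    (v : Fin m → ℤ) (i : Fin m) :
    ((redLap G).mulVec v) i = ((G.lapMatrix ℤ).mulVec (ext0 v)) (Fin.castSucc i) := by
  have e : redLap G = (G.lapMatrix ℤ).submatrix Fin.castSucc Fin.castSucc := by
    unfold redLap
    have h : (fun a b => Classical.propDecidable (G.Adj a b)) = inst := Subsingleton.elim _ _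
    subst h
    rfl
  rw [e]
  simp only [Matrix.mulVec, dotProduct, Matrix.submatrix_apply]
  rw [Fin.sum_univ_castSucc]
  simp [ext0]

theorem lap_cast10022 {m : ℕ} (G : SimpleGraph (Fin (m + 1))) [DecidableRel G.Adj]
    (x : Fin (m + 1) → ℤ) (i : Fin (m + 1)) :
    ((G.lapMatrix ℝ).mulVec (fun j => (x j : ℝ))) i = (((G.lapMatrix ℤ).mulVec x) i : ℝ) := by
  rw [SimpleGraph.lapMatrix_mulVec_apply, SimpleGraph.lapMatrix_mulVec_apply]
  push_cast
  rfl

theorem det_ne10022 {m : ℕ} (M : Matrix (Fin m) (Fin m) ℤ) :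
    Finite ((Fin m → ℤ) ⧸ LinearMap.range M.mulVecLin) ↔ M.det ≠ 0 := by
  classical
  constructor
  · intro hfin
    -- each basis vector has a multiple in the range
    haveI := hfin
    set N := Nat.card ((Fin m → ℤ) ⧸ LinearMap.range M.mulVecLin) with hN
    have hN0 : N ≠ 0 := Nat.card_pos.ne'
    have h1 : ∀ x : Fin m → ℤ, ∃ y : Fin m → ℤ, M.mulVec y = (N : ℤ) • x := by
      intro x
      have h2 : (N : ℤ) • (Submodule.Quotient.mk (p := LinearMap.range M.mulVecLin) x) = 0 := by
        rw [natCast_zsmul]
        exact card_nsmul_eq_zero'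
      rw [← Submodule.Quotient.mk_smul, Submodule.Quotient.mk_eq_zero] at h2
      obtain ⟨y, hy⟩ := h2
      exact ⟨y, by simpa using hy⟩
    choose V hV using h1
    have h3 : M * (Matrix.of fun i j => V (Pi.single j 1) i) = (N : ℤ) • (1 : Matrix (Fin m) (Fin m) ℤ) := by
      ext i j
      have := congrFun (hV (Pi.single j 1)) i
      simp only [Matrix.mulVec, dotProduct] at this
      rw [Matrix.mul_apply]
      simp only [Matrix.of_apply]
      rw [this]
      simp [Matrix.one_apply, Pi.single_apply]
    intro hdet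
    have h4 := congrArg Matrix.det h3
    rw [Matrix.det_mul, hdet, zero_mul, Matrix.det_smul, Matrix.det_one, mul_one] at h4
    exact pow_ne_zero _ (by exact_mod_cast hN0) h4.symm
  · intro hdet
    haveI : Module.Finite ℤ ((Fin m → ℤ) ⧸ LinearMap.range M.mulVecLin) := inferInstance
    apply Module.finite_of_fg_torsion
    intro q
    obtain ⟨x, rfl⟩ := Submodule.Quotient.mk_surjective _ q
    refine ⟨⟨M.det, mem_nonZeroDivisors_of_ne_zero hdet⟩, ?_⟩
    show M.det • (Submodule.Quotient.mk (p := LinearMap.range M.mulVecLin) x) = 0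
    rw [← Submodule.Quotient.mk_smul, Submodule.Quotient.mk_eq_zero]
    refine ⟨M.adjugate.mulVec x, ?_⟩
    rw [Matrix.mulVecLin_apply, Matrix.mulVec_mulVec, Matrix.mul_adjugate, Matrix.smul_mulVec,
      Matrix.one_mulVec]

theorem crit_finite_iff {m : ℕ} (G : SimpleGraph (Fin (m + 1))) :
    Finite (Crit G) ↔ G.Connected := by
  classical
  rw [det_ne10022, ne_eq, ← Matrix.exists_mulVec_eq_zero_iff]
  constructor
  · intro h
    by_contra hcon
    apply h
    have hpre : ¬ ∀ u, G.Reachable u (Fin.last m) := by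
      intro hall
      apply hcon
      haveI : Nonempty (Fin (m + 1)) := ⟨0⟩
      exact ⟨fun u v => (hall u).trans (hall v).symm⟩
    push Not at hpre
    obtain ⟨u, hu⟩ := hpre
    let x : Fin (m + 1) → ℤ := fun w => if G.Reachable u w then 1 else 0
    have hxl : x (Fin.last m) = 0 := by simp [x, hu]
    have hadj : ∀ w w', G.Adj w w' → x w = x w' := by
      intro w w' hww
      have : G.Reachable u w ↔ G.Reachable u w' :=
        ⟨fun h => h.trans hww.reachable, fun h => h.trans hww.symm.reachable⟩
      simp only [x, this]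
    have hLx : ∀ w, ((G.lapMatrix ℤ).mulVec x) w = 0 := by
      intro w
      rw [SimpleGraph.lapMatrix_mulVec_apply]
      have : ∑ u ∈ G.neighborFinset w, x u = ∑ u ∈ G.neighborFinset w, x w := by
        apply Finset.sum_congr rfl
        intro w' hw'
        rw [SimpleGraph.mem_neighborFinset] at hw'
        exact (hadj w w' hw').symm
      rw [this, Finset.sum_const, SimpleGraph.card_neighborFinset_eq_degree, nsmul_eq_mul, sub_self]
    have hext : ext0 (fun i : Fin m => x (Fin.castSucc i)) = x := by
      funext w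
      refine Fin.lastCases ?_ (fun i => ?_) w
      · rw [hxl]; simp [ext0]
      · simp [ext0]
    refine ⟨fun i => x (Fin.castSucc i), ?_, ?_⟩
    · intro h0
      have hul : u ≠ Fin.last m := by
        rintro rfl
        exact hu (SimpleGraph.Reachable.refl _)
      obtain ⟨u', rfl⟩ := Fin.exists_castSucc_eq.2 hul
      have := congrFun h0 u'
      simp [x] at this
    · funext i
      rw [redLap_mulVec10022, hext, hLx]
      rfl
  · rintro hcon ⟨v, hv, hLv⟩
    apply hv
    let x : Fin (m + 1) → ℤ := ext0 v
    have hxl : x (Fin.last m) = 0 := by simp [x, ext0]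
    have hxc : ∀ i, x (Fin.castSucc i) = v i := fun i => by simp [x, ext0]
    have hLx : ∀ i : Fin m, ((G.lapMatrix ℤ).mulVec x) (Fin.castSucc i) = 0 := by
      intro i
      rw [← redLap_mulVec10022, hLv]
      rfl
    have hq : Matrix.toLinearMap₂' ℝ (G.lapMatrix ℝ) (fun j => (x j : ℝ)) (fun j => (x j : ℝ)) = 0 := by
      rw [Matrix.toLinearMap₂'_apply']
      simp only [dotProduct]
      rw [Fin.sum_univ_castSucc]
      rw [hxl]
      simp only [lap_cast10022, hLx]
      simp
    rw [SimpleGraph.lapMatrix_toLinearMap₂'_apply'_eq_zero_iff_forall_reachable] at hq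
    funext i
    have := hq _ _ (hcon.preconnected (Fin.castSucc i) (Fin.last m))
    rw [hxc, hxl] at this
    exact_mod_cast this

end Sand

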