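import Pool.Agent.Helper793.Sand.Defs

set_option maxHeartbeats 4000000

open Finset Filter Topology

namespace Sand


theorem sur_cok_aux (N m : ℕ) [NeZero N] (M : Matrix (Fin m) (Fin m) (ZMod N)) (H : Type)
    [AddCommGroup H] [Module (ZMod N) H] :
    sur (Cok M) H = Nat.card {f : Fin m → H //
      AddSubgroup.closure (Set.range f) = ⊤ ∧ ∀ j, ∑ i, (M i j).val • f i = 0} := by
  classical
  have hval : ∀ (a : ZMod N) (x : H), a.val • x = a • x := by
    intro a x
    conv_rhs => rw [← ZMod.natCast_zmod_val a]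
    rw [Nat.cast_smul_eq_nsmul]
  let e : Fin m → (Fin m → ZMod N) := fun i j => if i = j then 1 else 0
  let g : (Fin m → H) → ((Fin m → ZMod N) →ₗ[ZMod N] H) := fun t =>
    Fintype.linearCombination (ZMod N) t
  have hg : ∀ (t : Fin m → H) (x : Fin m → ZMod N), g t x = ∑ i, x i • t i := fun t x => Fintype.linearCombination_apply _ _ _
  have hge : ∀ t i, g t (e i) = t i := by
    intro t i
    rw [hg]
    show ∑ j, (if i = j then (1 : ZMod N) else 0) • t j = t i
    simp
  have hMe : ∀ t j, g t (M.mulVecLin (e j)) = ∑ i, (M i j).val • t i := by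
    intro t j
    rw [hg]
    refine Finset.sum_congr rfl fun i _ => ?_
    rw [hval]
    congr 1
    show ∑ l, M i l * (if j = l then (1 : ZMod N) else 0) = M i j
    simp
  have hker : ∀ t : Fin m → H, (∀ j, ∑ i, (M i j).val • t i = 0) →
      LinearMap.range M.mulVecLin ≤ LinearMap.ker (g t) := by
    intro t ht
    rintro _ ⟨x, rfl⟩
    rw [LinearMap.mem_ker]
    have h1 := LinearMap.pi_apply_eq_sum_univ ((g t) ∘ₗ M.mulVecLin) x
    rw [LinearMap.comp_apply] at h1
    rw [h1]
    refine Finset.sum_eq_zero fun i _ => ?_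
    have h2 : ((g t) ∘ₗ M.mulVecLin) (fun j => if i = j then 1 else 0) = 0 := by
      rw [LinearMap.comp_apply]
      exact (hMe t i).trans (ht i)
    rw [h2, smul_zero]
  have hsurj : ∀ t : Fin m → H, Function.Surjective (g t) ↔
      AddSubgroup.closure (Set.range t) = ⊤ := by
    intro t
    constructor
    · intro h
      rw [eq_top_iff]
      intro y _
      obtain ⟨x, rfl⟩ := h y
      rw [hg]
      refine AddSubgroup.sum_mem _ fun i _ => ?_
      rw [← hval]
      exact AddSubgroup.nsmul_mem _ (AddSubgroup.subset_closure (Set.mem_range_self i)) _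
    · intro h y
      have h1 : AddSubgroup.closure (Set.range t) ≤ (g t).toAddMonoidHom.range := by
        rw [AddSubgroup.closure_le]
        rintro _ ⟨i, rfl⟩
        exact ⟨e i, hge t i⟩
      rw [h] at h1
      obtain ⟨x, hx⟩ := h1 (AddSubgroup.mem_top y)
      exact ⟨x, hx⟩
  have hf : ∀ (f : Cok M →+ H) (x : Fin m → ZMod N),
      f (Submodule.Quotient.mk x) = g (fun i => f (Submodule.Quotient.mk (e i))) x := by
    intro f x
    have h1 := LinearMap.pi_apply_eq_sum_univ
      ((AddMonoidHom.toZModLinearMap N f) ∘ₗ (LinearMap.range M.mulVecLin).mkQ) x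
    rw [hg]
    exact h1
  unfold sur
  refine Nat.card_congr
    { toFun := fun f => ⟨fun i => f.1 (Submodule.Quotient.mk (e i)), ?_, ?_⟩
      invFun := fun t => ⟨((LinearMap.range M.mulVecLin).liftQ (g t.1) (hker t.1 t.2.2)).toAddMonoidHom, ?_⟩
      left_inv := ?_
      right_inv := ?_ }
  · rw [← hsurj]
    intro y
    obtain ⟨z, hz⟩ := f.2 y
    obtain ⟨x, rfl⟩ := Submodule.Quotient.mk_surjective _ z
    exact ⟨x, by rw [← hf, hz]⟩
  · intro j
    rw [← hMe (fun i => f.1 (Submodule.Quotient.mk (e i))) j, ← hf]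
    have : (Submodule.Quotient.mk (M.mulVecLin (e j)) : Cok M) = 0 := by
      rw [Submodule.Quotient.mk_eq_zero]
      exact ⟨e j, rfl⟩
    rw [this, map_zero]
  · intro y
    obtain ⟨x, hx⟩ := (hsurj t.1).mpr t.2.1 y
    exact ⟨Submodule.Quotient.mk x, hx⟩
  · intro f
    apply Subtype.ext
    apply AddMonoidHom.ext
    intro z
    obtain ⟨x, rfl⟩ := Submodule.Quotient.mk_surjective _ z
    exact (hf f.1 x).symm
  · intro t
    apply Subtype.ext
    funext i
    exact hge t.1 i

theorem sur_cok (N m : ℕ) [NeZero N] (M : Matrix (Fin m) (Fin m) (ZMod N)) (H : Type)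
    [AddCommGroup H] [Finite H] (hH : ∀ x : H, N • x = 0) :
    sur (Cok M) H = Nat.card {f : Fin m → H //
      AddSubgroup.closure (Set.range f) = ⊤ ∧ ∀ j, ∑ i, (M i j).val • f i = 0} := by
  letI : Module (ZMod N) H := AddCommGroup.zmodModule hH
  exact sur_cok_aux N m M H

end Sand
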