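import Pool.Agent.Helper793.Sand.Defs

set_option maxHeartbeats 4000000

open Finset Filter Topology

namespace Sand


theorem zero_of_coprime_10021 {A : Type} [AddCommGroup A] {a b : ℤ} (h : IsCoprime a b) {x : A}
    (h1 : a • x = 0) (h2 : b • x = 0) : x = 0 := by
  obtain ⟨u, v, huv⟩ := h
  calc x = (1 : ℤ) • x := (one_smul _ _).symm
    _ = (u * a + v * b) • x := by rw [huv]
    _ = 0 := by rw [add_smul, mul_smul, mul_smul, h1, h2, smul_zero, smul_zero, add_zero]

/-- the restriction of `ψ` to the primary component is bijective -/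
theorem theta_10021 (p : ℕ) [hp : Fact p.Prime] (e : ℕ) (he : 1 ≤ e) {A B : Type} [AddCommGroup A]
    [AddCommGroup B] [Finite A] (ψ : A →+ B) (hsurj : Function.Surjective ψ)
    (hker : ∀ a, ψ a = 0 → ∃ b, a = p ^ e • b) (hB : ∀ b : B, p ^ e • b = 0)
    (hk : ∀ x ∈ AddCommGroup.primaryComponent A p, p ^ (e - 1) • x = 0) :
    Nonempty (AddCommGroup.primaryComponent A p ≃+ B) := by
  have hcard : Nat.card A ≠ 0 := Nat.card_pos.ne'
  obtain ⟨k, n', hn', hkn⟩ := Nat.exists_eq_pow_mul_and_not_dvd hcard p hp.out.ne_one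
  have hkill : ∀ y : A, p ^ k • (n' • y) = 0 := by
    intro y
    rw [← mul_smul, ← hkn]
    exact card_nsmul_eq_zero'
  have hmem : ∀ y : A, n' • y ∈ AddCommGroup.primaryComponent A p := by
    intro y
    rw [AddCommGroup.mem_primaryComponent]
    exact ⟨k, hkill y⟩
  have hcop : ∀ i : ℕ, IsCoprime (n' : ℤ) ((p ^ i : ℕ) : ℤ) := by
    intro i
    rw [Nat.isCoprime_iff_coprime]
    exact (Nat.Coprime.pow_left i ((Nat.Prime.coprime_iff_not_dvd hp.out).2 hn')).symm
  refine ⟨AddEquiv.ofBijective (ψ.comp (AddCommGroup.primaryComponent A p).subtype) ⟨?_, ?_⟩⟩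
  · rw [injective_iff_map_eq_zero]
    rintro ⟨x, hx⟩ h0
    have h0' : ψ x = 0 := h0
    obtain ⟨y, hy⟩ := hker x h0'
    have h1 : n' • x = 0 := by
      have h2 := hk _ (hmem y)
      calc n' • x = p ^ e • (n' • y) := by rw [hy, smul_comm]
        _ = (p * p ^ (e - 1)) • (n' • y) := by
          rw [← pow_succ']
          congr 2
          omega
        _ = 0 := by rw [mul_smul, h2, smul_zero]
    obtain ⟨i, hi⟩ := AddCommGroup.mem_primaryComponent.1 hx
    have h3 : x = 0 := zero_of_coprime_10021 (hcop i) (by rw [natCast_zsmul]; exact h1)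
      (by rw [natCast_zsmul]; exact hi)
    exact Subtype.ext h3
  · intro b
    obtain ⟨y, rfl⟩ := hsurj b
    obtain ⟨u, v, huv⟩ := hcop e
    refine ⟨⟨u • (n' • y), AddSubgroup.zsmul_mem _ (hmem y) u⟩, ?_⟩
    show ψ (u • (n' • y)) = ψ y
    have h1 : y = u • (n' • y) + v • (p ^ e • y) := by
      calc y = (1 : ℤ) • y := (one_smul _ _).symm
        _ = (u * (n' : ℤ) + v * ((p ^ e : ℕ) : ℤ)) • y := by rw [huv]
        _ = u • (n' • y) + v • (p ^ e • y) := by
          rw [add_smul, mul_smul, mul_smul, natCast_zsmul, natCast_zsmul]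
    have h2 : ψ (v • (p ^ e • y)) = 0 := by
      rw [map_zsmul, map_nsmul, hB, smul_zero]
    have h3 : ψ y = ψ (u • (n' • y)) + ψ (v • (p ^ e • y)) := by
      rw [← map_add, ← h1]
    rw [h3, h2, add_zero]

theorem iff_10021 (p : ℕ) [hp : Fact p.Prime] (e : ℕ) (he : 1 ≤ e) {A B : Type} [AddCommGroup A]
    [Module.Finite ℤ A] [AddCommGroup B] (ψ : A →+ B) (hsurj : Function.Surjective ψ)
    (hker : ∀ a, ψ a = 0 → ∃ b, a = p ^ e • b) (hB : ∀ b : B, p ^ e • b = 0)
    (H : Type) [AddCommGroup H] (hH : ∀ x : H, p ^ (e - 1) • x = 0) :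
    (Finite A ∧ Nonempty (AddCommGroup.primaryComponent A p ≃+ H)) ↔ Nonempty (B ≃+ H) := by
  constructor
  · rintro ⟨hfin, ⟨f⟩⟩
    obtain ⟨g⟩ := theta_10021 p e he ψ hsurj hker hB (by
      intro x hx
      have h1 : f (p ^ (e - 1) • ⟨x, hx⟩) = 0 := by rw [map_nsmul, hH]
      have h2 := (map_eq_zero_iff f f.injective).1 h1
      exact congrArg Subtype.val h2)
    exact ⟨g.symm.trans f⟩
  · rintro ⟨f⟩
    have hBk : ∀ b : B, p ^ (e - 1) • b = 0 := by
      intro b
      apply (map_eq_zero_iff f f.injective).1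
      rw [map_nsmul, hH]
    have hdiv : ∀ a : A, ∃ b, p ^ (e - 1) • a = p ^ e • b := by
      intro a
      apply hker
      rw [map_nsmul, hBk]
    obtain ⟨N, hN⟩ : ∃ N : Submodule ℤ A,
      N = LinearMap.range (LinearMap.lsmul ℤ A ((p ^ (e - 1) : ℕ) : ℤ)) := ⟨_, rfl⟩
    have hNmem : ∀ a : A, p ^ (e - 1) • a ∈ N := by
      intro a
      rw [hN]
      refine ⟨a, ?_⟩
      rw [LinearMap.lsmul_apply, natCast_zsmul]
    have hNfg : N.FG := IsNoetherian.noetherian N
    have hNle : N ≤ Ideal.span {(p : ℤ)} • N := by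
      intro x hx
      rw [hN] at hx
      obtain ⟨a, rfl⟩ := hx
      rw [LinearMap.lsmul_apply, natCast_zsmul]
      obtain ⟨b, hb⟩ := hdiv a
      have h1 : p ^ e • b = (p : ℤ) • (p ^ (e - 1) • b) := by
        rw [natCast_zsmul, ← mul_smul, ← pow_succ']
        congr 2
        omega
      rw [hb, h1]
      exact Submodule.smul_mem_smul (Ideal.mem_span_singleton_self _) (hNmem b)
    obtain ⟨r, hr1, hr2⟩ :=
      Submodule.exists_sub_one_mem_and_smul_eq_zero_of_fg_of_le_smul _ N hNfg hNle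
    rw [Ideal.mem_span_singleton] at hr1
    obtain ⟨s, hs⟩ := hr1
    have hrk : ∀ a : A, r • (p ^ (e - 1) • a) = 0 := fun a => hr2 _ (hNmem a)
    have hcopr : IsCoprime r (p : ℤ) := ⟨1, -s, by linear_combination hs⟩
    have hr0 : r ≠ 0 := by
      rintro rfl
      rw [zero_sub] at hs
      have h1 : (p : ℤ) ∣ 1 := ⟨-s, by linear_combination -hs⟩
      have h2 := Int.natCast_dvd_natCast.1 (by exact_mod_cast h1 : ((p : ℕ) : ℤ) ∣ ((1 : ℕ) : ℤ))
      exact hp.out.one_lt.ne' (Nat.dvd_one.1 h2)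
    have hfin : Finite A := by
      apply Module.finite_of_fg_torsion
      intro a
      refine ⟨⟨r * ((p ^ (e - 1) : ℕ) : ℤ), mem_nonZeroDivisors_of_ne_zero ?_⟩, ?_⟩
      · apply mul_ne_zero hr0
        have := hp.out.pos
        positivity
      · show (r * ((p ^ (e - 1) : ℕ) : ℤ)) • a = 0
        rw [mul_smul, natCast_zsmul, hrk]
    refine ⟨hfin, ?_⟩
    obtain ⟨g⟩ := theta_10021 p e he ψ hsurj hker hB (by
      intro x hx
      obtain ⟨i, hi⟩ := AddCommGroup.mem_primaryComponent.1 hx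
      refine zero_of_coprime_10021 (a := r) (b := ((p ^ i : ℕ) : ℤ)) ?_ (hrk x) ?_
      · push_cast
        exact hcopr.pow_right
      · rw [natCast_zsmul, smul_comm, hi, smul_zero])
    exact ⟨g.trans f⟩

theorem cok_event_iff (p : ℕ) [Fact p.Prime] (e m : ℕ) (he : 1 ≤ e) (M : Matrix (Fin m) (Fin m) ℤ)
    (H : Type) [AddCommGroup H] [Finite H] (hH : ∀ x : H, p ^ (e - 1) • x = 0) :
    (Finite ((Fin m → ℤ) ⧸ LinearMap.range M.mulVecLin) ∧
      Nonempty (AddCommGroup.primaryComponent ((Fin m → ℤ) ⧸ LinearMap.range M.mulVecLin) p ≃+ H)) ↔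
    Nonempty (Cok (M.map (Int.cast : ℤ → ZMod (p ^ e))) ≃+ H) := by
  have hcast : ∀ x : Fin m → ℤ, (M.map (Int.cast : ℤ → ZMod (p ^ e))).mulVec
      (fun i => ((x i : ℤ) : ZMod (p ^ e))) = fun i => ((M.mulVec x i : ℤ) : ZMod (p ^ e)) := by
    intro x
    funext i
    exact (RingHom.map_mulVec (Int.castRingHom (ZMod (p ^ e))) M x i).symm
  obtain ⟨c, hc⟩ : ∃ c : (Fin m → ℤ) →+ (Fin m → ZMod (p ^ e)),
      ∀ x i, c x i = ((x i : ℤ) : ZMod (p ^ e)) :=
    ⟨{ toFun := fun x i => ((x i : ℤ) : ZMod (p ^ e))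
       map_zero' := by funext i; simp
       map_add' := by intro x y; funext i; simp }, fun x i => rfl⟩
  have hcM : ∀ x, (M.map (Int.cast : ℤ → ZMod (p ^ e))).mulVec (c x) = c (M.mulVec x) := by
    intro x
    have h1 := hcast x
    have h2 : c x = fun i => ((x i : ℤ) : ZMod (p ^ e)) := funext (hc x)
    have h3 : c (M.mulVec x) = fun i => ((M.mulVec x i : ℤ) : ZMod (p ^ e)) := funext (hc _)
    rw [h2, h3, h1]
  have hcsurj : Function.Surjective c := by
    intro y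
    choose x hx using fun i => ZMod.intCast_surjective (y i)
    exact ⟨x, funext fun i => by rw [hc, hx]⟩
  obtain ⟨φ, hφ⟩ : ∃ φ : (Fin m → ℤ) →ₗ[ℤ] Cok (M.map (Int.cast : ℤ → ZMod (p ^ e))),
      ∀ x, φ x = Submodule.Quotient.mk (c x) :=
    ⟨(((Submodule.mkQ (LinearMap.range
      (M.map (Int.cast : ℤ → ZMod (p ^ e))).mulVecLin)).toAddMonoidHom).comp c).toIntLinearMap,
      fun x => rfl⟩
  have hle : LinearMap.range M.mulVecLin ≤ LinearMap.ker φ := by
    rintro _ ⟨x, rfl⟩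
    rw [LinearMap.mem_ker, hφ, Submodule.Quotient.mk_eq_zero]
    exact ⟨c x, hcM x⟩
  obtain ⟨ψ, hψ⟩ : ∃ ψ : ((Fin m → ℤ) ⧸ LinearMap.range M.mulVecLin) →+
      Cok (M.map (Int.cast : ℤ → ZMod (p ^ e))), ∀ x, ψ (Submodule.Quotient.mk x) = φ x :=
    ⟨((LinearMap.range M.mulVecLin).liftQ φ hle).toAddMonoidHom, fun x => rfl⟩
  apply iff_10021 p e he ψ ?_ ?_ ?_ H hH
  · intro b
    obtain ⟨y, rfl⟩ := Submodule.Quotient.mk_surjective _ b
    obtain ⟨x, rfl⟩ := hcsurj y
    exact ⟨Submodule.Quotient.mk x, by rw [hψ, hφ]⟩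
  · intro a ha
    obtain ⟨x, rfl⟩ := Submodule.Quotient.mk_surjective _ a
    rw [hψ, hφ, Submodule.Quotient.mk_eq_zero] at ha
    obtain ⟨w, hw⟩ := ha
    obtain ⟨w', rfl⟩ := hcsurj w
    have h1 : c (M.mulVec w') = c x := by
      rw [← hcM]; exact hw
    have h2 : ∀ i, ∃ z : ℤ, x i - M.mulVec w' i = ((p ^ e : ℕ) : ℤ) * z := by
      intro i
      have h3 := congrFun h1 i
      rw [hc, hc] at h3
      have h4 := (ZMod.intCast_eq_intCast_iff_dvd_sub _ _ _).1 h3
      exact h4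
    choose z hz using h2
    refine ⟨Submodule.Quotient.mk z, ?_⟩
    rw [← Submodule.Quotient.mk_smul, Submodule.Quotient.eq]
    refine ⟨w', ?_⟩
    funext i
    rw [Matrix.mulVecLin_apply, Pi.sub_apply, Pi.smul_apply, nsmul_eq_mul, ← hz]
    ring
  · intro b
    have h1 : ((p ^ e : ℕ) : ZMod (p ^ e)) • b = p ^ e • b := Nat.cast_smul_eq_nsmul _ _ _
    rw [← h1, ZMod.natCast_self, zero_smul]

end Sand
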