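import Pool.Agent.Helper793.Sand.Defs

set_option maxHeartbeats 4000000

open Finset Filter Topology

namespace Sand


theorem gen_add_nongen (m : ℕ) (H : Type) [AddCommGroup H] [Finite H] :
    gen m H + Nat.card {f : Fin m → H // ¬ AddSubgroup.closure (Set.range f) = ⊤} =
      Nat.card H ^ m := by
  classical
  unfold gen
  rw [← Nat.card_sum, Nat.card_congr (Equiv.sumCompl _), Nat.card_fun, Nat.card_fin]

theorem nongen_le (m : ℕ) (H : Type) [AddCommGroup H] [Finite H] :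
    (Nat.card {f : Fin m → H // ¬ AddSubgroup.closure (Set.range f) = ⊤} : ℝ) ≤
      (Nat.card {K : AddSubgroup H // K ≠ ⊤} : ℝ) * ((Nat.card H : ℝ) / 2) ^ m := by
  classical
  have : Fintype {K : AddSubgroup H // K ≠ ⊤} := Fintype.ofFinite _
  have h1 : Nat.card {f : Fin m → H // ¬ AddSubgroup.closure (Set.range f) = ⊤} ≤
      Nat.card (Σ K : {K : AddSubgroup H // K ≠ ⊤}, (Fin m → K.1)) := by
    let φ : {f : Fin m → H // ¬ AddSubgroup.closure (Set.range f) = ⊤} →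
        (Σ K : {K : AddSubgroup H // K ≠ ⊤}, (Fin m → K.1)) := fun f =>
      ⟨⟨AddSubgroup.closure (Set.range f.1), f.2⟩,
        fun i => ⟨f.1 i, AddSubgroup.subset_closure (Set.mem_range_self i)⟩⟩
    apply Nat.card_le_card_of_injective φ
    intro f g hfg
    have h2 := congrArg (fun x : (Σ K : {K : AddSubgroup H // K ≠ ⊤}, (Fin m → K.1)) =>
      (fun i => ((x.2 i : x.1.1) : H))) hfg
    exact Subtype.ext h2
  have h2 : Nat.card (Σ K : {K : AddSubgroup H // K ≠ ⊤}, (Fin m → K.1)) =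
      ∑ K : {K : AddSubgroup H // K ≠ ⊤}, (Nat.card K.1) ^ m := by
    rw [Nat.card_sigma]
    apply Finset.sum_congr rfl
    intro K _
    rw [Nat.card_fun, Nat.card_fin]
  have h3 : ∀ K : {K : AddSubgroup H // K ≠ ⊤}, ((Nat.card K.1 : ℕ) : ℝ) ^ m ≤
      ((Nat.card H : ℝ) / 2) ^ m := by
    intro K
    apply pow_le_pow_left₀ (Nat.cast_nonneg _)
    rw [le_div_iff₀ (by norm_num)]
    have hi := K.1.card_mul_index
    have h0 : K.1.index ≠ 0 := AddSubgroup.index_ne_zero_of_finite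
    have h1' : K.1.index ≠ 1 := fun h => K.2 (AddSubgroup.index_eq_one.1 h)
    have h2' : 2 ≤ K.1.index := by omega
    have : Nat.card K.1 * 2 ≤ Nat.card H := by
      calc Nat.card K.1 * 2 ≤ Nat.card K.1 * K.1.index := Nat.mul_le_mul_left _ h2'
        _ = Nat.card H := hi
    exact_mod_cast this
  calc (Nat.card {f : Fin m → H // ¬ AddSubgroup.closure (Set.range f) = ⊤} : ℝ)
      ≤ ((∑ K : {K : AddSubgroup H // K ≠ ⊤}, (Nat.card K.1) ^ m : ℕ) : ℝ) := by
        rw [← h2]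
        exact_mod_cast h1
    _ = ∑ K : {K : AddSubgroup H // K ≠ ⊤}, ((Nat.card K.1 : ℕ) : ℝ) ^ m := by
        push_cast
        rfl
    _ ≤ ∑ _K : {K : AddSubgroup H // K ≠ ⊤}, ((Nat.card H : ℝ) / 2) ^ m :=
        Finset.sum_le_sum fun K _ => h3 K
    _ = (Nat.card {K : AddSubgroup H // K ≠ ⊤} : ℝ) * ((Nat.card H : ℝ) / 2) ^ m := by
        rw [Finset.sum_const, nsmul_eq_mul, Finset.card_univ,
          ← Nat.card_eq_fintype_card (α := {K : AddSubgroup H // K ≠ ⊤})]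

theorem gen_tendsto (H : Type) [AddCommGroup H] [Finite H] :
    Tendsto (fun m : ℕ => (gen m H : ℝ) / (Nat.card H : ℝ) ^ m) atTop (𝓝 1) := by
  have hpos : (0 : ℝ) < Nat.card H := by
    exact_mod_cast Nat.card_pos
  set Sn : ℝ := (Nat.card {K : AddSubgroup H // K ≠ ⊤} : ℝ) with hSn
  have hlow : Tendsto (fun m : ℕ => 1 - Sn * (1 / 2 : ℝ) ^ m) atTop (𝓝 1) := by
    have h1 : Tendsto (fun m : ℕ => (1 / 2 : ℝ) ^ m) atTop (𝓝 0) :=
      tendsto_pow_atTop_nhds_zero_of_lt_one (by norm_num) (by norm_num)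
    have h2 := (h1.const_mul Sn).const_sub 1
    simpa using h2
  refine tendsto_of_tendsto_of_tendsto_of_le_of_le hlow tendsto_const_nhds ?_ ?_
  · intro m
    have h1 := nongen_le m H
    have h2 : (gen m H : ℝ) +
        (Nat.card {f : Fin m → H // ¬ AddSubgroup.closure (Set.range f) = ⊤} : ℝ) =
        (Nat.card H : ℝ) ^ m := by exact_mod_cast gen_add_nongen m H
    change 1 - Sn * (1 / 2 : ℝ) ^ m ≤ (gen m H : ℝ) / (Nat.card H : ℝ) ^ m
    rw [le_div_iff₀ (pow_pos hpos m)]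
    have h3 : ((Nat.card H : ℝ) / 2) ^ m = (1 / 2 : ℝ) ^ m * (Nat.card H : ℝ) ^ m := by
      rw [← mul_pow]
      congr 1
      ring
    rw [h3] at h1
    have h4 : (1 - Sn * (1 / 2 : ℝ) ^ m) * (Nat.card H : ℝ) ^ m =
        (Nat.card H : ℝ) ^ m - Sn * ((1 / 2 : ℝ) ^ m * (Nat.card H : ℝ) ^ m) := by ring
    rw [h4]
    linarith
  · intro m
    change (gen m H : ℝ) / (Nat.card H : ℝ) ^ m ≤ 1
    rw [div_le_one (pow_pos hpos m)]
    have h2 : (gen m H : ℝ) +
        (Nat.card {f : Fin m → H // ¬ AddSubgroup.closure (Set.range f) = ⊤} : ℝ) =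
        (Nat.card H : ℝ) ^ m := by exact_mod_cast gen_add_nongen m H
    have h3 : (0 : ℝ) ≤
        (Nat.card {f : Fin m → H // ¬ AddSubgroup.closure (Set.range f) = ⊤} : ℝ) :=
      Nat.cast_nonneg _
    linarith

end Sand
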