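import Pool.Agent.Helper793.Sand.Defs

set_option maxHeartbeats 4000000

open Finset Filter Topology

namespace Sand

open Classical in
theorem sum_graph_prod {n : ℕ} {R : Type} [CommSemiring R] (f g : Prs n → R) :
    (∑ G : SimpleGraph (Fin n), ∏ x : Prs n, if G.Adj x.1.1 x.1.2 then f x else g x) =
      ∏ x, (f x + g x) := by
  classical
  have e1 : ∏ x, (f x + g x) = ∑ b : Prs n → Bool, ∏ x, if b x then f x else g x := by
    calc ∏ x, (f x + g x) = ∏ x, ∑ b : Bool, (if b then f x else g x) := by
          simp
      _ = ∑ b ∈ Fintype.piFinset (fun _ : Prs n => (Finset.univ : Finset Bool)),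
          ∏ x, if b x then f x else g x :=
          Finset.prod_univ_sum (fun _ : Prs n => (Finset.univ : Finset Bool))
            (fun x b => if b then f x else g x)
      _ = _ := by rw [Fintype.piFinset_univ]
  rw [e1]
  apply Fintype.sum_bijective (fun (G : SimpleGraph (Fin n)) (x : Prs n) =>
    decide (G.Adj x.1.1 x.1.2))
  · constructor
    · intro G H hGH
      ext u v
      have h1 : ∀ u v : Fin n, u < v → (G.Adj u v ↔ H.Adj u v) := by
        intro u v huv
        have := congrFun hGH ⟨(u, v), huv⟩
        simpa using this
      rcases lt_trichotomy u v with h | h | h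
      · exact h1 u v h
      · subst h
        simp
      · rw [G.adj_comm, H.adj_comm]
        exact h1 v u h
    · intro b
      refine ⟨SimpleGraph.fromRel (fun u v => ∃ h : u < v, b ⟨(u, v), h⟩ = true), ?_⟩
      funext x
      obtain ⟨⟨u, v⟩, huv⟩ := x
      simp only [SimpleGraph.fromRel_adj]
      have huv' : u < v := huv
      by_cases hb : b ⟨(u, v), huv⟩ = true
      · rw [hb]
        simp only [decide_eq_true_eq]
        exact ⟨huv'.ne, Or.inl ⟨huv', hb⟩⟩
      · have hb' : b ⟨(u, v), huv⟩ = false := by simpa using hb
        rw [hb']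
        simp only [decide_eq_false_iff_not]
        rintro ⟨_, h | h⟩
        · obtain ⟨h1, h2⟩ := h
          exact hb h2
        · obtain ⟨h1, h2⟩ := h
          exact absurd (huv'.trans h1) (lt_irrefl _)
  · intro G
    refine Finset.prod_congr rfl fun x _ => ?_
    by_cases h : G.Adj x.1.1 x.1.2 <;> simp [h]


end Sand
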