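import Pool.Agent.Helper793.Sand.Defs

set_option maxHeartbeats 4000000

open Finset Filter Topology

namespace Sand


section J2

noncomputable def cls (p : ℕ) {r i : ℕ} (lam : Fin r → ℕ) (δ : Fin r → Fin i → ZMod p) :
    ((Fin r → ℤ) × (Fin i → ZMod p)) →+ Ex p lam δ := QuotientAddGroup.mk' _

theorem cls_surj (p : ℕ) {r i : ℕ} (lam : Fin r → ℕ) (δ : Fin r → Fin i → ZMod p) :
    Function.Surjective (cls p lam δ) := QuotientAddGroup.mk'_surjective _

theorem cls_zero_iff (p : ℕ) {r i : ℕ} (lam : Fin r → ℕ) (δ : Fin r → Fin i → ZMod p) (z) :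
    cls p lam δ z = 0 ↔ ∃ k, relHom p lam δ k = z := by
  unfold cls
  rw [QuotientAddGroup.mk'_apply, QuotientAddGroup.eq_zero_iff]
  exact AddMonoidHom.mem_range

noncomputable def prH (p : ℕ) {r : ℕ} (i : ℕ) (lam : Fin r → ℕ) :
    (Fin r → ℤ) × (Fin i → ZMod p) →+ Gp p lam where
  toFun z := fun a => (z.1 a : ZMod (p ^ lam a))
  map_zero' := by ext; simp
  map_add' := by intro x y; ext; simp

noncomputable def pr (p : ℕ) {r i : ℕ} (lam : Fin r → ℕ) (δ : Fin r → Fin i → ZMod p) :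
    Ex p lam δ →+ Gp p lam := QuotientAddGroup.lift _ (prH p i lam) (by
  rintro z ⟨k, rfl⟩
  rw [AddMonoidHom.mem_ker]
  ext a
  show (((k a * (p : ℤ) ^ lam a : ℤ)) : ZMod (p ^ lam a)) = 0
  rw [ZMod.intCast_zmod_eq_zero_iff_dvd]
  push_cast
  exact dvd_mul_left _ _)

theorem pr_cls (p : ℕ) {r i : ℕ} (lam : Fin r → ℕ) (δ : Fin r → Fin i → ZMod p)
    (k : Fin r → ℤ) (w : Fin i → ZMod p) :
    pr p lam δ (cls p lam δ (k, w)) = fun a => (k a : ZMod (p ^ lam a)) := rfl

theorem cls_inj (p : ℕ) [Fact p.Prime] {r i : ℕ} (lam : Fin r → ℕ) (δ : Fin r → Fin i → ZMod p)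
    (k : Fin r → ℤ) (w w' : Fin i → ZMod p) (h : cls p lam δ (k, w) = cls p lam δ (k, w')) :
    w = w' := by
  have h1 : cls p lam δ ((k, w) - (k, w')) = 0 := by rw [map_sub, h, sub_self]
  rw [cls_zero_iff] at h1
  obtain ⟨l, hl⟩ := h1
  have h2 : (fun a => l a * (p : ℤ) ^ lam a) = k - k := congrArg Prod.fst hl
  have h3 : (- ∑ a, l a • δ a) = w - w' := congrArg Prod.snd hl
  have h4 : l = 0 := by
    funext a
    have := congrFun h2 a
    simp only [sub_self, Pi.zero_apply, mul_eq_zero] at this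
    rcases this with h | h
    · exact h
    · exfalso
      have : (p : ℤ) ≠ 0 := by
        have := (Fact.out : p.Prime).ne_zero
        exact_mod_cast this
      exact pow_ne_zero _ this h
  rw [h4] at h3
  simp only [Pi.zero_apply, zero_smul, Finset.sum_const_zero, neg_zero] at h3
  exact sub_eq_zero.mp h3.symm

theorem pr_ker (p : ℕ) {r i : ℕ} (lam : Fin r → ℕ) (δ : Fin r → Fin i → ZMod p)
    (z : Ex p lam δ) (h : pr p lam δ z = 0) : ∃ w, z = cls p lam δ (0, w) := by
  obtain ⟨⟨k, w⟩, rfl⟩ := cls_surj p lam δ z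
  rw [pr_cls] at h
  have h1 : ∀ a, ∃ l : ℤ, k a = l * (p : ℤ) ^ lam a := by
    intro a
    have h2 : (k a : ZMod (p ^ lam a)) = 0 := congrFun h a
    rw [ZMod.intCast_zmod_eq_zero_iff_dvd] at h2
    push_cast at h2
    obtain ⟨l, hl⟩ := h2
    exact ⟨l, by rw [hl, mul_comm]⟩
  choose l hl using h1
  refine ⟨w + ∑ a, l a • δ a, ?_⟩
  have h3 : cls p lam δ ((k, w) - (0, w + ∑ a, l a • δ a)) = 0 := by
    rw [cls_zero_iff]
    refine ⟨l, ?_⟩
    apply Prod.ext
    · funext a
      show l a * (p : ℤ) ^ lam a = k a - 0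
      rw [hl, sub_zero]
    · show (- ∑ a, l a • δ a) = w - (w + ∑ a, l a • δ a)
      abel
  rw [map_sub, sub_eq_zero] at h3
  exact h3

theorem pr_fib (p : ℕ) {r i : ℕ} (lam : Fin r → ℕ) (δ : Fin r → Fin i → ZMod p)
    (z : Ex p lam δ) (k : Fin r → ℤ) (h : pr p lam δ z = fun a => (k a : ZMod (p ^ lam a))) :
    ∃ w, z = cls p lam δ (k, w) := by
  have h1 : pr p lam δ (z - cls p lam δ (k, 0)) = 0 := by
    rw [map_sub, h, pr_cls, sub_self]
  obtain ⟨w, hw⟩ := pr_ker p lam δ _ h1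
  refine ⟨w, ?_⟩
  rw [sub_eq_iff_eq_add, ← map_add] at hw
  rw [hw]
  congr 1
  simp

theorem pr_surj (p : ℕ) {r i : ℕ} (lam : Fin r → ℕ) (δ : Fin r → Fin i → ZMod p) :
    Function.Surjective (pr p lam δ) := by
  intro g
  have h : ∀ a, ∃ k : ℤ, (k : ZMod (p ^ lam a)) = g a := fun a => ZMod.intCast_surjective (g a)
  choose k hk using h
  refine ⟨cls p lam δ (k, 0), ?_⟩
  rw [pr_cls]
  funext a
  exact hk a

theorem fin_Ex (p : ℕ) [Fact p.Prime] {r i : ℕ} (lam : Fin r → ℕ)
    (δ : Fin r → Fin i → ZMod p) : Finite (Ex p lam δ) := by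
  have h0 : p ≠ 0 := (Fact.out : p.Prime).ne_zero
  have : ∀ a, NeZero (p ^ lam a) := fun a => ⟨pow_ne_zero _ h0⟩
  have : Finite (Gp p lam) := Pi.finite
  have h : ∀ g : Gp p lam, ∃ k : Fin r → ℤ, ∀ a, (k a : ZMod (p ^ lam a)) = g a := by
    intro g
    have h : ∀ a, ∃ k : ℤ, (k : ZMod (p ^ lam a)) = g a := fun a => ZMod.intCast_surjective (g a)
    choose k hk using h
    exact ⟨k, hk⟩
  choose k hk using h
  apply Finite.of_surjective (fun q : Gp p lam × (Fin i → ZMod p) => cls p lam δ (k q.1, q.2))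
  intro z
  obtain ⟨w, hw⟩ := pr_fib p lam δ z (k (pr p lam δ z)) (by funext a; exact (hk _ a).symm)
  exact ⟨(pr p lam δ z, w), hw.symm⟩

theorem exists_xx (p : ℕ) {r : ℕ} (lam : Fin r → ℕ) (X : Type) [AddCommGroup X]
    (π : {f : X →+ Gp p lam // Function.Surjective f}) :
    ∃ x : Fin r → X, ∀ a, π.1 (x a) = Pi.single a 1 := by
  have h : ∀ a, ∃ x, π.1 x = Pi.single a 1 := fun a => π.2 _
  choose x hx using h
  exact ⟨x, hx⟩

noncomputable def xx (p : ℕ) {r : ℕ} (lam : Fin r → ℕ) (X : Type) [AddCommGroup X]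
    (π : {f : X →+ Gp p lam // Function.Surjective f}) : Fin r → X :=
  (exists_xx p lam X π).choose

theorem xx_spec (p : ℕ) {r : ℕ} (lam : Fin r → ℕ) (X : Type) [AddCommGroup X]
    (π : {f : X →+ Gp p lam // Function.Surjective f}) (a : Fin r) :
    π.1 (xx p lam X π a) = Pi.single a 1 :=
  (exists_xx p lam X π).choose_spec a

theorem pi_sum (p : ℕ) {r : ℕ} (lam : Fin r → ℕ) (X : Type) [AddCommGroup X]
    (π : {f : X →+ Gp p lam // Function.Surjective f}) (k : Fin r → ℤ) :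
    π.1 (∑ a, k a • xx p lam X π a) = fun a => (k a : ZMod (p ^ lam a)) := by
  rw [map_sum]
  simp only [map_zsmul, xx_spec]
  funext b
  rw [Finset.sum_apply, Finset.sum_eq_single b]
  · simp
  · intro c _ hc
    simp [Pi.single_eq_of_ne' hc]
  · intro h; exact absurd (Finset.mem_univ _) h

theorem decomp (p : ℕ) {r : ℕ} (lam : Fin r → ℕ) (X : Type) [AddCommGroup X]
    (π : {f : X →+ Gp p lam // Function.Surjective f}) (x : X) :
    ∃ (k : Fin r → ℤ) (y : π.1.ker), x = ∑ a, k a • xx p lam X π a + y := by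
  have h : ∀ a, ∃ k : ℤ, (k : ZMod (p ^ lam a)) = π.1 x a := fun a => ZMod.intCast_surjective _
  choose k hk using h
  refine ⟨k, ⟨x - ∑ a, k a • xx p lam X π a, ?_⟩, by simp⟩
  rw [AddMonoidHom.mem_ker, map_sub, pi_sum, sub_eq_zero]
  funext a
  exact (hk a).symm

/-- the correspondence -/
def Rl (p : ℕ) {r : ℕ} (lam : Fin r → ℕ) (X : Type) [AddCommGroup X] (i : ℕ)
    (l : Σ δ : Fin r → Fin i → ZMod p, {f : X →+ Ex p lam δ // Function.Surjective f})
    (t : (Σ π : {f : X →+ Gp p lam // Function.Surjective f},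
        {φ : π.1.ker →+ (Fin i → ZMod p) // Function.Surjective φ}) × (Fin r → Fin i → ZMod p)) :
    Prop :=
  ∀ (k : Fin r → ℤ) (y : t.1.1.1.ker), l.2.1 (∑ a, k a • xx p lam X t.1.1 a + y) =
    cls p lam l.1 (k, t.1.2.1 y + ∑ a, k a • t.2 a)

theorem Rl_ex_right (p : ℕ) [Fact p.Prime] {r : ℕ} (lam : Fin r → ℕ)
    (X : Type) [AddCommGroup X] (i : ℕ)
    (l : Σ δ : Fin r → Fin i → ZMod p, {f : X →+ Ex p lam δ // Function.Surjective f}) :
    ∃ t, Rl p lam X i l t := by
  obtain ⟨δ, ψ, hψ⟩ := l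
  let π : {f : X →+ Gp p lam // Function.Surjective f} :=
    ⟨(pr p lam δ).comp ψ, (pr_surj p lam δ).comp hψ⟩
  have hφ : ∀ y : π.1.ker, ∃ w, ψ y = cls p lam δ (0, w) := fun y => pr_ker p lam δ _ y.2
  choose φ hφ using hφ
  have hadd : ∀ y z, φ (y + z) = φ y + φ z := by
    intro y z
    apply cls_inj p lam δ 0
    rw [← hφ, AddSubgroup.coe_add, map_add, hφ, hφ, ← map_add]
    congr 1
  have hw : ∀ a, ∃ w, ψ (xx p lam X π a) = cls p lam δ (Pi.single a 1, w) := by
    intro a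
    apply pr_fib
    have h1 : pr p lam δ (ψ (xx p lam X π a)) = Pi.single a 1 := xx_spec p lam X π a
    rw [h1]
    funext b
    by_cases hb : b = a
    · subst hb; simp
    · simp [Pi.single_eq_of_ne hb]
  choose w hw using hw
  refine ⟨(⟨π, AddMonoidHom.mk' φ hadd, ?_⟩, w), ?_⟩
  · intro v
    obtain ⟨x, hx⟩ := hψ (cls p lam δ (0, v))
    have hxk : x ∈ π.1.ker := by
      rw [AddMonoidHom.mem_ker]
      show pr p lam δ (ψ x) = 0
      rw [hx, pr_cls]
      funext a
      simp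
    refine ⟨⟨x, hxk⟩, ?_⟩
    apply cls_inj p lam δ 0
    show cls p lam δ (0, φ ⟨x, hxk⟩) = _
    rw [← hφ]
    exact hx
  · intro k y
    show ψ (∑ a, k a • xx p lam X π a + y) = cls p lam δ (k, φ y + ∑ a, k a • w a)
    rw [map_add, map_sum, hφ]
    simp only [map_zsmul, hw]
    simp only [← map_zsmul]
    rw [← map_sum, ← map_add]
    congr 1
    apply Prod.ext
    · simp only [Prod.fst_add, Prod.fst_sum, Prod.smul_fst, add_zero]
      funext b
      rw [Finset.sum_apply, Finset.sum_eq_single b]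
      · simp
      · intro c _ hc
        simp [Pi.single_eq_of_ne' hc]
      · intro h; exact absurd (Finset.mem_univ _) h
    · simp only [Prod.snd_add, Prod.snd_sum, Prod.smul_snd]
      abel

theorem Rl_uniq_right (p : ℕ) [Fact p.Prime] {r : ℕ} (lam : Fin r → ℕ)
    (X : Type) [AddCommGroup X] (i : ℕ)
    (l : Σ δ : Fin r → Fin i → ZMod p, {f : X →+ Ex p lam δ // Function.Surjective f})
    (t t') (h : Rl p lam X i l t) (h' : Rl p lam X i l t') : t = t' := by
  obtain ⟨δ, ψ, hψ⟩ := l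
  have key : ∀ t, Rl p lam X i ⟨δ, ψ, hψ⟩ t → t.1.1.1 = (pr p lam δ).comp ψ := by
    intro t h
    apply AddMonoidHom.ext
    intro x
    obtain ⟨k, y, hx⟩ := decomp p lam X t.1.1 x
    have h1 : ψ x = cls p lam δ (k, t.1.2.1 y + ∑ a, k a • t.2 a) := by
      rw [hx]; exact h k y
    rw [AddMonoidHom.comp_apply, h1, pr_cls, hx, map_add, pi_sum]
    have h2 : t.1.1.1 y = 0 := y.2
    rw [h2, add_zero]
  have h1 := key t h
  have h2 := key t' h'
  obtain ⟨⟨π, φ⟩, w⟩ := t
  obtain ⟨⟨π', φ'⟩, w'⟩ := t'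
  have h3 : π = π' := Subtype.ext (h1.trans h2.symm)
  subst h3
  have h4 : φ = φ' := by
    apply Subtype.ext
    apply AddMonoidHom.ext
    intro y
    have e1 := h 0 y
    have e2 := h' 0 y
    have e3 := cls_inj p lam δ 0 _ _ (e1.symm.trans e2)
    simpa using e3
  have h5 : w = w' := by
    funext a
    have e1 := h (Pi.single a 1) 0
    have e2 := h' (Pi.single a 1) 0
    have e3 := cls_inj p lam δ _ _ _ (e1.symm.trans e2)
    simp only [map_zero, zero_add] at e3
    have e4 : ∀ v : Fin r → Fin i → ZMod p,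
        ∑ b, (Pi.single a (1:ℤ) : Fin r → ℤ) b • v b = v a := by
      intro v
      rw [Finset.sum_eq_single a]
      · simp
      · intro c _ hc
        simp [Pi.single_eq_of_ne hc]
      · intro h; exact absurd (Finset.mem_univ _) h
    rw [e4, e4] at e3
    exact e3
  rw [h4, h5]

theorem Rl_uniq_left (p : ℕ) [Fact p.Prime] {r : ℕ} (lam : Fin r → ℕ) (hlam : ∀ a, 1 ≤ lam a)
    (X : Type) [AddCommGroup X] (i : ℕ) (l l') (t) (h : Rl p lam X i l t)
    (h' : Rl p lam X i l' t) : l = l' := by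
  obtain ⟨⟨π, φ⟩, w⟩ := t
  have hmem : ∀ a, (p ^ lam a : ℤ) • xx p lam X π a ∈ π.1.ker := by
    intro a
    rw [AddMonoidHom.mem_ker, map_zsmul, xx_spec]
    funext b
    by_cases hb : b = a
    · subst hb
      have : ((p ^ lam b : ℕ) : ZMod (p ^ lam b)) = 0 := ZMod.natCast_self _
      push_cast at this
      simp [this]
    · simp [Pi.single_eq_of_ne hb]
  have hpw : ∀ (a) (v : Fin i → ZMod p), (p ^ lam a : ℤ) • v = 0 := by
    intro a v
    obtain ⟨m, hm⟩ : ∃ m, lam a = m + 1 := ⟨lam a - 1, by have := hlam a; omega⟩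
    rw [hm]
    funext j
    simp [pow_succ]
  have key : ∀ l : Σ δ : Fin r → Fin i → ZMod p, {f : X →+ Ex p lam δ // Function.Surjective f},
      Rl p lam X i l (⟨π, φ⟩, w) → ∀ a, l.1 a = φ.1 ⟨_, hmem a⟩ := by
    intro l h a
    have e1 := h 0 ⟨_, hmem a⟩
    have e2 := h (Pi.single a (p ^ lam a : ℤ)) 0
    have e4 : ∀ {M : Type} [AddCommGroup M] (v : Fin r → M),
        ∑ b, (Pi.single a (p ^ lam a : ℤ) : Fin r → ℤ) b • v b = (p ^ lam a : ℤ) • v a := by
      intro M _ v
      rw [Finset.sum_eq_single a]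
      · simp
      · intro c _ hc
        simp [Pi.single_eq_of_ne hc]
      · intro h; exact absurd (Finset.mem_univ _) h
    simp only [e4, map_zero, zero_add, hpw, add_zero, AddSubgroup.coe_zero] at e2
    simp only [Pi.zero_apply, zero_smul, Finset.sum_const_zero, zero_add, add_zero] at e1
    have e5 : cls p lam l.1 ((Pi.single a (p ^ lam a : ℤ) : Fin r → ℤ), 0) =
        cls p lam l.1 (0, l.1 a) := by
      rw [← sub_eq_zero, ← map_sub, cls_zero_iff]
      refine ⟨Pi.single a 1, ?_⟩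
      apply Prod.ext
      · funext b
        show (Pi.single a 1 : Fin r → ℤ) b * (p : ℤ) ^ lam b = (Pi.single a (p ^ lam a : ℤ) : Fin r → ℤ) b - 0
        by_cases hb : b = a
        · subst hb; simp
        · simp [Pi.single_eq_of_ne hb]
      · show (- ∑ b, (Pi.single a 1 : Fin r → ℤ) b • l.1 b) = 0 - l.1 a
        rw [Finset.sum_eq_single a]
        · simp
        · intro c _ hc
          simp [Pi.single_eq_of_ne hc]
        · intro h; exact absurd (Finset.mem_univ _) h
    apply cls_inj p lam l.1 0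
    rw [← e5, ← e2, ← e1]
  have hδ : l.1 = l'.1 := by
    funext a
    rw [key l h a, key l' h' a]
  obtain ⟨δ, ψ, hψ⟩ := l
  obtain ⟨δ', ψ', hψ'⟩ := l'
  have hδ' : δ = δ' := hδ
  subst hδ'
  have : ψ = ψ' := by
    apply AddMonoidHom.ext
    intro x
    obtain ⟨k, y, hx⟩ := decomp p lam X π x
    rw [hx]
    exact (h k y).trans (h' k y).symm
  subst this
  rfl

theorem Rl_ex_left (p : ℕ) [Fact p.Prime] {r : ℕ} (lam : Fin r → ℕ) (hlam : ∀ a, 1 ≤ lam a)
    (X : Type) [AddCommGroup X] (i : ℕ) (t) : ∃ l, Rl p lam X i l t := by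
  obtain ⟨⟨π, φ, hφ⟩, w⟩ := t
  have hmem : ∀ a, (p ^ lam a : ℤ) • xx p lam X π a ∈ π.1.ker := by
    intro a
    rw [AddMonoidHom.mem_ker, map_zsmul, xx_spec]
    funext b
    by_cases hb : b = a
    · subst hb
      have : ((p ^ lam b : ℕ) : ZMod (p ^ lam b)) = 0 := ZMod.natCast_self _
      push_cast at this
      simp [this]
    · simp [Pi.single_eq_of_ne hb]
  have hpw : ∀ (a) (v : Fin i → ZMod p), (p ^ lam a : ℤ) • v = 0 := by
    intro a v
    obtain ⟨m, hm⟩ : ∃ m, lam a = m + 1 := ⟨lam a - 1, by have := hlam a; omega⟩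
    rw [hm]
    funext j
    simp [pow_succ]
  let δ : Fin r → Fin i → ZMod p := fun a => φ ⟨_, hmem a⟩
  let F : (Fin r → ℤ) × π.1.ker →+ X :=
    { toFun := fun z => ∑ a, z.1 a • xx p lam X π a + z.2
      map_zero' := by simp
      map_add' := by
        intro z z'
        simp only [Prod.fst_add, Prod.snd_add, Pi.add_apply, add_smul, Finset.sum_add_distrib,
          AddSubgroup.coe_add]
        abel }
  let G : (Fin r → ℤ) × π.1.ker →+ (Fin r → ℤ) × (Fin i → ZMod p) :=
    { toFun := fun z => (z.1, φ z.2 + ∑ a, z.1 a • w a)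
      map_zero' := by simp
      map_add' := by
        intro z z'
        apply Prod.ext
        · rfl
        · simp only [Prod.fst_add, Prod.snd_add, Pi.add_apply, add_smul, Finset.sum_add_distrib,
            map_add]
          abel }
  have hF : Function.Surjective F := by
    intro x
    obtain ⟨k, y, hx⟩ := decomp p lam X π x
    exact ⟨(k, y), hx.symm⟩
  have hker : F.ker ≤ ((cls p lam δ).comp G).ker := by
    rintro ⟨k, y⟩ hz
    rw [AddMonoidHom.mem_ker] at hz ⊢
    have hz' : ∑ a, k a • xx p lam X π a + (y : X) = 0 := hz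
    have h1 : π.1 (∑ a, k a • xx p lam X π a) = 0 := by
      have h2 : ∑ a, k a • xx p lam X π a = -(y : X) := eq_neg_of_add_eq_zero_left hz'
      rw [h2, map_neg, neg_eq_zero]
      exact y.2
    rw [pi_sum] at h1
    have h2 : ∀ a, ∃ l : ℤ, k a = l * (p : ℤ) ^ lam a := by
      intro a
      have h2 : (k a : ZMod (p ^ lam a)) = 0 := congrFun h1 a
      rw [ZMod.intCast_zmod_eq_zero_iff_dvd] at h2
      push_cast at h2
      obtain ⟨l, hl⟩ := h2
      exact ⟨l, by rw [hl, mul_comm]⟩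
    choose l hl using h2
    have hy : y = -∑ a, l a • (⟨_, hmem a⟩ : π.1.ker) := by
      apply Subtype.ext
      have h3 : (y : X) = -∑ a, k a • xx p lam X π a := eq_neg_of_add_eq_zero_right hz'
      rw [h3]
      push_cast
      congr 1
      apply Finset.sum_congr rfl
      intro a _
      rw [hl, mul_smul]
    show cls p lam δ (k, φ y + ∑ a, k a • w a) = 0
    rw [cls_zero_iff]
    refine ⟨l, ?_⟩
    apply Prod.ext
    · funext a
      exact (hl a).symm
    · show (- ∑ a, l a • δ a) = φ y + ∑ a, k a • w a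
      have h4 : ∑ a, k a • w a = 0 := by
        apply Finset.sum_eq_zero
        intro a _
        rw [hl, mul_smul, hpw, smul_zero]
      rw [h4, add_zero, hy, map_neg, map_sum]
      simp only [map_zsmul]
      rfl
  obtain ⟨ψ, hψ⟩ : ∃ ψ : X →+ Ex p lam δ, ∀ z, ψ (F z) = cls p lam δ (G z) := by
    refine ⟨(AddMonoidHom.liftOfSurjective F hF) ⟨(cls p lam δ).comp G, hker⟩, ?_⟩
    intro z
    exact AddMonoidHom.liftOfRightInverse_comp_apply F _ _ ⟨(cls p lam δ).comp G, hker⟩ z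
  have hψ' : ∀ (k : Fin r → ℤ) (y : π.1.ker), ψ (∑ a, k a • xx p lam X π a + y) =
      cls p lam δ (k, φ y + ∑ a, k a • w a) := fun k y => hψ (k, y)
  have hs : Function.Surjective ψ := by
    intro z
    obtain ⟨⟨k, v⟩, rfl⟩ := cls_surj p lam δ z
    obtain ⟨y, hy⟩ := hφ (v - ∑ a, k a • w a)
    refine ⟨∑ a, k a • xx p lam X π a + y, ?_⟩
    rw [hψ', hy, sub_add_cancel]
  exact ⟨⟨δ, ψ, hs⟩, hψ'⟩

end J2

theorem pairs_identity (p : ℕ) [Fact p.Prime] {r : ℕ} (lam : Fin r → ℕ) (hlam : ∀ a, 1 ≤ lam a)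
    (X : Type) [AddCommGroup X] [Finite X] (i : ℕ) :
    ∑ δ : Fin r → Fin i → ZMod p, sur X (Ex p lam δ) =
      p ^ (i * r) * Nat.card (Σ π : {f : X →+ Gp p lam // Function.Surjective f},
        {φ : π.1.ker →+ (Fin i → ZMod p) // Function.Surjective φ}) := by
  have hfin : ∀ δ : Fin r → Fin i → ZMod p, Finite {f : X →+ Ex p lam δ // Function.Surjective f} := by
    intro δ
    have := fin_Ex p lam δ
    have : Finite (X →+ Ex p lam δ) := Finite.of_injective (fun f : X →+ Ex p lam δ => (f : X → Ex p lam δ))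
      DFunLike.coe_injective
    infer_instance
  have h1 : ∑ δ : Fin r → Fin i → ZMod p, sur X (Ex p lam δ) =
      Nat.card (Σ δ : Fin r → Fin i → ZMod p, {f : X →+ Ex p lam δ // Function.Surjective f}) := by
    rw [Nat.card_sigma]
    rfl
  choose f hf using Rl_ex_right p lam X i
  have hbij : Function.Bijective f := by
    constructor
    · intro l l' h
      exact Rl_uniq_left p lam hlam X i l l' (f l) (hf l) (h ▸ hf l')
    · intro t
      obtain ⟨l, hl⟩ := Rl_ex_left p lam hlam X i t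
      exact ⟨l, Rl_uniq_right p lam X i l _ _ (hf l) hl⟩
  rw [h1, Nat.card_congr (Equiv.ofBijective f hbij), Nat.card_prod, mul_comm]
  congr 1
  rw [Nat.card_eq_fintype_card]
  simp [Fintype.card_pi, ZMod.card, pow_mul]

end Sand
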