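import Pool.Agent.Helper793.Sand.Defs

set_option maxHeartbeats 4000000

open Finset Filter Topology

namespace Sand



/-- pull back of a form -/
noncomputable def tlPb {A V : Type} [AddCommGroup A] [AddCommGroup V] (f : A →+ V)
    (B : V →+ AddChar V ℂ) : A →+ AddChar A ℂ where
  toFun a := (B (f a)).compAddMonoidHom f
  map_zero' := by ext x; simp
  map_add' a b := by ext x; simp [map_add]

theorem tlPb_apply {A V : Type} [AddCommGroup A] [AddCommGroup V] (f : A →+ V)
    (B : V →+ AddChar V ℂ) (a b : A) : tlPb f B a b = B (f a) (f b) := rfl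

theorem tl_swap {V : Type} [AddCommGroup V] (B : V →+ AddChar V ℂ) (hB : ∀ x, B x x = 1)
    (x y : V) : B x y = (B y x)⁻¹ := by
  have h := hB (x + y)
  rw [B.map_add, AddChar.add_apply, AddChar.map_add_eq_mul, AddChar.map_add_eq_mul, hB x, hB y,
    one_mul, mul_one] at h
  exact eq_inv_of_mul_eq_one_left h

theorem tl_finite (V : Type) [AddCommGroup V] [Finite V] : Finite (V →+ AddChar V ℂ) :=
  DFunLike.finite _

theorem tl_form_ext {V : Type} [AddCommGroup V] (v : V) (W : Set V)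
    (hdec : ∀ x : V, ∃ (k : ℕ) (w : V), w ∈ W ∧ x = k • v + w)
    (B B' : V →+ AddChar V ℂ) (hB : ∀ x, B x x = 1) (hB' : ∀ x, B' x x = 1)
    (h1 : ∀ w ∈ W, B v w = B' v w) (h2 : ∀ w ∈ W, ∀ w' ∈ W, B w w' = B' w w') : B = B' := by
  have hv : ∀ y, B v y = B' v y := by
    intro y
    obtain ⟨k, w, hw, rfl⟩ := hdec y
    rw [AddChar.map_add_eq_mul, AddChar.map_add_eq_mul, AddChar.map_nsmul_eq_pow,
      AddChar.map_nsmul_eq_pow, hB, hB', h1 w hw]
  have hw : ∀ x ∈ W, ∀ y, B x y = B' x y := by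
    intro x hx y
    obtain ⟨k, w, hw, rfl⟩ := hdec y
    rw [AddChar.map_add_eq_mul, AddChar.map_add_eq_mul, AddChar.map_nsmul_eq_pow,
      AddChar.map_nsmul_eq_pow, h2 x hx w hw, tl_swap B hB x v, tl_swap B' hB' x v, hv x]
  ext x y
  obtain ⟨k, w, hwW, rfl⟩ := hdec x
  rw [map_add, map_add, map_nsmul, map_nsmul, AddChar.add_apply, AddChar.add_apply,
    AddChar.nsmul_apply, AddChar.nsmul_apply, hv y, hw w hwW y]

/-- a functional equal to one at a given nonzero vector -/
theorem tl_exists_g (p : ℕ) [Fact p.Prime] {V : Type} [AddCommGroup V] [Module (ZMod p) V]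
    (v : V) (hv : v ≠ 0) : ∃ g : V →ₗ[ZMod p] ZMod p, g v = 1 := by
  obtain ⟨g, hg⟩ := LinearMap.exists_leftInverse_of_injective
    (LinearMap.toSpanSingleton (ZMod p) V v) (LinearMap.ker_toSpanSingleton (ZMod p) hv)
  refine ⟨g, ?_⟩
  have h := LinearMap.congr_fun hg 1
  simpa using h

theorem tl_dec (p : ℕ) [Fact p.Prime] {V : Type} [AddCommGroup V] [Module (ZMod p) V]
    (v : V) (g : V →ₗ[ZMod p] ZMod p) (hg : g v = 1) (x : V) :
    ∃ (k : ℕ) (w : V), w ∈ (LinearMap.ker g : Set V) ∧ x = k • v + w := by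
  refine ⟨(g x).val, x - g x • v, ?_, ?_⟩
  · rw [SetLike.mem_coe, LinearMap.mem_ker, map_sub, map_smul, hg, smul_eq_mul, mul_one, sub_self]
  · rw [← Nat.cast_smul_eq_nsmul (ZMod p), ZMod.natCast_zmod_val]
    abel

theorem tl_card_ker (p : ℕ) [Fact p.Prime] {V : Type} [AddCommGroup V] [Module (ZMod p) V]
    [Finite V] (v : V) (g : V →ₗ[ZMod p] ZMod p) (hg : g v = 1) :
    Nat.card V = Nat.card (LinearMap.ker g) * p := by
  have e : V ≃ (LinearMap.ker g) × ZMod p :=
    { toFun := fun x => (⟨x - g x • v, by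
        rw [LinearMap.mem_ker, map_sub, map_smul, hg, smul_eq_mul, mul_one, sub_self]⟩, g x)
      invFun := fun y => y.1 + y.2 • v
      left_inv := fun x => by simp
      right_inv := fun y => by
        have hy : g y.1 = 0 := y.1.2
        apply Prod.ext
        · apply Subtype.ext
          simp [hg]
        · simp [hg] }
  rw [Nat.card_congr e, Nat.card_prod, Nat.card_zmod]

theorem tl_card_char (V : Type) [AddCommGroup V] [Finite V] :
    Nat.card (AddChar V ℂ) = Nat.card V := by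
  have := Fintype.ofFinite V
  rw [Nat.card_eq_fintype_card, Nat.card_eq_fintype_card]
  exact AddChar.card_eq

theorem tl_card_AF (p : ℕ) [Fact p.Prime] : ∀ (n : ℕ) (V : Type) [AddCommGroup V]
    [Module (ZMod p) V] [Finite V], Nat.card V = p ^ n →
    Nat.card {α : V →+ AddChar V ℂ // ∀ x, α x x = 1} ≤ p ^ (n.choose 2) := by
  intro n
  induction n with
  | zero =>
    intro V _ _ _ hV
    rw [pow_zero] at hV
    have hs : Subsingleton V := (Nat.card_eq_one_iff_unique.1 hV).1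
    have : Subsingleton {α : V →+ AddChar V ℂ // ∀ x, α x x = 1} := by
      constructor
      intro a b
      apply Subtype.ext
      ext x y
      rw [Subsingleton.elim y x, a.2, b.2]
    have hf := tl_finite V
    simpa using Finite.card_le_one_iff_subsingleton.2 this
  | succ n ih =>
    intro V _ _ _ hV
    have hf := tl_finite V
    have hnt : 1 < Nat.card V := by
      rw [hV]
      exact Nat.one_lt_pow (Nat.succ_ne_zero n) (Fact.out : p.Prime).one_lt
    have hnt' : Nontrivial V := Finite.one_lt_card_iff_nontrivial.1 hnt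
    obtain ⟨v, hv⟩ := exists_ne (0 : V)
    obtain ⟨g, hg⟩ := tl_exists_g p v hv
    have hk := tl_card_ker p v g hg
    have hp0 : 0 < p := (Fact.out : p.Prime).pos
    have hk2 : Nat.card (LinearMap.ker g) = p ^ n := by
      rw [hV, pow_succ] at hk
      exact (Nat.eq_of_mul_eq_mul_right hp0 hk).symm
    have hfk := tl_finite (LinearMap.ker g)
    have hi := ih (LinearMap.ker g) hk2
    set ι : LinearMap.ker g →+ V := (LinearMap.ker g).subtype.toAddMonoidHom with hι
    have hinj : Function.Injective (fun α : {α : V →+ AddChar V ℂ // ∀ x, α x x = 1} =>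
        (((α.1 v).compAddMonoidHom ι,
          ⟨tlPb ι α.1, fun x => α.2 _⟩) :
          AddChar (LinearMap.ker g) ℂ ×
            {α : LinearMap.ker g →+ AddChar (LinearMap.ker g) ℂ // ∀ x, α x x = 1})) := by
      intro a b hab
      have h1 := congrArg Prod.fst hab
      have h2 := congrArg Subtype.val (congrArg Prod.snd hab)
      simp only at h1 h2
      apply Subtype.ext
      refine tl_form_ext v _ (tl_dec p v g hg) a.1 b.1 a.2 b.2 ?_ ?_
      · intro w hw
        exact DFunLike.congr_fun h1 (⟨w, hw⟩ : LinearMap.ker g)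
      · intro w hw w' hw'
        exact DFunLike.congr_fun (DFunLike.congr_fun h2 (⟨w, hw⟩ : LinearMap.ker g))
          (⟨w', hw'⟩ : LinearMap.ker g)
    refine (Nat.card_le_card_of_injective _ hinj).trans ?_
    rw [Nat.card_prod, tl_card_char, hk2, Nat.choose_succ_succ' n 1, Nat.choose_one_right,
      pow_add]
    exact Nat.mul_le_mul_left _ hi

/-- forms with tuples in their radicals -/
abbrev tlX (r : ℕ) (V : Type) [AddCommGroup V] : Type :=
  {x : (V →+ AddChar V ℂ) × (Fin r → V) // (∀ v, x.1 v v = 1) ∧ ∀ a, x.1 (x.2 a) = 0}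

theorem tlX_finite (r : ℕ) (V : Type) [AddCommGroup V] [Finite V] : Finite (tlX r V) := by
  have := tl_finite V
  infer_instance

/-- the constant -/
def tlK (p : ℕ) : ℕ → ℕ
  | 0 => 1
  | r + 1 => tlK p r * (1 + p ^ (r + 1))

theorem tl_fibre (p : ℕ) [Fact p.Prime] (r : ℕ) {V : Type} [AddCommGroup V]
    [Module (ZMod p) V] [Finite V] (v : V) (g : V →ₗ[ZMod p] ZMod p) (hg : g v = 1) :
    Nat.card {x : tlX (r + 1) V // x.1.2 0 = v}
      ≤ Nat.card (tlX r (LinearMap.ker g)) * p ^ r := by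
  have hf := tl_finite V
  have hfk := tlX_finite r (LinearMap.ker g)
  set ι : LinearMap.ker g →+ V := (LinearMap.ker g).subtype.toAddMonoidHom with hι
  let pr : V → LinearMap.ker g := fun x =>
    ⟨x - g x • v, by
      rw [LinearMap.mem_ker, map_sub, map_smul, hg, smul_eq_mul, mul_one, sub_self]⟩
  have hpr : ∀ x, ι (pr x) = x - (g x).val • v := by
    intro x
    change x - g x • v = _
    rw [← Nat.cast_smul_eq_nsmul (ZMod p), ZMod.natCast_zmod_val]
  let F : {x : tlX (r + 1) V // x.1.2 0 = v} → tlX r (LinearMap.ker g) × (Fin r → ZMod p) :=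
    fun x => (⟨(tlPb ι x.1.1.1, fun a => pr (x.1.1.2 a.succ)), fun w => x.1.2.1 _, fun a => by
      ext w
      rw [tlPb_apply, AddChar.zero_apply]
      rw [hpr, map_sub, map_nsmul, x.1.2.2 a.succ]
      have h := x.1.2.2 0
      rw [x.2] at h
      rw [h]
      simp⟩, fun a => g (x.1.1.2 a.succ))
  have hF : Function.Injective F := by
    intro x y hxy
    have h1 := congrArg Subtype.val (congrArg Prod.fst hxy)
    have h2 := congrArg Prod.snd hxy
    have h3 : tlPb ι x.1.1.1 = tlPb ι y.1.1.1 := congrArg Prod.fst h1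
    have h4 : (fun a : Fin r => pr (x.1.1.2 a.succ)) = fun a => pr (y.1.1.2 a.succ) :=
      congrArg Prod.snd h1
    have hB : x.1.1.1 = y.1.1.1 := by
      refine tl_form_ext v _ (tl_dec p v g hg) _ _ x.1.2.1 y.1.2.1 ?_ ?_
      · intro w _
        have e1 := x.1.2.2 0
        have e2 := y.1.2.2 0
        rw [x.2] at e1
        rw [y.2] at e2
        rw [e1, e2]
      · intro w hw w' hw'
        exact DFunLike.congr_fun (DFunLike.congr_fun h3 (⟨w, hw⟩ : LinearMap.ker g))
          (⟨w', hw'⟩ : LinearMap.ker g)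
    have hd : x.1.1.2 = y.1.1.2 := by
      funext a
      refine Fin.cases ?_ (fun a => ?_) a
      · rw [x.2, y.2]
      · have e1 := congrArg ι (congrFun h4 a)
        have e2 : g (x.1.1.2 a.succ) = g (y.1.1.2 a.succ) := congrFun h2 a
        simp only [hpr] at e1
        rw [e2] at e1
        exact sub_left_injective e1
    apply Subtype.ext
    apply Subtype.ext
    exact Prod.ext hB hd
  refine (Nat.card_le_card_of_injective F hF).trans ?_
  rw [Nat.card_prod, Nat.card_fun, Nat.card_zmod, Nat.card_fin]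

theorem tl_fibre0 (r : ℕ) {V : Type} [AddCommGroup V] [Finite V] :
    Nat.card {x : tlX (r + 1) V // x.1.2 0 = 0} ≤ Nat.card (tlX r V) := by
  have hf := tlX_finite r V
  refine Nat.card_le_card_of_injective (fun x : {x : tlX (r + 1) V // x.1.2 0 = 0} =>
    (⟨(x.1.1.1, fun a => x.1.1.2 a.succ), x.1.2.1, fun a => x.1.2.2 _⟩ : tlX r V)) ?_
  intro x y hxy
  have h3 : x.1.1.1 = y.1.1.1 := congrArg (fun z : tlX r V => z.1.1) hxy
  have h4 : (fun a : Fin r => x.1.1.2 a.succ) = fun a => y.1.1.2 a.succ :=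
    congrArg (fun z : tlX r V => z.1.2) hxy
  apply Subtype.ext
  apply Subtype.ext
  refine Prod.ext h3 (funext fun a => ?_)
  refine Fin.cases ?_ (fun a => ?_) a
  · rw [x.2, y.2]
  · exact congrFun h4 a

theorem tlX_card (p : ℕ) [Fact p.Prime] : ∀ (r n : ℕ) (V : Type) [AddCommGroup V]
    [Module (ZMod p) V] [Finite V], Nat.card V = p ^ n →
    Nat.card (tlX r V) ≤ tlK p r * p ^ (n.choose 2) := by
  classical
  intro r
  induction r with
  | zero =>
    intro n V _ _ _ hV
    have hf := tl_finite V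
    refine le_trans ?_ ((tl_card_AF p n V hV).trans (by simp [tlK]))
    refine Nat.card_le_card_of_injective (fun x : tlX 0 V =>
      (⟨x.1.1, x.2.1⟩ : {α : V →+ AddChar V ℂ // ∀ x, α x x = 1})) ?_
    intro a b hab
    have h1 := congrArg Subtype.val hab
    apply Subtype.ext
    exact Prod.ext h1 (Subsingleton.elim _ _)
  | succ r ih =>
    intro n V _ _ _ hV
    have hft := Fintype.ofFinite V
    have hf := tl_finite V
    have hfX := tlX_finite (r + 1) V
    have hp0 : 0 < p := (Fact.out : p.Prime).pos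
    have e := Equiv.sigmaFiberEquiv (fun x : tlX (r + 1) V => x.1.2 0)
    rw [← Nat.card_congr e, Nat.card_sigma, ← Finset.add_sum_erase _ _ (Finset.mem_univ (0 : V))]
    have h0 : Nat.card {x : tlX (r + 1) V // x.1.2 0 = 0} ≤ tlK p r * p ^ (n.choose 2) :=
      (tl_fibre0 r).trans (ih n V hV)
    have h1 : ∀ v ∈ (Finset.univ : Finset V).erase 0,
        Nat.card {x : tlX (r + 1) V // x.1.2 0 = v}
          ≤ tlK p r * p ^ ((n - 1).choose 2) * p ^ r := by
      intro v hv
      have hv0 : v ≠ 0 := Finset.ne_of_mem_erase hv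
      obtain ⟨g, hg⟩ := tl_exists_g p v hv0
      have hk := tl_card_ker p v g hg
      have hn : n ≠ 0 := by
        rintro rfl
        rw [pow_zero] at hV
        have hs : Subsingleton V := (Nat.card_eq_one_iff_unique.1 hV).1
        exact hv0 (Subsingleton.elim _ _)
      obtain ⟨n, rfl⟩ := Nat.exists_eq_succ_of_ne_zero hn
      have hk2 : Nat.card (LinearMap.ker g) = p ^ n := by
        rw [hV, Nat.succ_eq_add_one, pow_succ] at hk
        exact (Nat.eq_of_mul_eq_mul_right hp0 hk).symm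
      refine (tl_fibre p r v g hg).trans ?_
      exact Nat.mul_le_mul_right _ (ih n (LinearMap.ker g) hk2)
    have h2 := Finset.sum_le_sum h1
    rw [Finset.sum_const, smul_eq_mul] at h2
    have h3 : ((Finset.univ : Finset V).erase 0).card ≤ p ^ n := by
      rw [← hV, Nat.card_eq_fintype_card]
      exact Finset.card_le_univ _
    refine (Nat.add_le_add h0 h2).trans ?_
    rcases Nat.eq_zero_or_pos n with hn | hn
    · subst hn
      have h4 : ((Finset.univ : Finset V).erase 0).card = 0 := by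
        rw [Finset.card_erase_of_mem (Finset.mem_univ _), Finset.card_univ,
          ← Nat.card_eq_fintype_card, hV]
        simp
      rw [h4, zero_mul, add_zero]
      have h5 : tlK p r ≤ tlK p (r + 1) := by
        change tlK p r ≤ tlK p r * (1 + p ^ (r + 1))
        exact Nat.le_mul_of_pos_right _ (by positivity)
      exact Nat.mul_le_mul_right _ h5
    · obtain ⟨n, rfl⟩ := Nat.exists_eq_add_of_lt hn
      have e1 : 0 + n + 1 - 1 = n := by omega
      have e2 : 0 + n + 1 = n + 1 := by omega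
      rw [e2] at h3
      rw [e1, e2]
      have h5 : (n + 1).choose 2 = n + n.choose 2 := by
        rw [Nat.choose_succ_succ' n 1, Nat.choose_one_right]
      calc tlK p r * p ^ ((n + 1).choose 2)
            + ((Finset.univ : Finset V).erase 0).card * (tlK p r * p ^ (n.choose 2) * p ^ r)
          ≤ tlK p r * p ^ ((n + 1).choose 2)
            + p ^ (n + 1) * (tlK p r * p ^ (n.choose 2) * p ^ r) :=
            Nat.add_le_add_left (Nat.mul_le_mul_right _ h3) _
        _ = tlK p (r + 1) * p ^ ((n + 1).choose 2) := by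
            rw [h5]
            simp only [tlK]
            ring


/-- the class of `e_a` -/
def tlE (p : ℕ) {r i : ℕ} (lam : Fin r → ℕ) (δ : Fin r → Fin i → ZMod p) (a : Fin r) :
    Ex p lam δ := QuotientAddGroup.mk (Pi.single a 1, 0)

/-- the inclusion of `F_p^i` -/
def tlI (p : ℕ) {r i : ℕ} (lam : Fin r → ℕ) (δ : Fin r → Fin i → ZMod p) :
    (Fin i → ZMod p) →+ Ex p lam δ :=
  (QuotientAddGroup.mk' (relHom p lam δ).range).comp (AddMonoidHom.inr _ _)

theorem tl_gen (p : ℕ) {r i : ℕ} (lam : Fin r → ℕ) (δ : Fin r → Fin i → ZMod p)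
    (S : AddSubgroup (Ex p lam δ)) (he : ∀ a, tlE p lam δ a ∈ S) (hi : ∀ w, tlI p lam δ w ∈ S)
    (x : Ex p lam δ) : x ∈ S := by
  obtain ⟨⟨k, w⟩, rfl⟩ := QuotientAddGroup.mk_surjective x
  have h1 : ((k, w) : (Fin r → ℤ) × (Fin i → ZMod p))
      = ∑ a, k a • ((Pi.single a 1, 0) : (Fin r → ℤ) × (Fin i → ZMod p)) + (0, w) := by
    apply Prod.ext
    · simp only [Prod.fst_add, Prod.fst_sum, Prod.smul_fst, add_zero]
      funext b
      rw [Finset.sum_apply, Finset.sum_eq_single b]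
      · simp
      · intro c _ hc
        simp [Pi.single_apply, hc.symm]
      · intro h; exact absurd (Finset.mem_univ _) h
    · simp [Prod.snd_sum]
  rw [h1]
  have h2 : ((∑ a, k a • ((Pi.single a 1, 0) : (Fin r → ℤ) × (Fin i → ZMod p)) + (0, w) :
      (Fin r → ℤ) × (Fin i → ZMod p)) : Ex p lam δ)
      = ∑ a, k a • tlE p lam δ a + tlI p lam δ w := by
    change (QuotientAddGroup.mk' (relHom p lam δ).range) _ = _
    rw [map_add, map_sum]
    simp only [map_zsmul]
    rfl
  rw [h2]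
  exact S.add_mem (S.sum_mem (fun a _ => S.zsmul_mem (he a) _)) (hi w)

theorem tl_rel (p : ℕ) {r i : ℕ} (lam : Fin r → ℕ) (δ : Fin r → Fin i → ZMod p) (a : Fin r) :
    p ^ lam a • tlE p lam δ a = tlI p lam δ (δ a) := by
  have h1 : p ^ lam a • tlE p lam δ a
      = QuotientAddGroup.mk (p ^ lam a • ((Pi.single a 1, 0) : (Fin r → ℤ) × (Fin i → ZMod p))) :=
    rfl
  rw [h1]
  change QuotientAddGroup.mk _ = QuotientAddGroup.mk ((0 : Fin r → ℤ), δ a)
  rw [eq_comm, QuotientAddGroup.eq]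
  refine ⟨Pi.single a 1, ?_⟩
  simp only [relHom, AddMonoidHom.coe_mk, ZeroHom.coe_mk]
  apply Prod.ext
  · funext b
    by_cases hb : b = a
    · subst hb; simp
    · simp [Pi.single_apply, hb]
  · simp only [Prod.snd_add, Prod.snd_neg, Prod.smul_snd, smul_zero, add_zero]
    congr 1
    rw [Finset.sum_eq_single a]
    · simp
    · intro c _ hc
      simp [Pi.single_apply, hc]
    · intro h; exact absurd (Finset.mem_univ _) h

/-- exponent -/
def tlM (p : ℕ) {r : ℕ} (lam : Fin r → ℕ) : ℕ := p ^ (1 + ∑ a, lam a)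

theorem tl_M_smul (p : ℕ) {r i : ℕ} (lam : Fin r → ℕ) (δ : Fin r → Fin i → ZMod p) (b : Fin r) :
    tlM p lam • tlE p lam δ b = 0 := by
  have h1 : lam b ≤ ∑ a, lam a := Finset.single_le_sum (fun _ _ => Nat.zero_le _)
    (Finset.mem_univ b)
  obtain ⟨c, hc⟩ := Nat.exists_eq_add_of_le h1
  have h2 : tlM p lam = p ^ c * p * p ^ lam b := by
    rw [tlM, hc, pow_add, pow_add]; ring
  rw [h2, mul_smul, tl_rel, mul_smul, ← map_nsmul]
  have h3 : p • δ b = 0 := by
    funext j; simp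
  rw [h3, map_zero, smul_zero]

theorem tl_alt_le (p : ℕ) [Fact p.Prime] {r i : ℕ} (lam : Fin r → ℕ) (hlam : ∀ a, 1 ≤ lam a)
    (δ : Fin r → Fin i → ZMod p) :
    alt (Ex p lam δ) ≤
      Nat.card {B : (Fin i → ZMod p) →+ AddChar (Fin i → ZMod p) ℂ //
        (∀ v, B v v = 1) ∧ ∀ a, B (δ a) = 0} * ((p ^ i) ^ r * ((tlM p lam) ^ r) ^ r) := by
  have hf := tl_finite (Fin i → ZMod p)
  have hM : NeZero (tlM p lam) := ⟨by
    rw [tlM]; exact pow_ne_zero _ (Fact.out : p.Prime).ne_zero⟩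
  have hroot : ∀ (α : Ex p lam δ →+ AddChar (Ex p lam δ) ℂ) (a b : Fin r),
      (α (tlE p lam δ a) (tlE p lam δ b)) ^ tlM p lam = 1 := by
    intro α a b
    rw [← AddChar.map_nsmul_eq_pow, tl_M_smul, AddChar.map_zero_eq_one]
  have hrad : ∀ (α : Ex p lam δ →+ AddChar (Ex p lam δ) ℂ) (a : Fin r),
      tlPb (tlI p lam δ) α (δ a) = 0 := by
    intro α a
    ext w
    rw [tlPb_apply, ← tl_rel, map_nsmul, AddChar.nsmul_apply, ← AddChar.map_nsmul_eq_pow,
      ← map_nsmul]
    obtain ⟨c, hc⟩ := Nat.exists_eq_add_of_le (hlam a)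
    have h3 : p ^ lam a • w = 0 := by
      funext j
      rw [hc, pow_add, pow_one]
      simp
    rw [h3, map_zero, AddChar.map_zero_eq_one, AddChar.zero_apply]
  unfold alt
  let F : {α : Ex p lam δ →+ AddChar (Ex p lam δ) ℂ // ∀ x, α x x = 1} →
      {B : (Fin i → ZMod p) →+ AddChar (Fin i → ZMod p) ℂ //
        (∀ v, B v v = 1) ∧ ∀ a, B (δ a) = 0} ×
      ((Fin r → AddChar (Fin i → ZMod p) ℂ) × (Fin r → Fin r → rootsOfUnity (tlM p lam) ℂ)) :=
    fun α => (⟨tlPb (tlI p lam δ) α.1, fun v => α.2 _, hrad α.1⟩,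
      (fun a => (α.1 (tlE p lam δ a)).compAddMonoidHom (tlI p lam δ),
       fun a b => rootsOfUnity.mkOfPowEq _ (hroot α.1 a b)))
  have hF : Function.Injective F := by
    intro x y hxy
    have h1 : tlPb (tlI p lam δ) x.1 = tlPb (tlI p lam δ) y.1 :=
      congrArg (fun z => z.1.1) hxy
    have h2 : ∀ a w, x.1 (tlE p lam δ a) (tlI p lam δ w) = y.1 (tlE p lam δ a) (tlI p lam δ w) :=
      fun a w => DFunLike.congr_fun (congrFun (congrArg (fun z => z.2.1) hxy) a) w
    have h3 : ∀ a b, x.1 (tlE p lam δ a) (tlE p lam δ b) = y.1 (tlE p lam δ a) (tlE p lam δ b) := by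
      intro a b
      have h := congrArg (fun z => ((z.2.2 a b : rootsOfUnity (tlM p lam) ℂ) : ℂˣ).val) hxy
      simpa [F, rootsOfUnity.coe_mkOfPowEq] using h
    have h4 : ∀ v w, x.1 (tlI p lam δ v) (tlI p lam δ w) = y.1 (tlI p lam δ v) (tlI p lam δ w) :=
      fun v w => DFunLike.congr_fun (DFunLike.congr_fun h1 v) w
    have h5 : ∀ a w, x.1 (tlI p lam δ w) (tlE p lam δ a) = y.1 (tlI p lam δ w) (tlE p lam δ a) := by
      intro a w
      rw [tl_swap x.1 x.2, tl_swap y.1 y.2, h2]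
    have hc : ∀ (χ χ' : AddChar (Ex p lam δ) ℂ), (∀ a, χ (tlE p lam δ a) = χ' (tlE p lam δ a)) →
        (∀ w, χ (tlI p lam δ w) = χ' (tlI p lam δ w)) → χ = χ' := by
      intro χ χ' ha hw
      let S : AddSubgroup (Ex p lam δ) :=
        { carrier := {y | χ y = χ' y}
          zero_mem' := by
            change χ 0 = χ' 0
            rw [AddChar.map_zero_eq_one, AddChar.map_zero_eq_one]
          add_mem' := fun {u v} hu hv => by
            change χ (u + v) = χ' (u + v)
            change χ u = χ' u at hu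
            change χ v = χ' v at hv
            rw [AddChar.map_add_eq_mul, AddChar.map_add_eq_mul, hu, hv]
          neg_mem' := fun {u} hu => by
            change χ (-u) = χ' (-u)
            change χ u = χ' u at hu
            rw [AddChar.map_neg_eq_inv, AddChar.map_neg_eq_inv, hu] }
      ext z
      exact tl_gen p lam δ S ha hw z
    apply Subtype.ext
    refine AddMonoidHom.ext (fun z => ?_)
    exact tl_gen p lam δ (x.1.eqLocus y.1) (fun a => hc _ _ (h3 a) (h2 a))
      (fun w => hc _ _ (fun a => h5 a w) (h4 w)) z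
  refine (Nat.card_le_card_of_injective F hF).trans ?_
  rw [Nat.card_prod, Nat.card_prod, Nat.card_fun, Nat.card_fun, Nat.card_fun, tl_card_char,
    Nat.card_fun, Nat.card_zmod, Nat.card_fin, Nat.card_fin, Complex.card_rootsOfUnity]

theorem tl_sum_le (p : ℕ) [Fact p.Prime] {r : ℕ} (lam : Fin r → ℕ) (hlam : ∀ a, 1 ≤ lam a)
    (i : ℕ) :
    ∑ δ : Fin r → Fin i → ZMod p, alt (Ex p lam δ) ≤
      (tlK p r * ((tlM p lam) ^ r) ^ r) * (p ^ (i * r) * p ^ (i.choose 2)) := by
  have hf := tl_finite (Fin i → ZMod p)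
  have h1 : Nat.card (tlX r (Fin i → ZMod p)) ≤ tlK p r * p ^ (i.choose 2) := by
    refine tlX_card p r i (Fin i → ZMod p) ?_
    rw [Nat.card_fun, Nat.card_zmod, Nat.card_fin]
  have h2 : ∑ δ : Fin r → Fin i → ZMod p,
      Nat.card {B : (Fin i → ZMod p) →+ AddChar (Fin i → ZMod p) ℂ //
        (∀ v, B v v = 1) ∧ ∀ a, B (δ a) = 0} = Nat.card (tlX r (Fin i → ZMod p)) := by
    rw [← Nat.card_sigma]
    refine Nat.card_congr
      { toFun := fun x => ⟨(x.2.1, x.1), x.2.2⟩
        invFun := fun x => ⟨x.1.2, ⟨x.1.1, x.2⟩⟩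
        left_inv := fun x => rfl
        right_inv := fun x => rfl }
  calc ∑ δ : Fin r → Fin i → ZMod p, alt (Ex p lam δ)
      ≤ ∑ δ : Fin r → Fin i → ZMod p,
        Nat.card {B : (Fin i → ZMod p) →+ AddChar (Fin i → ZMod p) ℂ //
        (∀ v, B v v = 1) ∧ ∀ a, B (δ a) = 0} * ((p ^ i) ^ r * ((tlM p lam) ^ r) ^ r) :=
        Finset.sum_le_sum (fun δ _ => tl_alt_le p lam hlam δ)
    _ = Nat.card (tlX r (Fin i → ZMod p)) * ((p ^ i) ^ r * ((tlM p lam) ^ r) ^ r) := by
        rw [← Finset.sum_mul, h2]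
    _ ≤ (tlK p r * p ^ (i.choose 2)) * ((p ^ i) ^ r * ((tlM p lam) ^ r) ^ r) :=
        Nat.mul_le_mul_right _ h1
    _ = _ := by rw [← pow_mul]; ring

theorem tl_gl_succ (p i : ℕ) (hp : 2 ≤ p) : (gl p (i + 1) : ℝ)
    = ((p : ℝ) ^ (i + 1) - 1) * (p : ℝ) ^ i * gl p i := by
  unfold gl
  rw [Finset.prod_range_succ']
  have h1 : ∀ j ∈ range i, p ^ (i + 1) - p ^ (j + 1) = p * (p ^ i - p ^ j) := by
    intro j _
    rw [pow_succ, pow_succ, Nat.mul_sub, mul_comm p, mul_comm p]
  rw [Finset.prod_congr rfl h1, Finset.prod_mul_distrib, Finset.prod_const, Finset.card_range]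
  have h2 : 1 ≤ p ^ (i + 1) := Nat.one_le_pow _ _ (by omega)
  rw [pow_zero, Nat.cast_mul, Nat.cast_mul, Nat.cast_pow, Nat.cast_sub h2, Nat.cast_pow,
    Nat.cast_one]
  ring

theorem tl_gl_lower (p i : ℕ) (hp : 2 ≤ p) :
    (1 / 2) * (3 / 4 : ℝ) ^ i * (p : ℝ) ^ (i * i) ≤ gl p i := by
  have hp' : (2 : ℝ) ≤ p := by exact_mod_cast hp
  induction i with
  | zero => simp [gl]; norm_num
  | succ i ih =>
    rw [tl_gl_succ p i hp]
    have h0 : (1 : ℝ) ≤ (p : ℝ) ^ i := one_le_pow₀ (by linarith)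
    have hpi : (0 : ℝ) < (p : ℝ) ^ i := by positivity
    rcases Nat.eq_zero_or_pos i with hi | hi
    · subst hi
      simp [gl]
      linarith
    · have h4 : (4 : ℝ) ≤ (p : ℝ) ^ (i + 1) := by
        calc (4 : ℝ) = 2 ^ 2 := by norm_num
          _ ≤ (p : ℝ) ^ 2 := by gcongr
          _ ≤ (p : ℝ) ^ (i + 1) := pow_le_pow_right₀ (by linarith) (by omega)
      have h5 : (3 / 4 : ℝ) * (p : ℝ) ^ (i + 1) ≤ (p : ℝ) ^ (i + 1) - 1 := by linarith
      calc (1 / 2) * (3 / 4 : ℝ) ^ (i + 1) * (p : ℝ) ^ ((i + 1) * (i + 1))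
          = ((3 / 4 : ℝ) * (p : ℝ) ^ (i + 1)) * (p : ℝ) ^ i
              * ((1 / 2) * (3 / 4 : ℝ) ^ i * (p : ℝ) ^ (i * i)) := by ring
        _ ≤ ((p : ℝ) ^ (i + 1) - 1) * (p : ℝ) ^ i * gl p i := by
            refine mul_le_mul (mul_le_mul_of_nonneg_right h5 hpi.le) ih (by positivity) ?_
            exact mul_nonneg (by linarith) hpi.le

theorem tail (p : ℕ) [Fact p.Prime] {r : ℕ} (lam : Fin r → ℕ) (hlam : ∀ a, 1 ≤ lam a) :
    Tendsto (fun i : ℕ => ((p : ℝ) ^ (i.choose 2) / gl p i) *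
      (((∑ δ : Fin r → Fin i → ZMod p, alt (Ex p lam δ) : ℕ) : ℝ) / (p : ℝ) ^ (i * r)))
      atTop (𝓝 0) := by
  have hp : 2 ≤ p := (Fact.out : p.Prime).two_le
  have hp' : (2 : ℝ) ≤ p := by exact_mod_cast hp
  set C : ℝ := ((tlK p r * ((tlM p lam) ^ r) ^ r : ℕ) : ℝ) with hC
  have hC0 : 0 ≤ C := by rw [hC]; positivity
  have hlim : Tendsto (fun i : ℕ => 2 * C * (2 / 3 : ℝ) ^ i) atTop (𝓝 0) := by
    have h := tendsto_pow_atTop_nhds_zero_of_lt_one (r := (2 / 3 : ℝ)) (by norm_num) (by norm_num)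
    simpa using h.const_mul (2 * C)
  refine squeeze_zero (fun i => by positivity) (fun i => ?_) hlim
  have hsum : ((∑ δ : Fin r → Fin i → ZMod p, alt (Ex p lam δ) : ℕ) : ℝ)
      ≤ C * ((p : ℝ) ^ (i * r) * (p : ℝ) ^ (i.choose 2)) := by
    rw [hC]
    exact_mod_cast tl_sum_le p lam hlam i
  have hgl := tl_gl_lower p i hp
  have hpos : (0 : ℝ) < (1 / 2) * (3 / 4 : ℝ) ^ i * (p : ℝ) ^ (i * i) := by positivity
  have hglp : (0 : ℝ) < gl p i := lt_of_lt_of_le hpos hgl
  have h1 : ((∑ δ : Fin r → Fin i → ZMod p, alt (Ex p lam δ) : ℕ) : ℝ) / (p : ℝ) ^ (i * r)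
      ≤ C * (p : ℝ) ^ (i.choose 2) := by
    rw [div_le_iff₀ (by positivity)]
    calc _ ≤ _ := hsum
      _ = _ := by ring
  have h2 : (p : ℝ) ^ (i.choose 2) / gl p i
      ≤ (p : ℝ) ^ (i.choose 2) / ((1 / 2) * (3 / 4 : ℝ) ^ i * (p : ℝ) ^ (i * i)) := by
    gcongr
  have h3 : (p : ℝ) ^ (i.choose 2) * (p : ℝ) ^ (i.choose 2) * (p : ℝ) ^ i = (p : ℝ) ^ (i * i) := by
    rw [← pow_add, ← pow_add]
    congr 1
    rcases Nat.eq_zero_or_pos i with hi | hi
    · subst hi; rfl
    · have h4 := Nat.triangle_succ (i - 1)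
      have h5 : i - 1 + 1 = i := by omega
      rw [Nat.choose_two_right]
      have h6 : 2 ∣ i * (i - 1) := Nat.even_mul_pred_self i |>.two_dvd
      obtain ⟨c, hc⟩ := h6
      rw [hc]
      obtain ⟨j, rfl⟩ : ∃ j, i = j + 1 := ⟨i - 1, by omega⟩
      simp only [Nat.add_sub_cancel] at hc
      have h7 : 2 * c / 2 = c := by omega
      rw [h7]
      nlinarith
  calc (p : ℝ) ^ (i.choose 2) / gl p i *
      (((∑ δ : Fin r → Fin i → ZMod p, alt (Ex p lam δ) : ℕ) : ℝ) / (p : ℝ) ^ (i * r))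
      ≤ (p : ℝ) ^ (i.choose 2) / ((1 / 2) * (3 / 4 : ℝ) ^ i * (p : ℝ) ^ (i * i))
        * (C * (p : ℝ) ^ (i.choose 2)) := by
        apply mul_le_mul h2 h1 (by positivity) (by positivity)
    _ = 2 * C * ((4 / 3) ^ i / (p : ℝ) ^ i) := by
        rw [← h3]
        have h8 : (3 / 4 : ℝ) ^ i * (4 / 3) ^ i = 1 := by
          rw [← mul_pow]; norm_num
        have h9 : (3 / 4 : ℝ) ^ i ≠ 0 := by positivity
        have h10 : (4 / 3 : ℝ) ^ i = 1 / (3 / 4 : ℝ) ^ i := by
          rw [eq_div_iff h9, mul_comm]; exact h8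
        rw [h10]
        field_simp
    _ ≤ 2 * C * (2 / 3 : ℝ) ^ i := by
        rw [← div_pow]
        have h11 : (4 / 3 : ℝ) / p ≤ 2 / 3 := by
          rw [div_le_iff₀ (by linarith)]
          linarith
        gcongr

end Sand
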