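import Pool.Agent.Helper793.Sand.Defs

set_option maxHeartbeats 4000000

open Finset Filter Topology

namespace Sand



section SymCountAux

variable {N m : ℕ} [NeZero N] {H : Type} [AddCommGroup H]

theorem sc_val_add (hH : ∀ x : H, N • x = 0) (a b : ZMod N) (x : H) :
    (a + b).val • x = a.val • x + b.val • x := by
  letI := AddCommGroup.zmodModule hH
  have key : ∀ (a : ZMod N) (x : H), a.val • x = a • x := fun a x => by
    rw [← Nat.cast_smul_eq_nsmul (ZMod N), ZMod.natCast_zmod_val]
  rw [key, key, key, add_smul]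

theorem sc_val_int (hH : ∀ x : H, N • x = 0) (z : ℤ) (x : H) :
    ((z : ZMod N)).val • x = z • x := by
  letI := AddCommGroup.zmodModule hH
  have key : ∀ (a : ZMod N) (x : H), a.val • x = a • x := fun a x => by
    rw [← Nat.cast_smul_eq_nsmul (ZMod N), ZMod.natCast_zmod_val]
  rw [key, Int.cast_smul_eq_zsmul]

/-- symmetric matrices -/
def scG (N m : ℕ) : AddSubgroup (Matrix (Fin m) (Fin m) (ZMod N)) where
  carrier := {M | M.IsSymm}
  zero_mem' := Matrix.isSymm_zero
  add_mem' := fun h1 h2 => Matrix.IsSymm.add h1 h2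
  neg_mem' := fun h => Matrix.IsSymm.neg h

/-- the map `Φ` -/
def scPhi (hH : ∀ x : H, N • x = 0) (f : Fin m → H) : scG N m →+ (Fin m → H) where
  toFun M j := ∑ i, (M.1 i j).val • f i
  map_zero' := by
    ext j
    simp
  map_add' := by
    intro M M'
    ext j
    simp only [Pi.add_apply]
    rw [← Finset.sum_add_distrib]
    apply Finset.sum_congr rfl
    intro i _
    exact sc_val_add hH _ _ _

/-- the map `F` -/
def scF (f : Fin m → H) : (Fin m → ℤ) →+ H where
  toFun x := ∑ j, x j • f j
  map_zero' := by simp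
  map_add' := by
    intro x y
    simp only [Pi.add_apply, add_smul, Finset.sum_add_distrib]

omit [NeZero N] in
theorem scF_single (f : Fin m → H) (j : Fin m) : scF f (Pi.single j 1) = f j := by
  simp only [scF, AddMonoidHom.coe_mk, ZeroHom.coe_mk]
  rw [Finset.sum_eq_single j]
  · simp
  · intro i _ hi
    rw [Pi.single_eq_of_ne hi, zero_smul]
  · simp

theorem scF_surj (f : Fin m → H) (hf : AddSubgroup.closure (Set.range f) = ⊤) :
    Function.Surjective (scF f) := by
  rw [← AddMonoidHom.range_eq_top, eq_top_iff, ← hf, AddSubgroup.closure_le]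
  rintro _ ⟨j, rfl⟩
  exact ⟨Pi.single j 1, scF_single f j⟩

/-- the map `B` -/
def scB (ψ : AddChar (Fin m → H) ℂ) : (Fin m → ℤ) →+ AddChar H ℂ where
  toFun x :=
    { toFun := fun h => ψ (fun j => x j • h)
      map_zero_eq_one' := by
        have : (fun j => x j • (0 : H)) = 0 := by ext j; simp
        rw [this, AddChar.map_zero_eq_one]
      map_add_eq_mul' := by
        intro a b
        rw [← AddChar.map_add_eq_mul]
        congr 1
        ext j
        simp }
  map_zero' := by
    ext h
    change ψ (fun j => (0 : Fin m → ℤ) j • h) = _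
    have : (fun j => (0 : Fin m → ℤ) j • h) = 0 := by ext j; simp
    rw [this, AddChar.map_zero_eq_one, AddChar.zero_apply]
  map_add' := by
    intro x y
    ext h
    rw [AddChar.add_apply]
    change ψ (fun j => (x + y) j • h) = ψ (fun j => x j • h) * ψ (fun j => y j • h)
    rw [← AddChar.map_add_eq_mul]
    congr 1
    ext j
    simp [add_smul]

theorem scB_apply (ψ : AddChar (Fin m → H) ℂ) (x : Fin m → ℤ) (h : H) :
    scB ψ x h = ψ (fun j => x j • h) := rfl

/-- the map `α ↦ ψ_α` -/
def scPsi (f : Fin m → H) (α : H →+ AddChar H ℂ) : AddChar (Fin m → H) ℂ where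
  toFun h := ∏ j, α (f j) (h j)
  map_zero_eq_one' := by
    simp [AddChar.map_zero_eq_one]
  map_add_eq_mul' := by
    intro a b
    simp [AddChar.map_add_eq_mul, Finset.prod_mul_distrib]

theorem scPsi_apply (f : Fin m → H) (α : H →+ AddChar H ℂ) (h : Fin m → H) :
    scPsi f α h = ∏ j, α (f j) (h j) := rfl

theorem sc_map_sum {A ι : Type} [AddCommGroup A] (ψ : AddChar A ℂ) (s : Finset ι) (g : ι → A) :
    ψ (∑ i ∈ s, g i) = ∏ i ∈ s, ψ (g i) := by
  classical
  induction s using Finset.induction_on with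
  | empty => simp
  | insert a s ha ih => rw [Finset.sum_insert ha, Finset.prod_insert ha, AddChar.map_add_eq_mul, ih]

theorem sc_polar (α : H →+ AddChar H ℂ) (hα : ∀ x, α x x = 1) (x y : H) :
    α x y * α y x = 1 := by
  have h := hα (x + y)
  rw [map_add α, AddChar.add_apply, AddChar.map_add_eq_mul, AddChar.map_add_eq_mul, hα, hα,
    one_mul, mul_one] at h
  exact h

theorem scPsi_Phi (hH : ∀ x : H, N • x = 0) (f : Fin m → H) (α : H →+ AddChar H ℂ)
    (hα : ∀ x, α x x = 1) (M : scG N m) : scPsi f α (scPhi hH f M) = 1 := by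
  rw [scPsi_apply]
  have h1 : ∀ j, α (f j) (scPhi hH f M j) = ∏ i, α (f j) (f i) ^ (M.1 i j).val := by
    intro j
    change α (f j) (∑ i, (M.1 i j).val • f i) = _
    rw [sc_map_sum]
    apply Finset.prod_congr rfl
    intro i _
    rw [AddChar.map_nsmul_eq_pow]
  rw [Finset.prod_congr rfl (fun j _ => h1 j)]
  rw [← Fintype.prod_prod_type' (f := fun j i => α (f j) (f i) ^ (M.1 i j).val)]
  apply Finset.prod_involution (fun a _ => (a.2, a.1))
  · rintro ⟨j, i⟩ _
    simp only []
    have hs : M.1 j i = M.1 i j := by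
      have := M.2
      exact congrFun (congrFun this i) j
    rw [hs, ← mul_pow, sc_polar α hα, one_pow]
  · rintro ⟨j, i⟩ _ hne heq
    simp only [Prod.mk.injEq] at heq
    apply hne
    simp only []
    rw [heq.1, hα, one_pow]
  · intro a _
    exact Finset.mem_univ _
  · rintro ⟨j, i⟩ _
    rfl

/-- the map `α ↦ χ_α` -/
noncomputable def scT (hH : ∀ x : H, N • x = 0) (f : Fin m → H)
    (α : {α : H →+ AddChar H ℂ // ∀ x, α x x = 1}) :
    AddChar ((Fin m → H) ⧸ (scPhi hH f).range) ℂ :=
  AddChar.toAddMonoidHomEquiv.symm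
    (QuotientAddGroup.lift (scPhi hH f).range (AddChar.toAddMonoidHomEquiv (scPsi f α.1)) (by
      rintro _ ⟨M, rfl⟩
      rw [AddMonoidHom.mem_ker]
      change Additive.ofMul (scPsi f α.1 (scPhi hH f M)) = 0
      rw [scPsi_Phi hH f α.1 α.2 M]
      rfl))

theorem scT_apply (hH : ∀ x : H, N • x = 0) (f : Fin m → H)
    (α : {α : H →+ AddChar H ℂ // ∀ x, α x x = 1}) (h : Fin m → H) :
    scT hH f α (QuotientAddGroup.mk h) = ∏ j, α.1 (f j) (h j) := rfl

theorem scT_bij (hH : ∀ x : H, N • x = 0) (f : Fin m → H)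
    (hf : AddSubgroup.closure (Set.range f) = ⊤) : Function.Bijective (scT hH f) := by
  constructor
  · intro α β hab
    apply Subtype.ext
    apply AddMonoidHom.eq_of_eqOn_dense hf
    rintro _ ⟨j, rfl⟩
    ext x
    have h := congrArg (fun χ => χ (QuotientAddGroup.mk (Pi.single j x))) hab
    simp only [scT_apply] at h
    have key : ∀ γ : H →+ AddChar H ℂ,
        ∏ k, γ (f k) ((Pi.single j x : Fin m → H) k) = γ (f j) x := by
      intro γ
      rw [Finset.prod_eq_single j]
      · rw [Pi.single_eq_same]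
      · intro k _ hk
        rw [Pi.single_eq_of_ne hk, AddChar.map_zero_eq_one]
      · simp
    rw [key, key] at h
    exact h
  · intro χ
    set ψ : AddChar (Fin m → H) ℂ :=
      χ.compAddMonoidHom (QuotientAddGroup.mk' (scPhi hH f).range) with hψ
    have hψapp : ∀ h, ψ h = χ (QuotientAddGroup.mk h) := fun h => rfl
    have hψΦ : ∀ M : scG N m, ψ (scPhi hH f M) = 1 := by
      intro M
      rw [hψapp]
      have : (QuotientAddGroup.mk (scPhi hH f M) : (Fin m → H) ⧸ (scPhi hH f).range) = 0 :=
        (QuotientAddGroup.eq_zero_iff _).2 ⟨M, rfl⟩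
      rw [this, AddChar.map_zero_eq_one]
    have hdiag : ∀ x : Fin m → ℤ, scB ψ x (scF f x) = 1 := by
      intro x
      have hsym : (Matrix.of (fun i j => ((x i * x j : ℤ) : ZMod N))) ∈ scG N m := by
        change Matrix.IsSymm _
        ext i j
        simp [mul_comm]
      rw [← hψΦ ⟨_, hsym⟩, scB_apply]
      congr 1
      ext j
      change x j • (∑ i, x i • f i) = ∑ i, ((x i * x j : ℤ) : ZMod N).val • f i
      rw [Finset.smul_sum]
      apply Finset.sum_congr rfl
      intro i _
      rw [sc_val_int hH, mul_comm, mul_smul]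
    have hpol : ∀ x y : Fin m → ℤ, scB ψ x (scF f y) * scB ψ y (scF f x) = 1 := by
      intro x y
      have h := hdiag (x + y)
      rw [map_add (scB ψ), map_add (scF f), AddChar.add_apply, AddChar.map_add_eq_mul, AddChar.map_add_eq_mul,
        hdiag, hdiag, one_mul, mul_one] at h
      exact h
    have hFs := scF_surj f hf
    have hker : (scF f).ker ≤ (scB ψ).ker := by
      intro x hx
      rw [AddMonoidHom.mem_ker] at hx ⊢
      ext h
      obtain ⟨y, rfl⟩ := hFs h
      have h := hpol x y
      rw [hx, AddChar.map_zero_eq_one, mul_one] at h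
      rw [h, AddChar.zero_apply]
    set α : H →+ AddChar H ℂ := (scF f).liftOfSurjective hFs ⟨scB ψ, hker⟩ with hα
    have hαF : ∀ x, α (scF f x) = scB ψ x := by
      intro x
      exact AddMonoidHom.liftOfRightInverse_comp_apply (scF f) (Function.surjInv hFs)
        (Function.rightInverse_surjInv hFs) ⟨scB ψ, hker⟩ x
    have halt : ∀ x, α x x = 1 := by
      intro h
      obtain ⟨x, rfl⟩ := hFs h
      rw [hαF]
      exact hdiag x
    refine ⟨⟨α, halt⟩, ?_⟩
    ext q
    obtain ⟨h, rfl⟩ := QuotientAddGroup.mk_surjective q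
    rw [scT_apply, ← hψapp]
    have h1 : ∀ j, α (f j) (h j) = ψ (Pi.single j (h j)) := by
      intro j
      rw [← scF_single f j, hαF, scB_apply]
      congr 1
      ext k
      by_cases hk : k = j
      · subst hk; simp
      · rw [Pi.single_eq_of_ne hk, Pi.single_eq_of_ne hk, zero_smul]
    simp only [h1]
    rw [← sc_map_sum, Finset.univ_sum_single]

end SymCountAux

theorem sym_count (N m : ℕ) [NeZero N] (H : Type) [AddCommGroup H] [Finite H]
    (hH : ∀ x : H, N • x = 0) (f : Fin m → H) (hf : AddSubgroup.closure (Set.range f) = ⊤) :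
    Nat.card {M : Matrix (Fin m) (Fin m) (ZMod N) // M.IsSymm ∧ ∀ j, ∑ i, (M i j).val • f i = 0}
      * Nat.card H ^ m =
    Nat.card {M : Matrix (Fin m) (Fin m) (ZMod N) // M.IsSymm} * alt H := by
  have h1 : Nat.card {M : Matrix (Fin m) (Fin m) (ZMod N) //
      M.IsSymm ∧ ∀ j, ∑ i, (M i j).val • f i = 0} = Nat.card (scPhi hH f).ker := by
    apply Nat.card_congr
    refine (Equiv.subtypeSubtypeEquivSubtypeInter (fun M : Matrix (Fin m) (Fin m) (ZMod N) =>
      M.IsSymm) (fun M => ∀ j, ∑ i, (M i j).val • f i = 0)).symm.trans ?_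
    apply Equiv.subtypeEquivRight
    intro M
    constructor
    · intro h
      exact AddMonoidHom.mem_ker.2 (funext h)
    · intro h j
      exact congrFun (AddMonoidHom.mem_ker.1 h) j
  have h2 : Nat.card {M : Matrix (Fin m) (Fin m) (ZMod N) // M.IsSymm} = Nat.card (scG N m) := rfl
  have h3 : alt H = (scPhi hH f).range.index := by
    unfold alt
    rw [Nat.card_congr (Equiv.ofBijective _ (scT_bij hH f hf))]
    have : Fintype ((Fin m → H) ⧸ (scPhi hH f).range) := Fintype.ofFinite _
    rw [AddSubgroup.index, Nat.card_eq_fintype_card (α := (Fin m → H) ⧸ (scPhi hH f).range),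
      Nat.card_eq_fintype_card]
    exact AddChar.card_eq
  have h4 : Nat.card H ^ m = Nat.card (Fin m → H) := by
    rw [Nat.card_fun, Nat.card_fin]
  rw [h1, h2, h3, h4, ← AddSubgroup.card_mul_index (scPhi hH f).range,
    ← AddSubgroup.card_mul_index (scPhi hH f).ker, AddSubgroup.index_ker]
  ring

end Sand
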