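import Pool.Agent.Helper793.Sand.Defs

set_option maxHeartbeats 4000000

open Finset Filter Topology

namespace Sand


/-- symmetric matrices -/
def SymG (ι R : Type) [AddCommGroup R] : AddSubgroup (Matrix ι ι R) where
  carrier := {M | M.IsSymm}
  zero_mem' := Matrix.isSymm_zero
  add_mem' := fun h1 h2 => Matrix.IsSymm.add h1 h2
  neg_mem' := fun h => Matrix.IsSymm.neg h

theorem card_fib {G H : Type} [AddCommGroup G] [AddCommGroup H] (f : G →+ H) (P : H → Prop)
    (hP : ∀ h, P h → ∃ g, f g = h) :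
    Nat.card {g // P (f g)} = Nat.card {h // P h} * Nat.card f.ker := by
  classical
  have hs : ∀ h, ∃ g, P h → f g = h := by
    intro h
    by_cases hh : P h
    · obtain ⟨g, hg⟩ := hP h hh
      exact ⟨g, fun _ => hg⟩
    · exact ⟨0, fun h' => absurd h' hh⟩
  choose s hs using hs
  rw [← Nat.card_prod]
  refine Nat.card_congr
    { toFun := fun g => (⟨f g.1, g.2⟩, ⟨g.1 - s (f g.1), by
        rw [AddMonoidHom.mem_ker, map_sub, hs _ g.2, sub_self]⟩)
      invFun := fun x => ⟨s x.1.1 + x.2.1, by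
        have h2 := x.2.2
        rw [AddMonoidHom.mem_ker] at h2
        rw [map_add, hs _ x.1.2, h2, add_zero]
        exact x.1.2⟩
      left_inv := fun g => Subtype.ext (by simp)
      right_inv := fun x => by
        have h2 := x.2.2
        rw [AddMonoidHom.mem_ker] at h2
        have h3 : f (s x.1.1 + x.2.1) = x.1.1 := by rw [map_add, hs _ x.1.2, h2, add_zero]
        refine Prod.ext (Subtype.ext h3) (Subtype.ext ?_)
        show s x.1.1 + x.2.1 - s (f (s x.1.1 + x.2.1)) = x.2.1
        rw [h3, add_sub_cancel_left] }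

theorem card_tors (p : ℕ) [Fact p.Prime] (e a : ℕ) (ha : a ≤ e) :
    Nat.card {y : ZMod (p ^ e) // (p : ZMod (p ^ e)) ^ a * y = 0} = p ^ a := by
  have hp : 0 < p := (Fact.out : p.Prime).pos
  haveI : NeZero (p ^ e) := ⟨(pow_pos hp e).ne'⟩
  have hset : ∀ y : ZMod (p ^ e), (p : ZMod (p ^ e)) ^ a * y = 0 ↔
      y ∈ AddSubgroup.zmultiples (((p ^ (e - a) : ℕ)) : ZMod (p ^ e)) := by
    intro y
    rw [AddSubgroup.mem_zmultiples_iff]
    constructor
    · intro h
      have h1 : ((p ^ a * y.val : ℕ) : ZMod (p ^ e)) = 0 := by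
        push_cast
        rw [ZMod.natCast_zmod_val]
        exact h
      rw [ZMod.natCast_eq_zero_iff] at h1
      have h2 : p ^ (e - a) ∣ y.val := by
        have h3 : p ^ a * p ^ (e - a) ∣ p ^ a * y.val := by
          rw [← pow_add, Nat.add_sub_cancel' ha]
          exact h1
        exact Nat.dvd_of_mul_dvd_mul_left (pow_pos hp a) h3
      obtain ⟨c, hc⟩ := h2
      refine ⟨c, ?_⟩
      rw [← ZMod.natCast_zmod_val y, hc]
      push_cast
      rw [zsmul_eq_mul]
      push_cast
      ring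
    · rintro ⟨c, rfl⟩
      rw [zsmul_eq_mul]
      have h1 : (p : ZMod (p ^ e)) ^ a * ((p ^ (e - a) : ℕ) : ZMod (p ^ e)) = 0 := by
        have : ((p ^ a * p ^ (e - a) : ℕ) : ZMod (p ^ e)) = 0 := by
          rw [ZMod.natCast_eq_zero_iff, ← pow_add, Nat.add_sub_cancel' ha]
        rw [← this]
        push_cast
        ring
      calc (p : ZMod (p ^ e)) ^ a * ((c : ZMod (p ^ e)) * ((p ^ (e - a) : ℕ) : ZMod (p ^ e)))
          = (c : ZMod (p ^ e)) * ((p : ZMod (p ^ e)) ^ a * ((p ^ (e - a) : ℕ) : ZMod (p ^ e))) := by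
            ring
        _ = 0 := by rw [h1, mul_zero]
  have h1 : Nat.card {y : ZMod (p ^ e) // (p : ZMod (p ^ e)) ^ a * y = 0} =
      Nat.card (AddSubgroup.zmultiples (((p ^ (e - a) : ℕ)) : ZMod (p ^ e))) :=
    Nat.card_congr (Equiv.subtypeEquivRight hset)
  rw [h1, Nat.card_zmultiples, ZMod.addOrderOf_coe _ (pow_pos hp e).ne',
    Nat.gcd_eq_right (pow_dvd_pow p (Nat.sub_le e a)), Nat.pow_div (Nat.sub_le e a) hp]
  congr 1
  omega

section psi

variable (p : ℕ) (e m : ℕ) (lt : Fin m → ℕ)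

/-- multiplication of the entries by the powers of `p` -/
def Psi : SymG (Fin m) (ZMod (p ^ e)) →+ SymG (Fin m) (ZMod (p ^ e)) where
  toFun Y := ⟨Matrix.of fun i j => (p : ZMod (p ^ e)) ^ (max (lt i) (lt j)) * Y.1 i j, by
    have hY : Y.1.IsSymm := Y.2
    ext i j
    show (p : ZMod (p ^ e)) ^ (max (lt j) (lt i)) * Y.1 j i =
      (p : ZMod (p ^ e)) ^ (max (lt i) (lt j)) * Y.1 i j
    rw [max_comm, hY.apply]⟩
  map_zero' := by
    apply Subtype.ext
    ext i j
    simp
  map_add' := by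
    intro X Y
    apply Subtype.ext
    ext i j
    simp [mul_add]

theorem Psi_apply (Y : SymG (Fin m) (ZMod (p ^ e))) (i j : Fin m) :
    (Psi p e m lt Y).1 i j = (p : ZMod (p ^ e)) ^ (max (lt i) (lt j)) * Y.1 i j := rfl

/-- symmetric matrix from its upper triangle -/
def ofTri {α : Type} {m : ℕ} (c : {x : Fin m × Fin m // x.1 ≤ x.2} → α) : Matrix (Fin m) (Fin m) α :=
  Matrix.of fun i j => if h : i ≤ j then c ⟨(i, j), h⟩ else c ⟨(j, i), le_of_not_ge h⟩

theorem ofTri_of_le {α : Type} {m : ℕ} (c : {x : Fin m × Fin m // x.1 ≤ x.2} → α) {i j : Fin m}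
    (h : i ≤ j) : ofTri c i j = c ⟨(i, j), h⟩ := dif_pos h

theorem ofTri_of_ge {α : Type} {m : ℕ} (c : {x : Fin m × Fin m // x.1 ≤ x.2} → α) {i j : Fin m}
    (h : j ≤ i) : ofTri c i j = c ⟨(j, i), h⟩ := by
  by_cases h' : i ≤ j
  · have : i = j := le_antisymm h' h
    subst this
    exact ofTri_of_le c h'
  · exact dif_neg h'

theorem ofTri_symm {α : Type} {m : ℕ} (c : {x : Fin m × Fin m // x.1 ≤ x.2} → α) :
    (ofTri c).IsSymm := by
  ext i j
  show ofTri c j i = ofTri c i j
  rcases le_total i j with h | h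
  · rw [ofTri_of_le c h, ofTri_of_ge c h]
  · rw [ofTri_of_le c h, ofTri_of_ge c h]

theorem card_ker_Psi [Fact p.Prime] (hlt : ∀ i, lt i < e) :
    Nat.card (Psi p e m lt).ker =
      p ^ (∑ x ∈ (univ : Finset (Fin m × Fin m)).filter (fun x => x.1 ≤ x.2),
          max (lt x.1) (lt x.2)) := by
  have h1 : Nat.card (Psi p e m lt).ker = Nat.card
      ((x : {x : Fin m × Fin m // x.1 ≤ x.2}) →
        {y : ZMod (p ^ e) // (p : ZMod (p ^ e)) ^ (max (lt x.1.1) (lt x.1.2)) * y = 0}) := by
    refine Nat.card_congr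
      { toFun := fun Y x => ⟨Y.1.1 x.1.1 x.1.2, by
          have h := Y.2
          rw [AddMonoidHom.mem_ker] at h
          have h2 := congrArg (fun Z : SymG (Fin m) (ZMod (p ^ e)) => Z.1 x.1.1 x.1.2) h
          exact h2⟩
        invFun := fun c => ⟨⟨ofTri fun x => (c x).1, ofTri_symm _⟩, by
          rw [AddMonoidHom.mem_ker]
          apply Subtype.ext
          ext i j
          show (p : ZMod (p ^ e)) ^ (max (lt i) (lt j)) * ofTri (fun x => (c x).1) i j = 0
          rcases le_total i j with h | h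
          · rw [ofTri_of_le _ h]
            exact (c ⟨(i, j), h⟩).2
          · rw [ofTri_of_ge _ h, max_comm]
            exact (c ⟨(j, i), h⟩).2⟩
        left_inv := fun Y => by
          apply Subtype.ext
          apply Subtype.ext
          ext i j
          show ofTri (fun x => Y.1.1 x.1.1 x.1.2) i j = Y.1.1 i j
          have hY : Y.1.1.IsSymm := Y.1.2
          rcases le_total i j with h | h
          · rw [ofTri_of_le _ h]
          · rw [ofTri_of_ge _ h]
            exact hY.apply i j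
        right_inv := fun c => by
          funext x
          apply Subtype.ext
          show ofTri (fun x => (c x).1) x.1.1 x.1.2 = (c x).1
          exact ofTri_of_le _ x.2 }
  rw [h1, Nat.card_pi]
  have h2 : ∀ x : {x : Fin m × Fin m // x.1 ≤ x.2},
      Nat.card {y : ZMod (p ^ e) // (p : ZMod (p ^ e)) ^ (max (lt x.1.1) (lt x.1.2)) * y = 0} =
        p ^ (max (lt x.1.1) (lt x.1.2)) := fun x =>
    card_tors p e _ (max_le (hlt _).le (hlt _).le)
  rw [Finset.prod_congr rfl fun x _ => h2 x, Finset.prod_pow_eq_pow_sum]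
  congr 1
  exact (Finset.sum_subtype (p := fun x : Fin m × Fin m => x.1 ≤ x.2) ((univ : Finset (Fin m × Fin m)).filter (fun x => x.1 ≤ x.2))
    (by simp) (fun x => max (lt x.1) (lt x.2))).symm

end psi

section red

variable (p : ℕ) [Fact p.Prime] (e : ℕ) (he : e ≠ 0)

/-- reduction mod `p` -/
def red : ZMod (p ^ e) →+* ZMod p := ZMod.castHom (dvd_pow_self p he) (ZMod p)

theorem red_natCast (n : ℕ) : red p e he (n : ZMod (p ^ e)) = (n : ZMod p) := map_natCast _ n

theorem red_eq (x : ZMod (p ^ e)) : red p e he x = (x.val : ZMod p) := by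
  haveI : NeZero (p ^ e) := ⟨(pow_pos (Fact.out : p.Prime).pos e).ne'⟩
  conv_lhs => rw [← ZMod.natCast_zmod_val x]
  exact red_natCast p e he _

theorem red_isUnit (x : ZMod (p ^ e)) : IsUnit (red p e he x) ↔ IsUnit x := by
  haveI : NeZero (p ^ e) := ⟨(pow_pos (Fact.out : p.Prime).pos e).ne'⟩
  rw [red_eq, ZMod.isUnit_iff_coprime]
  conv_rhs => rw [← ZMod.natCast_zmod_val x, ZMod.isUnit_iff_coprime]
  rw [Nat.coprime_pow_right_iff (Nat.pos_of_ne_zero he)]

theorem red_of_mul (a : ℕ) (ha : a < e) (x : ZMod (p ^ e)) (hx : (p : ZMod (p ^ e)) ^ a * x = 0) :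
    red p e he x = 0 := by
  have hp : 0 < p := (Fact.out : p.Prime).pos
  haveI : NeZero (p ^ e) := ⟨(pow_pos hp e).ne'⟩
  have h1 : ((p ^ a * x.val : ℕ) : ZMod (p ^ e)) = 0 := by
    push_cast
    rw [ZMod.natCast_zmod_val]
    exact hx
  rw [ZMod.natCast_eq_zero_iff] at h1
  have h2 : p ^ (e - a) ∣ x.val := by
    have h3 : p ^ a * p ^ (e - a) ∣ p ^ a * x.val := by
      rw [← pow_add, Nat.add_sub_cancel' ha.le]
      exact h1
    exact Nat.dvd_of_mul_dvd_mul_left (pow_pos hp a) h3
  rw [red_eq, ZMod.natCast_eq_zero_iff]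
  exact (dvd_pow_self p (by omega)).trans h2

theorem red_pow_pos (a : ℕ) (ha : 0 < a) (x : ZMod (p ^ e)) :
    red p e he ((p : ZMod (p ^ e)) ^ a * x) = 0 := by
  rw [map_mul, map_pow, red_natCast, ZMod.natCast_self, zero_pow ha.ne', zero_mul]

end red

section crit

variable (p : ℕ) [Fact p.Prime] (e m : ℕ) (he : e ≠ 0) (lt : Fin m → ℕ) (hlt : ∀ i, lt i < e)

/-- the level of an index -/
def lev (i : Fin m) : Fin e := ⟨lt i, hlt i⟩

/-- the blocks mod `p` -/
def Phi : SymG (Fin m) (ZMod (p ^ e)) →+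
    ((l : Fin e) → SymG {i // lev e m lt hlt i = l} (ZMod p)) where
  toFun Y l := ⟨Matrix.of fun i j => red p e he (Y.1 i.1 j.1), by
    have hY : Y.1.IsSymm := Y.2
    ext i j
    show red p e he (Y.1 j.1 i.1) = red p e he (Y.1 i.1 j.1)
    rw [hY.apply]⟩
  map_zero' := by
    funext l
    apply Subtype.ext
    ext i j
    show red p e he 0 = 0
    exact map_zero _
  map_add' := by
    intro X Y
    funext l
    apply Subtype.ext
    ext i j
    show red p e he (X.1 i.1 j.1 + Y.1 i.1 j.1) = red p e he (X.1 i.1 j.1) + red p e he (Y.1 i.1 j.1)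
    exact map_add _ _ _

theorem Phi_apply (Y : SymG (Fin m) (ZMod (p ^ e))) (l : Fin e)
    (i j : {i // lev e m lt hlt i = l}) :
    (Phi p e m he lt hlt Y l).1 i j = red p e he (Y.1 i.1 j.1) := rfl

/-- the cofactor of the diagonal matrix -/
def Um (Y : SymG (Fin m) (ZMod (p ^ e))) : Matrix (Fin m) (Fin m) (ZMod (p ^ e)) :=
  Matrix.of fun i j => (p : ZMod (p ^ e)) ^ (max (lt i) (lt j) - lt i) * Y.1 i j

theorem Psi_eq (Y : SymG (Fin m) (ZMod (p ^ e))) :
    (Psi p e m lt Y).1 =
      (Matrix.diagonal fun i => ((p : ZMod (p ^ e)) ^ lt i)) * Um p e m lt Y := by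
  ext i j
  rw [Psi_apply, Matrix.diagonal_mul]
  show _ = (p : ZMod (p ^ e)) ^ lt i *
    ((p : ZMod (p ^ e)) ^ (max (lt i) (lt j) - lt i) * Y.1 i j)
  rw [← mul_assoc, ← pow_add]
  congr 2
  have := le_max_left (lt i) (lt j)
  omega

include hlt in
theorem crit1 (Y : SymG (Fin m) (ZMod (p ^ e))) :
    LinearMap.range (Psi p e m lt Y).1.mulVecLin =
      LinearMap.range (Matrix.diagonal fun i => ((p : ZMod (p ^ e)) ^ lt i)).mulVecLin ↔
    IsUnit ((Um p e m lt Y).map (red p e he)).det := by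
  set D : Matrix (Fin m) (Fin m) (ZMod (p ^ e)) :=
    Matrix.diagonal fun i => ((p : ZMod (p ^ e)) ^ lt i) with hD
  constructor
  · intro h
    have hcol : ∀ j, ∃ v, (Psi p e m lt Y).1.mulVec v = D.mulVec (Pi.single j 1) := by
      intro j
      have : D.mulVecLin (Pi.single j 1) ∈ LinearMap.range (Psi p e m lt Y).1.mulVecLin := by
        rw [h]
        exact ⟨_, rfl⟩
      obtain ⟨v, hv⟩ := this
      exact ⟨v, hv⟩
    choose v hv using hcol
    let V : Matrix (Fin m) (Fin m) (ZMod (p ^ e)) := Matrix.of fun i j => v j i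
    have hMV : (Psi p e m lt Y).1 * V = D := by
      ext i j
      have h1 : ((Psi p e m lt Y).1 * V) i j = ((Psi p e m lt Y).1.mulVec (v j)) i := rfl
      rw [h1, hv j, Matrix.mulVec_single_one]
      rfl
    rw [Psi_eq, mul_assoc] at hMV
    have hent : ∀ i j, red p e he ((Um p e m lt Y * V) i j - (1 : Matrix (Fin m) (Fin m) _) i j) = 0 := by
      intro i j
      apply red_of_mul p e he (lt i) (hlt i)
      have h2 := congrFun (congrFun hMV i) j
      rw [hD, Matrix.diagonal_mul] at h2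
      rw [mul_sub, h2, sub_eq_zero, Matrix.diagonal_apply, Matrix.one_apply]
      split_ifs <;> simp
    have hUV : ((Um p e m lt Y).map (red p e he)) * (V.map (red p e he)) = 1 := by
      rw [← Matrix.map_mul]
      ext i j
      have h3 := hent i j
      rw [map_sub, sub_eq_zero] at h3
      rw [Matrix.map_apply, h3, Matrix.one_apply, Matrix.one_apply]
      split_ifs <;> simp
    exact Matrix.isUnit_det_of_right_inverse hUV
  · intro h
    have h1 : IsUnit (Um p e m lt Y).det := by
      rw [← red_isUnit p e he, RingHom.map_det]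
      exact h
    have h2 : Um p e m lt Y * (Um p e m lt Y)⁻¹ = 1 := Matrix.mul_nonsing_inv _ h1
    rw [Psi_eq, Matrix.mulVecLin_mul]
    apply LinearMap.range_comp_of_range_eq_top
    rw [LinearMap.range_eq_top]
    intro x
    refine ⟨(Um p e m lt Y)⁻¹.mulVec x, ?_⟩
    rw [Matrix.mulVecLin_apply, Matrix.mulVec_mulVec, h2, Matrix.one_mulVec]

theorem crit2 (Y : SymG (Fin m) (ZMod (p ^ e))) :
    IsUnit ((Um p e m lt Y).map (red p e he)).det ↔
      ∀ l, IsUnit (Phi p e m he lt hlt Y l).1.det := by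
  have hY : Y.1.IsSymm := Y.2
  have hb : Matrix.BlockTriangular ((Um p e m lt Y).map (red p e he)).transpose
      (lev e m lt hlt) := by
    intro i j hij
    have hij' : lt j < lt i := hij
    show red p e he ((p : ZMod (p ^ e)) ^ (max (lt j) (lt i) - lt j) * Y.1 j i) = 0
    apply red_pow_pos
    rw [max_eq_right hij'.le]
    omega
  rw [← Matrix.det_transpose, hb.det_fintype]
  have hblock : ∀ l, (((Um p e m lt Y).map (red p e he)).transpose.toSquareBlock
      (lev e m lt hlt) l) = (Phi p e m he lt hlt Y l).1 := by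
    intro l
    ext i j
    show red p e he ((p : ZMod (p ^ e)) ^ (max (lt j.1) (lt i.1) - lt j.1) * Y.1 j.1 i.1) =
      red p e he (Y.1 i.1 j.1)
    have h1 : lt i.1 = lt j.1 := by
      have := i.2.trans j.2.symm
      exact congrArg Fin.val this
    rw [h1, max_self, Nat.sub_self, pow_zero, one_mul, hY.apply]
  simp only [hblock]
  rw [IsUnit.prod_univ_iff]

theorem Phi_surj : Function.Surjective (Phi p e m he lt hlt) := by
  intro h
  let c : Fin m → Fin m → ZMod p := fun i j =>
    if hij : lev e m lt hlt j = lev e m lt hlt i then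
      (h (lev e m lt hlt i)).1 ⟨i, rfl⟩ ⟨j, hij⟩ else 0
  have hc : ∀ (l : Fin e) (i j : {i // lev e m lt hlt i = l}), c i.1 j.1 = (h l).1 i j := by
    rintro l ⟨i, hi⟩ ⟨j, hj⟩
    subst hi
    exact dif_pos hj
  have hcs : ∀ i j, c i j = c j i := by
    intro i j
    by_cases hij : lev e m lt hlt j = lev e m lt hlt i
    · have h1 := hc (lev e m lt hlt i) ⟨i, rfl⟩ ⟨j, hij⟩
      have h2 := hc (lev e m lt hlt i) ⟨j, hij⟩ ⟨i, rfl⟩
      have h3 : (h (lev e m lt hlt i)).1.IsSymm := (h (lev e m lt hlt i)).2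
      rw [h1, h2, h3.apply]
    · have h1 : c i j = 0 := dif_neg hij
      have h2 : c j i = 0 := dif_neg fun h => hij h.symm
      rw [h1, h2]
  refine ⟨⟨Matrix.of fun i j => (((c i j).val : ℕ) : ZMod (p ^ e)), ?_⟩, ?_⟩
  · ext i j
    show (((c j i).val : ℕ) : ZMod (p ^ e)) = (((c i j).val : ℕ) : ZMod (p ^ e))
    rw [hcs]
  · funext l
    apply Subtype.ext
    ext i j
    rw [Phi_apply]
    show red p e he (((c i.1 j.1).val : ℕ) : ZMod (p ^ e)) = _
    rw [red_natCast, ZMod.natCast_zmod_val, hc]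

theorem Psi_surj_good (M : SymG (Fin m) (ZMod (p ^ e)))
    (hM : LinearMap.range M.1.mulVecLin =
      LinearMap.range (Matrix.diagonal fun i => ((p : ZMod (p ^ e)) ^ lt i)).mulVecLin) :
    ∃ Y, Psi p e m lt Y = M := by
  have hMs : M.1.IsSymm := M.2
  have h1 : ∀ i j, ∃ c, M.1 i j = (p : ZMod (p ^ e)) ^ lt i * c := by
    intro i j
    have : M.1.mulVecLin (Pi.single j 1) ∈
        LinearMap.range (Matrix.diagonal fun i => ((p : ZMod (p ^ e)) ^ lt i)).mulVecLin := by
      rw [← hM]
      exact ⟨_, rfl⟩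
    obtain ⟨v, hv⟩ := this
    have h2 := congrFun hv i
    rw [Matrix.mulVecLin_apply, Matrix.mulVecLin_apply, Matrix.mulVec_single_one,
      Matrix.mulVec_diagonal] at h2
    exact ⟨v i, h2.symm⟩
  have h2 : ∀ i j, ∃ c, M.1 i j = (p : ZMod (p ^ e)) ^ (max (lt i) (lt j)) * c := by
    intro i j
    rcases le_total (lt i) (lt j) with h | h
    · rw [max_eq_right h, ← hMs.apply]
      exact h1 j i
    · rw [max_eq_left h]
      exact h1 i j
  choose c hc using h2
  refine ⟨⟨ofTri fun x => c x.1.1 x.1.2, ofTri_symm _⟩, ?_⟩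
  apply Subtype.ext
  ext i j
  rw [Psi_apply]
  rcases le_total i j with h | h
  · show (p : ZMod (p ^ e)) ^ (max (lt i) (lt j)) * ofTri (fun x => c x.1.1 x.1.2) i j = M.1 i j
    rw [ofTri_of_le _ h, ← hc i j]
  · show (p : ZMod (p ^ e)) ^ (max (lt i) (lt j)) * ofTri (fun x => c x.1.1 x.1.2) i j = M.1 i j
    rw [ofTri_of_ge _ h, max_comm, ← hc j i, hMs.apply]

end crit

theorem sig_reindex (p : ℕ) {ι : Type} [Fintype ι] [DecidableEq ι] (n : ℕ)
    (hn : Fintype.card ι = n) :
    sig p n = (Nat.card {M : Matrix ι ι (ZMod p) // M.IsSymm ∧ IsUnit M.det} : ℝ) /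
      Nat.card {M : Matrix ι ι (ZMod p) // M.IsSymm} := by
  unfold sig
  let f := Fintype.equivFinOfCardEq hn
  have hs : ∀ M : Matrix ι ι (ZMod p), M.IsSymm ↔ (Matrix.reindex f f M).IsSymm := by
    intro M
    constructor
    · intro h
      ext i j
      show M (f.symm j) (f.symm i) = M (f.symm i) (f.symm j)
      exact h.apply _ _
    · intro h
      ext i j
      have := h.apply (f i) (f j)
      simpa using this
  congr 1
  · norm_cast
    refine (Nat.card_congr (Equiv.subtypeEquiv (Matrix.reindex f f) fun M => ?_)).symm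
    rw [← hs M, Matrix.det_reindex_self]
  · norm_cast
    exact (Nat.card_congr (Equiv.subtypeEquiv (Matrix.reindex f f) hs)).symm

theorem range_count (p : ℕ) [Fact p.Prime] (e m : ℕ) (lt : Fin m → ℕ) (hlt : ∀ i, lt i < e) :
    (Nat.card {M : Matrix (Fin m) (Fin m) (ZMod (p ^ e)) // M.IsSymm ∧
        LinearMap.range M.mulVecLin =
          LinearMap.range (Matrix.diagonal fun i => ((p : ZMod (p ^ e)) ^ lt i)).mulVecLin} : ℝ)
      * (p : ℝ) ^ (∑ x ∈ (univ : Finset (Fin m × Fin m)).filter (fun x => x.1 ≤ x.2),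
          max (lt x.1) (lt x.2)) =
    Nat.card {M : Matrix (Fin m) (Fin m) (ZMod (p ^ e)) // M.IsSymm} *
      ∏ l ∈ range e, sig p ((univ : Finset (Fin m)).filter (fun i => lt i = l)).card := by
  classical
  by_cases he : e = 0
  · subst he
    have hm : m = 0 := by
      rcases Nat.eq_zero_or_pos m with h | h
      · exact h
      · exact absurd (hlt ⟨0, h⟩) (Nat.not_lt_zero _)
    subst hm
    have h1 : ∀ M : Matrix (Fin 0) (Fin 0) (ZMod (p ^ 0)), M.IsSymm := by
      intro M
      ext i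
      exact i.elim0
    simp only [range_zero, prod_empty, mul_one]
    have h2 : (∑ x ∈ (univ : Finset (Fin 0 × Fin 0)).filter (fun x => x.1 ≤ x.2),
          max (lt x.1) (lt x.2)) = 0 := by
      apply Finset.sum_eq_zero
      intro x
      exact x.1.elim0
    have h3 : (p : ℝ) ^ (0 : ℕ) = 1 := pow_zero _
    rw [h2, h3, mul_one]
    norm_cast
    refine Nat.card_congr (Equiv.subtypeEquivRight fun M => ?_)
    refine ⟨fun h => h.1, fun h => ⟨h, ?_⟩⟩
    congr 2
    ext i
    exact i.elim0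
  have hp : 0 < p := (Fact.out : p.Prime).pos
  haveI : NeZero (p ^ e) := ⟨(pow_pos hp e).ne'⟩
  -- notation
  let Good : SymG (Fin m) (ZMod (p ^ e)) → Prop := fun M => LinearMap.range M.1.mulVecLin =
    LinearMap.range (Matrix.diagonal fun i => ((p : ZMod (p ^ e)) ^ lt i)).mulVecLin
  let Inv : ((l : Fin e) → SymG {i // lev e m lt hlt i = l} (ZMod p)) → Prop :=
    fun h => ∀ l, IsUnit (h l).1.det
  have e1 := card_fib (Psi p e m lt) Good (Psi_surj_good p e m lt)
  have e2 := card_fib (Phi p e m he lt hlt) Inv (fun h _ => Phi_surj p e m he lt hlt h)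
  have e3 := card_fib (Phi p e m he lt hlt) (fun _ => True)
    (fun h _ => Phi_surj p e m he lt hlt h)
  have e4 : Nat.card {Y // Good (Psi p e m lt Y)} =
      Nat.card {Y // Inv (Phi p e m he lt hlt Y)} :=
    Nat.card_congr (Equiv.subtypeEquivRight fun Y =>
      (crit1 p e m he lt hlt Y).trans (crit2 p e m he lt hlt Y))
  have e5 : Nat.card {M : Matrix (Fin m) (Fin m) (ZMod (p ^ e)) // M.IsSymm ∧
        LinearMap.range M.mulVecLin =
          LinearMap.range (Matrix.diagonal fun i => ((p : ZMod (p ^ e)) ^ lt i)).mulVecLin} =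
      Nat.card {M // Good M} :=
    (Nat.card_congr (Equiv.subtypeSubtypeEquivSubtypeInter
      (fun M : Matrix (Fin m) (Fin m) (ZMod (p ^ e)) => M.IsSymm)
      (fun M => LinearMap.range M.mulVecLin =
        LinearMap.range (Matrix.diagonal fun i => ((p : ZMod (p ^ e)) ^ lt i)).mulVecLin))).symm
  have e6 : Nat.card {h // Inv h} = ∏ l : Fin e,
      Nat.card {M : Matrix {i // lev e m lt hlt i = l} {i // lev e m lt hlt i = l} (ZMod p) //
        M.IsSymm ∧ IsUnit M.det} := by
    rw [← Nat.card_pi]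
    refine Nat.card_congr ((Equiv.subtypePiEquivPi (p := fun (l : Fin e)
      (M : SymG {i // lev e m lt hlt i = l} (ZMod p)) => IsUnit M.1.det)).trans
      (Equiv.piCongrRight fun l => ?_))
    exact Equiv.subtypeSubtypeEquivSubtypeInter
      (fun M : Matrix {i // lev e m lt hlt i = l} {i // lev e m lt hlt i = l} (ZMod p) => M.IsSymm)
      (fun M => IsUnit M.det)
  have e7 : Nat.card {h : ((l : Fin e) → SymG {i // lev e m lt hlt i = l} (ZMod p)) // True} =
      ∏ l : Fin e, Nat.card {M : Matrix {i // lev e m lt hlt i = l}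
        {i // lev e m lt hlt i = l} (ZMod p) // M.IsSymm} := by
    rw [← Nat.card_pi]
    exact Nat.card_congr (Equiv.subtypeUnivEquiv fun _ => trivial)
  have e8 : Nat.card {Y : SymG (Fin m) (ZMod (p ^ e)) // True} =
      Nat.card {M : Matrix (Fin m) (Fin m) (ZMod (p ^ e)) // M.IsSymm} :=
    Nat.card_congr (Equiv.subtypeUnivEquiv fun _ => trivial)
  have e9 : ∏ l ∈ range e, sig p ((univ : Finset (Fin m)).filter (fun i => lt i = l)).card =
      ∏ l : Fin e, ((Nat.card {M : Matrix {i // lev e m lt hlt i = l}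
        {i // lev e m lt hlt i = l} (ZMod p) // M.IsSymm ∧ IsUnit M.det} : ℝ) /
        Nat.card {M : Matrix {i // lev e m lt hlt i = l}
        {i // lev e m lt hlt i = l} (ZMod p) // M.IsSymm}) := by
    rw [Finset.prod_range]
    apply Finset.prod_congr rfl
    intro l _
    apply sig_reindex
    rw [Fintype.card_subtype]
    congr 1
    ext i
    simp only [Finset.mem_filter, Finset.mem_univ, true_and]
    exact ⟨fun h => congrArg Fin.val h, fun h => Fin.ext h⟩
  have hpos : ∀ l : Fin e, (Nat.card {M : Matrix {i // lev e m lt hlt i = l}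
        {i // lev e m lt hlt i = l} (ZMod p) // M.IsSymm} : ℝ) ≠ 0 := by
    intro l
    haveI : Nonempty {M : Matrix {i // lev e m lt hlt i = l}
        {i // lev e m lt hlt i = l} (ZMod p) // M.IsSymm} := ⟨⟨0, Matrix.isSymm_zero⟩⟩
    have := Nat.card_pos (α := {M : Matrix {i // lev e m lt hlt i = l}
        {i // lev e m lt hlt i = l} (ZMod p) // M.IsSymm})
    positivity
  rw [card_ker_Psi p e m lt hlt] at e1
  have e10 : Nat.card {M : Matrix (Fin m) (Fin m) (ZMod (p ^ e)) // M.IsSymm ∧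
        LinearMap.range M.mulVecLin =
          LinearMap.range (Matrix.diagonal fun i => ((p : ZMod (p ^ e)) ^ lt i)).mulVecLin} *
      p ^ (∑ x ∈ (univ : Finset (Fin m × Fin m)).filter (fun x => x.1 ≤ x.2),
          max (lt x.1) (lt x.2)) =
      (∏ l : Fin e, Nat.card {M : Matrix {i // lev e m lt hlt i = l}
        {i // lev e m lt hlt i = l} (ZMod p) // M.IsSymm ∧ IsUnit M.det}) *
        Nat.card (Phi p e m he lt hlt).ker := by
    rw [e5, ← e1, e4, e2, e6]
  rw [e9, Finset.prod_div_distrib, ← e8, e3, e7]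
  have e11 := congrArg (fun n : ℕ => (n : ℝ)) e10
  push_cast at e11 ⊢
  rw [e11]
  have hprod : (∏ l : Fin e, (Nat.card {M : Matrix {i // lev e m lt hlt i = l}
        {i // lev e m lt hlt i = l} (ZMod p) // M.IsSymm} : ℝ)) ≠ 0 :=
    Finset.prod_ne_zero_iff.2 fun l _ => hpos l
  field_simp

end Sand
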