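import Pool.Agent.Helper793.Sand.Defs

set_option maxHeartbeats 4000000

open Finset Filter Topology

namespace Sand



namespace J6b

theorem card_preim {A B : Type} [Group A] [Group B] (f : A →* B)
    (hf : Function.Surjective f) (T : Set B) :
    Nat.card {a // f a ∈ T} = Nat.card T * Nat.card f.ker := by
  rw [← Nat.card_prod]
  choose s hs using hf
  refine Nat.card_congr
    { toFun := fun a => (⟨f a.1, a.2⟩, ⟨(s (f a.1))⁻¹ * a.1, ?_⟩)
      invFun := fun x => ⟨s x.1.1 * x.2.1, ?_⟩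
      left_inv := ?_
      right_inv := ?_ }
  · rw [MonoidHom.mem_ker, map_mul, map_inv, hs, inv_mul_cancel]
  · have h := x.2.2
    rw [MonoidHom.mem_ker] at h
    rw [map_mul, hs, h, mul_one]
    exact x.1.2
  · intro a
    ext
    simp
  · rintro ⟨⟨t, ht⟩, ⟨k, hk⟩⟩
    rw [MonoidHom.mem_ker] at hk
    have : f (s t * k) = t := by rw [map_mul, hs, hk, mul_one]
    ext
    · simp [this]
    · simp [this]

theorem card_sym_reindex (p : ℕ) {ι κ : Type} [Fintype ι] [Fintype κ] [DecidableEq ι]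
    [DecidableEq κ] (e : ι ≃ κ) (P : ZMod p → Prop) :
    Nat.card {M : Matrix ι ι (ZMod p) // M.IsSymm ∧ P M.det} =
      Nat.card {M : Matrix κ κ (ZMod p) // M.IsSymm ∧ P M.det} := by
  refine Nat.card_congr ((Matrix.reindex e e).subtypeEquiv fun M => ?_)
  rw [Matrix.det_reindex_self]
  refine and_congr ?_ Iff.rfl
  unfold Matrix.IsSymm
  constructor
  · intro h
    rw [Matrix.transpose_reindex, h]
  · intro h
    rw [Matrix.transpose_reindex] at h
    exact (Matrix.reindex e e).injective h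

/-- symmetric arrays of roots of unity -/
def CC (p : ℕ) {r : ℕ} (lam : Fin r → ℕ) : Subgroup (Fin r → Fin r → ℂˣ) where
  carrier := {c | (∀ a b, c a b = c b a) ∧ ∀ a b, c a b ^ (p ^ min (lam a) (lam b)) = 1}
  mul_mem' := by
    rintro c d ⟨h1, h2⟩ ⟨h3, h4⟩
    refine ⟨fun a b => ?_, fun a b => ?_⟩
    · simp only [Pi.mul_apply]; rw [h1 a b, h3 a b]
    · simp only [Pi.mul_apply]; rw [mul_pow, h2, h4, one_mul]
  one_mem' := by
    refine ⟨fun a b => rfl, fun a b => ?_⟩
    simp
  inv_mem' := by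
    rintro c ⟨h1, h2⟩
    refine ⟨fun a b => ?_, fun a b => ?_⟩
    · simp only [Pi.inv_apply]; rw [h1 a b]
    · simp only [Pi.inv_apply]; rw [inv_pow, h2, inv_one]

theorem card_CC (p : ℕ) [Fact p.Prime] {r : ℕ} (lam : Fin r → ℕ) :
    Nat.card (CC p lam) = p ^ (∑ x ∈ (univ : Finset (Fin r × Fin r)).filter
        (fun x => x.1 ≤ x.2), min (lam x.1) (lam x.2)) := by
  have hp : p ≠ 0 := (Fact.out : p.Prime).ne_zero
  have e : CC p lam ≃ ((x : {x : Fin r × Fin r // x.1 ≤ x.2}) →
      rootsOfUnity (p ^ min (lam x.1.1) (lam x.1.2)) ℂ) :=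
    { toFun := fun c x => ⟨c.1 x.1.1 x.1.2, by
        rw [mem_rootsOfUnity]; exact c.2.2 _ _⟩
      invFun := fun d => ⟨fun a b => if h : a ≤ b then (d ⟨(a, b), h⟩ : ℂˣ) else
        (d ⟨(b, a), (not_le.1 h).le⟩ : ℂˣ), by
          refine ⟨fun a b => ?_, fun a b => ?_⟩
          · rcases lt_trichotomy a b with h | h | h
            · simp only [h.le, not_le.2 h, dite_true, dite_false]
            · subst h; rfl
            · simp only [h.le, not_le.2 h, dite_true, dite_false]
          · by_cases h : a ≤ b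
            · simp only [h, dite_true]
              have := (d ⟨(a, b), h⟩).2
              rwa [mem_rootsOfUnity] at this
            · simp only [h, dite_false]
              have := (d ⟨(b, a), (not_le.1 h).le⟩).2
              rw [mem_rootsOfUnity] at this
              refine Eq.trans ?_ this
              exact congrArg (fun n => ((d ⟨(b, a), (not_le.1 h).le⟩ : ℂˣ)) ^ n)
                (by rw [min_comm])⟩
      left_inv := by
        rintro ⟨c, hc1, hc2⟩
        ext a b
        by_cases h : a ≤ b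
        · simp [h]
        · simp [h]
          rw [hc1]
      right_inv := by
        intro d
        funext ⟨x, hx⟩
        ext
        simp [hx] }
  rw [Nat.card_congr e, Nat.card_pi]
  have : ∀ x : {x : Fin r × Fin r // x.1 ≤ x.2},
      Nat.card (rootsOfUnity (p ^ min (lam x.1.1) (lam x.1.2)) ℂ) =
        p ^ min (lam x.1.1) (lam x.1.2) := by
    intro x
    have : NeZero (p ^ min (lam x.1.1) (lam x.1.2)) := ⟨pow_ne_zero _ hp⟩
    exact Complex.card_rootsOfUnity _
  rw [Finset.prod_congr rfl fun x _ => this x, Finset.prod_pow_eq_pow_sum]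
  congr 1
  rw [Finset.sum_subtype (univ.filter (fun x : Fin r × Fin r => x.1 ≤ x.2))
    (p := fun x => x.1 ≤ x.2) (by simp)]

section lg

variable (p : ℕ) [Fact p.Prime]

local instance instNZ : NeZero p := ⟨(Fact.out : p.Prime).ne_zero⟩

theorem exists_lg (z : ℂˣ) (hz : z ^ p = 1) : ∃ u : ZMod p, ZMod.stdAddChar u = (z : ℂ) := by
  have h1 : ((z : ℂˣ) : ℂ) ^ p = 1 := by
    rw [← Units.val_pow_eq_pow_val, hz, Units.val_one]
  obtain ⟨i, _, hi⟩ := (Complex.isPrimitiveRoot_exp p (NeZero.ne p)).eq_pow_of_pow_eq_one h1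
  refine ⟨((i : ℤ) : ZMod p), ?_⟩
  rw [ZMod.stdAddChar_coe, ← hi, ← Complex.exp_nat_mul]
  congr 1
  push_cast
  ring

/-- logarithm of `p`-th roots of unity -/
noncomputable def lg (z : ℂˣ) : ZMod p := by
  classical exact if hz : z ^ p = 1 then (exists_lg p z hz).choose else 0

theorem lg_spec {z : ℂˣ} (hz : z ^ p = 1) : ZMod.stdAddChar (lg p z) = (z : ℂ) := by
  unfold lg
  rw [dif_pos hz]
  exact (exists_lg p z hz).choose_spec

theorem lg_mul {z w : ℂˣ} (hz : z ^ p = 1) (hw : w ^ p = 1) : lg p (z * w) = lg p z + lg p w := by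
  apply ZMod.injective_stdAddChar
  rw [AddChar.map_add_eq_mul, lg_spec p hz, lg_spec p hw, lg_spec p (by rw [mul_pow, hz, hw, one_mul]),
    Units.val_mul]

theorem lg_one : lg p 1 = 0 := by
  apply ZMod.injective_stdAddChar
  rw [lg_spec p (one_pow p), AddChar.map_zero_eq_one, Units.val_one]

theorem exists_lg_inv (u : ZMod p) : ∃ z : ℂˣ, z ^ p = 1 ∧ lg p z = u := by
  have h : (((ZMod.stdAddChar u : ℂ))) ^ p = 1 := by
    rw [← AddChar.map_nsmul_eq_pow]
    simp
  have hu : IsUnit (ZMod.stdAddChar u : ℂ) := AddChar.val_isUnit _ _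
  refine ⟨hu.unit, ?_, ?_⟩
  · ext
    rw [Units.val_pow_eq_pow_val, IsUnit.unit_spec, h, Units.val_one]
  · apply ZMod.injective_stdAddChar
    rw [lg_spec p, IsUnit.unit_spec]
    ext
    rw [Units.val_pow_eq_pow_val, IsUnit.unit_spec, h, Units.val_one]

end lg

section pairing
variable (p : ℕ) [Fact p.Prime] {r : ℕ} (lam : Fin r → ℕ)

/-- basis -/
def ee (a : Fin r) : Gp p lam := Pi.single a 1

local instance instNZpow (k : ℕ) : NeZero (p ^ k) := ⟨pow_ne_zero _ (Fact.out : p.Prime).ne_zero⟩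

theorem gp_eq (x : Gp p lam) : x = ∑ a, (x a).val • ee p lam a := by
  funext b
  rw [Finset.sum_apply, Finset.sum_eq_single b]
  · rw [Pi.smul_apply, ee, Pi.single_eq_same, nsmul_eq_mul, mul_one, ZMod.natCast_zmod_val]
  · intro a _ hab
    rw [Pi.smul_apply, ee, Pi.single_eq_of_ne (Ne.symm hab), smul_zero]
  · intro h; exact absurd (Finset.mem_univ _) h

theorem left_formula (β : Gp p lam →+ AddChar (Gp p lam) ℂ) (n : Fin r → ℕ) (y : Gp p lam) :
    β (∑ a, n a • ee p lam a) y = ∏ a, (β (ee p lam a) y) ^ (n a) := by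
  rw [map_sum, AddChar.sum_apply]
  refine Finset.prod_congr rfl fun a _ => ?_
  rw [map_nsmul, AddChar.nsmul_apply]

theorem right_formula (ψ : AddChar (Gp p lam) ℂ) (n : Fin r → ℕ) :
    ψ (∑ a, n a • ee p lam a) = ∏ a, (ψ (ee p lam a)) ^ (n a) := by
  have key : ∀ s : Finset (Fin r), ψ (∑ a ∈ s, n a • ee p lam a) =
      ∏ a ∈ s, (ψ (ee p lam a)) ^ (n a) := by
    intro s
    induction s using Finset.induction_on with
    | empty => simp
    | insert a s ha ih =>
      rw [Finset.sum_insert ha, Finset.prod_insert ha, AddChar.map_add_eq_mul, ih,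
        AddChar.map_nsmul_eq_pow]
  exact key univ

theorem pairing_formula (β : Gp p lam →+ AddChar (Gp p lam) ℂ) (x y : Gp p lam) :
    β x y = ∏ a, ∏ b, (β (ee p lam a) (ee p lam b)) ^ ((x a).val * (y b).val) := by
  conv_lhs => rw [gp_eq p lam x, left_formula]
  refine Finset.prod_congr rfl fun a _ => ?_
  conv_lhs => rw [gp_eq p lam y, right_formula]
  rw [← Finset.prod_pow]
  refine Finset.prod_congr rfl fun b _ => ?_
  rw [← pow_mul, mul_comm]

theorem pow_add_val {N : ℕ} [NeZero N] (ζ : ℂ) (h : ζ ^ N = 1) (x y : ZMod N) :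
    ζ ^ (x + y).val = ζ ^ x.val * ζ ^ y.val := by
  rw [ZMod.val_add, ← pow_add]
  exact (pow_eq_pow_mod _ h).symm

theorem CC_pow_left (c : CC p lam) (a b : Fin r) : ((c.1 a b : ℂˣ) : ℂ) ^ (p ^ lam a) = 1 := by
  have h := c.2.2 a b
  have h2 : (c.1 a b) ^ (p ^ lam a) = 1 := by
    obtain ⟨k, hk⟩ := pow_dvd_pow p (min_le_left (lam a) (lam b))
    rw [hk, pow_mul, h, one_pow]
  rw [← Units.val_pow_eq_pow_val, h2, Units.val_one]

theorem CC_pow_right (c : CC p lam) (a b : Fin r) : ((c.1 a b : ℂˣ) : ℂ) ^ (p ^ lam b) = 1 := by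
  rw [c.2.1 a b]; exact CC_pow_left p lam c b a

/-- the pairing of an array -/
noncomputable def pairC (c : CC p lam) : Gp p lam →+ AddChar (Gp p lam) ℂ where
  toFun x :=
    { toFun := fun y => ∏ a, ∏ b, ((c.1 a b : ℂˣ) : ℂ) ^ ((x a).val * (y b).val)
      map_zero_eq_one' := by simp
      map_add_eq_mul' := by
        intro y z
        rw [← Finset.prod_mul_distrib]
        refine Finset.prod_congr rfl fun a _ => ?_
        rw [← Finset.prod_mul_distrib]
        refine Finset.prod_congr rfl fun b _ => ?_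
        rw [pow_mul, pow_mul, pow_mul]
        exact pow_add_val _ (by rw [← pow_mul, mul_comm, pow_mul, CC_pow_right, one_pow]) _ _ }
  map_zero' := by
    ext y
    simp
  map_add' := by
    intro x z
    ext y
    simp only [AddChar.coe_mk, AddChar.add_apply]
    rw [← Finset.prod_mul_distrib]
    refine Finset.prod_congr rfl fun a _ => ?_
    rw [← Finset.prod_mul_distrib]
    refine Finset.prod_congr rfl fun b _ => ?_
    rw [mul_comm _ (y b).val, mul_comm _ (y b).val, mul_comm _ (y b).val, pow_mul, pow_mul, pow_mul]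
    exact pow_add_val _ (by rw [← pow_mul, mul_comm, pow_mul, CC_pow_left, one_pow]) _ _

theorem pairC_apply (c : CC p lam) (x y : Gp p lam) :
    pairC p lam c x y = ∏ a, ∏ b, ((c.1 a b : ℂˣ) : ℂ) ^ ((x a).val * (y b).val) := rfl

theorem pairC_ee (hlam : ∀ a, 1 ≤ lam a) (c : CC p lam) (a b : Fin r) :
    pairC p lam c (ee p lam a) (ee p lam b) = ((c.1 a b : ℂˣ) : ℂ) := by
  have h1 : ∀ a, Fact (1 < p ^ lam a) := fun a =>
    ⟨Nat.one_lt_pow (by have := hlam a; omega) (Fact.out : p.Prime).one_lt⟩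
  rw [pairC_apply, Finset.prod_eq_single a, Finset.prod_eq_single b]
  · have := h1 a
    have := h1 b
    simp [ee, ZMod.val_one]
  · intro b' _ hb
    simp [ee, Pi.single_eq_of_ne hb]
  · intro h; exact absurd (Finset.mem_univ _) h
  · intro a' _ ha
    simp [ee, Pi.single_eq_of_ne ha]
  · intro h; exact absurd (Finset.mem_univ _) h

theorem ee_order (a : Fin r) : (p ^ lam a) • ee p lam a = 0 := by
  rw [ee, ← Pi.single_smul]
  simp

/-- the array of a symmetric pairing -/
noncomputable def arr (β : Gp p lam →+ AddChar (Gp p lam) ℂ) (h : ∀ x y, β x y = β y x) :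
    CC p lam :=
  ⟨fun a b => (AddChar.val_isUnit (β (ee p lam a)) (ee p lam b)).unit, by
    refine ⟨fun a b => ?_, fun a b => ?_⟩
    · ext
      rw [IsUnit.unit_spec, IsUnit.unit_spec, h]
    · ext
      rw [Units.val_pow_eq_pow_val, IsUnit.unit_spec, Units.val_one]
      have key : ∀ a b, (β (ee p lam a)) (ee p lam b) ^ (p ^ lam b) = 1 := by
        intro a b
        rw [← AddChar.map_nsmul_eq_pow, ee_order, AddChar.map_zero_eq_one]
      rcases le_total (lam a) (lam b) with h1 | h1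
      · rw [min_eq_left h1, h]; exact key b a
      · rw [min_eq_right h1]; exact key a b⟩

theorem arr_apply (β : Gp p lam →+ AddChar (Gp p lam) ℂ) (h : ∀ x y, β x y = β y x)
    (a b : Fin r) : (((arr p lam β h).1 a b : ℂˣ) : ℂ) = β (ee p lam a) (ee p lam b) := rfl

/-- equivalence of symmetric pairings and arrays -/
noncomputable def pairEquiv (hlam : ∀ a, 1 ≤ lam a) :
    {β : Gp p lam →+ AddChar (Gp p lam) ℂ // ∀ x y, β x y = β y x} ≃ CC p lam where
  toFun β := arr p lam β.1 β.2
  invFun c := ⟨pairC p lam c, by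
    intro x y
    rw [pairC_apply, pairC_apply, Finset.prod_comm]
    refine Finset.prod_congr rfl fun a _ => Finset.prod_congr rfl fun b _ => ?_
    rw [c.2.1, mul_comm]⟩
  left_inv := by
    rintro ⟨β, hβ⟩
    refine Subtype.ext (AddMonoidHom.ext fun x => DFunLike.ext _ _ fun y => ?_)
    show pairC p lam (arr p lam β hβ) x y = β x y
    rw [pairC_apply, pairing_formula p lam β]
    rfl
  right_inv := by
    intro c
    ext a b
    exact pairC_ee p lam hlam c a b

end pairing

section perf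
variable (p : ℕ) [Fact p.Prime] {r : ℕ} (lam : Fin r → ℕ)

/-- the matrix of the pairing on the socle -/
noncomputable def MM (c : CC p lam) : Matrix (Fin r) (Fin r) (ZMod p) :=
  fun a b => lg p (c.1 a b ^ (p ^ (lam a - 1)))

theorem MM_root (hlam : ∀ a, 1 ≤ lam a) (c : CC p lam) (a b : Fin r) :
    (c.1 a b ^ (p ^ (lam a - 1))) ^ p = 1 := by
  ext
  rw [← pow_mul, ← pow_succ, Nat.sub_add_cancel (hlam a), Units.val_pow_eq_pow_val,
    CC_pow_left, Units.val_one]

theorem MM_triangular (c : CC p lam) : (MM p lam c).BlockTriangular lam := by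
  intro a b hab
  have h : c.1 a b ^ (p ^ (lam a - 1)) = 1 := by
    ext
    obtain ⟨k, hk⟩ := pow_dvd_pow p (show lam b ≤ lam a - 1 by omega)
    rw [Units.val_pow_eq_pow_val, hk, pow_mul, CC_pow_right, one_pow, Units.val_one]
  show lg p _ = 0
  rw [h, lg_one]

theorem pair_socle (hlam : ∀ a, 1 ≤ lam a) (c : CC p lam) (t : Fin r → ℕ) (b : Fin r) :
    pairC p lam c (∑ a, (p ^ (lam a - 1) * t a) • ee p lam a) (ee p lam b) =
      ZMod.stdAddChar (Matrix.vecMul (fun a => (t a : ZMod p)) (MM p lam c) b) := by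
  have hs : ∀ s : Finset (Fin r), (ZMod.stdAddChar (∑ a ∈ s, (t a : ZMod p) * MM p lam c a b) : ℂ) =
      ∏ a ∈ s, ZMod.stdAddChar ((t a : ZMod p) * MM p lam c a b) := by
    intro s
    induction s using Finset.induction_on with
    | empty => simp
    | insert a s ha ih => rw [Finset.sum_insert ha, Finset.prod_insert ha, AddChar.map_add_eq_mul, ih]
  have h1 : Matrix.vecMul (fun a => (t a : ZMod p)) (MM p lam c) b =
      ∑ a, (t a : ZMod p) * MM p lam c a b := rfl
  rw [h1, hs, left_formula]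
  refine Finset.prod_congr rfl fun a _ => ?_
  rw [pairC_ee p lam hlam, ← nsmul_eq_mul, AddChar.map_nsmul_eq_pow, MM,
    lg_spec p (MM_root p lam hlam c a b), Units.val_pow_eq_pow_val, pow_mul]

theorem pair_zero_iff (β : Gp p lam →+ AddChar (Gp p lam) ℂ) (x : Gp p lam) :
    β x = 0 ↔ ∀ b, β x (ee p lam b) = 1 := by
  constructor
  · intro h b; rw [h]; rfl
  · intro h
    refine DFunLike.ext _ _ fun y => ?_
    rw [gp_eq p lam y, right_formula, AddChar.zero_apply]
    refine Finset.prod_eq_one fun b _ => ?_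
    rw [h, one_pow]

theorem perf_iff (hlam : ∀ a, 1 ≤ lam a) (c : CC p lam) :
    Function.Bijective (pairC p lam c) ↔ (MM p lam c).det ≠ 0 := by
  have hp : p.Prime := Fact.out
  have hcard : Fintype.card (Gp p lam) = Fintype.card (AddChar (Gp p lam) ℂ) :=
    (AddChar.card_eq (α := Gp p lam)).symm
  rw [Fintype.bijective_iff_injective_and_card, and_iff_left hcard, injective_iff_map_eq_zero]
  constructor
  · intro h hdet
    obtain ⟨v, hv0, hv⟩ := Matrix.exists_vecMul_eq_zero_iff.2 hdet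
    have h2 := h (∑ a, (p ^ (lam a - 1) * (v a).val) • ee p lam a) (by
      rw [pair_zero_iff]
      intro b
      rw [pair_socle p lam hlam]
      have : (fun a => (((v a).val : ℕ) : ZMod p)) = v := by funext a; simp
      rw [this, hv]
      simp)
    apply hv0
    funext a
    have h3 := congrFun h2 a
    have h4 : (∑ a, (p ^ (lam a - 1) * (v a).val) • ee p lam a) a =
        ((p ^ (lam a - 1) * (v a).val : ℕ) : ZMod (p ^ lam a)) := by
      rw [Finset.sum_apply, Finset.sum_eq_single a]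
      · rw [Pi.smul_apply, ee, Pi.single_eq_same, nsmul_eq_mul, mul_one]
      · intro b _ hab
        rw [Pi.smul_apply, ee, Pi.single_eq_of_ne (Ne.symm hab), smul_zero]
      · intro h; exact absurd (Finset.mem_univ _) h
    rw [h4, Pi.zero_apply, ZMod.natCast_eq_zero_iff] at h3
    have h5 : p ^ (lam a - 1) * p ∣ p ^ (lam a - 1) * (v a).val := by
      rw [← pow_succ, Nat.sub_add_cancel (hlam a)]; exact h3
    have h6 : p ∣ (v a).val := Nat.dvd_of_mul_dvd_mul_left (pow_pos hp.pos _) h5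
    have h7 := (ZMod.natCast_eq_zero_iff (v a).val p).2 h6
    rwa [ZMod.natCast_zmod_val] at h7
  · intro hdet x hx
    by_contra hx0
    -- find the p-torsion multiple
    have hex : ∃ k, (p ^ k) • x = 0 := by
      obtain ⟨E, hE⟩ : ∃ E, ∀ a, lam a ≤ E := ⟨∑ a, lam a, fun a =>
        Finset.single_le_sum (f := lam) (fun _ _ => Nat.zero_le _) (Finset.mem_univ a)⟩
      refine ⟨E, ?_⟩
      funext a
      rw [Pi.smul_apply, Pi.zero_apply, nsmul_eq_mul]
      have : ((p ^ E : ℕ) : ZMod (p ^ lam a)) = 0 :=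
        (ZMod.natCast_eq_zero_iff _ _).2 (pow_dvd_pow p (hE a))
      rw [this, zero_mul]
    classical
    let k := Nat.find hex
    have hk : (p ^ k) • x = 0 := Nat.find_spec hex
    have hk0 : k ≠ 0 := by
      intro h0
      rw [h0] at hk
      exact hx0 (by simpa using hk)
    have hk1 : (p ^ (k - 1)) • x ≠ 0 := Nat.find_min hex (by omega)
    set y := (p ^ (k - 1)) • x with hy
    have hpy : p • y = 0 := by
      rw [hy, ← mul_nsmul', ← pow_succ', Nat.sub_add_cancel (by omega)]
      exact hk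
    have hβy : pairC p lam c y = 0 := by rw [hy, map_nsmul, hx, smul_zero]
    have hdiv : ∀ a, p ^ (lam a - 1) ∣ (y a).val := by
      intro a
      have h1 := congrFun hpy a
      rw [Pi.smul_apply, Pi.zero_apply, nsmul_eq_mul] at h1
      have h2 : ((p * (y a).val : ℕ) : ZMod (p ^ lam a)) = 0 := by
        rw [Nat.cast_mul, ZMod.natCast_zmod_val]; exact h1
      rw [ZMod.natCast_eq_zero_iff] at h2
      have h3 : p * p ^ (lam a - 1) ∣ p * (y a).val := by
        rw [← pow_succ', Nat.sub_add_cancel (hlam a)]; exact h2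
      exact Nat.dvd_of_mul_dvd_mul_left hp.pos h3
    choose t ht using hdiv
    have hyt : y = ∑ a, (p ^ (lam a - 1) * t a) • ee p lam a := by
      conv_lhs => rw [gp_eq p lam y]
      refine Finset.sum_congr rfl fun a _ => ?_
      rw [ht]
    have hvec : Matrix.vecMul (fun a => (t a : ZMod p)) (MM p lam c) = 0 := by
      funext b
      apply ZMod.injective_stdAddChar
      rw [← pair_socle p lam hlam, ← hyt, hβy]
      simp
    have ht0 := Matrix.eq_zero_of_vecMul_eq_zero hdet hvec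
    apply hk1
    funext a
    have h1 := congrFun ht0 a
    simp only [Pi.zero_apply] at h1
    rw [ZMod.natCast_eq_zero_iff] at h1
    obtain ⟨u, hu⟩ := h1
    have h2 : (y a).val = p ^ lam a * u := by
      rw [ht a, hu, ← mul_assoc, ← pow_succ, Nat.sub_add_cancel (hlam a)]
    have h3 : (((y a).val : ℕ) : ZMod (p ^ lam a)) = 0 := by
      rw [ZMod.natCast_eq_zero_iff, h2]; exact dvd_mul_right _ _
    rwa [ZMod.natCast_zmod_val] at h3

end perf

section final
variable (p : ℕ) [Fact p.Prime] {r : ℕ} (lam : Fin r → ℕ)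

/-- symmetric matrices -/
def symS (p : ℕ) (ι : Type) : AddSubgroup (Matrix ι ι (ZMod p)) where
  carrier := {M | M.IsSymm}
  zero_mem' := Matrix.isSymm_zero
  add_mem' := fun h1 h2 => h1.add h2
  neg_mem' := fun h => h.neg

/-- the blocks of an array -/
noncomputable def blk (e : ℕ) : CC p lam →*
    Multiplicative ((l : {l // l ∈ Finset.Ico 1 e}) → symS p {a : Fin r // lam a = l.1}) where
  toFun c := Multiplicative.ofAdd fun l => ⟨fun a b => lg p (c.1 a b ^ (p ^ (l.1 - 1))), by
    show Matrix.IsSymm _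
    ext a b
    show lg p (c.1 b a ^ (p ^ (l.1 - 1))) = lg p (c.1 a b ^ (p ^ (l.1 - 1)))
    rw [c.2.1]⟩
  map_one' := by
    rw [← ofAdd_zero]
    congr 1
    funext l
    ext a b
    show lg p ((1 : ℂˣ) ^ (p ^ (l.1 - 1))) = 0
    rw [one_pow, lg_one]
  map_mul' := by
    intro c d
    rw [← ofAdd_add]
    congr 1
    funext l
    ext a b
    show lg p ((c.1 a b * d.1 a b) ^ (p ^ (l.1 - 1))) = lg p (c.1 a b ^ (p ^ (l.1 - 1))) +
      lg p (d.1 a b ^ (p ^ (l.1 - 1)))
    have hl : 1 ≤ l.1 := (Finset.mem_Ico.1 l.2).1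
    have key : ∀ c : CC p lam, (c.1 a b ^ (p ^ (l.1 - 1))) ^ p = 1 := by
      intro c
      ext
      rw [← pow_mul, ← pow_succ, Nat.sub_add_cancel hl, Units.val_pow_eq_pow_val]
      have := CC_pow_left p lam c a.1 b.1
      rw [a.2] at this
      rw [this, Units.val_one]
    rw [mul_pow, lg_mul p (key c) (key d)]

theorem exists_zz (l : ℕ) (hl : 1 ≤ l) (u : ZMod p) :
    ∃ z : ℂˣ, z ^ (p ^ l) = 1 ∧ lg p (z ^ (p ^ (l - 1))) = u := by
  obtain ⟨w, hw, hwu⟩ := exists_lg_inv p u
  obtain ⟨z, hz⟩ := IsAlgClosed.exists_pow_nat_eq (w : ℂ)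
    (pow_pos (Fact.out : p.Prime).pos (l - 1))
  have hz0 : z ≠ 0 := by
    rintro rfl
    rw [zero_pow (pow_pos (Fact.out : p.Prime).pos _).ne'] at hz
    exact w.ne_zero hz.symm
  have h1 : (Units.mk0 z hz0) ^ (p ^ (l - 1)) = w := by
    ext
    rw [Units.val_pow_eq_pow_val, Units.val_mk0, hz]
  refine ⟨Units.mk0 z hz0, ?_, ?_⟩
  · obtain ⟨k, rfl⟩ : ∃ k, l = k + 1 := ⟨l - 1, by omega⟩
    rw [pow_succ, pow_mul]
    simp only [Nat.add_sub_cancel] at h1
    rw [h1, hw]
  · rw [h1, hwu]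

theorem blk_surj (e : ℕ) (hlam : ∀ a, 1 ≤ lam a) : Function.Surjective (blk p lam e) := by
  classical
  intro B0
  rw [show B0 = Multiplicative.ofAdd (Multiplicative.toAdd B0) from rfl]
  generalize Multiplicative.toAdd B0 = B
  have hzz : ∀ l : ℕ, ∀ u : ZMod p, ∃ z : ℂˣ, z ^ (p ^ l) = 1 ∧
      (1 ≤ l → lg p (z ^ (p ^ (l - 1))) = u) := by
    intro l u
    by_cases hl : 1 ≤ l
    · obtain ⟨z, h1, h2⟩ := exists_zz p l hl u
      exact ⟨z, h1, fun _ => h2⟩
    · exact ⟨1, one_pow _, fun h => absurd h hl⟩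
  choose zz hz1 hz2 using hzz
  let Bf : ℕ → Fin r → Fin r → ZMod p := fun l a b =>
    if h : l ∈ Finset.Ico 1 e ∧ lam a = l ∧ lam b = l then
      (B ⟨l, h.1⟩).1 ⟨a, h.2.1⟩ ⟨b, h.2.2⟩ else 0
  have hBs : ∀ l a b, Bf l a b = Bf l b a := by
    intro l a b
    by_cases h : l ∈ Finset.Ico 1 e ∧ lam a = l ∧ lam b = l
    · have h' : l ∈ Finset.Ico 1 e ∧ lam b = l ∧ lam a = l := ⟨h.1, h.2.2, h.2.1⟩
      simp only [Bf, dif_pos h, dif_pos h']
      have hs : (B ⟨l, h.1⟩).1.IsSymm := (B ⟨l, h.1⟩).2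
      exact (hs.apply _ _).symm
    · have h' : ¬ (l ∈ Finset.Ico 1 e ∧ lam b = l ∧ lam a = l) :=
        fun h' => h ⟨h'.1, h'.2.2, h'.2.1⟩
      simp only [Bf, dif_neg h, dif_neg h']
  let c : Fin r → Fin r → ℂˣ := fun a b => if lam a = lam b then zz (lam a) (Bf (lam a) a b) else 1
  have hc : c ∈ CC p lam := by
    refine ⟨fun a b => ?_, fun a b => ?_⟩
    · by_cases h : lam a = lam b
      · simp only [c, if_pos h, if_pos h.symm]
        rw [h, hBs]
      · simp only [c, if_neg h, if_neg (Ne.symm h)]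
    · by_cases h : lam a = lam b
      · simp only [c, if_pos h, ← h, min_self]
        exact hz1 _ _
      · simp only [c, if_neg h, one_pow]
  refine ⟨⟨c, hc⟩, ?_⟩
  show Multiplicative.ofAdd _ = _
  congr 1
  funext l
  ext a b
  obtain ⟨l, hl⟩ := l
  obtain ⟨a, ha⟩ := a
  obtain ⟨b, hb⟩ := b
  simp only at ha hb
  show lg p (c a b ^ (p ^ (l - 1))) = (B ⟨l, hl⟩).1 ⟨a, ha⟩ ⟨b, hb⟩
  have hab : lam a = lam b := by rw [ha, hb]
  simp only [c, if_pos hab]
  rw [ha, hz2 _ _ (Finset.mem_Ico.1 hl).1]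
  simp only [Bf]
  rw [dif_pos ⟨hl, ha, hb⟩]

theorem det_iff (e : ℕ) (hlam : ∀ a, 1 ≤ lam a) (he : ∀ a, lam a < e) (c : CC p lam) :
    (MM p lam c).det ≠ 0 ↔ ∀ l : {l // l ∈ Finset.Ico 1 e},
      IsUnit ((Multiplicative.toAdd (blk p lam e c)) l).1.det := by
  classical
  rw [(MM_triangular p lam c).det, Finset.prod_ne_zero_iff]
  have hblk : ∀ (l : {l // l ∈ Finset.Ico 1 e}),
      ((Multiplicative.toAdd (blk p lam e c)) l).1 = (MM p lam c).toSquareBlock lam l.1 := by
    intro l
    ext a b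
    show lg p (c.1 a b ^ (p ^ (l.1 - 1))) = lg p (c.1 a b ^ (p ^ (lam a - 1)))
    rw [a.2]
  constructor
  · intro h l
    rw [hblk, isUnit_iff_ne_zero]
    by_cases hl : l.1 ∈ univ.image lam
    · exact h _ hl
    · have : IsEmpty {a : Fin r // lam a = l.1} := ⟨fun a => hl (by
        rw [← a.2]; exact Finset.mem_image_of_mem _ (Finset.mem_univ _))⟩
      rw [Matrix.det_isEmpty]
      exact one_ne_zero
  · intro h l hl
    obtain ⟨a, _, rfl⟩ := Finset.mem_image.1 hl
    have := h ⟨lam a, Finset.mem_Ico.2 ⟨hlam a, he a⟩⟩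
    rw [hblk, isUnit_iff_ne_zero] at this
    exact this

theorem card_symPerf (e : ℕ) (hlam : ∀ a, 1 ≤ lam a) (he : ∀ a, lam a < e) :
    symPerf (Gp p lam) = Nat.card {c : CC p lam // blk p lam e c ∈
      {B : Multiplicative ((l : {l // l ∈ Finset.Ico 1 e}) → symS p {a : Fin r // lam a = l.1}) |
        ∀ l, IsUnit ((Multiplicative.toAdd B) l).1.det}} := by
  classical
  unfold symPerf
  refine Nat.card_congr (((Equiv.subtypeSubtypeEquivSubtypeInter
    (fun β : Gp p lam →+ AddChar (Gp p lam) ℂ => ∀ x y, β x y = β y x)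
    (fun β => Function.Bijective β)).symm).trans
      ((pairEquiv p lam hlam).subtypeEquiv fun β => ?_))
  rw [Set.mem_ofPred_eq, ← det_iff p lam e hlam he, ← perf_iff p lam hlam]
  have : pairC p lam (pairEquiv p lam hlam β) = β.1 := by
    have h := (pairEquiv p lam hlam).left_inv β
    exact congrArg Subtype.val h
  rw [this]

theorem card_T (e : ℕ) :
    Nat.card {B : Multiplicative ((l : {l // l ∈ Finset.Ico 1 e}) →
      symS p {a : Fin r // lam a = l.1}) | ∀ l, IsUnit ((Multiplicative.toAdd B) l).1.det} =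
      ∏ l : {l // l ∈ Finset.Ico 1 e},
        Nat.card {M : Matrix {a : Fin r // lam a = l.1} {a : Fin r // lam a = l.1} (ZMod p) //
          M.IsSymm ∧ IsUnit M.det} := by
  rw [← Nat.card_pi]
  refine Nat.card_congr
    { toFun := fun B l => ⟨((Multiplicative.toAdd B.1) l).1, ((Multiplicative.toAdd B.1) l).2, B.2 l⟩
      invFun := fun D => ⟨Multiplicative.ofAdd fun l => ⟨(D l).1, (D l).2.1⟩, fun l => (D l).2.2⟩
      left_inv := fun B => rfl
      right_inv := fun D => rfl }

theorem card_B (e : ℕ) :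
    Nat.card (Multiplicative ((l : {l // l ∈ Finset.Ico 1 e}) →
      symS p {a : Fin r // lam a = l.1})) =
      ∏ l : {l // l ∈ Finset.Ico 1 e},
        Nat.card {M : Matrix {a : Fin r // lam a = l.1} {a : Fin r // lam a = l.1} (ZMod p) //
          M.IsSymm} := by
  rw [← Nat.card_pi]
  rfl

end final

end J6b

open J6b in
theorem symPerf_Gp (p : ℕ) [Fact p.Prime] {r : ℕ} (lam : Fin r → ℕ) (e : ℕ)
    (hlam : ∀ a, 1 ≤ lam a) (he : ∀ a, lam a < e) :
    (symPerf (Gp p lam) : ℝ) = (p : ℝ) ^ (∑ x ∈ (univ : Finset (Fin r × Fin r)).filter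
        (fun x => x.1 ≤ x.2), min (lam x.1) (lam x.2)) *
      ∏ l ∈ Finset.Ico 1 e, sig p ((univ : Finset (Fin r)).filter (fun a => lam a = l)).card := by
  classical
  have h1 := card_symPerf p lam e hlam he
  rw [card_preim (blk p lam e) (blk_surj p lam e hlam), card_T] at h1
  have h2 : Nat.card (CC p lam) = Nat.card (Multiplicative ((l : {l // l ∈ Finset.Ico 1 e}) →
      symS p {a : Fin r // lam a = l.1})) * Nat.card (blk p lam e).ker := by
    have h := card_preim (blk p lam e) (blk_surj p lam e hlam) Set.univ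
    rw [Nat.card_congr (Equiv.Set.univ _)] at h
    rw [← h]
    exact Nat.card_congr ⟨fun c => ⟨c, Set.mem_univ _⟩, fun c => c.1, fun c => rfl, fun c => rfl⟩
  rw [card_B, card_CC] at h2
  have h3 : ∏ l ∈ Finset.Ico 1 e, sig p ((univ : Finset (Fin r)).filter (fun a => lam a = l)).card =
      ∏ l : {l // l ∈ Finset.Ico 1 e},
        ((Nat.card {M : Matrix {a : Fin r // lam a = l.1} {a : Fin r // lam a = l.1} (ZMod p) //
          M.IsSymm ∧ IsUnit M.det} : ℝ) /
        (Nat.card {M : Matrix {a : Fin r // lam a = l.1} {a : Fin r // lam a = l.1} (ZMod p) //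
          M.IsSymm} : ℝ)) := by
    rw [← Finset.prod_coe_sort (Finset.Ico 1 e)]
    refine Finset.prod_congr rfl fun l _ => ?_
    have hcard : Fintype.card {a : Fin r // lam a = l.1} =
        ((univ : Finset (Fin r)).filter (fun a => lam a = l.1)).card := Fintype.card_subtype _
    rw [← hcard]
    unfold sig
    have e1 := (Fintype.equivFin {a : Fin r // lam a = l.1})
    have h4 := card_sym_reindex p e1 (fun x => IsUnit x)
    have h5 := card_sym_reindex p e1 (fun _ => True)
    simp only [and_true] at h5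
    rw [h4, h5]
  have hne : ∀ l : {l // l ∈ Finset.Ico 1 e},
      (Nat.card {M : Matrix {a : Fin r // lam a = l.1} {a : Fin r // lam a = l.1} (ZMod p) //
          M.IsSymm} : ℝ) ≠ 0 := by
    intro l
    have : Nonempty {M : Matrix {a : Fin r // lam a = l.1} {a : Fin r // lam a = l.1} (ZMod p) //
          M.IsSymm} := ⟨⟨0, Matrix.isSymm_zero⟩⟩
    exact_mod_cast Nat.card_pos.ne'
  rw [h3, Finset.prod_div_distrib, h1]
  have h2' : (p : ℝ) ^ (∑ x ∈ (univ : Finset (Fin r × Fin r)).filter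
        (fun x => x.1 ≤ x.2), min (lam x.1) (lam x.2)) =
      (∏ l : {l // l ∈ Finset.Ico 1 e},
        (Nat.card {M : Matrix {a : Fin r // lam a = l.1} {a : Fin r // lam a = l.1} (ZMod p) //
          M.IsSymm} : ℝ)) * (Nat.card (blk p lam e).ker : ℝ) := by
    exact_mod_cast h2
  rw [h2']
  have hprod : (∏ l : {l // l ∈ Finset.Ico 1 e},
        (Nat.card {M : Matrix {a : Fin r // lam a = l.1} {a : Fin r // lam a = l.1} (ZMod p) //
          M.IsSymm} : ℝ)) ≠ 0 := Finset.prod_ne_zero_iff.2 fun l _ => hne l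
  push_cast
  field_simp

end Sand
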