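import Pool.Agent.Helper793.Sand.Defs

set_option maxHeartbeats 4000000

open Finset Filter Topology

namespace Sand


theorem kc_field {k : Type} [Field k] {m : ℕ} (A B C : Matrix (Fin m) (Fin m) k)
    (h : A * B + C = 1) : ∃ Y : Matrix (Fin m) (Fin m) k, IsUnit (A + C * Y) := by
  have hx : ∀ x : Fin m → k, A.mulVecLin (B.mulVec x) + C.mulVec x = x := by
    intro x
    rw [Matrix.mulVecLin_apply, Matrix.mulVec_mulVec, ← Matrix.add_mulVec, h, Matrix.one_mulVec]
  have hπ : ∀ x : Fin m → k, (LinearMap.range A.mulVecLin).mkQ (C.mulVec x) =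
      (LinearMap.range A.mulVecLin).mkQ x := by
    intro x
    have h1 : (LinearMap.range A.mulVecLin).mkQ (A.mulVecLin (B.mulVec x)) = 0 := by
      rw [Submodule.mkQ_apply, Submodule.Quotient.mk_eq_zero]
      exact ⟨_, rfl⟩
    conv_rhs => rw [← hx x]
    rw [map_add, h1, zero_add]
  have hfr : Module.finrank k (LinearMap.ker A.mulVecLin) =
      Module.finrank k ((Fin m → k) ⧸ LinearMap.range A.mulVecLin) := by
    have h1 := Submodule.finrank_quotient_add_finrank (LinearMap.range A.mulVecLin)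
    have h2 := LinearMap.finrank_range_add_finrank_ker A.mulVecLin
    omega
  let θ := LinearEquiv.ofFinrankEq _ _ hfr
  obtain ⟨s, hs⟩ := LinearMap.exists_rightInverse_of_surjective
    (LinearMap.range A.mulVecLin).mkQ (Submodule.range_mkQ _)
  obtain ⟨pr, hpr⟩ := LinearMap.exists_leftInverse_of_injective
    (LinearMap.ker A.mulVecLin).subtype (Submodule.ker_subtype _)
  refine ⟨LinearMap.toMatrix' (s ∘ₗ θ.toLinearMap ∘ₗ pr), ?_⟩
  rw [← Matrix.mulVec_injective_iff_isUnit]
  have hY : ∀ x, (LinearMap.toMatrix' (s ∘ₗ θ.toLinearMap ∘ₗ pr)).mulVec x = s (θ (pr x)) := by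
    intro x
    rw [LinearMap.toMatrix'_mulVec]
    rfl
  have hlin : ∀ x, (A + C * LinearMap.toMatrix' (s ∘ₗ θ.toLinearMap ∘ₗ pr)).mulVec x =
      A.mulVecLin x + C.mulVec (s (θ (pr x))) := by
    intro x
    rw [Matrix.add_mulVec, ← Matrix.mulVec_mulVec, hY, Matrix.mulVecLin_apply]
  have hker : ∀ x, (A + C * LinearMap.toMatrix' (s ∘ₗ θ.toLinearMap ∘ₗ pr)).mulVec x = 0 →
      x = 0 := by
    intro x hx0
    rw [hlin] at hx0
    have h1 := congrArg (LinearMap.range A.mulVecLin).mkQ hx0
    rw [map_add, map_zero, hπ] at h1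
    have h2 : (LinearMap.range A.mulVecLin).mkQ (A.mulVecLin x) = 0 := by
      rw [Submodule.mkQ_apply, Submodule.Quotient.mk_eq_zero]
      exact ⟨_, rfl⟩
    have h3 : (LinearMap.range A.mulVecLin).mkQ (s (θ (pr x))) = θ (pr x) :=
      LinearMap.congr_fun hs _
    rw [h2, zero_add, h3] at h1
    have h4 : pr x = 0 := by simpa using h1
    rw [h4] at hx0
    simp only [map_zero, Matrix.mulVec_zero, add_zero] at hx0
    have h5 : pr x = ⟨x, hx0⟩ := LinearMap.congr_fun hpr ⟨x, hx0⟩
    rw [h4] at h5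
    exact (congrArg Subtype.val h5).symm
  intro x y hxy
  have h1 : (A + C * LinearMap.toMatrix' (s ∘ₗ θ.toLinearMap ∘ₗ pr)).mulVec (x - y) = 0 := by
    rw [Matrix.mulVec_sub]
    exact sub_eq_zero.2 hxy
  exact sub_eq_zero.1 (hker _ h1)

theorem kc_lift (p : ℕ) [Fact p.Prime] (e m : ℕ)
    (A B C : Matrix (Fin m) (Fin m) (ZMod (p ^ e))) (h : A * B + C = 1) :
    ∃ Y : Matrix (Fin m) (Fin m) (ZMod (p ^ e)), IsUnit (A + C * Y) := by
  rcases Nat.eq_zero_or_pos e with rfl | he
  · refine ⟨0, ?_⟩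
    haveI : Subsingleton (ZMod (p ^ 0)) := by
      rw [pow_zero]
      infer_instance
    exact isUnit_of_subsingleton _
  · let ψ := ZMod.castHom (dvd_pow_self p he.ne') (ZMod p)
    have hψu : ∀ x, IsUnit (ψ x) → IsUnit x := by
      intro x hx
      have h1 : ((x.val : ℕ) : ZMod (p ^ e)) = x := by
        haveI : NeZero (p ^ e) := ⟨pow_ne_zero _ (Fact.out : p.Prime).ne_zero⟩
        exact ZMod.natCast_zmod_val x
      have h2 : ψ x = ((x.val : ℕ) : ZMod p) := by
        conv_lhs => rw [← h1]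
        exact map_natCast ψ _
      rw [h2, ZMod.isUnit_iff_coprime] at hx
      rw [← h1, ZMod.isUnit_iff_coprime]
      exact hx.pow_right e
    have h1 : ψ.mapMatrix A * ψ.mapMatrix B + ψ.mapMatrix C = 1 := by
      rw [← map_mul, ← map_add, h, map_one]
    obtain ⟨Y, hY⟩ := kc_field _ _ _ h1
    have hsur : Function.Surjective ψ := ZMod.castHom_surjective _
    refine ⟨Y.map (Function.surjInv hsur), ?_⟩
    rw [Matrix.isUnit_iff_isUnit_det]
    apply hψu
    rw [RingHom.map_det, map_add, map_mul]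
    have h2 : ψ.mapMatrix (Y.map (Function.surjInv hsur)) = Y := by
      ext i j
      simp only [RingHom.mapMatrix_apply, Matrix.map_apply]
      exact Function.surjInv_eq hsur _
    rw [h2]
    exact (Matrix.isUnit_iff_isUnit_det _).1 hY

theorem kc_trans (p : ℕ) [Fact p.Prime] (e m : ℕ) {G : Type} [AddCommGroup G]
    [Module (ZMod (p ^ e)) G] (φ₀ φ : (Fin m → ZMod (p ^ e)) →ₗ[ZMod (p ^ e)] G)
    (h0 : Function.Surjective φ₀) (h : Function.Surjective φ) :
    ∃ P : Matrix (Fin m) (Fin m) (ZMod (p ^ e)), IsUnit P ∧ ∀ x, φ₀ (P.mulVec x) = φ x := by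
  obtain ⟨a, ha⟩ := Module.projective_lifting_property φ₀ φ h0
  obtain ⟨b, hb⟩ := Module.projective_lifting_property φ φ₀ h
  obtain ⟨Y, hY⟩ := kc_lift p e m (LinearMap.toMatrix' a) (LinearMap.toMatrix' b)
    (1 - LinearMap.toMatrix' a * LinearMap.toMatrix' b) (by abel)
  refine ⟨_, hY, fun x => ?_⟩
  have h1 : ∀ y, φ₀ ((1 - LinearMap.toMatrix' a * LinearMap.toMatrix' b).mulVec y) = 0 := by
    intro y
    rw [Matrix.sub_mulVec, Matrix.one_mulVec, ← Matrix.mulVec_mulVec, LinearMap.toMatrix'_mulVec,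
      LinearMap.toMatrix'_mulVec, map_sub]
    have h2 : φ₀ (a (b y)) = φ (b y) := LinearMap.congr_fun ha _
    have h3 : φ (b y) = φ₀ y := LinearMap.congr_fun hb _
    rw [h2, h3, sub_self]
  rw [Matrix.add_mulVec, ← Matrix.mulVec_mulVec, map_add, h1, add_zero,
    LinearMap.toMatrix'_mulVec]
  exact LinearMap.congr_fun ha _

/-- surjections with given kernel -/
noncomputable def kcE1 {N m : ℕ} {G : Type} [AddCommGroup G] [Module (ZMod N) G]
    (Λ : Submodule (ZMod N) (Fin m → ZMod N)) :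
    {φ : (Fin m → ZMod N) →ₗ[ZMod N] G // Function.Surjective φ ∧ LinearMap.ker φ = Λ} ≃
      (((Fin m → ZMod N) ⧸ Λ) ≃+ G) where
  toFun φ := ((Submodule.quotEquivOfEq _ _ φ.2.2.symm).trans
    (φ.1.quotKerEquivOfSurjective φ.2.1)).toAddEquiv
  invFun f := ⟨(f.toAddMonoidHom.toZModLinearMap N) ∘ₗ Λ.mkQ, by
      constructor
      · exact f.surjective.comp (Submodule.mkQ_surjective Λ)
      · ext x
        rw [LinearMap.mem_ker]
        show f (Λ.mkQ x) = 0 ↔ _
        rw [EmbeddingLike.map_eq_zero_iff, Submodule.mkQ_apply, Submodule.Quotient.mk_eq_zero]⟩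
  left_inv φ := by
    apply Subtype.ext
    apply LinearMap.ext
    intro x
    rfl
  right_inv f := by
    apply AddEquiv.ext
    intro x
    obtain ⟨y, rfl⟩ := Submodule.mkQ_surjective Λ x
    rfl

theorem kc_main {N m : ℕ} {G : Type} [AddCommGroup G] [Module (ZMod N) G]
    (φ₀ : (Fin m → ZMod N) →ₗ[ZMod N] G)
    (htr : ∀ φ : (Fin m → ZMod N) →ₗ[ZMod N] G, Function.Surjective φ →
      ∃ P : Matrix (Fin m) (Fin m) (ZMod N), IsUnit P ∧ ∀ x, φ₀ (P.mulVec x) = φ x) :
    Nat.card {M : Matrix (Fin m) (Fin m) (ZMod N) // M.IsSymm ∧ Nonempty (Cok M ≃+ G)} *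
      Nat.card (G ≃+ G) =
    Nat.card {φ : (Fin m → ZMod N) →ₗ[ZMod N] G // Function.Surjective φ} *
      Nat.card {M : Matrix (Fin m) (Fin m) (ZMod N) // M.IsSymm ∧
        LinearMap.range M.mulVecLin = LinearMap.ker φ₀} := by
  let e1 : {M : Matrix (Fin m) (Fin m) (ZMod N) // M.IsSymm ∧ Nonempty (Cok M ≃+ G)} × (G ≃+ G) ≃
      Σ M : {M : Matrix (Fin m) (Fin m) (ZMod N) // M.IsSymm}, (Cok M.1 ≃+ G) :=
    { toFun := fun x => ⟨⟨x.1.1, x.1.2.1⟩, (Classical.choice x.1.2.2).trans x.2⟩
      invFun := fun y => (⟨y.1.1, y.1.2, ⟨y.2⟩⟩,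
        (Classical.choice (⟨y.2⟩ : Nonempty (Cok y.1.1 ≃+ G))).symm.trans y.2)
      left_inv := by
        rintro ⟨⟨M, hM, hn⟩, g⟩
        simp only [Prod.mk.injEq, true_and]
        ext x
        simp
      right_inv := by
        rintro ⟨⟨M, hM⟩, g⟩
        simp only [Sigma.mk.injEq, heq_eq_eq, true_and]
        ext x
        simp }
  let e2 : (Σ M : {M : Matrix (Fin m) (Fin m) (ZMod N) // M.IsSymm}, (Cok M.1 ≃+ G)) ≃
      Σ M : {M : Matrix (Fin m) (Fin m) (ZMod N) // M.IsSymm},
        {φ : (Fin m → ZMod N) →ₗ[ZMod N] G // Function.Surjective φ ∧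
          LinearMap.ker φ = LinearMap.range M.1.mulVecLin} :=
    Equiv.sigmaCongrRight fun M => (kcE1 (LinearMap.range M.1.mulVecLin)).symm
  let e3 : (Σ M : {M : Matrix (Fin m) (Fin m) (ZMod N) // M.IsSymm},
        {φ : (Fin m → ZMod N) →ₗ[ZMod N] G // Function.Surjective φ ∧
          LinearMap.ker φ = LinearMap.range M.1.mulVecLin}) ≃
      Σ φ : {φ : (Fin m → ZMod N) →ₗ[ZMod N] G // Function.Surjective φ},
        {M : Matrix (Fin m) (Fin m) (ZMod N) // M.IsSymm ∧
          LinearMap.range M.mulVecLin = LinearMap.ker φ.1} :=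
    { toFun := fun x => ⟨⟨x.2.1, x.2.2.1⟩, ⟨x.1.1, x.1.2, x.2.2.2.symm⟩⟩
      invFun := fun y => ⟨⟨y.2.1, y.2.2.1⟩, ⟨y.1.1, y.1.2, y.2.2.2.symm⟩⟩
      left_inv := fun x => rfl
      right_inv := fun y => rfl }
  have e4 : ∀ φ : {φ : (Fin m → ZMod N) →ₗ[ZMod N] G // Function.Surjective φ},
      Nonempty ({M : Matrix (Fin m) (Fin m) (ZMod N) // M.IsSymm ∧
          LinearMap.range M.mulVecLin = LinearMap.ker φ.1} ≃
        {M : Matrix (Fin m) (Fin m) (ZMod N) // M.IsSymm ∧
          LinearMap.range M.mulVecLin = LinearMap.ker φ₀}) := by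
    rintro ⟨φ, hφ⟩
    obtain ⟨P, hP, hPφ⟩ := htr φ hφ
    obtain ⟨P, rfl⟩ := hP
    obtain ⟨Q, hPQ, hQP⟩ : ∃ Q : Matrix (Fin m) (Fin m) (ZMod N),
        P.1 * Q = 1 ∧ Q * P.1 = 1 := ⟨P.inv, P.val_inv, P.inv_val⟩
    generalize P.1 = P at *
    have hPQt : P.transpose * Q.transpose = 1 := by
      rw [← Matrix.transpose_mul, hQP, Matrix.transpose_one]
    have hQPt : Q.transpose * P.transpose = 1 := by
      rw [← Matrix.transpose_mul, hPQ, Matrix.transpose_one]
    let E : Matrix (Fin m) (Fin m) (ZMod N) ≃ Matrix (Fin m) (Fin m) (ZMod N) :=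
      { toFun := fun M => P * M * P.transpose
        invFun := fun M => Q * M * Q.transpose
        left_inv := fun M => by
          calc Q * (P * M * P.transpose) * Q.transpose =
              (Q * P) * M * (P.transpose * Q.transpose) := by simp only [Matrix.mul_assoc]
            _ = M := by rw [hQP, hPQt, Matrix.one_mul, Matrix.mul_one]
        right_inv := fun M => by
          calc P * (Q * M * Q.transpose) * P.transpose =
              (P * Q) * M * (Q.transpose * P.transpose) := by simp only [Matrix.mul_assoc]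
            _ = M := by rw [hPQ, hQPt, Matrix.one_mul, Matrix.mul_one] }
    refine ⟨Equiv.subtypeEquiv E fun M => ?_⟩
    have hsymm : M.IsSymm ↔ (P * M * P.transpose).IsSymm := by
      unfold Matrix.IsSymm
      constructor
      · intro h
        rw [Matrix.transpose_mul, Matrix.transpose_mul, Matrix.transpose_transpose, h,
          Matrix.mul_assoc]
      · intro h
        rw [Matrix.transpose_mul, Matrix.transpose_mul, Matrix.transpose_transpose] at h
        have h1 : Q * (P * (M.transpose * P.transpose)) * Q.transpose =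
            Q * (P * M * P.transpose) * Q.transpose := by rw [h]
        have h2 : Q * (P * (M.transpose * P.transpose)) * Q.transpose = M.transpose := by
          calc Q * (P * (M.transpose * P.transpose)) * Q.transpose =
              (Q * P) * M.transpose * (P.transpose * Q.transpose) := by
                simp only [Matrix.mul_assoc]
            _ = M.transpose := by rw [hQP, hPQt, Matrix.one_mul, Matrix.mul_one]
        have h3 : Q * (P * M * P.transpose) * Q.transpose = M := by
          calc Q * (P * M * P.transpose) * Q.transpose =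
              (Q * P) * M * (P.transpose * Q.transpose) := by simp only [Matrix.mul_assoc]
            _ = M := by rw [hQP, hPQt, Matrix.one_mul, Matrix.mul_one]
        rw [h2, h3] at h1
        exact h1
    have hmem : ∀ x, x ∈ LinearMap.range M.mulVecLin ↔
        P.mulVec x ∈ LinearMap.range (P * M * P.transpose).mulVecLin := by
      intro x
      constructor
      · rintro ⟨y, rfl⟩
        refine ⟨Q.transpose.mulVec y, ?_⟩
        simp only [Matrix.mulVecLin_apply, Matrix.mulVec_mulVec]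
        congr 1
        rw [Matrix.mul_assoc, hPQt, Matrix.mul_one]
      · rintro ⟨y, hy⟩
        refine ⟨P.transpose.mulVec y, ?_⟩
        simp only [Matrix.mulVecLin_apply, Matrix.mulVec_mulVec] at hy ⊢
        have h1 := congrArg Q.mulVec hy
        rw [Matrix.mulVec_mulVec, Matrix.mulVec_mulVec, hQP, Matrix.one_mulVec] at h1
        rw [← h1]
        congr 1
        rw [← Matrix.mul_assoc, ← Matrix.mul_assoc, hQP, Matrix.one_mul]
    have hkm : ∀ x, x ∈ LinearMap.ker φ ↔ P.mulVec x ∈ LinearMap.ker φ₀ := by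
      intro x
      rw [LinearMap.mem_ker, LinearMap.mem_ker, hPφ]
    have hQx : ∀ x, P.mulVec (Q.mulVec x) = x := by
      intro x
      rw [Matrix.mulVec_mulVec, hPQ, Matrix.one_mulVec]
    refine and_congr hsymm ?_
    show LinearMap.range M.mulVecLin = LinearMap.ker φ ↔
      LinearMap.range (P * M * P.transpose).mulVecLin = LinearMap.ker φ₀
    constructor
    · intro h
      ext x
      rw [← hQx x, ← hmem, ← hkm, h]
    · intro h
      ext x
      rw [hmem, hkm, h]
  let e5 : (Σ φ : {φ : (Fin m → ZMod N) →ₗ[ZMod N] G // Function.Surjective φ},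
        {M : Matrix (Fin m) (Fin m) (ZMod N) // M.IsSymm ∧
          LinearMap.range M.mulVecLin = LinearMap.ker φ.1}) ≃
      {φ : (Fin m → ZMod N) →ₗ[ZMod N] G // Function.Surjective φ} ×
      {M : Matrix (Fin m) (Fin m) (ZMod N) // M.IsSymm ∧
          LinearMap.range M.mulVecLin = LinearMap.ker φ₀} :=
    (Equiv.sigmaCongrRight fun φ => (e4 φ).some).trans (Equiv.sigmaEquivProd _ _)
  rw [← Nat.card_prod, ← Nat.card_prod]
  exact Nat.card_congr (e1.trans (e2.trans (e3.trans e5)))

theorem kc_gen {N m : ℕ} {G : Type} [AddCommGroup G] [Module (ZMod N) G] :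
    Nat.card {φ : (Fin m → ZMod N) →ₗ[ZMod N] G // Function.Surjective φ} = gen m G := by
  unfold gen
  refine Nat.card_congr ?_
  refine (Equiv.subtypeEquiv ((Pi.basisFun (ZMod N) (Fin m)).constr (ZMod N)).toEquiv
    fun f => ?_).symm
  show _ ↔ Function.Surjective ((Pi.basisFun (ZMod N) (Fin m)).constr (ZMod N) f)
  rw [← LinearMap.range_eq_top, Module.Basis.constr_range]
  constructor
  · intro h
    rw [eq_top_iff]
    intro x _
    have h1 : AddSubgroup.closure (Set.range f) ≤
        (Submodule.span (ZMod N) (Set.range f)).toAddSubgroup := by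
      rw [AddSubgroup.closure_le]
      exact Submodule.subset_span
    exact h1 (by rw [h]; trivial)
  · intro h
    rw [eq_top_iff]
    intro x _
    have h1 : Submodule.span (ZMod N) (Set.range f) ≤
        AddSubgroup.toZModSubmodule N (AddSubgroup.closure (Set.range f)) := by
      rw [Submodule.span_le]
      exact AddSubgroup.subset_closure
    have h2 : x ∈ Submodule.span (ZMod N) (Set.range f) := by rw [h]; trivial
    exact h1 h2

theorem kc_abs (p : ℕ) [Fact p.Prime] (e m : ℕ) {G : Type} [AddCommGroup G]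
    (hann : ∀ x : G, (p ^ e) • x = 0) (φa : (Fin m → ZMod (p ^ e)) →+ G)
    (hsur : Function.Surjective φa) (Λ : Submodule (ZMod (p ^ e)) (Fin m → ZMod (p ^ e)))
    (hker : ∀ x, φa x = 0 ↔ x ∈ Λ) :
    Nat.card {M : Matrix (Fin m) (Fin m) (ZMod (p ^ e)) // M.IsSymm ∧
        Nonempty (Cok M ≃+ G)} * Nat.card (G ≃+ G) =
      gen m G * Nat.card {M : Matrix (Fin m) (Fin m) (ZMod (p ^ e)) // M.IsSymm ∧
        LinearMap.range M.mulVecLin = Λ} := by
  letI : Module (ZMod (p ^ e)) G := AddCommGroup.zmodModule hann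
  have h1 := kc_main (φa.toZModLinearMap (p ^ e)) fun φ hφ =>
    kc_trans p e m (φa.toZModLinearMap (p ^ e)) φ hsur hφ
  have h2 : LinearMap.ker (φa.toZModLinearMap (p ^ e)) = Λ := by
    ext x
    rw [LinearMap.mem_ker]
    exact hker x
  rw [kc_gen, h2] at h1
  exact h1

theorem ker_count (p : ℕ) [Fact p.Prime] (e m : ℕ) (lt : Fin m → ℕ) (hlt : ∀ i, lt i ≤ e) :
    Nat.card {M : Matrix (Fin m) (Fin m) (ZMod (p ^ e)) // M.IsSymm ∧
        Nonempty (Cok M ≃+ Gp p lt)} * Nat.card (Gp p lt ≃+ Gp p lt) =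
      gen m (Gp p lt) * Nat.card {M : Matrix (Fin m) (Fin m) (ZMod (p ^ e)) // M.IsSymm ∧
        LinearMap.range M.mulVecLin =
          LinearMap.range (Matrix.diagonal fun i => ((p : ZMod (p ^ e)) ^ lt i)).mulVecLin} := by
  have hN0 : p ^ e ≠ 0 := pow_ne_zero _ (Fact.out : p.Prime).ne_zero
  haveI : NeZero (p ^ e) := ⟨hN0⟩
  have hann : ∀ x : Gp p lt, (p ^ e) • x = 0 := by
    intro x
    funext i
    rw [Pi.smul_apply, Pi.zero_apply]
    obtain ⟨c, hc⟩ := pow_dvd_pow p (hlt i)
    rw [hc, nsmul_eq_mul]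
    push_cast
    have h1 : ((p : ZMod (p ^ lt i)) ^ lt i) = 0 := by
      have := ZMod.natCast_self (p ^ lt i)
      push_cast at this
      exact this
    rw [h1]
    ring
  let ψ : ∀ i, ZMod (p ^ e) →+* ZMod (p ^ lt i) := fun i =>
    ZMod.castHom (pow_dvd_pow p (hlt i)) (ZMod (p ^ lt i))
  let φa : (Fin m → ZMod (p ^ e)) →+ Gp p lt :=
    { toFun := fun x i => ψ i (x i)
      map_zero' := by
        funext i
        exact map_zero (ψ i)
      map_add' := by
        intro x y
        funext i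
        exact map_add (ψ i) _ _ }
  have hφ₀ : ∀ (x : Fin m → ZMod (p ^ e)) (i : Fin m), φa x i = ψ i (x i) :=
    fun x i => rfl
  have hsur : Function.Surjective φa := by
    intro y
    have h1 : ∀ i, ∃ z, ψ i z = y i := fun i => ZMod.castHom_surjective _ (y i)
    choose z hz using h1
    exact ⟨z, funext hz⟩
  have hker1 : ∀ i (x : ZMod (p ^ e)), ψ i x = 0 ↔ ∃ y, (p : ZMod (p ^ e)) ^ lt i * y = x := by
    intro i x
    constructor
    · intro h
      have h1 : ((x.val : ℕ) : ZMod (p ^ e)) = x := ZMod.natCast_zmod_val x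
      have h2 : ψ i x = ((x.val : ℕ) : ZMod (p ^ lt i)) := by
        conv_lhs => rw [← h1]
        exact map_natCast (ψ i) _
      rw [h2, ZMod.natCast_eq_zero_iff] at h
      obtain ⟨c, hc⟩ := h
      refine ⟨(c : ZMod (p ^ e)), ?_⟩
      rw [← h1, hc]
      push_cast
      rfl
    · rintro ⟨y, rfl⟩
      rw [map_mul, map_pow, map_natCast]
      have h1 : ((p : ZMod (p ^ lt i)) ^ lt i) = 0 := by
        have := ZMod.natCast_self (p ^ lt i)
        push_cast at this
        exact this
      rw [h1, zero_mul]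
  have hker : ∀ x, φa x = 0 ↔ x ∈
      LinearMap.range (Matrix.diagonal fun i => ((p : ZMod (p ^ e)) ^ lt i)).mulVecLin := by
    intro x
    constructor
    · intro h
      have h1 : ∀ i, ∃ y, (p : ZMod (p ^ e)) ^ lt i * y = x i := by
        intro i
        rw [← hker1, ← hφ₀, h]
        rfl
      choose y hy using h1
      refine ⟨y, ?_⟩
      funext i
      rw [Matrix.mulVecLin_apply, Matrix.mulVec_diagonal]
      exact hy i
    · rintro ⟨y, rfl⟩
      funext i
      rw [hφ₀, Matrix.mulVecLin_apply, Matrix.mulVec_diagonal]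
      exact (hker1 i _).2 ⟨_, rfl⟩
  exact kc_abs p e m hann φa hsur _ hker

end Sand
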