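import Pool.Agent.Helper793.Sand.Defs

set_option maxHeartbeats 4000000

open Finset Filter Topology

namespace Sand


section SymCount

variable {F : Type} [Field F] [Finite F]

/-- number of symmetric matrices with a property -/
noncomputable def cnt (n : Type) (F : Type) [Field F] (Q : Matrix n n F → Prop) : ℕ :=
  Nat.card {M : Matrix n n F // M.IsSymm ∧ Q M}

/-- number of invertible symmetric matrices -/
noncomputable def Sn (n : Type) (F : Type) [Field F] [Fintype n] [DecidableEq n] : ℕ :=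
  cnt n F (fun M => IsUnit M.det)

theorem cnt_congr_h845 {n n' : Type} (e : n ≃ n') (Q : Matrix n n F → Prop) :
    cnt n F Q = cnt n' F (fun M => Q (M.submatrix e e)) := by
  unfold cnt
  refine Nat.card_congr (Equiv.subtypeEquiv (Matrix.reindex e e) ?_)
  intro M
  have h1 : ((Matrix.reindex e e) M).submatrix e e = M := by
    ext i j; simp
  show M.IsSymm ∧ Q M ↔ ((Matrix.reindex e e) M).IsSymm ∧ Q (((Matrix.reindex e e) M).submatrix e e)
  rw [h1]
  refine and_congr_left fun _ => ?_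
  constructor
  · intro h
    ext i j
    simp only [Matrix.transpose_apply, Matrix.reindex_apply, Matrix.submatrix_apply]
    exact h.apply _ _
  · intro h
    rw [← h1]
    exact h.submatrix e

theorem Sn_congr_h845 {n n' : Type} [Fintype n] [DecidableEq n] [Fintype n'] [DecidableEq n']
    (e : n ≃ n') : Sn n F = Sn n' F := by
  unfold Sn
  rw [cnt_congr_h845 e]
  congr 1
  funext M
  rw [Matrix.det_submatrix_equiv_self]

/-- Schur complement -/
theorem schur_h845 {k m : Type} [Fintype k] [DecidableEq k] [Fintype m] [DecidableEq m]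
    (A : Matrix k k F) (hA : A.IsSymm) (hAu : IsUnit A.det) (X : Matrix m k F) :
    cnt m F (fun N => IsUnit (Matrix.fromBlocks A X.transpose X N).det) = Sn m F := by
  unfold Sn cnt
  haveI : Invertible A := A.invertibleOfIsUnitDet hAu
  have hC : (X * A⁻¹ * X.transpose).IsSymm := by
    unfold Matrix.IsSymm
    rw [Matrix.transpose_mul, Matrix.transpose_mul, Matrix.transpose_transpose,
      Matrix.transpose_nonsing_inv, hA.eq, Matrix.mul_assoc]
  refine Nat.card_congr (Equiv.subtypeEquiv (Equiv.subRight (X * A⁻¹ * X.transpose)) ?_)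
  intro N
  beta_reduce
  rw [Equiv.subRight_apply, Matrix.det_fromBlocks₁₁, Matrix.invOf_eq_nonsing_inv, IsUnit.mul_iff]
  constructor
  · rintro ⟨h1, h2⟩
    exact ⟨h1.sub hC, h2.2⟩
  · rintro ⟨h1, h2⟩
    refine ⟨?_, hAu, h2⟩
    have := h1.add hC
    rwa [sub_add_cancel] at this

/-- bordered matrices -/
def bd {n : Type} (a : F) (b : n → F) (N : Matrix n n F) : Matrix (Unit ⊕ n) (Unit ⊕ n) F :=
  Matrix.fromBlocks (fun _ _ => a) (fun _ j => b j) (fun i _ => b i) N

theorem cnt_bd_h845 {n : Type} [Finite n] (Q : Matrix (Unit ⊕ n) (Unit ⊕ n) F → Prop) [Fintype F] [Fintype (n → F)] :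
    cnt (Unit ⊕ n) F Q = ∑ a : F, ∑ b : n → F, cnt n F (fun N => Q (bd a b N)) := by
  classical
  unfold cnt
  rw [← Fintype.sum_prod_type' (f := fun (a : F) (b : n → F) =>
    Nat.card {N : Matrix n n F // N.IsSymm ∧ Q (bd a b N)}), ← Nat.card_sigma]
  refine Nat.card_congr ?_
  refine
    { toFun := fun M => ⟨(M.1 (Sum.inl ()) (Sum.inl ()), fun i => M.1 (Sum.inr i) (Sum.inl ())),
        M.1.toBlocks₂₂, ?_, ?_⟩
      invFun := fun x => ⟨bd x.1.1 x.1.2 x.2.1, ?_, x.2.2.2⟩
      left_inv := ?_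
      right_inv := ?_ }
  · ext i j
    exact M.2.1.apply _ _
  · have h : bd (M.1 (Sum.inl ()) (Sum.inl ())) (fun i => M.1 (Sum.inr i) (Sum.inl ())) M.1.toBlocks₂₂ = M.1 := by
      ext i j
      rcases i with i | i <;> rcases j with j | j
      · rfl
      · exact M.2.1.apply _ _
      · rfl
      · rfl
    show Q (bd (M.1 (Sum.inl ()) (Sum.inl ())) (fun i => M.1 (Sum.inr i) (Sum.inl ())) M.1.toBlocks₂₂)
    rw [h]
    exact M.2.2
  · ext i j
    rcases i with i | i <;> rcases j with j | j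
    · rfl
    · rfl
    · rfl
    · exact x.2.2.1.apply _ _
  · intro M
    apply Subtype.ext
    ext i j
    rcases i with i | i <;> rcases j with j | j
    · rfl
    · exact M.2.1.apply _ _
    · rfl
    · rfl
  · rintro ⟨⟨a, b⟩, N, hN⟩
    rfl

/-- the count for a nonzero corner -/
theorem cnt_ne_h845 {n : Type} [Fintype n] [DecidableEq n] (a : F) (ha : a ≠ 0) (b : n → F) :
    cnt n F (fun N => IsUnit (bd a b N).det) = Sn n F := by
  have h := schur_h845 (k := Unit) (m := n) (fun _ _ => a) (by ext i j; rfl)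
    (by rw [Matrix.det_unique]; exact ha.isUnit) (fun i _ => b i)
  rw [← h]
  rfl

theorem cnt_zero_zero_h845 {n : Type} [Fintype n] [DecidableEq n] :
    cnt n F (fun N => IsUnit (bd (0 : F) (fun _ => 0) N).det) = 0 := by
  unfold cnt
  rw [Nat.card_eq_zero]
  left
  constructor
  rintro ⟨N, -, h⟩
  have h0 : (bd (0 : F) (fun _ => 0) N).det = 0 := by
    apply Matrix.det_eq_zero_of_row_eq_zero (Sum.inl ())
    intro j
    rcases j with j | j <;> rfl
  rw [h0] at h
  exact not_isUnit_zero h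

/-- the count for a zero corner and a nonzero border -/
theorem cnt_zero_ne_aux_h845 {m : Type} [Fintype m] [DecidableEq m] (b : Unit ⊕ m → F)
    (hb : b (Sum.inl ()) ≠ 0) :
    cnt (Unit ⊕ m) F (fun N => IsUnit (bd (0 : F) b N).det) =
      Nat.card F * Nat.card F ^ Fintype.card m * Sn m F := by
  classical
  haveI : Fintype F := Fintype.ofFinite F
  rw [cnt_bd_h845]
  have h1 : ∀ (c : F) (d : m → F), cnt m F (fun N => IsUnit (bd (0 : F) b (bd c d N)).det) = Sn m F := by
    intro c d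
    let A : Matrix (Unit ⊕ Unit) (Unit ⊕ Unit) F :=
      Matrix.fromBlocks (fun _ _ => 0) (fun _ _ => b (Sum.inl ())) (fun _ _ => b (Sum.inl ())) (fun _ _ => c)
    let X : Matrix m (Unit ⊕ Unit) F := fun i s => Sum.elim (fun _ => b (Sum.inr i)) (fun _ => d i) s
    have hA : A.IsSymm := by
      ext i j
      rcases i with i | i <;> rcases j with j | j <;> rfl
    have hAd : A.det = - (b (Sum.inl ()) * b (Sum.inl ())) := by
      let e : Fin 2 ≃ Unit ⊕ Unit :=
        { toFun := ![Sum.inl (), Sum.inr ()]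
          invFun := Sum.elim (fun _ => 0) (fun _ => 1)
          left_inv := by intro i; fin_cases i <;> rfl
          right_inv := by intro i; rcases i with i | i <;> rfl }
      rw [← Matrix.det_submatrix_equiv_self e, Matrix.det_fin_two]
      show (0 : F) * c - b (Sum.inl ()) * b (Sum.inl ()) = _
      ring
    have hAu : IsUnit A.det := by
      rw [hAd]
      exact (neg_ne_zero.mpr (mul_ne_zero hb hb)).isUnit
    rw [← schur_h845 A hA hAu X]
    congr 1
    funext N
    rw [← Matrix.det_submatrix_equiv_self (Equiv.sumAssoc Unit Unit m) (bd (0 : F) b (bd c d N))]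
    congr 2
    ext i j
    rcases i with (i | i) | i <;> rcases j with (j | j) | j <;> rfl
  simp only [h1]
  rw [Finset.sum_const, Finset.sum_const, Finset.card_univ, Finset.card_univ, Fintype.card_fun,
    smul_eq_mul, smul_eq_mul, Nat.card_eq_fintype_card, mul_assoc]

theorem cnt_zero_ne_h845 {n m : Type} [Fintype n] [DecidableEq n] [Fintype m] [DecidableEq m]
    (b : n → F) (j : n) (e : n ≃ Unit ⊕ m) (he : e j = Sum.inl ()) (hb : b j ≠ 0) :
    cnt n F (fun N => IsUnit (bd (0 : F) b N).det) =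
      Nat.card F * Nat.card F ^ Fintype.card m * Sn m F := by
  rw [cnt_congr_h845 e]
  rw [← cnt_zero_ne_aux_h845 (m := m) (fun x => b (e.symm x)) (by rw [← he, e.symm_apply_apply]; exact hb)]
  congr 1
  funext N
  rw [← Matrix.det_submatrix_equiv_self (Equiv.sumCongr (Equiv.refl Unit) e) (bd (0 : F) (fun x => b (e.symm x)) N)]
  congr 2
  ext i j
  rcases i with i | i <;> rcases j with j | j <;>
    simp [bd]

/-- the equivalence sending `j` to the first summand -/
def ej_h845 {m : ℕ} (j : Fin (m + 1)) : Fin (m + 1) ≃ Unit ⊕ Fin m :=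
  (finSuccEquiv' j).trans ((Equiv.optionEquivSumPUnit (Fin m)).trans (Equiv.sumComm _ _))

theorem ej_self_h845 {m : ℕ} (j : Fin (m + 1)) : ej_h845 j j = Sum.inl () := by
  simp [ej_h845]

theorem Sn_step_h845 {n : Type} [Fintype n] [DecidableEq n] [Fintype F] [DecidableEq F] :
    Sn (Unit ⊕ n) F = (Nat.card F - 1) * (Nat.card F ^ Fintype.card n * Sn n F) +
      ∑ b ∈ Finset.univ.erase (fun _ : n => (0 : F)), cnt n F (fun N => IsUnit (bd (0 : F) b N).det) := by
  show cnt (Unit ⊕ n) F (fun M => IsUnit M.det) = _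
  rw [cnt_bd_h845, ← Finset.sum_erase_add _ _ (Finset.mem_univ (0 : F))]
  congr 1
  · rw [Finset.sum_congr rfl (g := fun _ => Nat.card F ^ Fintype.card n * Sn n F)]
    · rw [Finset.sum_const, Finset.card_erase_of_mem (Finset.mem_univ _), Finset.card_univ,
        smul_eq_mul, Nat.card_eq_fintype_card]
    · intro a ha
      rw [Finset.sum_congr rfl (g := fun _ => Sn n F)]
      · rw [Finset.sum_const, Finset.card_univ, Fintype.card_fun, smul_eq_mul,
          Nat.card_eq_fintype_card]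
      · intro b _
        exact cnt_ne_h845 a (Finset.ne_of_mem_erase ha) b
  · rw [← Finset.sum_erase_add _ _ (Finset.mem_univ (fun _ : n => (0 : F))), cnt_zero_zero_h845,
      add_zero]

theorem Sn_rec_h845 (m : ℕ) [Fintype F] [DecidableEq F] :
    Sn (Fin (m + 2)) F = (Nat.card F - 1) * (Nat.card F ^ (m + 1) * Sn (Fin (m + 1)) F) +
      (Nat.card F ^ (m + 1) - 1) * (Nat.card F * Nat.card F ^ m * Sn (Fin m) F) := by
  rw [Sn_congr_h845 (ej_h845 (0 : Fin (m + 2))), Sn_step_h845, Fintype.card_fin]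
  congr 1
  rw [Finset.sum_congr rfl (g := fun _ => Nat.card F * Nat.card F ^ m * Sn (Fin m) F)]
  · rw [Finset.sum_const, Finset.card_erase_of_mem (Finset.mem_univ _), Finset.card_univ,
      Fintype.card_fun, smul_eq_mul, Fintype.card_fin, Nat.card_eq_fintype_card]
  · intro b hb
    have hb' : b ≠ fun _ => 0 := Finset.ne_of_mem_erase hb
    obtain ⟨j, hj⟩ := Function.ne_iff.mp hb'
    rw [cnt_zero_ne_h845 b j (ej_h845 j) (ej_self_h845 j) hj, Fintype.card_fin]

theorem Sn_zero_h845 : Sn (Fin 0) F = 1 := by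
  unfold Sn cnt
  rw [Nat.card_eq_one_iff_unique]
  constructor
  · constructor
    intro a b
    apply Subtype.ext
    ext i j
    exact i.elim0
  · refine ⟨⟨0, ?_, ?_⟩⟩
    · ext i j; exact i.elim0
    · show IsUnit (Matrix.det (0 : Matrix (Fin 0) (Fin 0) F))
      rw [Matrix.det_fin_zero]; exact isUnit_one

theorem Sn_one_h845 [Fintype F] [DecidableEq F] : Sn (Fin 1) F = Nat.card F - 1 := by
  rw [Sn_congr_h845 (ej_h845 (0 : Fin 1)), Sn_step_h845, Fintype.card_fin, Sn_zero_h845, pow_zero]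
  have h : (Finset.univ.erase (fun _ : Fin 0 => (0 : F))) = ∅ := by
    rw [Finset.eq_empty_iff_forall_notMem]
    intro b hb
    exact Finset.ne_of_mem_erase hb (Subsingleton.elim _ _)
  rw [h, Finset.sum_empty]
  simp

theorem Ns_step_h845 {n : Type} [Fintype n] [DecidableEq n] [Fintype F] [DecidableEq F] :
    cnt (Unit ⊕ n) F (fun _ => True) = Nat.card F * (Nat.card F ^ Fintype.card n * cnt n F (fun _ => True)) := by
  rw [cnt_bd_h845, Finset.sum_const, Finset.sum_const, Finset.card_univ, Finset.card_univ,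
    Fintype.card_fun, smul_eq_mul, smul_eq_mul, Nat.card_eq_fintype_card]

theorem Ns_rec_h845 (m : ℕ) [Fintype F] [DecidableEq F] :
    cnt (Fin (m + 1)) F (fun _ => True) = Nat.card F ^ (m + 1) * cnt (Fin m) F (fun _ => True) := by
  rw [cnt_congr_h845 (ej_h845 (0 : Fin (m + 1))), Ns_step_h845, Fintype.card_fin]
  ring

theorem Ns_zero_h845 : cnt (Fin 0) F (fun _ => True) = 1 := by
  unfold cnt
  rw [Nat.card_eq_one_iff_unique]
  constructor
  · constructor
    intro a b
    apply Subtype.ext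
    ext i j
    exact i.elim0
  · refine ⟨⟨0, ?_, trivial⟩⟩
    ext i j; exact i.elim0

end SymCount

theorem sig_eq_h845 (p m : ℕ) [Fact p.Prime] :
    sig p m = (Sn (Fin m) (ZMod p) : ℝ) / (cnt (Fin m) (ZMod p) (fun _ => True) : ℝ) := by
  unfold sig Sn cnt
  congr 2
  exact Nat.card_congr (Equiv.subtypeEquivRight fun M => by simp)

theorem Ns_pos_h845 (p m : ℕ) [Fact p.Prime] : (0 : ℝ) < cnt (Fin m) (ZMod p) (fun _ => True) := by
  have hp : 0 < p := (Fact.out : p.Prime).pos
  induction m with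
  | zero => rw [Ns_zero_h845]; norm_num
  | succ m ih =>
    rw [Ns_rec_h845, Nat.card_zmod]
    push_cast
    positivity

theorem sig_zero_h845 (p : ℕ) [Fact p.Prime] : sig p 0 = 1 := by
  rw [sig_eq_h845, Sn_zero_h845, Ns_zero_h845]; norm_num

theorem sig_one_h845 (p : ℕ) [Fact p.Prime] : sig p 1 = 1 - 1 / (p : ℝ) := by
  have hp : 0 < p := (Fact.out : p.Prime).pos
  have hpR : (0 : ℝ) < p := by exact_mod_cast hp
  rw [sig_eq_h845, Sn_one_h845, Ns_rec_h845, Ns_zero_h845, Nat.card_zmod, Nat.cast_sub hp]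
  push_cast
  field_simp

theorem sig_rec_h845 (p m : ℕ) [Fact p.Prime] :
    sig p (m + 2) = (1 - 1 / (p : ℝ)) * sig p (m + 1) + (1 / (p : ℝ) - 1 / (p : ℝ) ^ (m + 2)) * sig p m := by
  have hp : 0 < p := (Fact.out : p.Prime).pos
  have hpR : (0 : ℝ) < p := by exact_mod_cast hp
  rw [sig_eq_h845, sig_eq_h845, sig_eq_h845, Sn_rec_h845, Ns_rec_h845, Ns_rec_h845, Nat.card_zmod]
  have h1 : 1 ≤ p ^ (m + 1) := Nat.one_le_pow _ _ hp
  have hN := Ns_pos_h845 p m
  rw [Nat.cast_add, Nat.cast_mul, Nat.cast_mul, Nat.cast_mul, Nat.cast_mul, Nat.cast_mul,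
    Nat.cast_mul, Nat.cast_sub hp, Nat.cast_sub h1]
  push_cast
  generalize (Sn (Fin (m + 1)) (ZMod p) : ℝ) = s1
  generalize (Sn (Fin m) (ZMod p) : ℝ) = s0
  generalize (cnt (Fin m) (ZMod p) (fun _ => True) : ℝ) = N at *
  have e1 : (p : ℝ) ^ (m + 1) = p ^ m * p := pow_succ _ _
  have e2 : (p : ℝ) ^ (m + 1 + 1) = p ^ m * p * p := by rw [pow_succ, pow_succ]
  rw [e1, e2]
  have hpm : (0 : ℝ) < (p : ℝ) ^ m := by positivity
  field_simp

theorem sig_prod_h845 (p : ℕ) [Fact p.Prime] (k : ℕ) :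
    sig p (2 * k) = ∏ j ∈ range k, (1 - 1 / (p : ℝ) ^ (2 * j + 1)) ∧
    sig p (2 * k + 1) = ∏ j ∈ range (k + 1), (1 - 1 / (p : ℝ) ^ (2 * j + 1)) := by
  have hp : 0 < p := (Fact.out : p.Prime).pos
  have hpR : (p : ℝ) ≠ 0 := by exact_mod_cast hp.ne'
  induction k with
  | zero =>
    refine ⟨?_, ?_⟩
    · simpa using sig_zero_h845 p
    · simpa using sig_one_h845 p
  | succ k ih =>
    obtain ⟨h1, h2⟩ := ih
    have h3 : sig p (2 * (k + 1)) = ∏ j ∈ range (k + 1), (1 - 1 / (p : ℝ) ^ (2 * j + 1)) := by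
      have e : 2 * (k + 1) = 2 * k + 2 := by ring
      rw [e, sig_rec_h845, h1, h2, Finset.prod_range_succ]
      generalize ∏ j ∈ range k, (1 - 1 / (p : ℝ) ^ (2 * j + 1)) = Q
      have e2 : (p : ℝ) ^ (2 * k + 2) = p ^ (2 * k + 1) * p := pow_succ _ _
      rw [e2]
      field_simp
      ring
    refine ⟨h3, ?_⟩
    have e : 2 * (k + 1) + 1 = (2 * k + 1) + 2 := by ring
    have e' : (2 * k + 1) + 1 = 2 * (k + 1) := by ring
    rw [e, sig_rec_h845, e', h3, h2, Finset.prod_range_succ _ (k + 1)]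
    generalize ∏ j ∈ range (k + 1), (1 - 1 / (p : ℝ) ^ (2 * j + 1)) = Q
    have e3 : 2 * k + 1 + 2 = 2 * (k + 1) + 1 := by ring
    rw [e3]
    ring

theorem sig_prod'_h845 (p : ℕ) [Fact p.Prime] (m : ℕ) :
    sig p m = ∏ j ∈ range ((m + 1) / 2), (1 - 1 / (p : ℝ) ^ (2 * j + 1)) := by
  rcases Nat.even_or_odd' m with ⟨k, rfl | rfl⟩
  · rw [(sig_prod_h845 p k).1]
    congr 2
    omega
  · rw [(sig_prod_h845 p k).2]
    congr 2
    omega


theorem sig_tendsto (p : ℕ) [Fact p.Prime] :
    Tendsto (fun m : ℕ => sig p m) atTop (𝓝 (∏' j : ℕ, (1 - 1 / (p : ℝ) ^ (2 * j + 1)))) := by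
  have hp : 1 < p := (Fact.out : p.Prime).one_lt
  have hpR : (1 : ℝ) < p := by exact_mod_cast hp
  have hsum : Summable (fun j : ℕ => -(1 / (p : ℝ) ^ (2 * j + 1))) := by
    have h1 : Summable (fun j : ℕ => (1 / (p : ℝ)) * ((1 / (p : ℝ)) ^ 2) ^ j) := by
      apply Summable.mul_left
      apply summable_geometric_of_lt_one (by positivity)
      rw [one_div, inv_pow]
      exact inv_lt_one_of_one_lt₀ (one_lt_pow₀ hpR (by norm_num))
    refine (h1.congr ?_).neg
    intro j
    rw [← pow_mul, ← pow_succ', one_div_pow]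
  have hmul : Multipliable (fun j : ℕ => (1 - 1 / (p : ℝ) ^ (2 * j + 1))) := by
    have := Real.multipliable_one_add_of_summable hsum
    refine this.congr ?_
    intro j
    ring
  have ht := hmul.hasProd.tendsto_prod_nat
  have hhalf : Tendsto (fun m : ℕ => (m + 1) / 2) atTop atTop := by
    rw [tendsto_atTop_atTop]
    intro b
    exact ⟨2 * b, fun a ha => by omega⟩
  refine (ht.comp hhalf).congr ?_
  intro m
  rw [sig_prod'_h845]
  rfl

end Sand
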