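import Pool.Agent.Helper793.Sand.Defs

set_option maxHeartbeats 4000000

open Finset Filter Topology

namespace Sand


/-- modulus attached to a pair -/
abbrev altN (p : ℕ) {r : ℕ} (lam : Fin r → ℕ) (q : Prs r) : ℕ :=
  p ^ min (lam q.1.1) (lam q.1.2)

/-- first coordinate of a pair -/
def altU (p : ℕ) {r : ℕ} (lam : Fin r → ℕ) (q : Prs r) : Gp p lam →+ ZMod (altN p lam q) :=
  (ZMod.castHom (pow_dvd_pow p (min_le_left (lam q.1.1) (lam q.1.2)))
    (ZMod (altN p lam q))).toAddMonoidHom.comp (Pi.evalAddMonoidHom _ q.1.1)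

/-- second coordinate of a pair -/
def altV (p : ℕ) {r : ℕ} (lam : Fin r → ℕ) (q : Prs r) : Gp p lam →+ ZMod (altN p lam q) :=
  (ZMod.castHom (pow_dvd_pow p (min_le_right (lam q.1.1) (lam q.1.2)))
    (ZMod (altN p lam q))).toAddMonoidHom.comp (Pi.evalAddMonoidHom _ q.1.2)

theorem altU_single (p : ℕ) {r : ℕ} (lam : Fin r → ℕ) (q : Prs r) (a : Fin r) :
    altU p lam q (Pi.single a 1) = if a = q.1.1 then 1 else 0 := by
  change (ZMod.castHom (pow_dvd_pow p (min_le_left (lam q.1.1) (lam q.1.2)))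
    (ZMod (altN p lam q))) ((Pi.single a 1 : Gp p lam) q.1.1) = _
  by_cases h : a = q.1.1
  · subst h
    rw [Pi.single_eq_same, map_one, if_pos rfl]
  · rw [Pi.single_eq_of_ne (Ne.symm h), map_zero, if_neg h]

theorem altV_single (p : ℕ) {r : ℕ} (lam : Fin r → ℕ) (q : Prs r) (a : Fin r) :
    altV p lam q (Pi.single a 1) = if a = q.1.2 then 1 else 0 := by
  change (ZMod.castHom (pow_dvd_pow p (min_le_right (lam q.1.1) (lam q.1.2)))
    (ZMod (altN p lam q))) ((Pi.single a 1 : Gp p lam) q.1.2) = _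
  by_cases h : a = q.1.2
  · subst h
    rw [Pi.single_eq_same, map_one, if_pos rfl]
  · rw [Pi.single_eq_of_ne (Ne.symm h), map_zero, if_neg h]

/-- the alternating form with given values on the pairs of generators -/
noncomputable def altBil (p : ℕ) [NeZero p] {r : ℕ} (lam : Fin r → ℕ)
    (c : (q : Prs r) → ZMod (altN p lam q)) : Gp p lam →+ AddChar (Gp p lam) ℂ where
  toFun x :=
    { toFun := fun y => ∏ q : Prs r, ZMod.stdAddChar (N := altN p lam q)
        (c q * (altU p lam q x * altV p lam q y - altV p lam q x * altU p lam q y))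
      map_zero_eq_one' := by simp
      map_add_eq_mul' := fun y y' => by
        rw [← Finset.prod_mul_distrib]
        refine Finset.prod_congr rfl fun q _ => ?_
        rw [← AddChar.map_add_eq_mul]
        congr 1
        rw [map_add, map_add]
        ring }
  map_zero' := by
    ext y
    simp
  map_add' := fun x x' => by
    ext y
    rw [AddChar.add_apply]
    simp only [AddChar.coe_mk]
    rw [← Finset.prod_mul_distrib]
    refine Finset.prod_congr rfl fun q _ => ?_
    rw [← AddChar.map_add_eq_mul]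
    congr 1
    rw [map_add, map_add]
    ring

theorem altBil_apply (p : ℕ) [NeZero p] {r : ℕ} (lam : Fin r → ℕ)
    (c : (q : Prs r) → ZMod (altN p lam q)) (x y : Gp p lam) :
    altBil p lam c x y = ∏ q : Prs r, ZMod.stdAddChar (N := altN p lam q)
        (c q * (altU p lam q x * altV p lam q y - altV p lam q x * altU p lam q y)) := rfl

theorem altBil_self (p : ℕ) [NeZero p] {r : ℕ} (lam : Fin r → ℕ)
    (c : (q : Prs r) → ZMod (altN p lam q)) (x : Gp p lam) :
    altBil p lam c x x = 1 := by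
  rw [altBil_apply]
  refine Finset.prod_eq_one fun q _ => ?_
  have : altU p lam q x * altV p lam q x - altV p lam q x * altU p lam q x = 0 := by ring
  rw [this, mul_zero, AddChar.map_zero_eq_one]

theorem altBil_single (p : ℕ) [NeZero p] {r : ℕ} (lam : Fin r → ℕ)
    (c : (q : Prs r) → ZMod (altN p lam q)) (q : Prs r) :
    altBil p lam c (Pi.single q.1.1 1) (Pi.single q.1.2 1) = ZMod.stdAddChar (c q) := by
  rw [altBil_apply, Finset.prod_eq_single q]
  · rw [altU_single, altV_single, altU_single, altV_single, if_pos rfl, if_pos rfl]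
    have h : ¬ (q.1.1 = q.1.2) := q.2.ne
    rw [if_neg h]
    congr 1
    ring
  · intro q' _ hq'
    rw [altU_single, altV_single, altU_single, altV_single]
    have h : ¬ (q.1.1 = q'.1.1 ∧ q.1.2 = q'.1.2) := by
      rintro ⟨h1, h2⟩
      exact hq' (Subtype.ext (Prod.ext h1.symm h2.symm))
    have h' : ¬ (q.1.1 = q'.1.2 ∧ q.1.2 = q'.1.1) := by
      rintro ⟨h1, h2⟩
      have h3 := q.2
      have h4 := q'.2
      rw [h1, h2] at h3
      exact lt_asymm h3 h4
    have e : (if q.1.1 = q'.1.1 then (1 : ZMod (altN p lam q')) else 0) *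
        (if q.1.2 = q'.1.2 then 1 else 0) -
        (if q.1.1 = q'.1.2 then 1 else 0) * (if q.1.2 = q'.1.1 then 1 else 0) = 0 := by
      by_cases h1 : q.1.1 = q'.1.1
      · by_cases h2 : q.1.2 = q'.1.2
        · exact absurd ⟨h1, h2⟩ h
        · rw [if_neg h2]
          by_cases h3 : q.1.1 = q'.1.2
          · by_cases h4 : q.1.2 = q'.1.1
            · exact absurd ⟨h3, h4⟩ h'
            · rw [if_neg h4]; ring
          · rw [if_neg h3]; ring
      · rw [if_neg h1]
        by_cases h3 : q.1.1 = q'.1.2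
        · by_cases h4 : q.1.2 = q'.1.1
          · exact absurd ⟨h3, h4⟩ h'
          · rw [if_neg h4]; ring
        · rw [if_neg h3]; ring
    rw [e, mul_zero, AddChar.map_zero_eq_one]
  · intro h
    exact absurd (Finset.mem_univ q) h

theorem alt_addChar_sum {A ι : Type*} [AddCommMonoid A] (ψ : AddChar A ℂ) (s : Finset ι)
    (f : ι → A) : ψ (∑ i ∈ s, f i) = ∏ i ∈ s, ψ (f i) := by
  classical
  induction s using Finset.induction_on with
  | empty => simp
  | insert a s ha ih =>
    rw [Finset.sum_insert ha, Finset.prod_insert ha, AddChar.map_add_eq_mul, ih]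

theorem alt_decomp (p : ℕ) [NeZero p] {r : ℕ} (lam : Fin r → ℕ) (x : Gp p lam) :
    x = ∑ a, (x a).val • (Pi.single a 1 : Gp p lam) := by
  funext b
  rw [Finset.sum_apply, Finset.sum_eq_single b]
  · rw [Pi.smul_apply, Pi.single_eq_same, nsmul_eq_mul, mul_one, ZMod.natCast_zmod_val]
  · intro a _ hab
    rw [Pi.smul_apply, Pi.single_eq_of_ne (Ne.symm hab), smul_zero]
  · intro h
    exact absurd (Finset.mem_univ b) h

theorem alt_ext (p : ℕ) [NeZero p] {r : ℕ} (lam : Fin r → ℕ)
    (f g : Gp p lam →+ AddChar (Gp p lam) ℂ)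
    (h : ∀ a b, f (Pi.single a 1) (Pi.single b 1) = g (Pi.single a 1) (Pi.single b 1)) :
    f = g := by
  have key : ∀ (k : Gp p lam →+ AddChar (Gp p lam) ℂ) (x y : Gp p lam),
      k x y = ∏ a, (∏ b, (k (Pi.single a 1) (Pi.single b 1)) ^ (y b).val) ^ (x a).val := by
    intro k x y
    conv_lhs => rw [alt_decomp p lam x]
    rw [map_sum, AddChar.sum_apply]
    refine Finset.prod_congr rfl fun a _ => ?_
    rw [map_nsmul, AddChar.nsmul_apply]
    congr 1
    conv_lhs => rw [alt_decomp p lam y]
    rw [alt_addChar_sum]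
    refine Finset.prod_congr rfl fun b _ => ?_
    rw [AddChar.map_nsmul_eq_pow]
  refine AddMonoidHom.ext fun x => AddChar.ext _ _ fun y => ?_
  rw [key f, key g]
  refine Finset.prod_congr rfl fun a _ => ?_
  congr 1
  refine Finset.prod_congr rfl fun b _ => ?_
  rw [h]

theorem alt_root (N : ℕ) [NeZero N] (z : ℂ) (hz : z ^ N = 1) :
    ∃ c : ZMod N, ZMod.stdAddChar c = z := by
  obtain ⟨i, _, hi⟩ := (Complex.isPrimitiveRoot_exp N (NeZero.ne N)).eq_pow_of_pow_eq_one hz
  refine ⟨((i : ℤ) : ZMod N), ?_⟩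
  rw [ZMod.stdAddChar_coe, ← hi, ← Complex.exp_nat_mul]
  congr 1
  push_cast
  ring

theorem alt_antisymm {A : Type*} [AddCommGroup A] (f : A →+ AddChar A ℂ) (hf : ∀ x, f x x = 1)
    (x y : A) : f x y = (f y x)⁻¹ := by
  have h := hf (x + y)
  rw [map_add f x y, AddChar.add_apply, AddChar.map_add_eq_mul, AddChar.map_add_eq_mul, hf, hf,
    one_mul, mul_one] at h
  exact eq_inv_of_mul_eq_one_left h

theorem alt_pow (p : ℕ) {r : ℕ} (lam : Fin r → ℕ)
    (f : Gp p lam →+ AddChar (Gp p lam) ℂ) (a b : Fin r) :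
    (f (Pi.single a 1) (Pi.single b 1)) ^ (p ^ min (lam a) (lam b)) = 1 := by
  have hz : ∀ c : Fin r, (p ^ lam c) • (Pi.single c 1 : Gp p lam) = 0 := by
    intro c
    funext d
    rw [Pi.smul_apply]
    by_cases h : d = c
    · subst h
      rw [Pi.single_eq_same, nsmul_eq_mul, mul_one, ZMod.natCast_self]
      rfl
    · rw [Pi.single_eq_of_ne h, smul_zero]
      rfl
  rcases le_total (lam a) (lam b) with h | h
  · rw [min_eq_left h, ← AddChar.nsmul_apply, ← map_nsmul, hz, map_zero, AddChar.zero_apply]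
  · rw [min_eq_right h, ← AddChar.map_nsmul_eq_pow, hz, AddChar.map_zero_eq_one]

theorem alt_Gp (p : ℕ) [Fact p.Prime] {r : ℕ} (lam : Fin r → ℕ) :
    alt (Gp p lam) = p ^ (∑ x ∈ (univ : Finset (Fin r × Fin r)).filter
        (fun x => x.1 < x.2), min (lam x.1) (lam x.2)) := by
  have : NeZero p := ⟨(Fact.out : p.Prime).ne_zero⟩
  unfold alt
  let Φ : ((q : Prs r) → ZMod (altN p lam q)) →
      {α : Gp p lam →+ AddChar (Gp p lam) ℂ // ∀ x, α x x = 1} :=
    fun c => ⟨altBil p lam c, altBil_self p lam c⟩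
  have hΦ : Function.Bijective Φ := by
    constructor
    · intro c c' h
      have h1 : altBil p lam c = altBil p lam c' := congrArg Subtype.val h
      funext q
      apply ZMod.injective_stdAddChar
      rw [← altBil_single p lam c q, ← altBil_single p lam c' q, h1]
    · rintro ⟨α, hα⟩
      choose c hc using fun q : Prs r => alt_root (altN p lam q)
        (α (Pi.single q.1.1 1) (Pi.single q.1.2 1)) (alt_pow p lam α q.1.1 q.1.2)
      refine ⟨c, Subtype.ext ?_⟩
      change altBil p lam c = α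
      apply alt_ext
      intro a b
      rcases lt_trichotomy a b with h | h | h
      · have h1 := altBil_single p lam c ⟨(a, b), h⟩
        rw [hc] at h1
        exact h1
      · subst h
        rw [altBil_self, hα]
      · rw [alt_antisymm (altBil p lam c) (altBil_self p lam c), alt_antisymm α hα]
        have h1 := altBil_single p lam c ⟨(b, a), h⟩
        rw [hc] at h1
        exact congrArg _ h1
  rw [← Nat.card_congr (Equiv.ofBijective Φ hΦ), Nat.card_pi]
  have h1 : ∀ q : Prs r, Nat.card (ZMod (altN p lam q)) = p ^ min (lam q.1.1) (lam q.1.2) :=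
    fun q => Nat.card_zmod _
  rw [Finset.prod_congr rfl fun q _ => h1 q, Finset.prod_pow_eq_pow_sum]
  congr 1
  exact (Finset.sum_subtype (p := fun x : Fin r × Fin r => x.1 < x.2)
    ((univ : Finset (Fin r × Fin r)).filter (fun x => x.1 < x.2))
    (fun x => by rw [Finset.mem_filter]; exact ⟨fun h => h.2, fun h => ⟨Finset.mem_univ _, h⟩⟩)
    (fun x : Fin r × Fin r => min (lam x.1) (lam x.2))).symm

end Sand
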