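import Pool.Agent.Helper793.Sand.Defs

set_option maxHeartbeats 4000000

open Finset Filter Topology

namespace Sand


theorem aux_geom (a : ℝ) (h0 : 0 ≤ a) (h1 : a ≤ 1/2) (m : ℕ) :
    ∑ k ∈ Finset.Icc 1 m, a ^ k ≤ 2 * a - 2 * a ^ (m + 1) := by
  induction m with
  | zero => simp
  | succ m ih =>
    rw [Finset.sum_Icc_succ_top (by omega)]
    have h2 : 0 ≤ a ^ (m + 1) * (1 - 2 * a) := mul_nonneg (pow_nonneg h0 _) (by linarith)
    have h3 : a ^ (m + 1 + 1) = a ^ (m + 1) * a := pow_succ _ _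
    rw [h3]
    nlinarith

theorem aux_geom' (a : ℝ) (h0 : 0 ≤ a) (h1 : a ≤ 1/2) (m : ℕ) :
    ∑ k ∈ Finset.Icc 1 m, a ^ k ≤ 2 * a := by
  have := aux_geom a h0 h1 m
  have h2 : 0 ≤ a ^ (m + 1) := pow_nonneg h0 _
  linarith

theorem aux_B (h : ℕ) (q z η : ℝ) (hq0 : 0 < q) (hz0 : 0 < z) (hz1 : z < 1)
    (hr1 : h * z + q < 1) (hη : 0 < η) (hη1 : η ≤ 1)
    (hη2 : η * Real.log z⁻¹ ≤ -(1/2) * Real.log (h * z + q)) (n m : ℕ) (hm : (m : ℝ) ≤ η * n) :
    ∑ k ∈ Finset.Icc 1 m, (n.choose k : ℝ) * (h : ℝ) ^ k * q ^ (n - k) ≤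
      Real.exp ((1/2) * Real.log (h * z + q) * n) := by
  have hzi : 1 ≤ z⁻¹ := by rw [one_le_inv₀ hz0]; exact hz1.le
  have hn0 : (0:ℝ) ≤ n := Nat.cast_nonneg n
  have hmn : m ≤ n := by
    have : (m:ℝ) ≤ n := hm.trans (by nlinarith)
    exact_mod_cast this
  have hr0 : 0 < h * z + q := by positivity
  have h1 : ∀ k ∈ Finset.Icc 1 m, (n.choose k : ℝ) * (h : ℝ) ^ k * q ^ (n - k) ≤
      (z⁻¹) ^ m * ((h * z) ^ k * q ^ (n - k) * (n.choose k : ℝ)) := by
    intro k hk
    rw [Finset.mem_Icc] at hk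
    have e1 : (h:ℝ) ^ k = (h * z) ^ k * (z⁻¹) ^ k := by
      rw [← mul_pow, mul_assoc, mul_inv_cancel₀ hz0.ne', mul_one]
    rw [e1]
    have e2 : (z⁻¹) ^ k ≤ (z⁻¹) ^ m := pow_le_pow_right₀ hzi hk.2
    have e3 : 0 ≤ (h * z) ^ k * q ^ (n - k) * (n.choose k : ℝ) := by positivity
    calc (n.choose k : ℝ) * ((h * z) ^ k * (z⁻¹) ^ k) * q ^ (n - k)
        = (z⁻¹) ^ k * ((h * z) ^ k * q ^ (n - k) * (n.choose k : ℝ)) := by ring
      _ ≤ _ := mul_le_mul_of_nonneg_right e2 e3
  refine (Finset.sum_le_sum h1).trans ?_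
  rw [← Finset.mul_sum]
  have h2 : ∑ k ∈ Finset.Icc 1 m, ((h * z) ^ k * q ^ (n - k) * (n.choose k : ℝ)) ≤
      (h * z + q) ^ n := by
    rw [add_pow]
    apply Finset.sum_le_sum_of_subset_of_nonneg
    · intro k hk
      rw [Finset.mem_Icc] at hk
      rw [Finset.mem_range]; omega
    · intro k _ _
      positivity
  refine (mul_le_mul_of_nonneg_left h2 (by positivity)).trans ?_
  have e4 : (z⁻¹) ^ m = Real.exp (m * Real.log z⁻¹) := by
    rw [mul_comm, Real.exp_mul, Real.exp_log (by positivity), Real.rpow_natCast]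
  have e5 : (h * z + q) ^ n = Real.exp (n * Real.log (h * z + q)) := by
    rw [show (n:ℝ) * Real.log (h * z + q) = Real.log (h * z + q) * n by ring, Real.exp_mul,
      Real.exp_log hr0, Real.rpow_natCast]
  rw [e4, e5, ← Real.exp_add]
  apply Real.exp_le_exp.2
  have hlz : 0 ≤ Real.log z⁻¹ := Real.log_nonneg hzi
  have e6 : (m:ℝ) * Real.log z⁻¹ ≤ η * n * Real.log z⁻¹ := mul_le_mul_of_nonneg_right hm hlz
  have e7 : n * (η * Real.log z⁻¹) ≤ n * (-(1/2) * Real.log (h * z + q)) :=
    mul_le_mul_of_nonneg_left hη2 hn0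
  nlinarith

theorem aux_choose (n k : ℕ) (hk : 1 ≤ k) :
    (n.choose k : ℝ) ≤ (Real.exp 1 * n / k) ^ k := by
  have hk0 : (0:ℝ) < k := by exact_mod_cast hk
  have h1 : (n.choose k : ℝ) ≤ (n:ℝ) ^ k / k.factorial := Nat.choose_le_pow_div k n
  have h2 : (k:ℝ) ^ k / k.factorial ≤ Real.exp k := Real.pow_div_factorial_le_exp _ hk0.le k
  refine h1.trans ?_
  have e1 : (n:ℝ) ^ k / k.factorial = ((n:ℝ) / k) ^ k * ((k:ℝ) ^ k / k.factorial) := by
    rw [div_pow]
    field_simp
  have e2 : (Real.exp 1 * n / k) ^ k = ((n:ℝ) / k) ^ k * Real.exp k := by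
    rw [mul_div_assoc, mul_pow, ← Real.exp_nat_mul, mul_one, mul_comm]
  rw [e1, e2]
  exact mul_le_mul_of_nonneg_left h2 (by positivity)

/-- the bound in the region `s k ≤ 1/8` -/
theorem aux_I (h n k : ℕ) (hh : 1 ≤ h) (hk : 1 ≤ k) (s : ℝ) (hs : 0 ≤ s) (hkn : (k:ℝ) ≤ n / 16)
    (hx : s * k ≤ 1/8) (hω : Real.log n ≤ n * s)
    (hL : 2 * Real.log n + 2 * (Real.log n)^2 ≤ Real.exp (Real.log n / 2)) :
    (n.choose k : ℝ) * (h : ℝ) ^ k * ((1 + Real.exp (-2 * s * k)) / 2) ^ (n - k) ≤
      (Real.exp 1 * h * (Real.exp (-(3/8) * Real.log n) +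
        Real.exp (-(n * s - Real.log n)))) ^ k := by
  have hk0 : (1:ℝ) ≤ k := by exact_mod_cast hk
  have hn : (16:ℝ) ≤ n := by linarith
  have hn0 : (0:ℝ) < n := by linarith
  have hh0 : (1:ℝ) ≤ h := by exact_mod_cast hh
  have hkn' : k ≤ n := by
    have : (k:ℝ) ≤ n := by linarith
    exact_mod_cast this
  set L := Real.log n with hLdef
  have hnL : (n:ℝ) = Real.exp L := (Real.exp_log hn0).symm
  have hL0 : 0 ≤ L := Real.log_nonneg (by linarith)
  set x := s * k with hxdef
  have hx0 : 0 ≤ x := by positivity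
  set y := n * s with hydef
  have hy0 : 0 ≤ y := by positivity
  have hnx : n * x = y * k := by rw [hxdef, hydef]; ring
  -- the last factor
  have hc : (1 + Real.exp (-2 * s * k)) / 2 ≤ Real.exp (-x + x^2/2) := by
    have e1 : (1 + Real.exp (-2 * s * k)) / 2 = Real.exp (-x) * Real.cosh x := by
      rw [Real.cosh_eq, mul_div_assoc', mul_add, ← Real.exp_add, ← Real.exp_add]
      congr 2
      · simp
      · congr 1; rw [hxdef]; ring
    rw [e1, Real.exp_add]
    exact mul_le_mul_of_nonneg_left (Real.cosh_le_exp_half_sq x) (Real.exp_pos _).le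
  have hc0 : 0 ≤ (1 + Real.exp (-2 * s * k)) / 2 := by positivity
  have hcp : ((1 + Real.exp (-2 * s * k)) / 2) ^ (n - k) ≤
      Real.exp (-((n - k) * (x - x^2/2))) := by
    refine (pow_le_pow_left₀ hc0 hc _).trans ?_
    rw [← Real.exp_nat_mul, Nat.cast_sub hkn']
    apply le_of_eq; congr 1; ring
  have hch0 : (0:ℝ) ≤ (n.choose k : ℝ) * (h : ℝ) ^ k := by positivity
  -- general reduction
  have hred : ∀ b w : ℝ, 0 ≤ b → (n.choose k : ℝ) ≤ b ^ k → w * k ≤ (n - k) * (x - x^2/2) →
      b * h * Real.exp (-w) ≤ Real.exp 1 * h * (Real.exp (-(3/8) * L) + Real.exp (-(y - L))) →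
      (n.choose k : ℝ) * (h : ℝ) ^ k * ((1 + Real.exp (-2 * s * k)) / 2) ^ (n - k) ≤
      (Real.exp 1 * h * (Real.exp (-(3/8) * L) + Real.exp (-(y - L)))) ^ k := by
    intro b w hb0 hb hw hfin
    calc (n.choose k : ℝ) * (h : ℝ) ^ k * ((1 + Real.exp (-2 * s * k)) / 2) ^ (n - k)
        ≤ b ^ k * (h : ℝ) ^ k * Real.exp (-(w * k)) := by
          apply mul_le_mul
          · exact mul_le_mul_of_nonneg_right hb (by positivity)
          · refine hcp.trans (Real.exp_le_exp.2 (by linarith))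
          · exact pow_nonneg hc0 _
          · positivity
      _ = (b * h * Real.exp (-w)) ^ k := by
          rw [mul_pow, mul_pow, ← Real.exp_nat_mul]
          congr 2; ring
      _ ≤ _ := pow_le_pow_left₀ (by positivity) hfin k
  have hcoarse : (7/8) * y * k ≤ (n - k) * (x - x^2/2) := by
    have e1 : (15/16) * x ≤ x - x^2/2 := by nlinarith
    have e2 : (15/16) * (n:ℝ) ≤ n - k := by linarith
    have e3 : (15/16) * (n:ℝ) * ((15/16) * x) ≤ (n - k) * (x - x^2/2) :=
      mul_le_mul e2 e1 (by positivity) (by linarith)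
    have e4 : (15/16) * (n:ℝ) * ((15/16) * x) = (225/256) * (y * k) := by rw [← hnx]; ring
    have e5 : 0 ≤ y * k := by positivity
    nlinarith
  have hexp1 : (1:ℝ) ≤ Real.exp 1 := Real.one_le_exp zero_le_one
  rcases le_or_gt (2 * L) y with hA | hB
  · -- case A
    apply hred n ((7/4) * L) hn0.le (by exact_mod_cast Nat.choose_le_pow n k)
    · have : (7/4) * L * k ≤ (7/8) * y * k := by
        apply mul_le_mul_of_nonneg_right _ (by positivity)
        linarith
      linarith
    · have e1 : (n:ℝ) * h * Real.exp (-((7/4) * L)) = h * Real.exp (-(3/4) * L) := by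
        rw [hnL]
        rw [show Real.exp L * (h:ℝ) * Real.exp (-((7/4) * L)) =
          h * (Real.exp L * Real.exp (-((7/4) * L))) by ring, ← Real.exp_add]
        congr 2; ring
      rw [e1]
      have e2 : Real.exp (-(3/4) * L) ≤ Real.exp (-(3/8) * L) + Real.exp (-(y - L)) := by
        have : Real.exp (-(3/4) * L) ≤ Real.exp (-(3/8) * L) := Real.exp_le_exp.2 (by linarith)
        have := Real.exp_pos (-(y - L))
        linarith
      have e3 : (h:ℝ) ≤ Real.exp 1 * h := by nlinarith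
      exact mul_le_mul e3 e2 (Real.exp_pos _).le (by positivity)
  · rcases le_or_gt (k:ℝ) (Real.exp (L/2)) with hk1 | hk2
    · -- case B1
      apply hred n (y - 1) hn0.le (by exact_mod_cast Nat.choose_le_pow n k)
      · have e1 : (y * k) / n + (y^2 * k) / (2 * n) ≤ 1 := by
          have f1 : (y * k) / n + (y^2 * k) / (2 * n) = (2 * y + y^2) * k / (2 * n) := by
            field_simp
          rw [f1, div_le_one (by positivity)]
          have f2 : 2 * y + y^2 ≤ 2 * (2 * L + 2 * L^2) := by nlinarith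
          have f3 : (2 * y + y^2) * k ≤ 2 * (2 * L + 2 * L^2) * Real.exp (L/2) :=
            mul_le_mul f2 hk1 (by positivity) (by positivity)
          have f4 : 2 * (2 * L + 2 * L^2) * Real.exp (L/2) ≤
              2 * Real.exp (L/2) * Real.exp (L/2) :=
            mul_le_mul_of_nonneg_right (by linarith) (Real.exp_pos _).le
          have f5 : 2 * Real.exp (L/2) * Real.exp (L/2) = 2 * n := by
            rw [mul_assoc, ← Real.exp_add, hnL]; congr 2; ring
          linarith
        have e2 : (n - k) * (x - x^2/2) = y * k - k * ((y * k) / n + (y^2 * k) / (2 * n))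
            + k * x^2 / 2 := by
          have : x = y * k / n := by rw [eq_div_iff hn0.ne', mul_comm, hnx]
          rw [this]
          field_simp
          ring
        rw [e2]
        have e3 : k * ((y * k) / n + (y^2 * k) / (2 * n)) ≤ k * 1 :=
          mul_le_mul_of_nonneg_left e1 (by positivity)
        have e4 : 0 ≤ k * x^2 / 2 := by positivity
        nlinarith
      · have e1 : (n:ℝ) * h * Real.exp (-(y - 1)) = Real.exp 1 * h * Real.exp (-(y - L)) := by
          rw [hnL]
          rw [show Real.exp L * (h:ℝ) * Real.exp (-(y - 1)) =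
            h * (Real.exp L * Real.exp (-(y - 1))) by ring,
            show Real.exp 1 * (h:ℝ) * Real.exp (-(y - L)) =
            h * (Real.exp 1 * Real.exp (-(y - L))) by ring, ← Real.exp_add, ← Real.exp_add]
          congr 2; ring
        rw [e1]
        apply mul_le_mul_of_nonneg_left _ (by positivity)
        have := Real.exp_pos (-(3/8) * L)
        linarith
    · -- case B2
      have hb : (n.choose k : ℝ) ≤ (Real.exp 1 * Real.exp (L/2)) ^ k := by
        refine (aux_choose n k hk).trans ?_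
        apply pow_le_pow_left₀ (by positivity)
        rw [mul_div_assoc]
        apply mul_le_mul_of_nonneg_left _ (by positivity)
        rw [div_le_iff₀ (by linarith)]
        have : Real.exp (L/2) * Real.exp (L/2) = n := by
          rw [← Real.exp_add, hnL]; congr 1; ring
        nlinarith [Real.exp_pos (L/2)]
      apply hred (Real.exp 1 * Real.exp (L/2)) ((7/8) * L) (by positivity) hb
      · have : (7/8) * L * k ≤ (7/8) * y * k := by
          apply mul_le_mul_of_nonneg_right _ (by positivity)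
          linarith
        linarith
      · have e1 : Real.exp 1 * Real.exp (L/2) * h * Real.exp (-((7/8) * L)) =
            Real.exp 1 * h * Real.exp (-(3/8) * L) := by
          rw [show Real.exp 1 * Real.exp (L/2) * (h:ℝ) * Real.exp (-((7/8) * L)) =
            Real.exp 1 * h * (Real.exp (L/2) * Real.exp (-((7/8) * L))) by ring, ← Real.exp_add]
          congr 2; ring
        rw [e1]
        apply mul_le_mul_of_nonneg_left _ (by positivity)
        have := Real.exp_pos (-(y - L))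
        linarith

theorem aux_L : ∀ᶠ L : ℝ in atTop, 2 * L + 2 * L^2 ≤ Real.exp (L / 2) := by
  have h1 := Real.tendsto_pow_mul_exp_neg_atTop_nhds_zero 1
  have h2 := Real.tendsto_pow_mul_exp_neg_atTop_nhds_zero 2
  have h3 : Tendsto (fun u : ℝ => 4 * (u ^ 1 * Real.exp (-u)) + 8 * (u ^ 2 * Real.exp (-u)))
      atTop (𝓝 (4 * 0 + 8 * 0)) := (h1.const_mul 4).add (h2.const_mul 8)
  simp only [mul_zero, add_zero] at h3
  have h4 := h3.eventually (ge_mem_nhds (zero_lt_one' ℝ))
  have h5 : Tendsto (fun L : ℝ => L / 2) atTop atTop := tendsto_id.atTop_div_const (by norm_num)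
  have h6 := h5.eventually h4
  filter_upwards [h6] with L hL
  have h7 : (4 * ((L/2) ^ 1 * Real.exp (-(L/2))) + 8 * ((L/2) ^ 2 * Real.exp (-(L/2)))) *
      Real.exp (L/2) ≤ 1 * Real.exp (L/2) :=
    mul_le_mul_of_nonneg_right hL (Real.exp_pos _).le
  have h8 : Real.exp (-(L/2)) * Real.exp (L/2) = 1 := by
    rw [← Real.exp_add]; simp
  have h9 : (4 * ((L/2) ^ 1 * Real.exp (-(L/2))) + 8 * ((L/2) ^ 2 * Real.exp (-(L/2)))) *
      Real.exp (L/2) = (2 * L + 2 * L^2) * (Real.exp (-(L/2)) * Real.exp (L/2)) := by ring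
  rw [h9, h8] at h7
  linarith

theorem near_sum (h : ℕ) (hh : 1 ≤ h) : ∃ η0 : ℝ, 0 < η0 ∧ ∀ η : ℝ, 0 < η → η ≤ η0 →
    ∀ s : ℕ → ℝ, (∀ n, 0 ≤ s n) →
    Tendsto (fun n : ℕ => n * s n - Real.log n) atTop atTop →
    Tendsto (fun n : ℕ => ∑ k ∈ Finset.Icc 1 ⌊η * n⌋₊, (n.choose k : ℝ) * (h : ℝ) ^ k *
      ((1 + Real.exp (-2 * s n * k)) / 2) ^ (n - k)) atTop (𝓝 0) := by
  have hh0 : (1:ℝ) ≤ h := by exact_mod_cast hh
  set q : ℝ := (1 + Real.exp (-(1/4))) / 2 with hq
  have he1 : Real.exp (-(1/4)) < 1 := by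
    rw [Real.exp_lt_one_iff]; norm_num
  have he0 : 0 < Real.exp (-(1/4)) := Real.exp_pos _
  have hq0 : 0 < q := by rw [hq]; linarith
  have hq1 : q < 1 := by rw [hq]; linarith
  set z : ℝ := (1 - q) / (2 * h) with hz
  have hz0 : 0 < z := div_pos (by linarith) (by linarith)
  have hz1 : z < 1 := by rw [hz, div_lt_one (by linarith)]; linarith
  have hr : h * z + q = (1 + q) / 2 := by
    rw [hz]; field_simp; ring
  have hr1 : h * z + q < 1 := by rw [hr]; linarith
  have hr0 : 0 < h * z + q := by positivity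
  have hlr : Real.log (h * z + q) < 0 := Real.log_neg hr0 hr1
  have hlz : 0 < Real.log z⁻¹ := Real.log_pos (by rw [one_lt_inv₀ hz0]; exact hz1)
  refine ⟨min (1/16) (-(1/2) * Real.log (h * z + q) / Real.log z⁻¹),
    lt_min (by norm_num) (div_pos (by linarith) hlz), ?_⟩
  intro η hη hη0 s hs hω
  have hη1 : η ≤ 1/16 := hη0.trans (min_le_left _ _)
  have hη2 : η * Real.log z⁻¹ ≤ -(1/2) * Real.log (h * z + q) := by
    have := hη0.trans (min_le_right _ _)
    rwa [le_div_iff₀ hlz] at this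
  set a : ℕ → ℝ := fun n => Real.exp 1 * h * (Real.exp (-(3/8) * Real.log n) +
    Real.exp (-(n * s n - Real.log n))) with ha
  have hlog : Tendsto (fun n : ℕ => Real.log n) atTop atTop :=
    Real.tendsto_log_atTop.comp tendsto_natCast_atTop_atTop
  have ha0 : Tendsto a atTop (𝓝 0) := by
    have h1 : Tendsto (fun n : ℕ => Real.exp (-(3/8) * Real.log n)) atTop (𝓝 0) := by
      apply Real.tendsto_exp_atBot.comp
      exact hlog.const_mul_atTop_of_neg (by norm_num)
    have h2 : Tendsto (fun n : ℕ => Real.exp (-(n * s n - Real.log n))) atTop (𝓝 0) :=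
      Real.tendsto_exp_neg_atTop_nhds_zero.comp hω
    have h3 : Tendsto a atTop (𝓝 (Real.exp 1 * h * (0 + 0))) :=
      (h1.add h2).const_mul (Real.exp 1 * h)
    rw [add_zero, mul_zero] at h3
    exact h3
  have hb0 : Tendsto (fun n : ℕ => Real.exp ((1/2) * Real.log (h * z + q) * n)) atTop (𝓝 0) := by
    apply Real.tendsto_exp_atBot.comp
    exact tendsto_natCast_atTop_atTop.const_mul_atTop_of_neg (by linarith)
  have hsum : Tendsto (fun n => 2 * a n + Real.exp ((1/2) * Real.log (h * z + q) * n)) atTop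
      (𝓝 0) := by
    have := (ha0.const_mul 2).add hb0
    simpa using this
  refine tendsto_of_tendsto_of_tendsto_of_le_of_le' tendsto_const_nhds hsum ?_ ?_
  · exact Eventually.of_forall fun n => Finset.sum_nonneg fun k _ => by positivity
  · have c1 : ∀ᶠ n : ℕ in atTop, a n ≤ 1/2 := ha0.eventually (ge_mem_nhds (by norm_num))
    have c2 := hω.eventually (eventually_ge_atTop 0)
    have c3 := hlog.eventually aux_L
    filter_upwards [c1, c2, c3] with n h1 h2 h3
    have hfl : ((⌊η * n⌋₊ : ℕ) : ℝ) ≤ η * n := Nat.floor_le (by positivity)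
    have hterm : ∀ k ∈ Finset.Icc 1 ⌊η * n⌋₊, (n.choose k : ℝ) * (h : ℝ) ^ k *
        ((1 + Real.exp (-2 * s n * k)) / 2) ^ (n - k) ≤
        (a n) ^ k + (n.choose k : ℝ) * (h : ℝ) ^ k * q ^ (n - k) := by
      intro k hk
      rw [Finset.mem_Icc] at hk
      have hkR : (k:ℝ) ≤ η * n := by
        have : (k:ℝ) ≤ (⌊η * n⌋₊ : ℕ) := by exact_mod_cast hk.2
        exact this.trans hfl
      have ha' : 0 ≤ a n := by rw [ha]; positivity
      rcases le_or_gt (s n * k) (1/8) with hx | hx
      · have hkn : (k:ℝ) ≤ n / 16 := by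
          have : η * n ≤ (1/16) * n := mul_le_mul_of_nonneg_right hη1 (Nat.cast_nonneg n)
          linarith
        have := aux_I h n k hh hk.1 (s n) (hs n) hkn hx (by linarith) h3
        have h5 : 0 ≤ (n.choose k : ℝ) * (h : ℝ) ^ k * q ^ (n - k) := by positivity
        rw [ha]
        linarith
      · have h4 : (1 + Real.exp (-2 * s n * k)) / 2 ≤ q := by
          have : Real.exp (-2 * s n * k) ≤ Real.exp (-(1/4)) := Real.exp_le_exp.2 (by linarith)
          rw [hq]; linarith
        have h5 : ((1 + Real.exp (-2 * s n * k)) / 2) ^ (n - k) ≤ q ^ (n - k) :=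
          pow_le_pow_left₀ (by positivity) h4 _
        have h6 : (n.choose k : ℝ) * (h : ℝ) ^ k * ((1 + Real.exp (-2 * s n * k)) / 2) ^ (n - k) ≤
            (n.choose k : ℝ) * (h : ℝ) ^ k * q ^ (n - k) :=
          mul_le_mul_of_nonneg_left h5 (by positivity)
        have h7 : 0 ≤ (a n) ^ k := pow_nonneg ha' k
        linarith
    refine (Finset.sum_le_sum hterm).trans ?_
    rw [Finset.sum_add_distrib]
    have ha' : 0 ≤ a n := by rw [ha]; positivity
    exact add_le_add (aux_geom' _ ha' h1 _)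
      (aux_B h q z η hq0 hz0 hz1 hr1 hη (by linarith) hη2 n _ hfl)

end Sand
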