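import Pool.Agent.Helper793.Sand.Defs

set_option maxHeartbeats 4000000

open Finset Filter Topology

namespace Sand


theorem nb_inner {T ι : Type} [Fintype ι] (h : ℕ) (d : T → T → ℝ)
    (d0 : ∀ x y, 0 ≤ d x y) (d2 : ∀ x y, d x y ≤ 2) (S : Finset T) (hS : S.card = h)
    (hS2 : ∀ x ∉ S, (h : ℝ) ≤ ∑ y ∈ S, d x y) (s : ℝ) (hs : 0 ≤ s) (x : ι → T)
    (hx : ∀ u, x u ∉ S) :
    ∑ z ∈ S, Real.exp (-s * ∑ u, d (x u) z) ≤
      (h : ℝ) * ((1 + Real.exp (-2 * s * (Fintype.card ι : ℝ))) / 2) := by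
  rcases Nat.eq_zero_or_pos (Fintype.card ι) with hk | hk
  · have : IsEmpty ι := Fintype.card_eq_zero_iff.1 hk
    simp [hk, hS]
  · set k : ℝ := (Fintype.card ι : ℝ) with hkdef
    have hk0 : 0 < k := by rw [hkdef]; exact_mod_cast hk
    set D : T → ℝ := fun z => ∑ u, d (x u) z with hD
    set E : ℝ := Real.exp (-2 * s * k) with hE
    have hE1 : E ≤ 1 := by
      rw [hE, Real.exp_le_one_iff]
      have : 0 ≤ s * k := by positivity
      linarith
    have hD0 : ∀ z, 0 ≤ D z := fun z => Finset.sum_nonneg fun u _ => d0 _ _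
    have hD2 : ∀ z, D z ≤ 2 * k := by
      intro z
      calc D z ≤ ∑ _u : ι, (2 : ℝ) := Finset.sum_le_sum fun u _ => d2 _ _
        _ = 2 * k := by
          rw [Finset.sum_const, Finset.card_univ, nsmul_eq_mul, mul_comm]
    have hconv : ∀ z, Real.exp (-s * D z) ≤ 1 - D z / (2 * k) * (1 - E) := by
      intro z
      have h0 : 0 ≤ D z / (2 * k) := by have := hD0 z; positivity
      have h1 : D z / (2 * k) ≤ 1 := by
        rw [div_le_one (by positivity)]; exact hD2 z
      have := convexOn_exp.2 (Set.mem_univ (0 : ℝ)) (Set.mem_univ (-2 * s * k))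
        (show 0 ≤ 1 - D z / (2 * k) by linarith) h0 (by ring)
      simp only [smul_eq_mul, mul_zero, zero_add, Real.exp_zero, mul_one] at this
      have e : D z / (2 * k) * (-2 * s * k) = -s * D z := by
        field_simp
      rw [e] at this
      rw [← hE] at this
      linarith
    have hsum : k * h ≤ ∑ z ∈ S, D z := by
      rw [hD]
      simp only
      rw [Finset.sum_comm]
      calc k * h = ∑ _u : ι, (h : ℝ) := by
            rw [Finset.sum_const, Finset.card_univ, nsmul_eq_mul]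
        _ ≤ ∑ u, ∑ y ∈ S, d (x u) y := Finset.sum_le_sum fun u _ => hS2 _ (hx u)
    calc ∑ z ∈ S, Real.exp (-s * D z) ≤ ∑ z ∈ S, (1 - D z / (2 * k) * (1 - E)) :=
          Finset.sum_le_sum fun z _ => hconv z
      _ = h - (∑ z ∈ S, D z) / (2 * k) * (1 - E) := by
          rw [Finset.sum_sub_distrib, Finset.sum_const, hS, nsmul_eq_mul, mul_one,
            ← Finset.sum_mul, Finset.sum_div]
      _ ≤ h - (k * h) / (2 * k) * (1 - E) := by
          have : (k * h) / (2 * k) ≤ (∑ z ∈ S, D z) / (2 * k) := by gcongr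
          have h1 : 0 ≤ 1 - E := by linarith
          have := mul_le_mul_of_nonneg_right this h1
          linarith
      _ = h * ((1 + E) / 2) := by
          field_simp
          ring

theorem nb_pairs {n : ℕ} (a : Fin n → Fin n → ℝ) (a0 : ∀ u v, 0 ≤ a u v)
    (asymm : ∀ u v, a u v = a v u) (U : Finset (Fin n)) :
    ∑ v ∈ univ.filter (fun v => v ∉ U), ∑ u ∈ U, a u v ≤ ∑ x : Prs n, a x.1.1 x.1.2 := by
  classical
  set b : Fin n × Fin n → ℝ := fun p => if p.1 ∈ U ∧ p.2 ∉ U then a p.1 p.2 else 0 with hb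
  have e1 : ∑ v ∈ univ.filter (fun v => v ∉ U), ∑ u ∈ U, a u v = ∑ p : Fin n × Fin n, b p := by
    rw [Fintype.sum_prod_type_right, Finset.sum_filter]
    apply Finset.sum_congr rfl
    intro v _
    rw [hb]
    by_cases hv : v ∉ U
    · rw [if_pos hv]
      simp only [hv, not_false_eq_true, and_true]
      rw [Finset.sum_ite_mem, Finset.univ_inter]
    · rw [if_neg hv]
      simp [hv]
  have e2 : ∀ p : Fin n × Fin n, b p = (if p.1 < p.2 then b p else 0) +
      (if p.2 < p.1 then b p else 0) := by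
    intro p
    rcases lt_trichotomy p.1 p.2 with h | h | h
    · rw [if_pos h, if_neg (not_lt.2 h.le), add_zero]
    · rw [if_neg (not_lt.2 h.ge), if_neg (not_lt.2 h.le), add_zero, hb]
      simp [h]
    · rw [if_neg (not_lt.2 h.le), if_pos h, zero_add]
  have e3 : ∑ p : Fin n × Fin n, (if p.2 < p.1 then b p else 0) =
      ∑ p : Fin n × Fin n, (if p.1 < p.2 then b p.swap else 0) := by
    apply Fintype.sum_equiv (Equiv.prodComm _ _)
    intro p
    rfl
  have e4 : ∑ x : Prs n, a x.1.1 x.1.2 = ∑ p : Fin n × Fin n, (if p.1 < p.2 then a p.1 p.2 else 0) := by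
    rw [← Finset.sum_filter]
    exact (Finset.sum_subtype _ (by simp) (fun p : Fin n × Fin n => a p.1 p.2)).symm
  rw [e1, Finset.sum_congr rfl (fun p _ => e2 p), Finset.sum_add_distrib, e3, e4,
    ← Finset.sum_add_distrib]
  apply Finset.sum_le_sum
  intro p _
  by_cases h : p.1 < p.2
  · rw [if_pos h, if_pos h, if_pos h, hb]
    simp only [Prod.fst_swap, Prod.snd_swap]
    have := a0 p.1 p.2
    have hs := asymm p.2 p.1
    by_cases h1 : p.1 ∈ U <;> by_cases h2 : p.2 ∈ U <;> simp [h1, h2] <;> linarith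
  · rw [if_neg h, if_neg h, if_neg h, add_zero]

theorem nb_fixed (T : Type) [Fintype T] [DecidableEq T] (h : ℕ)
    (hT : Fintype.card T = h ^ 2) (d : T → T → ℝ)
    (d0 : ∀ x y, 0 ≤ d x y) (d2 : ∀ x y, d x y ≤ 2)
    (S : Finset T) (hS : S.card = h)
    (hS2 : ∀ x ∉ S, (h : ℝ) ≤ ∑ y ∈ S, d x y) (s : ℝ) (hs : 0 ≤ s) (n : ℕ)
    (U : Finset (Fin n)) :
    ∑ t ∈ (univ : Finset (Fin n → T)).filter
        (fun t => (univ : Finset (Fin n)).filter (fun u => t u ∉ S) = U),
      Real.exp (- s * ∑ v ∈ univ.filter (fun v => v ∉ U), ∑ u ∈ U, d (t u) (t v)) ≤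
    ((h : ℝ) ^ 2) ^ U.card *
      ((h : ℝ) * ((1 + Real.exp (-2 * s * U.card)) / 2)) ^ (n - U.card) := by
  classical
  set A : ℝ := (h : ℝ) * ((1 + Real.exp (-2 * s * U.card)) / 2) with hA
  have hA0 : 0 ≤ A := by positivity
  let e := Equiv.piEquivPiSubtypeProd (fun u : Fin n => u ∈ U) (fun _ => T)
  let φ : ({u // u ∈ U} → T) → T → ℝ := fun x z => Real.exp (-s * ∑ u, d (x u) z)
  have hφ0 : ∀ x z, 0 ≤ φ x z := fun x z => (Real.exp_pos _).le
  -- termwise
  have hterm : ∀ t : Fin n → T,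
      (if (univ : Finset (Fin n)).filter (fun u => t u ∉ S) = U then
        Real.exp (- s * ∑ v ∈ univ.filter (fun v => v ∉ U), ∑ u ∈ U, d (t u) (t v)) else 0) ≤
      (if ∀ u, (e t).1 u ∉ S then (1 : ℝ) else 0) *
        (if ∀ v, (e t).2 v ∈ S then ∏ v, φ (e t).1 ((e t).2 v) else 0) := by
    intro t
    by_cases hU : (univ : Finset (Fin n)).filter (fun u => t u ∉ S) = U
    · rw [if_pos hU]
      have h1 : ∀ u, (e t).1 u ∉ S := by
        intro u
        have := u.2
        have h2 : (u : Fin n) ∈ (univ : Finset (Fin n)).filter (fun u => t u ∉ S) := by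
          rw [hU]; exact this
        exact (Finset.mem_filter.1 h2).2
      have h2 : ∀ v, (e t).2 v ∈ S := by
        intro v
        by_contra hcon
        apply v.2
        have h3 : (v : Fin n) ∈ (univ : Finset (Fin n)).filter (fun u => t u ∉ S) :=
          Finset.mem_filter.2 ⟨Finset.mem_univ _, hcon⟩
        rw [hU] at h3
        exact h3
      rw [if_pos h1, if_pos h2, one_mul, ← Real.exp_sum]
      apply le_of_eq
      congr 1
      rw [← Finset.mul_sum]
      congr 1
      rw [Finset.sum_subtype (p := fun v => v ∉ U) _ (by simp)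
        (fun v : Fin n => ∑ u ∈ U, d (t u) (t v))]
      apply Finset.sum_congr rfl
      intro v _
      rw [Finset.sum_subtype (p := fun u => u ∈ U) U (by simp) (fun u : Fin n => d (t u) (t v))]
      rfl
    · rw [if_neg hU]
      apply mul_nonneg
      · split_ifs <;> norm_num
      · split_ifs
        · exact Finset.prod_nonneg fun v _ => hφ0 _ _
        · exact le_rfl
  rw [Finset.sum_filter]
  refine (Finset.sum_le_sum fun t _ => hterm t).trans ?_
  have hsum : ∑ t : Fin n → T, (if ∀ u, (e t).1 u ∉ S then (1 : ℝ) else 0) *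
        (if ∀ v, (e t).2 v ∈ S then ∏ v, φ (e t).1 ((e t).2 v) else 0) =
      ∑ p : ({u // u ∈ U} → T) × ({u // ¬ u ∈ U} → T), (if ∀ u, p.1 u ∉ S then (1 : ℝ) else 0) *
        (if ∀ v, p.2 v ∈ S then ∏ v, φ p.1 (p.2 v) else 0) :=
    Fintype.sum_equiv e _ _ (fun t => rfl)
  rw [hsum, Fintype.sum_prod_type]
  have hcardc : Fintype.card {u : Fin n // ¬ u ∈ U} = n - U.card := by
    rw [Fintype.card_subtype_compl, Fintype.card_fin, Fintype.card_coe]
  have hinner : ∀ x : {u // u ∈ U} → T, ∑ y : {u // ¬ u ∈ U} → T,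
      (if ∀ u, x u ∉ S then (1 : ℝ) else 0) * (if ∀ v, y v ∈ S then ∏ v, φ x (y v) else 0) ≤
      A ^ (n - U.card) := by
    intro x
    rw [← Finset.mul_sum]
    by_cases hx : ∀ u, x u ∉ S
    · rw [if_pos hx, one_mul]
      have e1 : ∑ y : {u // ¬ u ∈ U} → T, (if ∀ v, y v ∈ S then ∏ v, φ x (y v) else 0) =
          ∏ _v : {u // ¬ u ∈ U}, ∑ z ∈ S, φ x z := by
        rw [Finset.prod_univ_sum, ← Finset.sum_filter]
        apply Finset.sum_congr _ (fun _ _ => rfl)
        ext y
        simp [Fintype.mem_piFinset]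
      rw [e1, Finset.prod_const, Finset.card_univ, hcardc]
      apply pow_le_pow_left₀ (Finset.sum_nonneg fun z _ => hφ0 _ _)
      have := nb_inner h d d0 d2 S hS hS2 s hs x hx
      rw [Fintype.card_coe] at this
      exact this
    · rw [if_neg hx, zero_mul]
      positivity
  refine (Finset.sum_le_sum fun x _ => hinner x).trans ?_
  rw [Finset.sum_const, Finset.card_univ, nsmul_eq_mul]
  apply le_of_eq
  congr 1
  rw [Fintype.card_fun, hT, Fintype.card_coe]
  push_cast
  rfl

theorem near_bound (T : Type) [Fintype T] [DecidableEq T] (h : ℕ) (hh : 1 ≤ h)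
    (hT : Fintype.card T = h ^ 2) (d : T → T → ℝ)
    (d0 : ∀ x y, 0 ≤ d x y) (d2 : ∀ x y, d x y ≤ 2) (dsymm : ∀ x y, d x y = d y x)
    (S : Finset T) (hS : S.card = h)
    (hS2 : ∀ x ∉ S, (h : ℝ) ≤ ∑ y ∈ S, d x y) (s : ℝ) (hs : 0 ≤ s) (n k : ℕ) (hk : k ≤ n) :
    ∑ t ∈ (univ : Finset (Fin n → T)).filter
        (fun t => ((univ : Finset (Fin n)).filter (fun u => t u ∉ S)).card = k),
      Real.exp (- s * ∑ x : Prs n, d (t x.1.1) (t x.1.2)) ≤
    (n.choose k : ℝ) * ((h : ℝ) ^ 2) ^ k * ((h : ℝ) * ((1 + Real.exp (-2 * s * k)) / 2)) ^ (n - k) := by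
  classical
  have hmaps : ∀ t ∈ (univ : Finset (Fin n → T)).filter
        (fun t => ((univ : Finset (Fin n)).filter (fun u => t u ∉ S)).card = k),
      (univ : Finset (Fin n)).filter (fun u => t u ∉ S) ∈ Finset.powersetCard k univ := by
    intro t ht
    rw [Finset.mem_powersetCard]
    exact ⟨Finset.subset_univ _, (Finset.mem_filter.1 ht).2⟩
  rw [← Finset.sum_fiberwise_of_maps_to hmaps]
  have hU : ∀ U ∈ Finset.powersetCard k (univ : Finset (Fin n)),
      ∑ t ∈ ((univ : Finset (Fin n → T)).filter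
        (fun t => ((univ : Finset (Fin n)).filter (fun u => t u ∉ S)).card = k)).filter
          (fun t => (univ : Finset (Fin n)).filter (fun u => t u ∉ S) = U),
        Real.exp (- s * ∑ x : Prs n, d (t x.1.1) (t x.1.2)) ≤
      ((h : ℝ) ^ 2) ^ k * ((h : ℝ) * ((1 + Real.exp (-2 * s * k)) / 2)) ^ (n - k) := by
    intro U hU
    have hUc : U.card = k := (Finset.mem_powersetCard.1 hU).2
    have h1 := nb_fixed T h hT d d0 d2 S hS hS2 s hs n U
    rw [hUc] at h1
    refine le_trans ?_ h1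
    calc _ ≤ ∑ t ∈ ((univ : Finset (Fin n → T)).filter
        (fun t => ((univ : Finset (Fin n)).filter (fun u => t u ∉ S)).card = k)).filter
          (fun t => (univ : Finset (Fin n)).filter (fun u => t u ∉ S) = U),
          Real.exp (- s * ∑ v ∈ univ.filter (fun v => v ∉ U), ∑ u ∈ U, d (t u) (t v)) := by
          apply Finset.sum_le_sum
          intro t _
          apply Real.exp_le_exp.2
          have := nb_pairs (fun u v => d (t u) (t v)) (fun u v => d0 _ _)
            (fun u v => dsymm _ _) U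
          nlinarith
      _ ≤ _ := by
          apply Finset.sum_le_sum_of_subset_of_nonneg
          · intro t ht
            rw [Finset.mem_filter] at ht
            exact Finset.mem_filter.2 ⟨Finset.mem_univ _, ht.2⟩
          · intro t _ _
            exact (Real.exp_pos _).le
  refine (Finset.sum_le_sum hU).trans ?_
  rw [Finset.sum_const, Finset.card_powersetCard, Finset.card_univ, Fintype.card_fin, nsmul_eq_mul]
  exact le_of_eq (mul_assoc _ _ _).symm

end Sand
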