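import Pool.Agent.Helper793.Sand.Defs

set_option maxHeartbeats 4000000

open Finset Filter Topology

namespace Sand



open Classical in
theorem far_pairsum {T : Type} (d : T → T → ℝ) (dsymm : ∀ x y, d x y = d y x)
    (drefl : ∀ x, d x x = 0) {n : ℕ} (t : Fin n → T) :
    ∑ p : Fin n × Fin n, d (t p.1) (t p.2) = 2 * ∑ x : Prs n, d (t x.1.1) (t x.1.2) := by
  have h1 : ∀ p : Fin n × Fin n, d (t p.1) (t p.2) =
      (if p.1 < p.2 then d (t p.1) (t p.2) else 0) +
        (if p.2 < p.1 then d (t p.2) (t p.1) else 0) := by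
    intro p
    rcases lt_trichotomy p.1 p.2 with h | h | h
    · rw [if_pos h, if_neg h.asymm, add_zero]
    · rw [h]; simp [drefl]
    · rw [if_neg h.asymm, if_pos h, zero_add, dsymm]
  rw [Finset.sum_congr rfl (fun p _ => h1 p), Finset.sum_add_distrib]
  have h2 : ∑ p : Fin n × Fin n, (if p.2 < p.1 then d (t p.2) (t p.1) else 0) =
      ∑ p : Fin n × Fin n, (if p.1 < p.2 then d (t p.1) (t p.2) else 0) :=
    (Equiv.sum_comp (Equiv.prodComm (Fin n) (Fin n))
      (fun p => if p.1 < p.2 then d (t p.1) (t p.2) else 0))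
  rw [h2, ← two_mul, ← Finset.sum_filter]
  congr 1
  exact Finset.sum_subtype _ (fun x => by simp) _

open Classical in
theorem far_lower {T : Type} (d : T → T → ℝ) (d0 : ∀ x y, 0 ≤ d x y)
    (dsymm : ∀ x y, d x y = d y x)
    (drefl : ∀ x, d x x = 0) {n : ℕ} (t : Fin n → T) (x y : T) :
    (((univ : Finset (Fin n)).filter (fun u => t u = x)).card : ℝ) *
      ((univ : Finset (Fin n)).filter (fun u => t u = y)).card * d x y ≤
      2 * ∑ x : Prs n, d (t x.1.1) (t x.1.2) := by
  rw [← far_pairsum d dsymm drefl t]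
  have h1 : ∑ p ∈ ((univ : Finset (Fin n)).filter (fun u => t u = x)) ×ˢ
      ((univ : Finset (Fin n)).filter (fun u => t u = y)), d (t p.1) (t p.2) =
      (((univ : Finset (Fin n)).filter (fun u => t u = x)).card : ℝ) *
      ((univ : Finset (Fin n)).filter (fun u => t u = y)).card * d x y := by
    rw [Finset.sum_congr rfl (g := fun _ => d x y), Finset.sum_const, Finset.card_product,
      nsmul_eq_mul, Nat.cast_mul]
    intro p hp
    rw [Finset.mem_product, Finset.mem_filter, Finset.mem_filter] at hp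
    rw [hp.1.2, hp.2.2]
  rw [← h1]
  exact Finset.sum_le_sum_of_subset_of_nonneg (Finset.subset_univ _) (fun _ _ _ => d0 _ _)

theorem far_delta {T : Type} [Fintype T] [Nonempty T] (d : T → T → ℝ) (d0 : ∀ x y, 0 ≤ d x y) :
    ∃ δ : ℝ, 0 < δ ∧ ∀ x y, d x y ≠ 0 → δ ≤ d x y := by
  classical
  obtain ⟨p, hp⟩ := Finite.exists_min (fun p : T × T => if d p.1 p.2 = 0 then (1 : ℝ) else d p.1 p.2)
  refine ⟨if d p.1 p.2 = 0 then (1 : ℝ) else d p.1 p.2, ?_, ?_⟩
  · split_ifs with h
    · norm_num
    · exact lt_of_le_of_ne (d0 _ _) (Ne.symm h)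
  · intro x y hxy
    have h2 := hp (x, y)
    simp only at h2
    rwa [if_neg hxy] at h2

open Classical in
theorem far_count {T : Type} [Fintype T] (h : ℕ) (hh : 1 ≤ h)
    (hT : Fintype.card T = h ^ 2) (A : Finset T) (hA : A.card + 1 ≤ h) (n : ℕ) (η : ℝ) :
    ∑ t : Fin n → T, (if (((univ : Finset (Fin n)).filter (fun u => t u ∉ A)).card : ℝ) ≤ η * n
      then (1 : ℝ) else 0) ≤
      Real.exp (η * n * Real.log (4 * h ^ 2)) * ((h : ℝ) - 3 / 4) ^ n := by
  have hh' : (1 : ℝ) ≤ h := by exact_mod_cast hh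
  set L := Real.log (4 * h ^ 2) with hL
  have hW : (0 : ℝ) < 4 * h ^ 2 := by positivity
  have hL0 : 0 ≤ L := Real.log_nonneg (by nlinarith)
  set w : T → ℝ := fun x => if x ∈ A then 1 else (4 * h ^ 2 : ℝ)⁻¹ with hw
  have hw0 : ∀ x, 0 ≤ w x := by
    intro x
    rw [hw]
    simp only
    split_ifs <;> positivity
  have hprod : ∀ t : Fin n → T, ∏ u, w (t u) =
      Real.exp (- (((univ : Finset (Fin n)).filter (fun u => t u ∉ A)).card * L)) := by
    intro t
    have h1 : ∀ u, w (t u) = Real.exp (if t u ∉ A then - L else 0) := by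
      intro u
      rw [hw]
      simp only
      by_cases hu : t u ∈ A
      · rw [if_pos hu, if_neg (not_not.2 hu), Real.exp_zero]
      · rw [if_neg hu, if_pos hu, Real.exp_neg, hL, Real.exp_log hW]
    rw [Finset.prod_congr rfl (fun u _ => h1 u), ← Real.exp_sum, ← Finset.sum_filter,
      Finset.sum_const, nsmul_eq_mul, mul_neg]
  have hpt : ∀ t : Fin n → T,
      (if (((univ : Finset (Fin n)).filter (fun u => t u ∉ A)).card : ℝ) ≤ η * n
      then (1 : ℝ) else 0) ≤ Real.exp (η * n * L) * ∏ u, w (t u) := by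
    intro t
    split_ifs with ht
    · rw [hprod, ← Real.exp_add]
      apply Real.one_le_exp
      have := mul_le_mul_of_nonneg_right ht hL0
      linarith
    · exact mul_nonneg (Real.exp_nonneg _) (Finset.prod_nonneg fun u _ => hw0 _)
  have hsum : ∑ x, w x ≤ h - 3 / 4 := by
    calc ∑ x, w x ≤ ∑ x, ((if x ∈ A then (1 : ℝ) else 0) + (4 * h ^ 2 : ℝ)⁻¹) := by
          apply Finset.sum_le_sum
          intro x _
          rw [hw]
          simp only
          split_ifs
          · have : (0 : ℝ) ≤ (4 * h ^ 2 : ℝ)⁻¹ := by positivity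
            linarith
          · linarith
      _ = A.card + (h : ℝ) ^ 2 * (4 * h ^ 2 : ℝ)⁻¹ := by
          rw [Finset.sum_add_distrib, Finset.sum_const, Finset.card_univ, hT, nsmul_eq_mul]
          congr 1
          · simp
          · push_cast; rfl
      _ = A.card + 1 / 4 := by
          congr 1
          field_simp
      _ ≤ h - 3 / 4 := by
          have : (A.card : ℝ) + 1 ≤ h := by exact_mod_cast hA
          linarith
  calc _ ≤ ∑ t : Fin n → T, Real.exp (η * n * L) * ∏ u, w (t u) :=
        Finset.sum_le_sum fun t _ => hpt t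
    _ = Real.exp (η * n * L) * (∑ x, w x) ^ n := by
        rw [← Finset.mul_sum, Fintype.sum_pow]
    _ ≤ _ := by
        apply mul_le_mul_of_nonneg_left _ (Real.exp_nonneg _)
        exact pow_le_pow_left₀ (Finset.sum_nonneg fun x _ => hw0 x) hsum n

open Classical in
theorem far_out {T : Type} [Fintype T] {n : ℕ} (t : Fin n → T) (A : Finset T) {ε : ℝ}
    (hε : 0 ≤ ε)
    (hA : ∀ x, x ∉ A → (((univ : Finset (Fin n)).filter (fun u => t u = x)).card : ℝ) ≤ ε) :
    (((univ : Finset (Fin n)).filter (fun u => t u ∉ A)).card : ℝ) ≤ Fintype.card T * ε := by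
  have h1 : ((univ : Finset (Fin n)).filter (fun u => t u ∉ A)).card =
      ∑ x ∈ Aᶜ, ((univ : Finset (Fin n)).filter (fun u => t u = x)).card := by
    rw [Finset.card_eq_sum_card_fiberwise (f := t) (t := Aᶜ)]
    · apply Finset.sum_congr rfl
      intro x hx
      congr 1
      ext u
      simp only [Finset.mem_filter, Finset.mem_univ, true_and]
      rw [Finset.mem_compl] at hx
      constructor
      · exact fun h => h.2
      · intro h
        exact ⟨h ▸ hx, h⟩
    · intro u hu
      simpa using hu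
  rw [h1, Nat.cast_sum]
  calc ∑ x ∈ Aᶜ, (((univ : Finset (Fin n)).filter (fun u => t u = x)).card : ℝ)
      ≤ ∑ x ∈ Aᶜ, ε := Finset.sum_le_sum fun x hx => hA x (Finset.mem_compl.1 hx)
    _ = (Aᶜ.card : ℝ) * ε := by rw [Finset.sum_const, nsmul_eq_mul]
    _ ≤ Fintype.card T * ε := by
        apply mul_le_mul_of_nonneg_right _ hε
        exact_mod_cast Finset.card_le_univ _

open Classical in
theorem far_bound (T : Type) [Fintype T] (h : ℕ) (hh : 1 ≤ h)
    (hT : Fintype.card T = h ^ 2) (d : T → T → ℝ)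
    (d0 : ∀ x y, 0 ≤ d x y) (dsymm : ∀ x y, d x y = d y x) (drefl : ∀ x, d x x = 0)
    (hiso : ∀ S : Finset T, (∀ x ∈ S, ∀ y ∈ S, d x y = 0) → S.card ≤ h) :
    ∃ η0 : ℝ, 0 < η0 ∧ ∀ η : ℝ, 0 < η → η ≤ η0 → ∀ s : ℕ → ℝ, (∀ n, 0 ≤ s n) →
    Tendsto (fun n : ℕ => n * s n) atTop atTop →
    Tendsto (fun n : ℕ => ((h : ℝ)⁻¹) ^ n * ∑ t ∈ (univ : Finset (Fin n → T)).filter
      (fun t => ∀ S : Finset T, (∀ x ∈ S, ∀ y ∈ S, d x y = 0) → S.card = h →
        η * n < ((univ : Finset (Fin n)).filter (fun u => t u ∉ S)).card),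
      Real.exp (- s n * ∑ x : Prs n, d (t x.1.1) (t x.1.2))) atTop (𝓝 0) := by
  have hh' : (1 : ℝ) ≤ h := by exact_mod_cast hh
  have hhp : (0 : ℝ) < h := by linarith
  have : Nonempty T := Fintype.card_pos_iff.1 (by rw [hT]; positivity)
  obtain ⟨δ, hδ, hδd⟩ := far_delta d d0
  set L := Real.log (4 * h ^ 2) with hL
  have hLp : 0 < L := Real.log_pos (by nlinarith)
  set ρ : ℝ := ((h : ℝ) - 3 / 4) / h with hρ
  have hρ0 : 0 < ρ := div_pos (by linarith) hhp
  have hρ1 : ρ < 1 := by rw [hρ, div_lt_one hhp]; linarith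
  have hlρ : Real.log ρ < 0 := Real.log_neg hρ0 hρ1
  refine ⟨- Real.log ρ / (2 * L), div_pos (by linarith) (by positivity), ?_⟩
  intro η hη hη0 s hs hsn
  set ε : ℝ := η / h ^ 2 with hε
  have hεp : 0 < ε := by positivity
  set c : ℝ := ε ^ 2 * δ / 2 with hc
  have hcp : 0 < c := by positivity
  have hηL : η * L ≤ - Real.log ρ / 2 := by
    rw [le_div_iff₀ (by positivity)] at hη0
    linarith
  set r : ℝ := Real.exp (η * L) * ρ with hr
  have hr0 : 0 ≤ r := by positivity
  have hr1 : r < 1 := by
    rw [hr]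
    calc Real.exp (η * L) * ρ = Real.exp (η * L + Real.log ρ) := by
          rw [Real.exp_add, Real.exp_log hρ0]
      _ < 1 := by
          rw [Real.exp_lt_one_iff]
          linarith
  -- pointwise bound
  have hpt : ∀ n : ℕ, ∀ t : Fin n → T, (∀ S : Finset T, (∀ x ∈ S, ∀ y ∈ S, d x y = 0) →
      S.card = h → η * n < ((univ : Finset (Fin n)).filter (fun u => t u ∉ S)).card) →
      Real.exp (- s n * ∑ x : Prs n, d (t x.1.1) (t x.1.2)) ≤
      Real.exp (- (s n * (c * n ^ 2))) +
      ∑ A ∈ (univ : Finset (Finset T)).filter (fun A => A.card + 1 ≤ h),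
        (if (((univ : Finset (Fin n)).filter (fun u => t u ∉ A)).card : ℝ) ≤ η * n
      then (1 : ℝ) else 0) := by
    intro n t ht
    set A : Finset T := univ.filter (fun x =>
      ε * n ≤ (((univ : Finset (Fin n)).filter (fun u => t u = x)).card : ℝ)) with hA
    have hQ0 : 0 ≤ ∑ x : Prs n, d (t x.1.1) (t x.1.2) := Finset.sum_nonneg fun _ _ => d0 _ _
    have hsum0 : 0 ≤ ∑ A ∈ (univ : Finset (Finset T)).filter (fun A => A.card + 1 ≤ h),
        (if (((univ : Finset (Fin n)).filter (fun u => t u ∉ A)).card : ℝ) ≤ η * n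
      then (1 : ℝ) else 0) := Finset.sum_nonneg fun _ _ => by split_ifs <;> norm_num
    by_cases hiA : ∀ x ∈ A, ∀ y ∈ A, d x y = 0
    · have hout : (((univ : Finset (Fin n)).filter (fun u => t u ∉ A)).card : ℝ) ≤ η * n := by
        have h1 := far_out t A (ε := ε * n) (by positivity) (by
          intro x hx
          rw [hA, Finset.mem_filter, not_and] at hx
          exact (not_le.1 (hx (Finset.mem_univ _))).le)
        rw [hT] at h1
        refine h1.trans (le_of_eq ?_)
        rw [hε]
        push_cast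
        field_simp
      have hcard : A.card + 1 ≤ h := by
        rcases (hiso A hiA).lt_or_eq with h1 | h1
        · exact h1
        · exact absurd (ht A hiA h1) (not_lt.2 hout)
      have h2 : (1 : ℝ) ≤ ∑ A ∈ (univ : Finset (Finset T)).filter (fun A => A.card + 1 ≤ h),
          (if (((univ : Finset (Fin n)).filter (fun u => t u ∉ A)).card : ℝ) ≤ η * n
        then (1 : ℝ) else 0) := by
        have h3 := Finset.single_le_sum (s := (univ : Finset (Finset T)).filter
          (fun A => A.card + 1 ≤ h)) (f := fun A =>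
          (if (((univ : Finset (Fin n)).filter (fun u => t u ∉ A)).card : ℝ) ≤ η * n
            then (1 : ℝ) else 0)) (fun _ _ => by split_ifs <;> norm_num)
          (Finset.mem_filter.2 ⟨Finset.mem_univ A, hcard⟩)
        rwa [if_pos hout] at h3
      have h4 : Real.exp (- s n * ∑ x : Prs n, d (t x.1.1) (t x.1.2)) ≤ 1 := by
        rw [Real.exp_le_one_iff, neg_mul]
        have := mul_nonneg (hs n) hQ0
        linarith
      have h5 := Real.exp_nonneg (- (s n * (c * n ^ 2)))
      linarith
    · push Not at hiA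
      obtain ⟨x, hx, y, hy, hxy⟩ := hiA
      rw [hA, Finset.mem_filter] at hx hy
      have h1 := far_lower d d0 dsymm drefl t x y
      have h2 : ε * n * (ε * n) * δ ≤ (((univ : Finset (Fin n)).filter (fun u => t u = x)).card : ℝ) *
        ((univ : Finset (Fin n)).filter (fun u => t u = y)).card * d x y := by
        apply mul_le_mul (mul_le_mul hx.2 hy.2 (by positivity) (by positivity))
          (hδd x y hxy) hδ.le (by positivity)
      have h3 : c * n ^ 2 ≤ ∑ x : Prs n, d (t x.1.1) (t x.1.2) := by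
        rw [hc]
        have : ε ^ 2 * δ / 2 * (n : ℝ) ^ 2 = ε * n * (ε * n) * δ / 2 := by ring
        rw [this]
        linarith
      have h4 : Real.exp (- s n * ∑ x : Prs n, d (t x.1.1) (t x.1.2)) ≤
          Real.exp (- (s n * (c * n ^ 2))) := by
        apply Real.exp_le_exp.2
        rw [neg_mul]
        have := mul_le_mul_of_nonneg_left h3 (hs n)
        linarith
      linarith
  -- sum bound
  set M : ℝ := (((univ : Finset (Finset T)).filter (fun A => A.card + 1 ≤ h)).card : ℝ) with hM
  have hbound : ∀ n : ℕ, ((h : ℝ)⁻¹) ^ n * ∑ t ∈ (univ : Finset (Fin n → T)).filter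
      (fun t => ∀ S : Finset T, (∀ x ∈ S, ∀ y ∈ S, d x y = 0) → S.card = h →
        η * n < ((univ : Finset (Fin n)).filter (fun u => t u ∉ S)).card),
      Real.exp (- s n * ∑ x : Prs n, d (t x.1.1) (t x.1.2)) ≤
      Real.exp (n * (Real.log h - c * (n * s n))) + M * r ^ n := by
    intro n
    have hS : ∑ t ∈ (univ : Finset (Fin n → T)).filter
      (fun t => ∀ S : Finset T, (∀ x ∈ S, ∀ y ∈ S, d x y = 0) → S.card = h →
        η * n < ((univ : Finset (Fin n)).filter (fun u => t u ∉ S)).card),
      Real.exp (- s n * ∑ x : Prs n, d (t x.1.1) (t x.1.2)) ≤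
      ((h : ℝ) ^ 2) ^ n * Real.exp (- (s n * (c * n ^ 2))) +
        M * (Real.exp (η * n * L) * ((h : ℝ) - 3 / 4) ^ n) := by
      refine (Finset.sum_le_sum fun t ht => hpt n t (Finset.mem_filter.1 ht).2).trans ?_
      calc _ ≤ ∑ t : Fin n → T, (Real.exp (- (s n * (c * n ^ 2))) +
            ∑ A ∈ (univ : Finset (Finset T)).filter (fun A => A.card + 1 ≤ h),
            (if (((univ : Finset (Fin n)).filter (fun u => t u ∉ A)).card : ℝ) ≤ η * n
            then (1 : ℝ) else 0)) := by
            apply Finset.sum_le_sum_of_subset_of_nonneg (Finset.subset_univ _)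
            intro t _ _
            apply add_nonneg (Real.exp_nonneg _)
            exact Finset.sum_nonneg fun _ _ => by split_ifs <;> norm_num
        _ = ((h : ℝ) ^ 2) ^ n * Real.exp (- (s n * (c * n ^ 2))) +
            ∑ A ∈ (univ : Finset (Finset T)).filter (fun A => A.card + 1 ≤ h),
            ∑ t : Fin n → T, (if (((univ : Finset (Fin n)).filter (fun u => t u ∉ A)).card : ℝ)
              ≤ η * n then (1 : ℝ) else 0) := by
            rw [Finset.sum_add_distrib, Finset.sum_const, Finset.card_univ, Fintype.card_fun,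
              Fintype.card_fin, hT, nsmul_eq_mul, Finset.sum_comm]
            push_cast
            rfl
        _ ≤ ((h : ℝ) ^ 2) ^ n * Real.exp (- (s n * (c * n ^ 2))) +
            ∑ A ∈ (univ : Finset (Finset T)).filter (fun A => A.card + 1 ≤ h),
              (Real.exp (η * n * L) * ((h : ℝ) - 3 / 4) ^ n) := by
            gcongr with A hA
            exact far_count h hh hT A (Finset.mem_filter.1 hA).2 n η
        _ = _ := by rw [Finset.sum_const, nsmul_eq_mul]
    calc _ ≤ ((h : ℝ)⁻¹) ^ n * (((h : ℝ) ^ 2) ^ n * Real.exp (- (s n * (c * n ^ 2))) +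
        M * (Real.exp (η * n * L) * ((h : ℝ) - 3 / 4) ^ n)) :=
          mul_le_mul_of_nonneg_left hS (by positivity)
      _ = Real.exp (n * (Real.log h - c * (n * s n))) + M * r ^ n := by
          rw [mul_add]
          congr 1
          · have h1 : Real.exp (n * (Real.log h - c * (n * s n))) =
                (h : ℝ) ^ n * Real.exp (- (s n * (c * n ^ 2))) := by
              rw [show (n : ℝ) * (Real.log h - c * (n * s n)) =
                n * Real.log h + (- (s n * (c * n ^ 2))) by ring, Real.exp_add,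
                Real.exp_nat_mul, Real.exp_log hhp]
            rw [h1, ← mul_assoc, ← mul_pow]
            congr 2
            field_simp
          · rw [hr, hρ, mul_pow, div_pow, ← Real.exp_nat_mul, inv_pow,
              show (n : ℝ) * (η * L) = η * n * L by ring]
            ring
  have hlim : Tendsto (fun n : ℕ => Real.exp (n * (Real.log h - c * (n * s n))) + M * r ^ n)
      atTop (𝓝 0) := by
    have h1 : Tendsto (fun n : ℕ => Real.exp (n * (Real.log h - c * (n * s n)))) atTop (𝓝 0) := by
      apply Real.tendsto_exp_atBot.comp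
      apply Tendsto.atTop_mul_atBot₀ tendsto_natCast_atTop_atTop
      have h2 : Tendsto (fun n : ℕ => c * (n * s n)) atTop atTop := hsn.const_mul_atTop hcp
      have h3 := tendsto_atBot_add_const_left atTop (Real.log h) (tendsto_neg_atTop_atBot.comp h2)
      refine h3.congr ?_
      intro n
      simp [sub_eq_add_neg]
    have h2 : Tendsto (fun n : ℕ => M * r ^ n) atTop (𝓝 (M * 0)) :=
      (tendsto_pow_atTop_nhds_zero_of_lt_one hr0 hr1).const_mul M
    have h3 := h1.add h2
    rwa [mul_zero, add_zero] at h3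
  refine squeeze_zero (fun n => ?_) hbound hlim
  exact mul_nonneg (by positivity) (Finset.sum_nonneg fun _ _ => Real.exp_nonneg _)

end Sand
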