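import Pool.Agent.Helper793.Sand.Defs

set_option maxHeartbeats 4000000

open Finset Filter Topology

namespace Sand


theorem lap_fourier_map_sum {A ι : Type*} [AddCommGroup A] (ψ : AddChar A ℂ) (s : Finset ι)
    (f : ι → A) : ψ (∑ i ∈ s, f i) = ∏ i ∈ s, ψ (f i) := by
  classical
  induction s using Finset.induction_on with
  | empty => simp
  | insert a s ha ih => rw [Finset.sum_insert ha, Finset.prod_insert ha, AddChar.map_add_eq_mul, ih]

open Classical in
theorem lap_fourier_row {m : ℕ} (G : SimpleGraph (Fin (m + 1))) {H : Type} [AddCommGroup H]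
    (f : Fin m → H) (j : Fin m) :
    ∑ i, redLap G i j • f i = ∑ v : Fin (m + 1),
      if G.Adj j.castSucc v then ext0 f j.castSucc - ext0 f v else 0 := by
  have hlast : ext0 f (Fin.last m) = 0 := by
    unfold ext0
    exact Fin.snoc_last (α := fun _ => H) 0 f
  have hcs : ∀ i : Fin m, ext0 f i.castSucc = f i := by
    intro i
    unfold ext0
    exact Fin.snoc_castSucc (α := fun _ => H) 0 f i
  have h1 : ∑ i, redLap G i j • f i =
      ∑ u : Fin (m + 1), (G.lapMatrix ℤ u j.castSucc) • ext0 f u := by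
    rw [Fin.sum_univ_castSucc, hlast, smul_zero, add_zero]
    apply Finset.sum_congr rfl
    intro i _
    rw [hcs]
    unfold redLap
    simp only [Matrix.submatrix_apply]
  rw [h1]
  have h2 : ∀ u : Fin (m + 1), (G.lapMatrix ℤ u j.castSucc) • ext0 f u =
      (if u = j.castSucc then (G.degree u : ℤ) • ext0 f u else 0) -
        (if G.Adj j.castSucc u then ext0 f u else 0) := by
    intro u
    unfold SimpleGraph.lapMatrix SimpleGraph.degMatrix
    rw [Matrix.sub_apply, Matrix.diagonal_apply, SimpleGraph.adjMatrix_apply, sub_smul]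
    congr 1
    · split_ifs with h
      · rfl
      · exact zero_smul _ _
    · by_cases h : G.Adj u j.castSucc
      · rw [if_pos h, if_pos h.symm, one_smul]
      · rw [if_neg h, if_neg (fun h' => h h'.symm), zero_smul]
  rw [Finset.sum_congr rfl (fun u _ => h2 u), Finset.sum_sub_distrib, Finset.sum_ite_eq' ,
    if_pos (Finset.mem_univ _)]
  have h3 : ∀ v : Fin (m + 1), (if G.Adj j.castSucc v then ext0 f j.castSucc - ext0 f v else 0) =
      (if G.Adj j.castSucc v then (1 : ℤ) else 0) • ext0 f j.castSucc -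
        (if G.Adj j.castSucc v then ext0 f v else 0) := by
    intro v
    split_ifs with h
    · rw [one_smul]
    · rw [zero_smul, sub_zero]
  rw [Finset.sum_congr rfl (fun v _ => h3 v), Finset.sum_sub_distrib, ← Finset.sum_smul,
    SimpleGraph.degree_eq_sum_if_adj]

theorem lap_fourier_pairs {n : ℕ} (F : Fin n × Fin n → ℂ) (hd : ∀ u, F (u, u) = 1) :
    ∏ p : Fin n × Fin n, F p = ∏ x : Prs n, F x.1 * F (x.1.2, x.1.1) := by
  classical
  rw [← Finset.prod_filter_mul_prod_filter_not Finset.univ (fun p : Fin n × Fin n => p.1 < p.2)]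
  rw [Finset.prod_mul_distrib]
  have h1 : ∏ x : Prs n, F x.1 =
      ∏ p ∈ Finset.univ.filter (fun p : Fin n × Fin n => p.1 < p.2), F p := by
    rw [← Finset.prod_subtype_eq_prod_filter, Finset.subtype_univ]
  have h2 : ∏ x : Prs n, F (x.1.2, x.1.1) =
      ∏ p ∈ Finset.univ.filter (fun p : Fin n × Fin n => p.1 < p.2), F (p.2, p.1) := by
    rw [← Finset.prod_subtype_eq_prod_filter (f := fun p : Fin n × Fin n => F (p.2, p.1)),
      Finset.subtype_univ]
  rw [h1, h2]
  congr 1
  have h3 : ∏ p ∈ Finset.univ.filter (fun p : Fin n × Fin n => ¬ p.1 < p.2), F p =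
      ∏ p ∈ Finset.univ.filter (fun p : Fin n × Fin n => p.2 < p.1), F p := by
    symm
    apply Finset.prod_subset
    · intro p hp
      rw [Finset.mem_filter] at hp ⊢
      exact ⟨hp.1, not_lt.2 hp.2.le⟩
    · intro p hp hp'
      rw [Finset.mem_filter] at hp hp'
      have he : p.1 = p.2 := by
        by_contra hne
        apply hp'
        refine ⟨hp.1, ?_⟩
        rcases lt_trichotomy p.1 p.2 with h | h | h
        · exact absurd h hp.2
        · exact absurd h hne
        · exact h
      obtain ⟨a, b⟩ := p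
      have he' : a = b := he
      subst he'
      exact hd a
  rw [h3]
  apply Finset.prod_nbij' Prod.swap Prod.swap
  · intro p hp
    rw [Finset.mem_filter] at hp ⊢
    exact ⟨Finset.mem_univ _, hp.2⟩
  · intro p hp
    rw [Finset.mem_filter] at hp ⊢
    exact ⟨Finset.mem_univ _, hp.2⟩
  · intro p _; rfl
  · intro p _; rfl
  · intro p _; rfl

open Classical in
theorem lap_fourier {m : ℕ} (G : SimpleGraph (Fin (m + 1))) (H : Type) [AddCommGroup H] [Finite H]
    (f : Fin m → H) :
    (Nat.card H : ℂ) ^ m * (if ∀ j, ∑ i, redLap G i j • f i = 0 then 1 else 0) =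
      ∑ c : Fin m → AddChar H ℂ, ∏ x : Prs (m + 1), if G.Adj x.1.1 x.1.2 then
        (ext0 c x.1.1 - ext0 c x.1.2) (ext0 f x.1.1 - ext0 f x.1.2) else 1 := by
  haveI : Fintype H := Fintype.ofFinite H
  -- left side as a sum over characters
  have hL : (Nat.card H : ℂ) ^ m * (if ∀ j, ∑ i, redLap G i j • f i = 0 then 1 else 0) =
      ∑ c : Fin m → AddChar H ℂ, ∏ j, (c j) (∑ i, redLap G i j • f i) := by
    have h1 : ∑ c : Fin m → AddChar H ℂ, ∏ j, (c j) (∑ i, redLap G i j • f i) =
        ∏ j : Fin m, ∑ ψ : AddChar H ℂ, ψ (∑ i, redLap G i j • f i) := by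
      rw [Finset.prod_univ_sum, Fintype.piFinset_univ]
    rw [h1]
    by_cases hall : ∀ j, ∑ i, redLap G i j • f i = 0
    · rw [if_pos hall, mul_one]
      have h2 : ∀ j : Fin m, ∑ ψ : AddChar H ℂ, ψ (∑ i, redLap G i j • f i) = (Nat.card H : ℂ) := by
        intro j
        rw [AddChar.sum_apply_eq_ite, if_pos (hall j), Nat.card_eq_fintype_card]
      rw [Finset.prod_congr rfl (fun j _ => h2 j), Finset.prod_const, Finset.card_univ,
        Fintype.card_fin]
    · rw [if_neg hall, mul_zero]
      push Not at hall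
      obtain ⟨j, hj⟩ := hall
      symm
      apply Finset.prod_eq_zero (Finset.mem_univ j)
      rw [AddChar.sum_apply_eq_ite, if_neg hj]
  rw [hL]
  apply Finset.sum_congr rfl
  intro c _
  have hlast : ext0 c (Fin.last m) = 0 := by
    unfold ext0
    exact Fin.snoc_last (α := fun _ => AddChar H ℂ) 0 c
  have hcs : ∀ i : Fin m, ext0 c i.castSucc = c i := by
    intro i
    unfold ext0
    exact Fin.snoc_castSucc (α := fun _ => AddChar H ℂ) 0 c i
  have h1 : ∏ j, (c j) (∑ i, redLap G i j • f i) =
      ∏ u : Fin (m + 1), ∏ v : Fin (m + 1),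
        if G.Adj u v then (ext0 c u) (ext0 f u - ext0 f v) else 1 := by
    rw [Fin.prod_univ_castSucc (n := m)
      (f := fun u => ∏ v : Fin (m + 1), if G.Adj u v then (ext0 c u) (ext0 f u - ext0 f v) else 1)]
    have h2 : (∏ v : Fin (m + 1), if G.Adj (Fin.last m) v then
        (ext0 c (Fin.last m)) (ext0 f (Fin.last m) - ext0 f v) else 1) = 1 := by
      apply Finset.prod_eq_one
      intro v _
      rw [hlast]
      split_ifs
      · rw [AddChar.zero_apply]
      · rfl
    rw [h2, mul_one]
    apply Finset.prod_congr rfl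
    intro j _
    rw [lap_fourier_row, lap_fourier_map_sum, hcs]
    apply Finset.prod_congr rfl
    intro v _
    split_ifs
    · rfl
    · exact AddChar.map_zero_eq_one _
  rw [h1, ← Fintype.prod_prod_type' (f := fun u v : Fin (m + 1) =>
    if G.Adj u v then (ext0 c u) (ext0 f u - ext0 f v) else 1)]
  rw [lap_fourier_pairs (fun p : Fin (m + 1) × Fin (m + 1) =>
    if G.Adj p.1 p.2 then (ext0 c p.1) (ext0 f p.1 - ext0 f p.2) else 1) (by
      intro u
      simp)]
  apply Finset.prod_congr rfl
  intro x _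
  show (if G.Adj x.1.1 x.1.2 then (ext0 c x.1.1) (ext0 f x.1.1 - ext0 f x.1.2) else 1) *
    (if G.Adj x.1.2 x.1.1 then (ext0 c x.1.2) (ext0 f x.1.2 - ext0 f x.1.1) else 1) = _
  by_cases h : G.Adj x.1.1 x.1.2
  · rw [if_pos h, if_pos h.symm, if_pos h, AddChar.sub_apply, neg_sub]
  · rw [if_neg h, if_neg (fun h' => h h'.symm), if_neg h, mul_one]

end Sand
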