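import Pool.Agent.Helper793.Sand.Defs

set_option maxHeartbeats 4000000

open Finset Filter Topology

namespace Sand


section diagcount
variable {H : Type} [AddCommGroup H] {m : ℕ}

private theorem ext0_castSucc {T : Type} [Zero T] (t : Fin m → T) (i : Fin m) :
    ext0 t i.castSucc = t i := by
  simp [ext0]

private theorem ext0_last {T : Type} [Zero T] (t : Fin m → T) :
    ext0 t (Fin.last m) = 0 := by
  simp [ext0]

private theorem map_sum_prod (ψ : AddChar H ℂ) (y : Fin m → ℤ) (f : Fin m → H) :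
    ψ (∑ j, y j • f j) = ∏ j, (ψ (f j)) ^ y j := by
  have h : ∀ s : Finset (Fin m), ψ (∑ j ∈ s, y j • f j) = ∏ j ∈ s, (ψ (f j)) ^ y j := by
    intro s
    induction s using Finset.induction_on with
    | empty => simp
    | insert a s ha ih =>
      rw [Finset.sum_insert ha, Finset.prod_insert ha, AddChar.map_add_eq_mul, ih,
        AddChar.map_zsmul_eq_zpow]
  exact h _

private theorem pair_formula (c : Fin m → AddChar H ℂ) (f : Fin m → H) (x y : Fin m → ℤ) :
    (∑ i, x i • c i) (∑ j, y j • f j) = ∏ i, ∏ j, (c i (f j)) ^ (x i * y j) := by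
  rw [AddChar.sum_apply]
  apply Finset.prod_congr rfl
  intro i _
  rw [AddChar.zsmul_apply, map_sum_prod, ← Finset.prod_zpow]
  apply Finset.prod_congr rfl
  intro j _
  rw [← zpow_mul, mul_comm]

private theorem exists_alpha (c : Fin m → AddChar H ℂ) (f : Fin m → H)
    (hgen : AddSubgroup.closure (Set.range f) = ⊤) (h1 : ∀ i, c i (f i) = 1)
    (h2 : ∀ i j, c i (f j) * c j (f i) = 1) :
    ∃ α : H →+ AddChar H ℂ, (∀ x, α x x = 1) ∧ ∀ i, α (f i) = c i := by
  classical
  let F : (Fin m → ℤ) →+ H :=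
    { toFun := fun x => ∑ j, x j • f j
      map_zero' := by simp
      map_add' := by intro x y; simp [add_smul, Finset.sum_add_distrib] }
  let B : (Fin m → ℤ) →+ AddChar H ℂ :=
    { toFun := fun x => ∑ j, x j • c j
      map_zero' := by simp
      map_add' := by
        intro x y
        rw [← Finset.sum_add_distrib]
        apply Finset.sum_congr rfl
        intro j _
        ext z
        rw [Pi.add_apply, AddChar.add_apply, AddChar.zsmul_apply, AddChar.zsmul_apply,
          AddChar.zsmul_apply, zpow_add₀ ((c j).val_isUnit z).ne_zero] }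
  have hFs : ∀ i, F (Pi.single i 1) = f i := by
    intro i
    show ∑ j, (Pi.single i 1 : Fin m → ℤ) j • f j = f i
    rw [Finset.sum_eq_single i]
    · simp
    · intro j _ hj; simp [Pi.single_apply, hj]
    · simp
  have hBs : ∀ i, B (Pi.single i 1) = c i := by
    intro i
    show ∑ j, (Pi.single i 1 : Fin m → ℤ) j • c j = c i
    rw [Finset.sum_eq_single i]
    · simp
    · intro j _ hj; simp [Pi.single_apply, hj]
    · simp
  have hF : Function.Surjective F := by
    rw [← AddMonoidHom.range_eq_top, eq_top_iff, ← hgen, AddSubgroup.closure_le]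
    rintro _ ⟨i, rfl⟩
    exact ⟨Pi.single i 1, hFs i⟩
  have hBF : ∀ x y, B x (F y) = ∏ i, ∏ j, (c i (f j)) ^ (x i * y j) := fun x y =>
    pair_formula c f x y
  have hcomm : ∀ x y, B x (F y) * B y (F x) = 1 := by
    intro x y
    rw [hBF, hBF y x, Finset.prod_comm (f := fun i j => (c i (f j)) ^ (y i * x j)),
      ← Finset.prod_mul_distrib]
    apply Finset.prod_eq_one
    intro i _
    rw [← Finset.prod_mul_distrib]
    apply Finset.prod_eq_one
    intro j _
    rw [mul_comm (y j) (x i), ← mul_zpow, h2, one_zpow]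
  have halt : ∀ x, B x (F x) = 1 := by
    intro x
    rw [hBF, ← Finset.prod_product' (f := fun i j => (c i (f j)) ^ (x i * x j))]
    apply Finset.prod_involution (fun a _ => (a.2, a.1))
    · rintro ⟨i, j⟩ _
      show (c i (f j)) ^ (x i * x j) * (c j (f i)) ^ (x j * x i) = 1
      rw [mul_comm (x j) (x i), ← mul_zpow, h2, one_zpow]
    · rintro ⟨i, j⟩ _ hne heq
      apply hne
      have hij : j = i := congrArg Prod.fst heq
      show (c i (f j)) ^ (x i * x j) = 1
      rw [hij, h1, one_zpow]
    · rintro ⟨i, j⟩ _; simp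
    · rintro ⟨i, j⟩ _; rfl
  have hker : F.ker ≤ B.ker := by
    intro x hx
    rw [AddMonoidHom.mem_ker] at hx ⊢
    ext z
    obtain ⟨y, rfl⟩ := hF z
    have := hcomm x y
    rw [hx, AddChar.map_zero_eq_one, mul_one] at this
    rw [this, AddChar.zero_apply]
  let α : H →+ AddChar H ℂ := F.liftOfSurjective hF ⟨B, hker⟩
  have hα : ∀ x, α (F x) = B x := fun x =>
    AddMonoidHom.liftOfRightInverse_comp_apply F (Function.surjInv hF)
      (Function.rightInverse_surjInv hF) ⟨B, hker⟩ x
  refine ⟨α, ?_, ?_⟩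
  · intro z
    obtain ⟨y, rfl⟩ := hF z
    rw [hα]
    exact halt y
  · intro i
    rw [← hFs i, hα, hBs]

end diagcount

theorem diag_count (m : ℕ) (H : Type) [AddCommGroup H] [Finite H] :
    Nat.card {t : Fin m → AddChar H ℂ × H //
      AddSubgroup.closure (Set.range fun i => (t i).2) = ⊤ ∧
      ∀ u v : Fin (m + 1), ((ext0 t u).1 - (ext0 t v).1) ((ext0 t u).2 - (ext0 t v).2) = 1} =
    alt H * gen m H := by
  unfold alt gen
  rw [← Nat.card_prod]
  symm
  have key : ∀ (α : H →+ AddChar H ℂ) (f : Fin m → H) (u : Fin (m + 1)),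
      (ext0 (fun i => (α (f i), f i)) u).1 = α (ext0 (fun i => (α (f i), f i)) u).2 := by
    intro α f u
    refine Fin.lastCases ?_ (fun i => ?_) u
    · rw [ext0_last]; simp
    · rw [ext0_castSucc]
  refine Nat.card_congr (Equiv.ofBijective
    (fun p : {α : H →+ AddChar H ℂ // ∀ x, α x x = 1} ×
        {f : Fin m → H // AddSubgroup.closure (Set.range f) = ⊤} =>
      (⟨fun i => (p.1.1 (p.2.1 i), p.2.1 i), p.2.2, fun u v => by
        rw [key, key, ← map_sub]
        exact p.1.2 _⟩ : {t : Fin m → AddChar H ℂ × H //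
      AddSubgroup.closure (Set.range fun i => (t i).2) = ⊤ ∧
      ∀ u v : Fin (m + 1), ((ext0 t u).1 - (ext0 t v).1) ((ext0 t u).2 - (ext0 t v).2) = 1}))
    ⟨?_, ?_⟩)
  · rintro ⟨⟨α, hα⟩, ⟨f, hf⟩⟩ ⟨⟨α', hα'⟩, ⟨f', hf'⟩⟩ h
    have h' := congrArg Subtype.val h
    have hff : f = f' := by
      funext i
      exact congrArg Prod.snd (congrFun h' i)
    subst hff
    have hαα : α = α' := by
      apply AddMonoidHom.eq_of_eqOn_dense hf
      rintro _ ⟨i, rfl⟩
      exact congrArg Prod.fst (congrFun h' i)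
    subst hαα
    rfl
  · rintro ⟨t, hgen, hpair⟩
    have h1 : ∀ i, (t i).1 (t i).2 = 1 := by
      intro i
      have := hpair i.castSucc (Fin.last m)
      rw [ext0_castSucc, ext0_last] at this
      simpa using this
    have h2 : ∀ i j, (t i).1 (t j).2 * (t j).1 (t i).2 = 1 := by
      intro i j
      have := hpair i.castSucc j.castSucc
      rw [ext0_castSucc, ext0_castSucc, AddChar.sub_apply', AddChar.map_sub_eq_div,
        AddChar.map_sub_eq_div, h1, h1] at this
      have e1 : (t i).1 (t j).2 ≠ 0 := ((t i).1.val_isUnit _).ne_zero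
      have e2 : (t j).1 (t i).2 ≠ 0 := ((t j).1.val_isUnit _).ne_zero
      field_simp at this
      rw [← this]
    obtain ⟨α, hα, hαc⟩ := exists_alpha (fun i => (t i).1) (fun i => (t i).2) hgen h1 h2
    refine ⟨(⟨α, hα⟩, ⟨fun i => (t i).2, hgen⟩), ?_⟩
    apply Subtype.ext
    funext i
    show (α (t i).2, (t i).2) = t i
    rw [hαc]

end Sand
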