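import Pool.Agent.Helper793.Sand.Defs

set_option maxHeartbeats 4000000

open Finset Filter Topology

namespace Sand

lemma redLap_apply {m : ℕ} (G : SimpleGraph (Fin (m + 1))) [inst : DecidableRel G.Adj]
    (i j : Fin m) : redLap G i j = G.lapMatrix ℤ (Fin.castSucc i) (Fin.castSucc j) := by
  unfold redLap
  rw [Matrix.submatrix_apply]
  have h : (fun a b => Classical.propDecidable (G.Adj a b)) = inst := Subsingleton.elim _ _
  subst h
  rfl

theorem dom_sur (p : ℕ) [Fact p.Prime] {m : ℕ} (hp : p ∣ m + 1) (G : SimpleGraph (Fin (m + 1)))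
    (R : ℕ) (D : Finset (Fin (m + 1))) (hD : D.card = R + 2)
    (hdom : ∀ v ∈ D, ∀ w, w ≠ v → G.Adj v w) :
    ∃ f : Crit G →+ (Fin R → ZMod p), Function.Surjective f := by
  classical
  -- choose `R + 1` dominating vertices different from the last one
  obtain ⟨D', hD', hcard⟩ : ∃ D' ⊆ D.erase (Fin.last m), D'.card = R + 1 := by
    refine Finset.exists_subset_card_eq ?_
    have := Finset.pred_card_le_card_erase (s := D) (a := Fin.last m)
    omega
  let v : Fin (R + 1) ≃ D' := (D'.equivFinOfCardEq hcard).symm
  have hv1 : ∀ k, (v k : Fin (m + 1)) ∈ D := fun k => Finset.mem_of_mem_erase (hD' (v k).2)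
  have hv2 : ∀ k, (v k : Fin (m + 1)) ≠ Fin.last m := fun k => Finset.ne_of_mem_erase (hD' (v k).2)
  have hvinj : Function.Injective (fun k => (v k : Fin (m + 1))) :=
    Subtype.val_injective.comp v.injective
  -- the function on vertices
  let F : Fin (m + 1) → Fin R → ZMod p := fun u k =>
    (if u = v k.succ then 1 else 0) - (if u = v 0 then 1 else 0)
  have hFsum : ∀ k, ∑ u, F u k = 0 := by
    intro k
    simp only [F, Finset.sum_sub_distrib, Finset.sum_ite_eq', Finset.mem_univ, if_true, sub_self]
  have hFlast : F (Fin.last m) = 0 := by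
    ext k
    simp only [F, Pi.zero_apply]
    rw [if_neg (hv2 _).symm, if_neg (hv2 _).symm, sub_zero]
  have hp0 : (((m + 1 : ℕ)) : ZMod p) = 0 := (ZMod.natCast_eq_zero_iff _ _).2 hp
  -- the Laplacian kills F
  have hlap : ∀ u, ∑ w, (G.lapMatrix ℤ w u) • F w = 0 := by
    intro u
    ext k
    rw [Finset.sum_apply]
    simp only [Pi.smul_apply, Pi.zero_apply]
    have h1 : ∀ w, G.lapMatrix ℤ w u = (if w = u then (G.degree u : ℤ) else 0) -
        (if G.Adj w u then 1 else 0) := by
      intro w
      unfold SimpleGraph.lapMatrix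
      rw [Matrix.sub_apply, SimpleGraph.degMatrix, Matrix.diagonal_apply,
        SimpleGraph.adjMatrix_apply]
      by_cases h : w = u
      · subst h; simp
      · simp [h]
    simp_rw [h1, sub_smul, Finset.sum_sub_distrib, ite_smul, zero_smul, one_smul]
    rw [Finset.sum_ite_eq' univ u]
    simp only [Finset.mem_univ, if_true]
    by_cases hu : u ∈ D'
    · -- u dominating
      have hud : u ∈ D := Finset.mem_of_mem_erase (hD' hu)
      have hadj : ∀ w, G.Adj w u ↔ w ≠ u := fun w =>
        ⟨fun h => h.ne, fun h => (hdom u hud w h).symm⟩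
      have hdeg : G.degree u = m := by
        rw [← SimpleGraph.card_neighborFinset_eq_degree]
        have : G.neighborFinset u = univ.erase u := by
          ext w
          rw [SimpleGraph.mem_neighborFinset, G.adj_comm, hadj]
          simp
        rw [this, Finset.card_erase_of_mem (mem_univ _)]
        simp
      have h2 : ∑ w, (if G.Adj w u then F w k else 0) = - F u k := by
        have h3 : ∑ w, (if G.Adj w u then F w k else 0) = ∑ w, (F w k - if w = u then F w k else 0) := by
          refine Finset.sum_congr rfl fun w _ => ?_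
          by_cases h : w = u
          · subst h; simp
          · rw [if_pos ((hadj w).2 h), if_neg h, sub_zero]
        rw [h3, Finset.sum_sub_distrib, hFsum, Finset.sum_ite_eq' univ u]
        simp
      rw [h2, hdeg, sub_neg_eq_add]
      have : ((m : ℤ)) • F u k + F u k = (((m + 1 : ℕ)) : ZMod p) * F u k := by
        rw [zsmul_eq_mul]; push_cast; ring
      rw [this, hp0, zero_mul]
    · -- other vertices
      have hFu : F u k = 0 := by
        simp only [F]
        rw [if_neg, if_neg, sub_zero]
        · intro h; exact hu (h ▸ (v 0).2)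
        · intro h; exact hu (h ▸ (v k.succ).2)
      rw [hFu, smul_zero, zero_sub, neg_eq_zero]
      refine Eq.trans ?_ (hFsum k)
      refine Finset.sum_congr rfl fun w _ => ?_
      by_cases hw : w ∈ D'
      · have hwd : w ∈ D := Finset.mem_of_mem_erase (hD' hw)
        have hne : u ≠ w := fun h => hu (h ▸ hw)
        rw [if_pos (hdom w hwd u hne)]
      · have : F w k = 0 := by
          simp only [F]
          rw [if_neg, if_neg, sub_zero]
          · intro h; exact hw (h ▸ (v 0).2)
          · intro h; exact hw (h ▸ (v k.succ).2)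
        rw [this]; simp
  -- the homomorphism
  let Φ : (Fin m → ℤ) →+ (Fin R → ZMod p) := {
    toFun := fun x => ∑ i, x i • F (Fin.castSucc i)
    map_zero' := by simp
    map_add' := fun x y => by simp [add_smul, Finset.sum_add_distrib] }
  have hker : (LinearMap.range (redLap G).mulVecLin).toAddSubgroup ≤ Φ.ker := by
    rintro x ⟨y, rfl⟩
    rw [AddMonoidHom.mem_ker]
    show ∑ i, ((redLap G).mulVecLin y) i • F (Fin.castSucc i) = 0
    simp only [Matrix.mulVecLin_apply, Matrix.mulVec, dotProduct]
    simp_rw [Finset.sum_smul]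
    rw [Finset.sum_comm]
    refine Finset.sum_eq_zero fun j _ => ?_
    have h5 := hlap (Fin.castSucc j)
    rw [Fin.sum_univ_castSucc, hFlast, smul_zero, add_zero] at h5
    have h6 : ∑ i, (redLap G i j * y j) • F (Fin.castSucc i) =
        y j • ∑ i, (redLap G i j) • F (Fin.castSucc i) := by
      rw [Finset.smul_sum]
      refine Finset.sum_congr rfl fun i _ => ?_
      rw [mul_comm, mul_smul]
    rw [h6]
    simp_rw [redLap_apply]
    rw [h5, smul_zero]
  refine ⟨QuotientAddGroup.lift _ Φ hker, ?_⟩
  refine QuotientAddGroup.lift_surjective_of_surjective _ _ ?_ _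
  intro z
  -- realize z
  have hcs : ∀ k, ∃ i : Fin m, Fin.castSucc i = v k := fun k => by
    obtain ⟨i, hi⟩ := Fin.exists_castSucc_eq.2 (hv2 k)
    exact ⟨i, hi⟩
  choose c hc using hcs
  have hFv : ∀ k : Fin R, F (v k.succ) = Pi.single k 1 := by
    intro k
    ext l
    simp only [F]
    have h7 : (v k.succ : Fin (m + 1)) ≠ v 0 := fun h => (Fin.succ_ne_zero k) (hvinj h)
    rw [if_neg h7, sub_zero, Pi.single_apply]
    by_cases h8 : l = k
    · subst h8; simp
    · rw [if_neg h8, if_neg]
      intro h9
      exact h8 (Fin.succ_injective _ (hvinj h9)).symm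
  refine ⟨∑ k : Fin R, Pi.single (c k.succ) ((z k).val : ℤ), ?_⟩
  rw [map_sum]
  have h9 : ∀ k : Fin R, Φ (Pi.single (c k.succ) ((z k).val : ℤ)) = Pi.single k (z k) := by
    intro k
    show ∑ i, (Pi.single (c k.succ) ((z k).val : ℤ) : Fin m → ℤ) i • F (Fin.castSucc i) = _
    rw [Finset.sum_eq_single (c k.succ)]
    · rw [Pi.single_eq_same, hc, hFv]
      ext l
      haveI : NeZero p := ⟨(Fact.out : p.Prime).ne_zero⟩
      rw [Pi.smul_apply, Pi.single_apply, Pi.single_apply]
      split_ifs <;> simp
    · intro b _ hb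
      rw [Pi.single_eq_of_ne hb, zero_smul]
    · intro h; exact absurd (mem_univ _) h
  simp_rw [h9]
  exact Finset.univ_sum_single z

end Sand
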