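import Pool.Agent.Helper793.Sand.Defs

set_option maxHeartbeats 4000000

open Finset Filter Topology

namespace Sand


/-- the map sending a pair meeting `J` to a member of `J` and the other vertex -/
noncomputable def iso_f {n : ℕ} (J : Finset (Fin n)) (x : Prs n) : Fin n × Fin n :=
  if x.1.1 ∈ J then (x.1.1, x.1.2) else (x.1.2, x.1.1)

/-- the pairs meeting `J` -/
noncomputable def iso_N {n : ℕ} (J : Finset (Fin n)) : Finset (Prs n) := by
  classical exact Finset.univ.filter (fun x : Prs n => x.1.1 ∈ J ∨ x.1.2 ∈ J)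

theorem mem_iso_N {n : ℕ} (J : Finset (Fin n)) (x : Prs n) :
    x ∈ iso_N J ↔ x.1.1 ∈ J ∨ x.1.2 ∈ J := by
  classical
  unfold iso_N
  simp

theorem iso_N_le {n : ℕ} (J : Finset (Fin n)) : (iso_N J).card ≤ J.card * n := by
  classical
  have h : (iso_N J).card ≤ (J ×ˢ (Finset.univ : Finset (Fin n))).card := by
    apply Finset.card_le_card_of_injOn (iso_f J)
    · intro x hx
      have hx' := (mem_iso_N J x).1 hx
      simp only [Finset.coe_product, Finset.coe_univ, Set.mem_prod, Finset.mem_coe, Set.mem_univ,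
        and_true]
      unfold iso_f
      by_cases h : x.1.1 ∈ J
      · simp [h]
      · simp only [h, if_false]
        rcases hx' with h' | h'
        · exact absurd h' h
        · exact h'
    · rintro ⟨⟨u, v⟩, huv⟩ _ ⟨⟨u', v'⟩, huv'⟩ _ hf
      unfold iso_f at hf
      simp only at hf huv huv'
      by_cases h : u ∈ J <;> by_cases h' : u' ∈ J <;> simp only [h, h', if_true, if_false] at hf
      · simp only [Prod.mk.injEq] at hf
        obtain ⟨rfl, rfl⟩ := hf
        rfl
      · simp only [Prod.mk.injEq] at hf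
        obtain ⟨rfl, rfl⟩ := hf
        exact absurd (huv.trans huv') (lt_irrefl _)
      · simp only [Prod.mk.injEq] at hf
        obtain ⟨rfl, rfl⟩ := hf
        exact absurd (huv.trans huv') (lt_irrefl _)
      · simp only [Prod.mk.injEq] at hf
        obtain ⟨rfl, rfl⟩ := hf
        rfl
  simpa [Finset.card_product] using h

theorem le_iso_N {n : ℕ} (J : Finset (Fin n)) : J.card * (n - J.card) ≤ (iso_N J).card := by
  classical
  have h : (J ×ˢ (Jᶜ : Finset (Fin n))).card ≤ (iso_N J).card := by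
    apply Finset.card_le_card_of_surjOn (iso_f J)
    rintro ⟨u, v⟩ huv
    simp only [Finset.coe_product, Set.mem_prod, Finset.mem_coe, Finset.mem_compl] at huv
    obtain ⟨hu, hv⟩ := huv
    rcases lt_trichotomy u v with h | h | h
    · refine ⟨⟨(u, v), h⟩, (mem_iso_N J _).2 (Or.inl hu), ?_⟩
      simp [iso_f, hu]
    · exact absurd (h ▸ hu) hv
    · refine ⟨⟨(v, u), h⟩, (mem_iso_N J _).2 (Or.inr hu), ?_⟩
      simp [iso_f, hv]
  simpa [Finset.card_product, Finset.card_compl] using h

open Classical in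
theorem iso_sum_graph_prod {n : ℕ} (f g : Prs n → ℝ) :
    (∑ G : SimpleGraph (Fin n), ∏ x : Prs n, if G.Adj x.1.1 x.1.2 then f x else g x) =
      ∏ x, (f x + g x) := by
  classical
  have e1 : ∏ x, (f x + g x) = ∑ b : Prs n → Bool, ∏ x, if b x then f x else g x := by
    calc ∏ x, (f x + g x) = ∏ x, ∑ b : Bool, (if b then f x else g x) := by
          simp
      _ = ∑ b ∈ Fintype.piFinset (fun _ : Prs n => (Finset.univ : Finset Bool)),
          ∏ x, if b x then f x else g x :=
          Finset.prod_univ_sum (fun _ : Prs n => (Finset.univ : Finset Bool))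
            (fun x b => if b then f x else g x)
      _ = _ := by rw [Fintype.piFinset_univ]
  rw [e1]
  apply Fintype.sum_bijective (fun (G : SimpleGraph (Fin n)) (x : Prs n) =>
    decide (G.Adj x.1.1 x.1.2))
  · constructor
    · intro G H hGH
      ext u v
      have h1 : ∀ u v : Fin n, u < v → (G.Adj u v ↔ H.Adj u v) := by
        intro u v huv
        have := congrFun hGH ⟨(u, v), huv⟩
        simpa using this
      rcases lt_trichotomy u v with h | h | h
      · exact h1 u v h
      · subst h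
        simp
      · rw [G.adj_comm, H.adj_comm]
        exact h1 v u h
    · intro b
      refine ⟨SimpleGraph.fromRel (fun u v => ∃ h : u < v, b ⟨(u, v), h⟩ = true), ?_⟩
      funext x
      obtain ⟨⟨u, v⟩, huv⟩ := x
      simp only [SimpleGraph.fromRel_adj]
      have huv' : u < v := huv
      by_cases hb : b ⟨(u, v), huv⟩ = true
      · rw [hb]
        simp only [decide_eq_true_eq]
        exact ⟨huv'.ne, Or.inl ⟨huv', hb⟩⟩
      · have hb' : b ⟨(u, v), huv⟩ = false := by simpa using hb
        rw [hb']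
        simp only [decide_eq_false_iff_not]
        rintro ⟨_, h | h⟩
        · obtain ⟨h1, h2⟩ := h
          exact hb h2
        · obtain ⟨h1, h2⟩ := h
          exact absurd (huv'.trans h1) (lt_irrefl _)
  · intro G
    refine Finset.prod_congr rfl fun x _ => ?_
    by_cases h : G.Adj x.1.1 x.1.2 <;> simp [h]

theorem wt_nonneg' {n : ℕ} {q : ℝ} (h0 : 0 < q) (h1 : q < 1) (G : SimpleGraph (Fin n)) :
    0 ≤ wt q G := by
  classical
  unfold wt
  apply Finset.prod_nonneg
  intro x _
  split_ifs <;> linarith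

theorem prob_iso {n : ℕ} (q : ℝ) (J : Finset (Fin n)) :
    prob n q (fun G => ∀ v ∈ J, ∀ w, ¬ G.Adj v w) = (1 - q) ^ (iso_N J).card := by
  classical
  have h1 := iso_sum_graph_prod (n := n) (fun x => if x ∈ iso_N J then (0 : ℝ) else q)
    (fun _ => 1 - q)
  have h2 : ∏ x : Prs n, ((if x ∈ iso_N J then (0 : ℝ) else q) + (1 - q)) =
      (1 - q) ^ (iso_N J).card := by
    have : ∀ x : Prs n, ((if x ∈ iso_N J then (0 : ℝ) else q) + (1 - q)) =
        if x ∈ iso_N J then 1 - q else 1 := by
      intro x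
      split_ifs <;> ring
    simp_rw [this]
    rw [Finset.prod_ite]
    simp
  rw [h2] at h1
  rw [← h1]
  unfold prob
  refine Finset.sum_congr (by congr) fun G _ => ?_
  by_cases hG : ∀ v ∈ J, ∀ w, ¬ G.Adj v w
  · rw [if_pos hG]
    unfold wt
    refine Finset.prod_congr (by congr) fun x _ => ?_
    by_cases hx : x ∈ iso_N J
    · have : ¬ G.Adj x.1.1 x.1.2 := by
        rcases (mem_iso_N J x).1 hx with h | h
        · exact hG _ h _
        · intro h'
          exact hG _ h _ h'.symm
      simp [this]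
    · simp [hx]
  · rw [if_neg hG]
    symm
    push Not at hG
    obtain ⟨v, hv, w, hvw⟩ := hG
    rcases lt_trichotomy v w with h | h | h
    · apply Finset.prod_eq_zero (i := (⟨(v, w), h⟩ : Prs n)) (Finset.mem_univ _)
      rw [if_pos hvw, if_pos ((mem_iso_N J _).2 (Or.inl hv))]
    · subst h
      exact absurd hvw (G.irrefl)
    · apply Finset.prod_eq_zero (i := (⟨(w, v), h⟩ : Prs n)) (Finset.mem_univ _)
      rw [if_pos hvw.symm, if_pos ((mem_iso_N J _).2 (Or.inr hv))]

theorem prob_mono' {n : ℕ} {q : ℝ} (h0 : 0 < q) (h1 : q < 1) {P Q : SimpleGraph (Fin n) → Prop}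
    (h : ∀ G, P G → Q G) : prob n q P ≤ prob n q Q := by
  classical
  unfold prob
  apply Finset.sum_le_sum
  intro G _
  by_cases hP : P G
  · rw [if_pos hP, if_pos (h G hP)]
  · rw [if_neg hP]
    split_ifs
    · exact wt_nonneg' h0 h1 G
    · exact le_rfl

theorem choose_bonf (X M : ℕ) (hM : 1 ≤ M) :
    (X.choose M : ℝ) - M * X.choose (M + 1) ≤ if M ≤ X then 1 else 0 := by
  have hkey := Nat.choose_succ_right_eq X M
  have hk2 : (X.choose (M + 1) : ℝ) * (M + 1) = X.choose M * ((X - M : ℕ) : ℝ) := by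
    exact_mod_cast hkey
  rcases lt_trichotomy X M with h | h | h
  · rw [if_neg (by omega), Nat.choose_eq_zero_of_lt h, Nat.choose_eq_zero_of_lt (by omega)]
    simp
  · subst h
    simp
  · rw [if_pos h.le]
    by_cases h2 : X = M + 1
    · subst h2
      rw [Nat.choose_self, Nat.choose_succ_self_right]
      push_cast
      linarith
    · have h3 : (2 : ℝ) ≤ ((X - M : ℕ) : ℝ) := by
        have : 2 ≤ X - M := by omega
        exact_mod_cast this
      have hM' : (1 : ℝ) ≤ M := by exact_mod_cast hM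
      have h4 : (0 : ℝ) ≤ X.choose M := by positivity
      have h5 : 2 * (X.choose M : ℝ) ≤ X.choose (M + 1) * (M + 1) := by
        rw [hk2]; nlinarith
      have h6 : (X.choose M : ℝ) ≤ M * X.choose (M + 1) := by
        have h7 : (0 : ℝ) ≤ X.choose (M + 1) := by positivity
        nlinarith
      linarith

theorem bonf {n : ℕ} {q : ℝ} (h0 : 0 < q) (h1 : q < 1) (M : ℕ) (hM : 1 ≤ M)
    (W : Finset (Fin n)) :
    (∑ J ∈ Finset.powersetCard M W, (1 - q) ^ (iso_N J).card) -
      M * ∑ J ∈ Finset.powersetCard (M + 1) W, (1 - q) ^ (iso_N J).card ≤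
      prob n q (fun G => ∃ S : Finset (Fin n), S.card = M ∧ ∀ v ∈ S, ∀ w, ¬ G.Adj v w) := by
  classical
  have hsum : ∀ j : ℕ, ∑ J ∈ Finset.powersetCard j W, (1 - q) ^ (iso_N J).card =
      ∑ G : SimpleGraph (Fin n),
        ((W.filter (fun v => ∀ w, ¬ G.Adj v w)).card.choose j : ℝ) * wt q G := by
    intro j
    have : ∀ J : Finset (Fin n), (1 - q) ^ (iso_N J).card =
        ∑ G : SimpleGraph (Fin n), if (∀ v ∈ J, ∀ w, ¬ G.Adj v w) then wt q G else 0 := by
      intro J
      rw [← prob_iso]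
      unfold prob
      refine Finset.sum_congr (by congr) fun G _ => ?_
      congr
    simp_rw [this]
    rw [Finset.sum_comm]
    refine Finset.sum_congr rfl fun G _ => ?_
    rw [← Finset.sum_filter]
    have hf : (Finset.powersetCard j W).filter (fun J => ∀ v ∈ J, ∀ w, ¬ G.Adj v w) =
        Finset.powersetCard j (W.filter (fun v => ∀ w, ¬ G.Adj v w)) := by
      ext J
      simp only [Finset.mem_filter, Finset.mem_powersetCard, Finset.subset_iff]
      constructor
      · rintro ⟨⟨a, b⟩, c⟩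
        exact ⟨fun v hv => ⟨a hv, c v hv⟩, b⟩
      · rintro ⟨a, b⟩
        exact ⟨⟨fun v hv => (a hv).1, b⟩, fun v hv => (a hv).2⟩
    rw [hf, Finset.sum_const, Finset.card_powersetCard, nsmul_eq_mul]
  rw [hsum M, hsum (M + 1), Finset.mul_sum, ← Finset.sum_sub_distrib]
  unfold prob
  refine Finset.sum_le_sum fun G _ => ?_
  have hw := wt_nonneg' h0 h1 G
  have hb := choose_bonf (W.filter (fun v => ∀ w, ¬ G.Adj v w)).card M hM
  have hle : ((W.filter (fun v => ∀ w, ¬ G.Adj v w)).card.choose M : ℝ) * wt q G -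
      M * (((W.filter (fun v => ∀ w, ¬ G.Adj v w)).card.choose (M + 1) : ℝ) * wt q G) ≤
      (if M ≤ (W.filter (fun v => ∀ w, ¬ G.Adj v w)).card then 1 else 0) * wt q G := by
    have := mul_le_mul_of_nonneg_right hb hw
    linarith
  refine hle.trans ?_
  by_cases hX : M ≤ (W.filter (fun v => ∀ w, ¬ G.Adj v w)).card
  · rw [if_pos hX, one_mul]
    obtain ⟨S, hS, hSc⟩ := Finset.exists_subset_card_eq hX
    rw [if_pos]
    exact ⟨S, hSc, fun v hv => (Finset.mem_filter.1 (hS hv)).2⟩
  · rw [if_neg hX, zero_mul]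
    split_ifs
    · exact hw
    · exact le_rfl

theorem isolated_lower (M : ℕ) (hM : 1 ≤ M) (C : ℝ) : ∃ n0 : ℕ, ∀ n ≥ n0, ∀ q : ℝ,
    0 < q → q < 1 → n * q - Real.log n ≤ C →
    (min 1 (Real.exp (-C - 1)) / (8 * M)) ^ M / (M + 1) ≤
      prob n q (fun G => ∃ S : Finset (Fin n), S.card = M ∧ ∀ v ∈ S, ∀ w, ¬ G.Adj v w) := by
  classical
  have hM' : (1 : ℝ) ≤ M := by exact_mod_cast hM
  set c : ℝ := 1 / (2 * ((M : ℝ) + 1) ^ 2) with hc
  have hc0 : 0 < c := by positivity
  have hc1 : c ≤ 1 / 8 := by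
    rw [hc, div_le_div_iff₀ (by positivity) (by norm_num)]
    nlinarith
  -- asymptotics
  have ho : (fun x : ℝ => Real.log x + C) =o[atTop] fun x => x ^ (1 / 2 : ℝ) := by
    apply (isLittleO_log_rpow_atTop (by norm_num)).add
    rw [Asymptotics.isLittleO_const_left]
    right
    exact tendsto_norm_atTop_atTop.comp (tendsto_rpow_atTop (by norm_num))
  have hev := (ho.bound hc0)
  have hev2 := tendsto_natCast_atTop_atTop (R := ℝ) |>.eventually hev
  obtain ⟨n1, hn1⟩ := eventually_atTop.1 hev2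
  refine ⟨max n1 (4 * M), fun n hn q hq0 hq1 hq => ?_⟩
  have hnn1 : n1 ≤ n := (le_max_left _ _).trans hn
  have hn4 : 4 * M ≤ n := (le_max_right _ _).trans hn
  have hnpos : (1 : ℝ) ≤ n := by
    have : 1 ≤ n := by omega
    exact_mod_cast this
  have hn0 : (0 : ℝ) < n := by linarith
  have hbound := hn1 n hnn1
  rw [Real.norm_eq_abs, Real.norm_eq_abs, ← Real.sqrt_eq_rpow,
    abs_of_nonneg (Real.sqrt_nonneg _)] at hbound
  have hs1 : 1 ≤ √(n : ℝ) := by
    rw [Real.one_le_sqrt]; exact hnpos
  have hss : √(n : ℝ) * √(n : ℝ) = n := Real.mul_self_sqrt hn0.le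
  have hnq : n * q ≤ c * √(n : ℝ) := by
    have := le_abs_self (Real.log n + C)
    linarith
  have hnq0 : 0 < n * q := by positivity
  have hqc : q ≤ c := by
    have h1 : n * q ≤ c * n := by
      calc n * q ≤ c * √(n : ℝ) := hnq
        _ ≤ c * (√(n : ℝ) * √(n : ℝ)) := by
            apply mul_le_mul_of_nonneg_left _ hc0.le
            nlinarith
        _ = c * n := by rw [hss]
    nlinarith
  have hnq2 : n * q ^ 2 ≤ c ^ 2 := by
    have h1 : (n * q) ^ 2 ≤ (c * √(n : ℝ)) ^ 2 := by gcongr
    have h2 : (c * √(n : ℝ)) ^ 2 = c ^ 2 * n := by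
      rw [mul_pow, pow_two (√(n : ℝ)), hss]
    rw [h2] at h1
    have h3 : n * (n * q ^ 2) ≤ n * c ^ 2 := by nlinarith
    exact le_of_mul_le_mul_left h3 hn0
  set a : ℝ := (1 - q) ^ n with ha
  have hq1' : 0 < 1 - q := by linarith
  have ha0 : 0 < a := by positivity
  have hna : Real.exp (-C - 1) ≤ n * a := by
    have h1 : 1 - (1 - q)⁻¹ ≤ Real.log (1 - q) := Real.one_sub_inv_le_log_of_pos hq1'
    have h2 : -q - 2 * q ^ 2 ≤ 1 - (1 - q)⁻¹ := by
      have : (1 - q)⁻¹ ≤ 1 + q + 2 * q ^ 2 := by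
        rw [inv_le_iff_one_le_mul₀ hq1']
        nlinarith [mul_pos hq0 hq0, mul_pos hq0 (mul_pos hq0 hq0)]
      linarith
    have h3 : Real.log (n * a) = Real.log n + n * Real.log (1 - q) := by
      rw [Real.log_mul hn0.ne' ha0.ne', ha, Real.log_pow]
    have h4 : -C - 1 ≤ Real.log (n * a) := by
      rw [h3]
      have h5 : n * (-q - 2 * q ^ 2) ≤ n * Real.log (1 - q) :=
        mul_le_mul_of_nonneg_left (h2.trans h1) hn0.le
      nlinarith
    rw [← Real.exp_log (show 0 < n * a by positivity)]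
    exact Real.exp_le_exp.2 h4
  set κ : ℝ := min 1 (Real.exp (-C - 1)) with hκ
  have hκ0 : 0 < κ := lt_min one_pos (Real.exp_pos _)
  have hκ1 : κ ≤ 1 := min_le_left _ _
  have hκ2 : κ ≤ n * a := (min_le_right _ _).trans hna
  have h8M : (0 : ℝ) < 8 * M := by positivity
  by_cases hcase : 1 / (8 * (M : ℝ)) ≤ a
  · -- first case
    obtain ⟨J, hJ, hJc⟩ := Finset.exists_subset_card_eq (s := (Finset.univ : Finset (Fin n)))
      (n := M) (by rw [Finset.card_univ, Fintype.card_fin]; omega)
    have h1 : prob n q (fun G => ∀ v ∈ J, ∀ w, ¬ G.Adj v w) ≤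
        prob n q (fun G => ∃ S : Finset (Fin n), S.card = M ∧ ∀ v ∈ S, ∀ w, ¬ G.Adj v w) :=
      prob_mono' hq0 hq1 (fun G hG => ⟨J, hJc, hG⟩)
    refine le_trans ?_ h1
    rw [prob_iso]
    have h2 : a ^ M ≤ (1 - q) ^ (iso_N J).card := by
      rw [ha, ← pow_mul]
      apply pow_le_pow_of_le_one hq1'.le (by linarith)
      have := iso_N_le J
      rw [hJc] at this
      linarith [Nat.mul_comm n M]
    refine le_trans ?_ h2
    calc (κ / (8 * M)) ^ M / (M + 1) ≤ (κ / (8 * M)) ^ M / 1 := by
          gcongr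
          linarith
      _ = (κ / (8 * M)) ^ M := div_one _
      _ ≤ (1 / (8 * M)) ^ M := by gcongr
      _ ≤ a ^ M := by gcongr
  · -- second case
    push Not at hcase
    have hfl : (1 : ℝ) / (2 * a) > 4 * M := by
      rw [gt_iff_lt, lt_div_iff₀ (by positivity)]
      rw [lt_div_iff₀ h8M] at hcase
      linarith
    set w : ℕ := min n ⌊1 / (2 * a)⌋₊ with hw
    have hwn : w ≤ n := min_le_left _ _
    have hw4 : 4 * M ≤ w := by
      apply le_min hn4
      apply Nat.le_floor
      push_cast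
      linarith
    have hwa : (w : ℝ) * a ≤ 1 / 2 := by
      have h1 : (w : ℝ) ≤ 1 / (2 * a) := by
        have h2 : (w : ℝ) ≤ (⌊1 / (2 * a)⌋₊ : ℝ) := by exact_mod_cast min_le_right _ _
        exact h2.trans (Nat.floor_le (by positivity))
      rw [le_div_iff₀ (by positivity)] at h1
      linarith
    have hwa2 : 3 / 8 * κ ≤ w * a := by
      rcases min_choice n ⌊1 / (2 * a)⌋₊ with h | h
      · rw [hw, h]
        linarith
      · rw [hw, h]
        have h1 := (Nat.lt_floor_add_one (1 / (2 * a))).le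
        rw [div_le_iff₀ (by positivity)] at h1
        have h2 : a ≤ 1 / 8 := by
          refine hcase.le.trans ?_
          rw [div_le_div_iff₀ h8M (by norm_num)]
          linarith
        nlinarith
    obtain ⟨W, hW, hWc⟩ := Finset.exists_subset_card_eq (s := (Finset.univ : Finset (Fin n)))
      (n := w) (by rw [Finset.card_univ, Fintype.card_fin]; omega)
    refine le_trans ?_ (bonf hq0 hq1 M hM W)
    -- lower bound for S_M
    have hSM : (w.choose M : ℝ) * a ^ M ≤
        ∑ J ∈ Finset.powersetCard M W, (1 - q) ^ (iso_N J).card := by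
      rw [← hWc, ← Finset.card_powersetCard, ← nsmul_eq_mul]
      apply Finset.card_nsmul_le_sum
      intro J hJ
      have hJc := (Finset.mem_powersetCard.1 hJ).2
      rw [ha, ← pow_mul]
      apply pow_le_pow_of_le_one hq1'.le (by linarith)
      have := iso_N_le J
      rw [hJc] at this
      linarith [Nat.mul_comm n M]
    -- upper bound for S_{M+1}
    have hq12 : 1 / 2 ≤ (1 - q) ^ ((M + 1) * (M + 1)) := by
      have h1 := one_add_mul_le_pow (a := -q) (by linarith) ((M + 1) * (M + 1))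
      rw [← sub_eq_add_neg] at h1
      refine le_trans ?_ h1
      push_cast
      have h2 : ((M : ℝ) + 1) * (M + 1) * q ≤ ((M : ℝ) + 1) * (M + 1) * c := by gcongr
      have h3 : ((M : ℝ) + 1) * (M + 1) * c = 1 / 2 := by
        rw [hc]; field_simp
      linarith
    have hSM1 : ∑ J ∈ Finset.powersetCard (M + 1) W, (1 - q) ^ (iso_N J).card ≤
        (w.choose (M + 1) : ℝ) * (2 * a ^ (M + 1)) := by
      rw [← hWc, ← Finset.card_powersetCard, ← nsmul_eq_mul]
      apply Finset.sum_le_card_nsmul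
      intro J hJ
      have hJc := (Finset.mem_powersetCard.1 hJ).2
      have h1 := le_iso_N J
      rw [hJc] at h1
      have h2 : (1 - q) ^ (iso_N J).card ≤ (1 - q) ^ ((M + 1) * (n - (M + 1))) :=
        pow_le_pow_of_le_one hq1'.le (by linarith) h1
      refine h2.trans ?_
      have h3 : (1 - q) ^ ((M + 1) * (n - (M + 1))) * (1 - q) ^ ((M + 1) * (M + 1)) =
          a ^ (M + 1) := by
        rw [← pow_add, ha, ← pow_mul]
        congr 1
        have : M + 1 ≤ n := by omega
        obtain ⟨k, rfl⟩ := Nat.exists_eq_add_of_le this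
        simp only [Nat.add_sub_cancel_left]
        ring
      have h4 : 0 ≤ (1 - q) ^ ((M + 1) * (n - (M + 1))) := by positivity
      rw [← h3]
      nlinarith
    have hch : (w.choose (M + 1) : ℝ) * (M + 1) ≤ w.choose M * w := by
      have h1 := Nat.choose_succ_right_eq w M
      have h2 : (w.choose (M + 1) : ℝ) * (M + 1) = w.choose M * ((w - M : ℕ) : ℝ) := by
        exact_mod_cast h1
      rw [h2]
      have h3 : ((w - M : ℕ) : ℝ) ≤ w := by exact_mod_cast Nat.sub_le _ _
      gcongr
    have haM : 0 < a ^ M := by positivity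
    have hup : M * ((w.choose (M + 1) : ℝ) * (2 * a ^ (M + 1))) ≤
        M / (M + 1) * ((w.choose M : ℝ) * a ^ M) := by
      rw [div_mul_eq_mul_div, le_div_iff₀ (by positivity)]
      calc M * ((w.choose (M + 1) : ℝ) * (2 * a ^ (M + 1))) * (M + 1)
          = M * (2 * a ^ M * a) * ((w.choose (M + 1) : ℝ) * (M + 1)) := by ring
        _ ≤ M * (2 * a ^ M * a) * ((w.choose M : ℝ) * w) := by gcongr
        _ = M * (w.choose M : ℝ) * a ^ M * (2 * (w * a)) := by ring
        _ ≤ M * (w.choose M : ℝ) * a ^ M * 1 := by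
            gcongr
            linarith
        _ = M * ((w.choose M : ℝ) * a ^ M) := by ring
    have hfin : (w.choose M : ℝ) * a ^ M / (M + 1) ≤
        (∑ J ∈ Finset.powersetCard M W, (1 - q) ^ (iso_N J).card) -
          M * ∑ J ∈ Finset.powersetCard (M + 1) W, (1 - q) ^ (iso_N J).card := by
      have h1 : (M : ℝ) * ∑ J ∈ Finset.powersetCard (M + 1) W, (1 - q) ^ (iso_N J).card ≤
          M * ((w.choose (M + 1) : ℝ) * (2 * a ^ (M + 1))) :=
        mul_le_mul_of_nonneg_left hSM1 (by positivity)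
      have h2 : (w.choose M : ℝ) * a ^ M / (M + 1) =
          (w.choose M : ℝ) * a ^ M - M / (M + 1) * ((w.choose M : ℝ) * a ^ M) := by
        field_simp
        ring
      linarith
    refine le_trans ?_ hfin
    gcongr
    -- (κ/(8M))^M ≤ C(w,M) a^M
    have h1 : (((w + 1 - M : ℕ) : ℝ) ^ M) / (M.factorial : ℝ) ≤ w.choose M :=
      Nat.pow_le_choose M w
    have h2 : 3 / 4 * (w : ℝ) ≤ ((w + 1 - M : ℕ) : ℝ) := by
      have : M ≤ w + 1 := by omega
      rw [Nat.cast_sub this]
      push_cast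
      have : (4 : ℝ) * M ≤ w := by exact_mod_cast hw4
      linarith
    have h3 : (M.factorial : ℝ) ≤ (M : ℝ) ^ M := by exact_mod_cast Nat.factorial_le_pow M
    have h4 : (3 / 4 * (w : ℝ)) ^ M / (M : ℝ) ^ M ≤ w.choose M := by
      refine le_trans ?_ h1
      have hfac : (0 : ℝ) < M.factorial := by exact_mod_cast Nat.factorial_pos M
      gcongr
    calc (κ / (8 * M)) ^ M ≤ (3 / 4 * (w : ℝ) * a / M) ^ M := by
          apply pow_le_pow_left₀ (by positivity)
          rw [div_le_div_iff₀ h8M (by positivity)]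
          have : κ ≤ 3 / 4 * (w : ℝ) * a * 8 := by linarith
          nlinarith
      _ = (3 / 4 * (w : ℝ)) ^ M / (M : ℝ) ^ M * a ^ M := by
          rw [div_pow, mul_pow]
          ring
      _ ≤ w.choose M * a ^ M := by gcongr

end Sand
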