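import Pool.Agent.Helper793.Sand.Fam

set_option maxHeartbeats 4000000
set_option linter.style.haveILetI false

open Finset Filter Topology

namespace Sand

lemma wt_nonneg {n : ℕ} (q : ℝ) (h0 : 0 ≤ q) (h1 : q ≤ 1) (G : SimpleGraph (Fin n)) :
    0 ≤ wt q G := by
  classical
  unfold wt
  refine Finset.prod_nonneg fun x _ => ?_
  split_ifs <;> linarith

lemma wt_eq {n : ℕ} (q : ℝ) (G : SimpleGraph (Fin n)) [DecidableRel G.Adj] :
    wt q G = ∏ x : Prs n, if G.Adj x.1.1 x.1.2 then q else 1 - q := by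
  unfold wt
  refine Finset.prod_congr rfl fun x _ => ?_
  by_cases h : G.Adj x.1.1 x.1.2 <;> simp [h]

open Classical in
lemma wt_sum {n : ℕ} (q : ℝ) : ∑ G : SimpleGraph (Fin n), wt q G = 1 := by
  have h := sum_graph_prod (n := n) (R := ℝ) (fun _ => q) (fun _ => 1 - q)
  simp only [add_sub_cancel, Finset.prod_const_one] at h
  rw [← h]
  refine Finset.sum_congr rfl fun G _ => ?_
  rw [wt_eq]

open Classical in
lemma prob_eq (n : ℕ) (q : ℝ) (P : SimpleGraph (Fin n) → Prop) :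
    prob n q P = ∑ G : SimpleGraph (Fin n), if P G then wt q G else 0 := by
  unfold prob
  refine Finset.sum_congr rfl fun G _ => ?_
  by_cases h : P G <;> simp [h]

/-- pairing -/
noncomputable def chi {H : Type} [AddCommGroup H] (t : AddChar H ℂ × H) : ℂ := t.1 t.2

/-- distance -/
noncomputable def dd {H : Type} [AddCommGroup H] (x y : AddChar H ℂ × H) : ℝ :=
  1 - ((x.1 - y.1) (x.2 - y.2)).re

lemma ext0_fst {H : Type} [AddCommGroup H] {m : ℕ} (t : Fin m → AddChar H ℂ × H)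
    (u : Fin (m + 1)) : (ext0 t u).1 = ext0 (fun i => (t i).1) u := by
  unfold ext0
  refine Fin.lastCases ?_ (fun i => ?_) u <;> simp

lemma ext0_snd {H : Type} [AddCommGroup H] {m : ℕ} (t : Fin m → AddChar H ℂ × H)
    (u : Fin (m + 1)) : (ext0 t u).2 = ext0 (fun i => (t i).2) u := by
  unfold ext0
  refine Fin.lastCases ?_ (fun i => ?_) u <;> simp

open Classical in
/-- the expected value of the indicator -/
lemma sum_fourier {m : ℕ} (q : ℝ) (H : Type) [AddCommGroup H] [Finite H] (f : Fin m → H) :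
    (Nat.card H : ℂ) ^ m * ∑ G : SimpleGraph (Fin (m + 1)),
      (wt q G : ℂ) * (if ∀ j, ∑ i, redLap G i j • f i = 0 then 1 else 0) =
    ∑ c : Fin m → AddChar H ℂ, ∏ x : Prs (m + 1),
      (1 - q + q * (ext0 c x.1.1 - ext0 c x.1.2) (ext0 f x.1.1 - ext0 f x.1.2)) := by
  rw [Finset.mul_sum]
  have h1 : ∀ G : SimpleGraph (Fin (m + 1)), (Nat.card H : ℂ) ^ m *
      ((wt q G : ℂ) * (if ∀ j, ∑ i, redLap G i j • f i = 0 then 1 else 0)) =
      ∑ c : Fin m → AddChar H ℂ, ∏ x : Prs (m + 1), (if G.Adj x.1.1 x.1.2 then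
        (q : ℂ) * (ext0 c x.1.1 - ext0 c x.1.2) (ext0 f x.1.1 - ext0 f x.1.2) else (1 - q : ℂ)) := by
    intro G
    rw [mul_left_comm, lap_fourier G H f, Finset.mul_sum]
    refine Finset.sum_congr rfl fun c _ => ?_
    rw [wt_eq]
    push_cast
    rw [← Finset.prod_mul_distrib]
    refine Finset.prod_congr rfl fun x _ => ?_
    split_ifs <;> simp
  simp_rw [h1]
  rw [Finset.sum_comm]
  refine Finset.sum_congr rfl fun c _ => ?_
  rw [sum_graph_prod]
  refine Finset.prod_congr rfl fun x _ => ?_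
  ring

lemma factor_bound (q : ℝ) (h0 : 0 ≤ q) (h1 : q ≤ 1) (z : ℂ) (hz : ‖z‖ = 1) :
    ‖(1 - q + q * z : ℂ)‖ ≤ Real.exp (-(q * (1 - q)) * (1 - z.re)) := by
  have h2 : ‖(1 - q + q * z : ℂ)‖ ^ 2 = 1 - 2 * (q * (1 - q)) * (1 - z.re) := by
    rw [← Complex.normSq_eq_norm_sq, Complex.normSq_apply]
    have hz2 : z.re * z.re + z.im * z.im = 1 := by
      rw [← Complex.normSq_apply, Complex.normSq_eq_norm_sq, hz]; norm_num
    simp only [Complex.add_re, Complex.sub_re, Complex.one_re, Complex.ofReal_re, Complex.mul_re,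
      Complex.ofReal_im, zero_mul, sub_zero, Complex.add_im, Complex.sub_im, Complex.one_im,
      Complex.mul_im, add_zero]
    linear_combination (q ^ 2) * hz2
  have h3 : ‖(1 - q + q * z : ℂ)‖ ^ 2 ≤ (Real.exp (-(q * (1 - q)) * (1 - z.re))) ^ 2 := by
    rw [h2, ← Real.exp_nat_mul]
    have := Real.add_one_le_exp (((2 : ℕ) : ℝ) * (-(q * (1 - q)) * (1 - z.re)))
    push_cast at this ⊢
    linarith
  exact le_of_sq_le_sq h3 (Real.exp_pos _).le

end Sand
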