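import Pool.Agent.Helper793.Sand.Pos

set_option maxHeartbeats 4000000
set_option linter.style.haveILetI false

open Finset Filter Topology

namespace Sand

/-- if `X` surjects onto `F_p^R` then it has at least `|GL_R(F_p)|` surjections -/
lemma gl_le_sur (p : ℕ) [Fact p.Prime] (K : Type) [AddCommGroup K] [Finite K] (R : ℕ)
    (h : sur K (Fin R → ZMod p) ≠ 0) : gl p R ≤ sur K (Fin R → ZMod p) := by
  rw [bp_sur] at h ⊢
  set d := Module.finrank (ZMod p) (K →+ ZMod p) with hd
  have hR : R ≤ d := by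
    by_contra hlt
    push Not at hlt
    exact h (Finset.prod_eq_zero (Finset.mem_range.2 hlt) (by simp))
  unfold gl
  refine Finset.prod_le_prod' fun j _ => ?_
  exact Nat.sub_le_sub_right (Nat.pow_le_pow_right (Fact.out : p.Prime).pos hR) _

/-- surjections to a cyclic group -/
lemma units_le_sur (p : ℕ) [Fact p.Prime] (e : ℕ) (he : 1 ≤ e) (K : Type) [AddCommGroup K]
    [Finite K] (g : K →+ ZMod (p ^ e)) (hg : Function.Surjective g) :
    p ^ (e - 1) ≤ sur K (ZMod (p ^ e)) := by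
  haveI : NeZero (p ^ e) := ⟨pow_ne_zero _ (Fact.out : p.Prime).ne_zero⟩
  have hφ : p ^ (e - 1) ≤ Nat.card (ZMod (p ^ e))ˣ := by
    rw [Nat.card_eq_fintype_card, ZMod.card_units_eq_totient,
      Nat.totient_prime_pow (Fact.out : p.Prime) (by omega)]
    have h2 := (Fact.out : p.Prime).two_le
    exact Nat.le_mul_of_pos_right _ (by omega)
  refine hφ.trans ?_
  unfold sur
  haveI : Finite (K →+ ZMod (p ^ e)) :=
    Finite.of_injective (fun f => (f : K → ZMod (p ^ e))) DFunLike.coe_injective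
  refine Nat.card_le_card_of_injective (fun u : (ZMod (p ^ e))ˣ =>
    (⟨(AddMonoidHom.mulLeft (u : ZMod (p ^ e))).comp g, ?_⟩ :
      {f : K →+ ZMod (p ^ e) // Function.Surjective f})) ?_
  · intro y
    obtain ⟨x, hx⟩ := hg ((u⁻¹ : (ZMod (p ^ e))ˣ) * y)
    refine ⟨x, ?_⟩
    show (u : ZMod (p ^ e)) * g x = y
    rw [hx, ← mul_assoc, Units.mul_inv, one_mul]
  · intro u v huv
    obtain ⟨x, hx⟩ := hg 1
    have h1 := congrArg (fun f : {f : K →+ ZMod (p ^ e) // Function.Surjective f} => f.1 x) huv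
    have h2 : (u : ZMod (p ^ e)) * g x = (v : ZMod (p ^ e)) * g x := h1
    rw [hx, mul_one, mul_one] at h2
    exact Units.ext h2

/-- index type of the groups considered: rank `< R`, exponents in `[1, e-1]` -/
abbrev Idx (R e : ℕ) : Type := Σ r : Fin R, {lam : Fin r → Fin e // ∀ a, 1 ≤ (lam a : ℕ)}

/-- the corresponding group -/
abbrev IG (p : ℕ) {R e : ℕ} (x : Idx R e) : Type := Gp p (fun a => (x.2.1 a : ℕ))

/-- isomorphism -/
def IS (p R e : ℕ) : Setoid (Idx R e) where
  r x y := Nonempty (IG p x ≃+ IG p y)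
  iseqv := ⟨fun x => ⟨AddEquiv.refl _⟩, fun ⟨f⟩ => ⟨f.symm⟩, fun ⟨f⟩ ⟨g⟩ => ⟨f.trans g⟩⟩

/-- isomorphism classes -/
abbrev Cls (p R e : ℕ) : Type := Quotient (IS p R e)

noncomputable instance (p R e : ℕ) : Fintype (Cls p R e) := by
  classical
  haveI : Finite (Cls p R e) := Quotient.finite _
  exact Fintype.ofFinite _

/-- representative -/
noncomputable def rp {p R e : ℕ} (c : Cls p R e) : Idx R e := Quotient.out c

/-- trichotomy for groups killed by `p^e` -/
lemma tri (p : ℕ) [Fact p.Prime] (R e : ℕ) (he : 1 ≤ e) (K : Type) [AddCommGroup K] [Finite K]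
    (hK : ∀ x : K, p ^ e • x = 0) :
    (∃ c : Cls p R e, Nonempty (K ≃+ IG p (rp c))) ∨
    (∃ g : K →+ ZMod (p ^ e), Function.Surjective g) ∨
    (∃ g : K →+ (Fin R → ZMod p), Function.Surjective g) := by
  classical
  obtain ⟨r, lam, hlam, ⟨ε⟩⟩ := exists_Gp p K (fun x => ⟨e, hK x⟩)
  have hle : ∀ a, lam a ≤ e := by
    intro a
    have h1 := hK (ε.symm (Pi.single a 1))
    have h2 := congrArg ε h1
    rw [map_nsmul, map_zero, AddEquiv.apply_symm_apply] at h2
    have h3 := congrFun h2 a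
    rw [Pi.smul_apply, Pi.single_eq_same, nsmul_eq_mul, mul_one, Pi.zero_apply] at h3
    have h4 : p ^ lam a ∣ p ^ e := (ZMod.natCast_eq_zero_iff _ _).1 h3
    exact (Nat.pow_dvd_pow_iff_le_right (Fact.out : p.Prime).one_lt).1 h4
  by_cases h1 : ∃ a, lam a = e
  · obtain ⟨a, ha⟩ := h1
    right; left
    refine ⟨((ZMod.ringEquivCongr (congrArg (p ^ ·) ha)).toAddEquiv.toAddMonoidHom.comp
      (Pi.evalAddMonoidHom (fun a => ZMod (p ^ lam a)) a)).comp ε.toAddMonoidHom, ?_⟩
    intro y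
    refine ⟨ε.symm (Pi.single a ((ZMod.ringEquivCongr (congrArg (p ^ ·) ha)).symm y)), ?_⟩
    simp
  · push Not at h1
    by_cases h2 : R ≤ r
    · right; right
      -- reduce the first R coordinates mod p
      have hdvd : ∀ a, p ∣ p ^ lam a := fun a => dvd_pow_self p (by have := hlam a; omega)
      refine ⟨(AddMonoidHom.mk' (fun (x : Gp p lam) (b : Fin R) =>
        (ZMod.castHom (hdvd (Fin.castLE h2 b)) (ZMod p)) (x (Fin.castLE h2 b))) ?_).comp
        ε.toAddMonoidHom, ?_⟩
      · intro x y; ext b; exact map_add _ _ _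
      · intro y
        have hs : ∀ a, ∃ z : ZMod (p ^ lam a), ∀ (hb : (a : ℕ) < R),
            (ZMod.castHom (hdvd a) (ZMod p)) z = y ⟨a, hb⟩ := by
          intro a
          by_cases hb : (a : ℕ) < R
          · obtain ⟨z, hz⟩ := ZMod.castHom_surjective (hdvd a) (y ⟨a, hb⟩)
            exact ⟨z, fun _ => hz⟩
          · exact ⟨0, fun h => absurd h hb⟩
        choose z hz using hs
        refine ⟨ε.symm z, ?_⟩
        ext b
        have := hz (Fin.castLE h2 b) b.2
        simpa using this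
    · left
      push Not at h2
      let x : Idx R e := ⟨⟨r, h2⟩, ⟨fun a => ⟨lam a, lt_of_le_of_ne (hle a) (h1 a)⟩, hlam⟩⟩
      refine ⟨Quotient.mk (IS p R e) x, ?_⟩
      have h3 : (IS p R e).r (rp (Quotient.mk (IS p R e) x)) x := Quotient.exact (Quotient.out_eq _)
      obtain ⟨f⟩ := h3
      exact ⟨ε.trans f.symm⟩

/-- the limit mass -/
noncomputable def mu (p : ℕ) (H : Type) [AddCommGroup H] : ℝ :=
  symPerf H / (Nat.card H * Nat.card (H ≃+ H)) * ∏' j : ℕ, (1 - 1 / (p : ℝ) ^ (2 * j + 1))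

lemma alt_cyclic (p : ℕ) [Fact p.Prime] (e : ℕ) : alt (ZMod (p ^ e)) = 1 := by
  have h1 : ZMod (p ^ e) ≃+ Gp p (fun _ : Fin 1 => e) :=
    { toFun := fun x _ => x
      invFun := fun x => x 0
      left_inv := fun x => rfl
      right_inv := fun x => by ext a; rw [Subsingleton.elim a 0]
      map_add' := fun x y => rfl }
  rw [alt_congr h1, alt_Gp]
  have : (univ : Finset (Fin 1 × Fin 1)).filter (fun x => x.1 < x.2) = ∅ := by decide
  rw [this]; simp

/-- number of pairs -/
noncomputable def prN (R : ℕ) : ℕ :=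
  ∑ x ∈ (univ : Finset (Fin R × Fin R)).filter (fun x => x.1 < x.2), 1

lemma prN_eq (R : ℕ) : 2 * prN R + R = R * R := by
  have h1 := max_min_sum (m := R) (fun _ => 1)
  have h2 := le_min_sum (m := R) (fun _ => 1)
  simp only [max_self, min_self] at h1 h2
  unfold prN
  rw [h2] at h1
  simp only [Finset.sum_const, Finset.card_univ, Fintype.card_fin, smul_eq_mul, mul_one] at h1 ⊢
  omega

lemma alt_elem (p : ℕ) [Fact p.Prime] (R : ℕ) : alt (Fin R → ZMod p) = p ^ prN R := by
  have h1 : (Fin R → ZMod p) ≃+ Gp p (fun _ : Fin R => 1) :=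
    AddEquiv.piCongrRight fun _ => (ZMod.ringEquivCongr (pow_one p).symm).toAddEquiv
  rw [alt_congr h1, alt_Gp]
  simp only [min_self]
  rfl

/-- tail function -/
noncomputable def rho (p R : ℕ) : ℝ := (p : ℝ) ^ prN R / gl p R

lemma gen_le (m : ℕ) (H : Type) [AddCommGroup H] [Finite H] :
    (gen m H : ℝ) / (Nat.card H : ℝ) ^ m ≤ 1 := by
  have hc : 0 < Nat.card H := Nat.card_pos
  rw [div_le_one (by positivity)]
  have : gen m H ≤ Nat.card (Fin m → H) := Nat.card_le_card_of_injective _ Subtype.val_injective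
  rw [Nat.card_fun, Nat.card_fin] at this
  exact_mod_cast this

end Sand
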