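import Pool.Agent.Helper793.Sand.Mass

set_option maxHeartbeats 4000000
set_option linter.style.haveILetI false

open Finset Filter Topology

namespace Sand

lemma sur_ne_zero {X H : Type} [AddCommGroup X] [AddCommGroup H] [Finite X] [Finite H]
    (h : ∃ g : X →+ H, Function.Surjective g) : sur X H ≠ 0 := by
  obtain ⟨g, hg⟩ := h
  unfold sur
  haveI : Finite (X →+ H) := Finite.of_injective (fun f => (f : X → H)) DFunLike.coe_injective
  haveI : Nonempty {f : X →+ H // Function.Surjective f} := ⟨⟨g, hg⟩⟩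
  exact Nat.card_pos.ne'

lemma gl_pos (p : ℕ) [Fact p.Prime] (R : ℕ) : 0 < gl p R := by
  have h := tl_gl_lower p R (Fact.out : p.Prime).two_le
  have hp : (0 : ℝ) < p := by exact_mod_cast (Fact.out : p.Prime).pos
  have : (0 : ℝ) < gl p R := lt_of_lt_of_le (by positivity) h
  exact_mod_cast this

lemma sym_mass (p : ℕ) [Fact p.Prime] (R e m : ℕ) (he : 1 ≤ e) :
    1 ≤ (∑ c : Cls p R e, psym (p ^ e) m (IG p (rp c))) + 1 / (p : ℝ) ^ (e - 1) + rho p R := by
  classical
  haveI : NeZero (p ^ e) := ⟨pow_ne_zero _ (Fact.out : p.Prime).ne_zero⟩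
  haveI : NeZero p := ⟨(Fact.out : p.Prime).ne_zero⟩
  have hp : (0 : ℝ) < p := by exact_mod_cast (Fact.out : p.Prime).pos
  haveI : Fintype {M : Matrix (Fin m) (Fin m) (ZMod (p ^ e)) // M.IsSymm} := by
    haveI : Finite (Matrix (Fin m) (Fin m) (ZMod (p ^ e))) := by
      unfold Matrix; infer_instance
    exact Fintype.ofFinite _
  have hN : (0 : ℝ) < Nsym (p ^ e) m := by exact_mod_cast Nsym_pos (p ^ e) m
  have hgl : (0 : ℝ) < gl p R := by exact_mod_cast gl_pos p R
  have key : ∀ M : {M : Matrix (Fin m) (Fin m) (ZMod (p ^ e)) // M.IsSymm}, (1 : ℝ) ≤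
      (∑ c : Cls p R e, (if Nonempty (Cok M.1 ≃+ IG p (rp c)) then (1 : ℝ) else 0)) +
      (sur (Cok M.1) (ZMod (p ^ e)) : ℝ) / (p : ℝ) ^ (e - 1) +
      (sur (Cok M.1) (Fin R → ZMod p) : ℝ) / gl p R := by
    intro M
    haveI := Cok_finite M.1
    have h1 : 0 ≤ ∑ c : Cls p R e, (if Nonempty (Cok M.1 ≃+ IG p (rp c)) then (1 : ℝ) else 0) :=
      Finset.sum_nonneg fun c _ => by split_ifs <;> norm_num
    have h2 : (0 : ℝ) ≤ (sur (Cok M.1) (ZMod (p ^ e)) : ℝ) / (p : ℝ) ^ (e - 1) := by positivity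
    have h3 : (0 : ℝ) ≤ (sur (Cok M.1) (Fin R → ZMod p) : ℝ) / gl p R := by positivity
    rcases tri p R e he (Cok M.1) (Cok_killed M.1) with ⟨c, hc⟩ | ⟨g, hg⟩ | hg
    · have : (1 : ℝ) ≤ ∑ c : Cls p R e,
          (if Nonempty (Cok M.1 ≃+ IG p (rp c)) then (1 : ℝ) else 0) := by
        refine le_trans (by rw [if_pos hc]) (Finset.single_le_sum
          (f := fun c : Cls p R e => (if Nonempty (Cok M.1 ≃+ IG p (rp c)) then (1 : ℝ) else 0))
          (fun c _ => by split_ifs <;> norm_num) (mem_univ c))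
      linarith
    · have h4 := units_le_sur p e he (Cok M.1) g hg
      have : (1 : ℝ) ≤ (sur (Cok M.1) (ZMod (p ^ e)) : ℝ) / (p : ℝ) ^ (e - 1) := by
        rw [le_div_iff₀ (by positivity), one_mul]
        exact_mod_cast h4
      linarith
    · have h4 := gl_le_sur p (Cok M.1) R (sur_ne_zero hg)
      have : (1 : ℝ) ≤ (sur (Cok M.1) (Fin R → ZMod p) : ℝ) / gl p R := by
        rw [le_div_iff₀ hgl, one_mul]
        exact_mod_cast h4
      linarith
  have htot : (1 : ℝ) = ∑ M : {M : Matrix (Fin m) (Fin m) (ZMod (p ^ e)) // M.IsSymm},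
      (1 / (Nsym (p ^ e) m : ℝ)) * 1 := by
    rw [Finset.sum_const, nsmul_eq_mul, mul_one, Finset.card_univ]
    have : (Fintype.card {M : Matrix (Fin m) (Fin m) (ZMod (p ^ e)) // M.IsSymm} : ℝ) =
        Nsym (p ^ e) m := by
      unfold Nsym; rw [Nat.card_eq_fintype_card]
    rw [this]; field_simp
  rw [htot]
  refine (Finset.sum_le_sum fun M _ => mul_le_mul_of_nonneg_left (key M)
    (by positivity : (0 : ℝ) ≤ 1 / (Nsym (p ^ e) m : ℝ))).trans ?_
  simp_rw [mul_add]
  rw [Finset.sum_add_distrib, Finset.sum_add_distrib]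
  refine add_le_add (add_le_add (le_of_eq ?_) ?_) ?_
  · simp_rw [Finset.mul_sum]
    rw [Finset.sum_comm]
    refine Finset.sum_congr rfl fun c _ => ?_
    rw [← Finset.mul_sum, ← Finset.sum_filter, Finset.sum_const, nsmul_eq_mul, mul_one]
    unfold psym
    have h2 : (((univ : Finset {M : Matrix (Fin m) (Fin m) (ZMod (p ^ e)) // M.IsSymm}).filter
        (fun M => Nonempty (Cok M.1 ≃+ IG p (rp c)))).card : ℝ) =
        (Nat.card {M : Matrix (Fin m) (Fin m) (ZMod (p ^ e)) // M.IsSymm ∧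
          Nonempty (Cok M ≃+ IG p (rp c))} : ℝ) := by
      congr 1
      rw [← Fintype.card_subtype, ← Nat.card_eq_fintype_card]
      refine Nat.card_congr ?_
      exact Equiv.subtypeSubtypeEquivSubtypeInter
        (fun M : Matrix (Fin m) (Fin m) (ZMod (p ^ e)) => M.IsSymm)
        (fun M => Nonempty (Cok M ≃+ IG p (rp c)))
    rw [h2]
    ring
  · have h1 := sym_moment (p ^ e) m (ZMod (p ^ e)) (fun x => by simp)
    have h2 := gen_le m (ZMod (p ^ e))
    rw [alt_cyclic] at h1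
    have h3 : ∑ M : {M : Matrix (Fin m) (Fin m) (ZMod (p ^ e)) // M.IsSymm},
        1 / (Nsym (p ^ e) m : ℝ) * ((sur (Cok M.1) (ZMod (p ^ e)) : ℝ) / (p : ℝ) ^ (e - 1)) =
        (∑ M : {M : Matrix (Fin m) (Fin m) (ZMod (p ^ e)) // M.IsSymm},
        1 / (Nsym (p ^ e) m : ℝ) * (sur (Cok M.1) (ZMod (p ^ e)) : ℝ)) / (p : ℝ) ^ (e - 1) := by
      rw [Finset.sum_div]
      refine Finset.sum_congr rfl fun M _ => ?_
      ring
    rw [h3, h1]
    refine div_le_div_of_nonneg_right ?_ (by positivity)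
    push_cast
    linarith
  · have h1 := sym_moment (p ^ e) m (Fin R → ZMod p) (fun x => by
      ext b
      rw [Pi.smul_apply, nsmul_eq_mul, Pi.zero_apply]
      push_cast
      rw [show e = (e - 1) + 1 by omega, pow_succ, CharP.cast_eq_zero, mul_zero, zero_mul])
    have h2 := gen_le m (Fin R → ZMod p)
    have h3 : ∑ M : {M : Matrix (Fin m) (Fin m) (ZMod (p ^ e)) // M.IsSymm},
        1 / (Nsym (p ^ e) m : ℝ) * ((sur (Cok M.1) (Fin R → ZMod p) : ℝ) / gl p R) =
        (∑ M : {M : Matrix (Fin m) (Fin m) (ZMod (p ^ e)) // M.IsSymm},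
        1 / (Nsym (p ^ e) m : ℝ) * (sur (Cok M.1) (Fin R → ZMod p) : ℝ)) / gl p R := by
      rw [Finset.sum_div]
      refine Finset.sum_congr rfl fun M _ => ?_
      ring
    rw [h3, h1]
    unfold rho
    refine div_le_div_of_nonneg_right ?_ hgl.le
    rw [alt_elem]
    push_cast
    exact mul_le_of_le_one_right (by positivity) h2

lemma psym_tendsto_mu (p : ℕ) [Fact p.Prime] {r : ℕ} (lam : Fin r → ℕ) (e : ℕ)
    (hlam : ∀ a, 1 ≤ lam a) (he : ∀ a, lam a < e) (he1 : 1 ≤ e) :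
    Tendsto (fun m => psym (p ^ e) m (Gp p lam)) atTop (𝓝 (mu p (Gp p lam))) := by
  haveI := Gp_finite p lam
  have hAut : 0 < Nat.card (Gp p lam ≃+ Gp p lam) := by
    haveI : Finite (Gp p lam ≃+ Gp p lam) :=
      Finite.of_injective (fun f => (f : Gp p lam → Gp p lam)) DFunLike.coe_injective
    haveI : Nonempty (Gp p lam ≃+ Gp p lam) := ⟨AddEquiv.refl _⟩
    exact Nat.card_pos
  have hAutR : (0 : ℝ) < Nat.card (Gp p lam ≃+ Gp p lam) := by exact_mod_cast hAut
  have hG : (0 : ℝ) < Nat.card (Gp p lam) := by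
    have : 0 < Nat.card (Gp p lam) := Nat.card_pos
    exact_mod_cast this
  have h1 := (psym_tendsto p lam e hlam he he1).div_const (Nat.card (Gp p lam ≃+ Gp p lam) : ℝ)
  have h2 : mu p (Gp p lam) = (symPerf (Gp p lam) : ℝ) / Nat.card (Gp p lam) *
        (∏' j : ℕ, (1 - 1 / (p : ℝ) ^ (2 * j + 1))) / Nat.card (Gp p lam ≃+ Gp p lam) := by
    unfold mu
    field_simp
  rw [h2]
  refine h1.congr fun m => ?_
  field_simp

lemma mu_mass (p : ℕ) [Fact p.Prime] (R e : ℕ) (he : 1 ≤ e) :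
    1 ≤ (∑ c : Cls p R e, mu p (IG p (rp c))) + 1 / (p : ℝ) ^ (e - 1) + rho p R := by
  have h1 : Tendsto (fun m => (∑ c : Cls p R e, psym (p ^ e) m (IG p (rp c))) +
      1 / (p : ℝ) ^ (e - 1) + rho p R) atTop
      (𝓝 ((∑ c : Cls p R e, mu p (IG p (rp c))) + 1 / (p : ℝ) ^ (e - 1) + rho p R)) := by
    refine Tendsto.add_const _ (Tendsto.add_const _ ?_)
    refine tendsto_finset_sum _ fun c _ => ?_
    exact psym_tendsto_mu p _ e (rp c).2.2 (fun a => ((rp c).2.1 a).2) he
  exact ge_of_tendsto' h1 fun m => sym_mass p R e m he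

/-- a group of rank `< R` has no surjection to `F_p^R` -/
lemma no_sur (p : ℕ) [Fact p.Prime] {R e : ℕ} (x : Idx R e)
    (g : IG p x →+ (Fin R → ZMod p)) : ¬ Function.Surjective g := by
  classical
  intro hg
  haveI : NeZero p := ⟨(Fact.out : p.Prime).ne_zero⟩
  haveI := Gp_finite p (fun a => (x.2.1 a : ℕ))
  have h1 := sur_ne_zero ⟨g, hg⟩
  rw [bp_sur] at h1
  set d := Module.finrank (ZMod p) (IG p x →+ ZMod p) with hd
  have hR : R ≤ d := by
    by_contra hlt
    push Not at hlt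
    exact h1 (Finset.prod_eq_zero (Finset.mem_range.2 hlt) (by simp))
  haveI : Finite (IG p x →+ ZMod p) :=
    Finite.of_injective (fun f => (f : IG p x → ZMod p)) DFunLike.coe_injective
  have h2 : Nat.card (IG p x →+ ZMod p) = p ^ d := by
    rw [Module.natCard_eq_pow_finrank (K := ZMod p), Nat.card_zmod]
  have h3 : Nat.card (IG p x →+ ZMod p) ≤ p ^ (x.1 : ℕ) := by
    have h4 : Nat.card (Fin x.1 → ZMod p) = p ^ (x.1 : ℕ) := by
      rw [Nat.card_fun, Nat.card_zmod, Nat.card_fin]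
    rw [← h4]
    refine Nat.card_le_card_of_injective (fun (f : IG p x →+ ZMod p) (a : Fin x.1) =>
      f (Pi.single a 1)) ?_
    intro f f' hff
    refine AddMonoidHom.functions_ext _ _ _ fun a z => ?_
    have h5 : f (Pi.single a 1) = f' (Pi.single a 1) := congrFun hff a
    haveI : NeZero (p ^ ((x.2.1 a : ℕ))) := ⟨pow_ne_zero _ (Fact.out : p.Prime).ne_zero⟩
    have h6 : (Pi.single a z : IG p x) = z.val • (Pi.single a 1 : IG p x) := by
      ext b
      by_cases hb : b = a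
      · subst hb
        rw [Pi.smul_apply, Pi.single_eq_same, Pi.single_eq_same, nsmul_eq_mul, mul_one]
        exact (ZMod.natCast_zmod_val z).symm
      · rw [Pi.smul_apply, Pi.single_eq_of_ne hb, Pi.single_eq_of_ne hb, smul_zero]
    show f (Pi.single a z) = f' (Pi.single a z)
    rw [h6, map_nsmul, map_nsmul, h5]
  rw [h2] at h3
  have h7 := (Nat.pow_le_pow_iff_right (Fact.out : p.Prime).one_lt).1 h3
  have h8 := x.1.2
  omega

/-- restriction of a surjection to the primary component -/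
lemma primary_sur (p : ℕ) [Fact p.Prime] (A : Type) [AddCommGroup A] [Finite A] (R : ℕ)
    (g : A →+ (Fin R → ZMod p)) (hg : Function.Surjective g) :
    Function.Surjective (g.comp (AddCommGroup.primaryComponent A p).subtype) := by
  haveI : NeZero p := ⟨(Fact.out : p.Prime).ne_zero⟩
  intro y
  obtain ⟨k, n', hn', hcard⟩ := Nat.exists_eq_pow_mul_and_not_dvd
    (Nat.card_pos (α := A)).ne' p (Fact.out : p.Prime).ne_one
  have hunit : (n' : ZMod p) ≠ 0 := by
    intro h; exact hn' ((ZMod.natCast_eq_zero_iff _ _).1 h)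
  obtain ⟨x, hx⟩ := hg ((n' : ZMod p)⁻¹ • y)
  have hmem : n' • x ∈ AddCommGroup.primaryComponent A p := by
    have h0 : p ^ k • (n' • x) = 0 := by
      rw [smul_smul, ← hcard]; exact card_nsmul_eq_zero' 
    exact ⟨k, h0⟩
  refine ⟨⟨n' • x, hmem⟩, ?_⟩
  show g (n' • x) = y
  rw [map_nsmul, hx]
  ext b
  rw [Pi.smul_apply, Pi.smul_apply, nsmul_eq_mul, smul_eq_mul, ← mul_assoc, mul_inv_cancel₀ hunit,
    one_mul]

end Sand
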