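import Pool.Agent.Helper793.Sand.Stub

set_option maxHeartbeats 4000000
set_option linter.style.haveILetI false

open Finset Filter Topology

namespace Sand

open Classical in
theorem remainder_tendsto (T : Type) [Fintype T] (h : ℕ) (hh : 1 ≤ h)
    (hT : Fintype.card T = h ^ 2) (d : T → T → ℝ)
    (d0 : ∀ x y, 0 ≤ d x y) (d2 : ∀ x y, d x y ≤ 2) (dsymm : ∀ x y, d x y = d y x)
    (drefl : ∀ x, d x x = 0)
    (hiso : ∀ S : Finset T, (∀ x ∈ S, ∀ y ∈ S, d x y = 0) → S.card ≤ h)
    (hiso2 : ∀ S : Finset T, (∀ x ∈ S, ∀ y ∈ S, d x y = 0) → S.card = h →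
      ∀ x ∉ S, (h : ℝ) ≤ ∑ y ∈ S, d x y)
    (s : ℕ → ℝ) (hs0 : ∀ n, 0 ≤ s n)
    (hs : Tendsto (fun n : ℕ => n * s n - Real.log n) atTop atTop) :
    Tendsto (fun n : ℕ => ((h : ℝ)⁻¹) ^ n * ∑ t ∈ (univ : Finset (Fin n → T)).filter
      (fun t => ∃ u v, d (t u) (t v) ≠ 0),
      Real.exp (- s n * ∑ x : Prs n, d (t x.1.1) (t x.1.2))) atTop (𝓝 0) := by
  have hs' : Tendsto (fun n : ℕ => n * s n) atTop atTop := by
    refine tendsto_atTop_mono' _ ?_ hs
    filter_upwards [eventually_ge_atTop 1] with n hn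
    have := Real.log_nonneg (show (1 : ℝ) ≤ n by exact_mod_cast hn)
    linarith
  obtain ⟨η1, hη1, near⟩ := near_sum h hh
  obtain ⟨η2, hη2, far⟩ := far_bound T h hh hT d d0 dsymm drefl hiso
  set η := min (min η1 η2) 1 with hη
  have hη0 : 0 < η := by
    rw [hη]; exact lt_min (lt_min hη1 hη2) one_pos
  have hηa : η ≤ η1 := (min_le_left _ _).trans (min_le_left _ _)
  have hηb : η ≤ η2 := (min_le_left _ _).trans (min_le_right _ _)
  have hηc : η ≤ 1 := min_le_right _ _
  have hnear := near η hη0 hηa s hs0 hs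
  have hfar := far η hη0 hηb s hs0 hs'
  set 𝒮 : Finset (Finset T) := univ.filter (fun S => (∀ x ∈ S, ∀ y ∈ S, d x y = 0) ∧ S.card = h)
    with h𝒮
  have hsum := hfar.add (hnear.const_mul (𝒮.card : ℝ))
  rw [mul_zero, add_zero] at hsum
  have hhpos : (0 : ℝ) < h := by exact_mod_cast hh
  refine squeeze_zero (fun n => ?_) (fun n => ?_) hsum
  · exact mul_nonneg (by positivity) (Finset.sum_nonneg fun t _ => (Real.exp_pos _).le)
  · set F : (Fin n → T) → ℝ := fun t => Real.exp (- s n * ∑ x : Prs n, d (t x.1.1) (t x.1.2)) with hF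
    have hFpos : ∀ t, 0 ≤ F t := fun t => (Real.exp_pos _).le
    have key : ∀ t : Fin n → T, (if ∃ u v, d (t u) (t v) ≠ 0 then F t else 0) ≤
        (if (∀ S : Finset T, (∀ x ∈ S, ∀ y ∈ S, d x y = 0) → S.card = h →
          η * n < ((univ : Finset (Fin n)).filter (fun u => t u ∉ S)).card) then F t else 0) +
        ∑ S ∈ 𝒮, ∑ k ∈ Finset.Icc 1 ⌊η * n⌋₊,
          (if ((univ : Finset (Fin n)).filter (fun u => t u ∉ S)).card = k then F t else 0) := by
      intro t
      have hnn : 0 ≤ ∑ S ∈ 𝒮, ∑ k ∈ Finset.Icc 1 ⌊η * n⌋₊,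
          (if ((univ : Finset (Fin n)).filter (fun u => t u ∉ S)).card = k then F t else 0) := by
        refine Finset.sum_nonneg fun S _ => Finset.sum_nonneg fun k _ => ?_
        split_ifs
        · exact hFpos t
        · exact le_rfl
      by_cases h1 : ∃ u v, d (t u) (t v) ≠ 0
      · rw [if_pos h1]
        by_cases h2 : (∀ S : Finset T, (∀ x ∈ S, ∀ y ∈ S, d x y = 0) → S.card = h →
          η * n < ((univ : Finset (Fin n)).filter (fun u => t u ∉ S)).card)
        · rw [if_pos h2]; linarith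
        · rw [if_neg h2, zero_add]
          push Not at h2
          obtain ⟨S, hS1, hS2, hS3⟩ := h2
          have hSm : S ∈ 𝒮 := by rw [h𝒮, Finset.mem_filter]; exact ⟨mem_univ _, hS1, hS2⟩
          set k := ((univ : Finset (Fin n)).filter (fun u => t u ∉ S)).card with hk
          have hk1 : 1 ≤ k := by
            by_contra hk0
            have hk0' : k = 0 := by omega
            rw [hk, Finset.card_eq_zero, Finset.filter_eq_empty_iff] at hk0'
            obtain ⟨u, v, huv⟩ := h1
            have hu := hk0' (mem_univ u)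
            have hv := hk0' (mem_univ v)
            rw [not_not] at hu hv
            exact huv (hS1 _ hu _ hv)
          have hkm : k ∈ Finset.Icc 1 ⌊η * n⌋₊ := by
            rw [Finset.mem_Icc]
            exact ⟨hk1, Nat.le_floor hS3⟩
          have e1 : F t ≤ ∑ k' ∈ Finset.Icc 1 ⌊η * n⌋₊,
              (if ((univ : Finset (Fin n)).filter (fun u => t u ∉ S)).card = k'
                then F t else 0) := by
            rw [Finset.sum_ite_eq, if_pos hkm]
          refine e1.trans ?_
          refine Finset.single_le_sum (f := fun S => ∑ k' ∈ Finset.Icc 1 ⌊η * n⌋₊,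
              (if ((univ : Finset (Fin n)).filter (fun u => t u ∉ S)).card = k'
                then F t else 0)) (fun S' _ => ?_) hSm
          refine Finset.sum_nonneg fun k _ => ?_
          split_ifs
          · exact hFpos t
          · exact le_rfl
      · rw [if_neg h1]
        have : 0 ≤ (if (∀ S : Finset T, (∀ x ∈ S, ∀ y ∈ S, d x y = 0) → S.card = h →
          η * n < ((univ : Finset (Fin n)).filter (fun u => t u ∉ S)).card) then F t else 0) := by
          split_ifs
          · exact hFpos t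
          · exact le_rfl
        linarith
    have hstep : ∑ t ∈ (univ : Finset (Fin n → T)).filter (fun t => ∃ u v, d (t u) (t v) ≠ 0), F t ≤
        (∑ t ∈ (univ : Finset (Fin n → T)).filter
          (fun t => ∀ S : Finset T, (∀ x ∈ S, ∀ y ∈ S, d x y = 0) → S.card = h →
          η * n < ((univ : Finset (Fin n)).filter (fun u => t u ∉ S)).card), F t) +
        ∑ S ∈ 𝒮, ∑ k ∈ Finset.Icc 1 ⌊η * n⌋₊,
          ∑ t ∈ (univ : Finset (Fin n → T)).filter
            (fun t => ((univ : Finset (Fin n)).filter (fun u => t u ∉ S)).card = k), F t := by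
      rw [Finset.sum_filter, Finset.sum_filter]
      refine (Finset.sum_le_sum fun t _ => key t).trans ?_
      rw [Finset.sum_add_distrib]
      refine add_le_add le_rfl (le_of_eq ?_)
      rw [Finset.sum_comm]
      refine Finset.sum_congr rfl fun S _ => ?_
      rw [Finset.sum_comm]
      refine Finset.sum_congr rfl fun k _ => ?_
      rw [Finset.sum_filter]
    have hnb : ∀ S ∈ 𝒮, ∀ k ∈ Finset.Icc 1 ⌊η * n⌋₊,
        ((h : ℝ)⁻¹) ^ n * ∑ t ∈ (univ : Finset (Fin n → T)).filter
            (fun t => ((univ : Finset (Fin n)).filter (fun u => t u ∉ S)).card = k), F t ≤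
          (n.choose k : ℝ) * (h : ℝ) ^ k * ((1 + Real.exp (-2 * s n * k)) / 2) ^ (n - k) := by
      intro S hS k hk
      rw [h𝒮, Finset.mem_filter] at hS
      rw [Finset.mem_Icc] at hk
      have hkn : k ≤ n := by
        have h1 : (⌊η * n⌋₊ : ℝ) ≤ η * n := Nat.floor_le (by positivity)
        have h2 : (k : ℝ) ≤ ⌊η * n⌋₊ := by exact_mod_cast hk.2
        have h3 : η * n ≤ 1 * n := mul_le_mul_of_nonneg_right hηc (by positivity)
        have h4 : (k : ℝ) ≤ n := by linarith
        exact_mod_cast h4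
      have nb := near_bound T h hh hT d d0 d2 dsymm S hS.2.2 (hiso2 S hS.2.1 hS.2.2) (s n)
        (hs0 n) n k hkn
      have hnb2 := mul_le_mul_of_nonneg_left nb (show (0 : ℝ) ≤ ((h : ℝ)⁻¹) ^ n by positivity)
      refine le_trans (le_of_eq ?_) (hnb2.trans (le_of_eq ?_))
      · congr 1
      · rw [mul_pow ((h : ℝ)), inv_pow, ← pow_mul]
        have hpow : (h : ℝ) ^ n = (h : ℝ) ^ k * (h : ℝ) ^ (n - k) := by
          rw [← pow_add]; congr 1; omega
        have hpow2 : (h : ℝ) ^ (2 * k) = (h : ℝ) ^ k * (h : ℝ) ^ k := by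
          rw [← pow_add]; congr 1; omega
        rw [hpow, hpow2]
        have e1 : (h : ℝ) ^ k ≠ 0 := by positivity
        have e2 : (h : ℝ) ^ (n - k) ≠ 0 := by positivity
        field_simp
    calc ((h : ℝ)⁻¹) ^ n * ∑ t ∈ (univ : Finset (Fin n → T)).filter
          (fun t => ∃ u v, d (t u) (t v) ≠ 0), F t
        ≤ ((h : ℝ)⁻¹) ^ n * ((∑ t ∈ (univ : Finset (Fin n → T)).filter
          (fun t => ∀ S : Finset T, (∀ x ∈ S, ∀ y ∈ S, d x y = 0) → S.card = h →
          η * n < ((univ : Finset (Fin n)).filter (fun u => t u ∉ S)).card), F t) +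
        ∑ S ∈ 𝒮, ∑ k ∈ Finset.Icc 1 ⌊η * n⌋₊,
          ∑ t ∈ (univ : Finset (Fin n → T)).filter
            (fun t => ((univ : Finset (Fin n)).filter (fun u => t u ∉ S)).card = k), F t) :=
          mul_le_mul_of_nonneg_left hstep (by positivity)
      _ ≤ _ := by
          rw [mul_add, Finset.mul_sum (s := 𝒮)]
          refine add_le_add le_rfl ?_
          have : ∀ S ∈ 𝒮, ((h : ℝ)⁻¹) ^ n * ∑ k ∈ Finset.Icc 1 ⌊η * n⌋₊,
            ∑ t ∈ (univ : Finset (Fin n → T)).filter
              (fun t => ((univ : Finset (Fin n)).filter (fun u => t u ∉ S)).card = k), F t ≤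
              ∑ k ∈ Finset.Icc 1 ⌊η * n⌋₊, (n.choose k : ℝ) * (h : ℝ) ^ k *
                ((1 + Real.exp (-2 * s n * k)) / 2) ^ (n - k) := by
            intro S hS
            rw [Finset.mul_sum]
            exact Finset.sum_le_sum fun k hk => hnb S hS k hk
          refine (Finset.sum_le_sum this).trans (le_of_eq ?_)
          rw [Finset.sum_const, nsmul_eq_mul]

end Sand
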