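import Pool.Agent.Helper793.Sand.Lap
import Pool.Agent.Helper793.Sand.Rem

set_option maxHeartbeats 4000000
set_option linter.style.haveILetI false

open Finset Filter Topology

namespace Sand

lemma val_smul (N : ℕ) [NeZero N] {H : Type} [AddCommGroup H] (z : ℤ) (x : H)
    (hx : N • x = 0) : ((z : ZMod N)).val • x = z • x := by
  have h1 : (((z : ZMod N).val : ℤ)) = z % N := ZMod.val_intCast z
  have h2 : z = z % N + N * (z / N) := (Int.emod_add_mul_ediv z N).symm
  have h3 : ((z : ZMod N)).val • x = (((z : ZMod N).val : ℤ)) • x := (natCast_zsmul _ _).symm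
  rw [h3, h1]
  conv_rhs => rw [h2, add_smul, mul_comm, mul_smul, natCast_zsmul, hx, smul_zero, add_zero]

open Classical in
/-- surjections from the cokernel, as a sum of indicators -/
lemma sur_red {m N : ℕ} [NeZero N] (G : SimpleGraph (Fin (m + 1))) (H : Type) [AddCommGroup H]
    [Finite H] (hH : ∀ x : H, N • x = 0) [Fintype H] :
    (sur (Cok ((redLap G).map (Int.cast : ℤ → ZMod N))) H : ℝ) =
      ∑ f ∈ (univ : Finset (Fin m → H)).filter
        (fun f => AddSubgroup.closure (Set.range f) = ⊤),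
        (if ∀ j, ∑ i, redLap G i j • f i = 0 then (1 : ℝ) else 0) := by
  rw [sur_cok N m _ H hH, Nat.card_eq_fintype_card, Fintype.card_subtype, Finset.card_filter,
    Finset.sum_filter]
  push_cast
  refine Finset.sum_congr rfl fun f _ => ?_
  have h1 : (∀ j, ∑ i, ((redLap G).map (Int.cast : ℤ → ZMod N) i j).val • f i = 0) ↔
      ∀ j, ∑ i, redLap G i j • f i = 0 := by
    refine forall_congr' fun j => ?_
    have : ∑ i, ((redLap G).map (Int.cast : ℤ → ZMod N) i j).val • f i =
        ∑ i, redLap G i j • f i := by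
      refine Finset.sum_congr rfl fun i _ => ?_
      rw [Matrix.map_apply]
      exact val_smul N _ _ (hH _)
    rw [this]
  by_cases h2 : AddSubgroup.closure (Set.range f) = ⊤
  · simp only [h2, true_and, if_true]
    by_cases h3 : ∀ j, ∑ i, redLap G i j • f i = 0
    · rw [if_pos (h1.2 h3), if_pos h3]
    · rw [if_neg (fun h => h3 (h1.1 h)), if_neg h3]
  · simp [h2]

open Classical in
lemma moment_formula {m N : ℕ} [NeZero N] (q : ℝ) (H : Type) [AddCommGroup H]
    [Finite H] (hH : ∀ x : H, N • x = 0) [Fintype H] :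
    (Nat.card H : ℂ) ^ m * ((∑ G : SimpleGraph (Fin (m + 1)), wt q G *
      (sur (Cok ((redLap G).map (Int.cast : ℤ → ZMod N))) H : ℝ) : ℝ) : ℂ) =
    ∑ t ∈ (univ : Finset (Fin m → AddChar H ℂ × H)).filter
        (fun t => AddSubgroup.closure (Set.range fun i => (t i).2) = ⊤),
      ∏ x : Prs (m + 1), (1 - q + q * ((ext0 t x.1.1).1 - (ext0 t x.1.2).1)
        ((ext0 t x.1.1).2 - (ext0 t x.1.2).2)) := by
  simp_rw [sur_red _ H hH, Finset.mul_sum]
  rw [Finset.sum_comm]
  push_cast
  rw [Finset.mul_sum]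
  have h1 : ∀ f : Fin m → H, (Nat.card H : ℂ) ^ m * ∑ G : SimpleGraph (Fin (m + 1)),
      ((wt q G : ℂ) * (if ∀ j, ∑ i, redLap G i j • f i = 0 then 1 else 0)) = _ :=
    fun f => sum_fourier q H f
  have h2 : ∀ f : Fin m → H, ∑ G : SimpleGraph (Fin (m + 1)),
      ((wt q G : ℂ) * ((if ∀ j, ∑ i, redLap G i j • f i = 0 then (1 : ℝ) else 0 : ℝ) : ℂ)) =
      ∑ G : SimpleGraph (Fin (m + 1)),
      ((wt q G : ℂ) * (if ∀ j, ∑ i, redLap G i j • f i = 0 then 1 else 0)) := by
    intro f
    refine Finset.sum_congr rfl fun G _ => ?_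
    split_ifs <;> simp
  simp_rw [h2, h1]
  rw [Finset.sum_filter, Finset.sum_filter]
  have h3 : ∑ t : Fin m → AddChar H ℂ × H,
      (if AddSubgroup.closure (Set.range fun i => (t i).2) = ⊤ then
        ∏ x : Prs (m + 1), (1 - q + q * ((ext0 t x.1.1).1 - (ext0 t x.1.2).1)
        ((ext0 t x.1.1).2 - (ext0 t x.1.2).2) : ℂ) else 0) =
      ∑ fc : (Fin m → H) × (Fin m → AddChar H ℂ),
      (if AddSubgroup.closure (Set.range fc.1) = ⊤ then
        ∏ x : Prs (m + 1), (1 - q + q * (ext0 fc.2 x.1.1 - ext0 fc.2 x.1.2)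
        (ext0 fc.1 x.1.1 - ext0 fc.1 x.1.2) : ℂ) else 0) := by
    refine Fintype.sum_equiv ((Equiv.arrowProdEquivProdArrow (Fin m) (fun _ => AddChar H ℂ) (fun _ => H)).trans
      (Equiv.prodComm _ _)) _ _ fun t => ?_
    simp only [Equiv.trans_apply, Equiv.prodComm_apply, Equiv.arrowProdEquivProdArrow_apply, Prod.fst_swap,
      Prod.snd_swap]
    simp_rw [ext0_fst, ext0_snd]
  rw [h3, Fintype.sum_prod_type]
  refine Finset.sum_congr rfl fun f _ => ?_
  split_ifs <;> simp

end Sand
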