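import Pool.Agent.Helper793.Sand.Mom

set_option maxHeartbeats 4000000
set_option linter.style.haveILetI false

open Finset Filter Topology

namespace Sand

lemma addChar_norm {H : Type} [AddCommGroup H] [Finite H] (ψ : AddChar H ℂ) (x : H) :
    ‖ψ x‖ = 1 := by
  exact AddChar.norm_apply ψ x

lemma eq_one_of_re {z : ℂ} (hz : ‖z‖ = 1) (h : z.re = 1) : z = 1 := by
  have h1 : z.re * z.re + z.im * z.im = 1 := by
    rw [← Complex.normSq_apply, Complex.normSq_eq_norm_sq, hz]; norm_num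
  rw [h] at h1
  have h2 : z.im = 0 := by
    have : z.im * z.im = 0 := by linarith
    exact mul_self_eq_zero.1 this
  exact Complex.ext (by simpa using h) (by simpa using h2)

open Classical in
lemma moment_error {m N : ℕ} [NeZero N] (q : ℝ) (h0 : 0 ≤ q) (h1 : q ≤ 1) (H : Type)
    [AddCommGroup H] [Finite H] (hH : ∀ x : H, N • x = 0) [Fintype H] :
    |(Nat.card H : ℝ) ^ m * (∑ G : SimpleGraph (Fin (m + 1)), wt q G *
      (sur (Cok ((redLap G).map (Int.cast : ℤ → ZMod N))) H : ℝ)) - (alt H : ℝ) * gen m H| ≤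
    ∑ t ∈ (univ : Finset (Fin (m + 1) → AddChar H ℂ × H)).filter
      (fun t => ∃ u v, dd (t u) (t v) ≠ 0),
      Real.exp (- (q * (1 - q)) * ∑ x : Prs (m + 1), dd (t x.1.1) (t x.1.2)) := by
  set P : (Fin m → AddChar H ℂ × H) → ℂ := fun t =>
    ∏ x : Prs (m + 1), (1 - q + q * ((ext0 t x.1.1).1 - (ext0 t x.1.2).1)
        ((ext0 t x.1.1).2 - (ext0 t x.1.2).2)) with hP
  have hmf := moment_formula (m := m) (N := N) q H hH
  have hnorm1 : ∀ t : Fin m → AddChar H ℂ × H, ∀ u v : Fin (m + 1),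
      ‖((ext0 t u).1 - (ext0 t v).1) ((ext0 t u).2 - (ext0 t v).2)‖ = 1 :=
    fun t u v => addChar_norm _ _
  -- the isotropic part
  have hiso : ∑ t ∈ (univ : Finset (Fin m → AddChar H ℂ × H)).filter
      (fun t => AddSubgroup.closure (Set.range fun i => (t i).2) = ⊤ ∧
      ∀ u v : Fin (m + 1), ((ext0 t u).1 - (ext0 t v).1) ((ext0 t u).2 - (ext0 t v).2) = 1),
      P t = (alt H : ℂ) * gen m H := by
    have e1 : ∀ t ∈ (univ : Finset (Fin m → AddChar H ℂ × H)).filter
      (fun t => AddSubgroup.closure (Set.range fun i => (t i).2) = ⊤ ∧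
      ∀ u v : Fin (m + 1), ((ext0 t u).1 - (ext0 t v).1) ((ext0 t u).2 - (ext0 t v).2) = 1),
      P t = 1 := by
      intro t ht
      rw [Finset.mem_filter] at ht
      rw [hP]
      simp only
      refine Finset.prod_eq_one fun x _ => ?_
      rw [ht.2.2]; ring
    rw [Finset.sum_congr rfl e1, Finset.sum_const, nsmul_eq_mul, mul_one]
    have := diag_count m H
    rw [Nat.card_eq_fintype_card, Fintype.card_subtype] at this
    rw [this]; push_cast; ring
  have hsplit : ∑ t ∈ (univ : Finset (Fin m → AddChar H ℂ × H)).filter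
        (fun t => AddSubgroup.closure (Set.range fun i => (t i).2) = ⊤), P t =
      (alt H : ℂ) * gen m H + ∑ t ∈ (univ : Finset (Fin m → AddChar H ℂ × H)).filter
        (fun t => AddSubgroup.closure (Set.range fun i => (t i).2) = ⊤ ∧ ¬
      ∀ u v : Fin (m + 1), ((ext0 t u).1 - (ext0 t v).1) ((ext0 t u).2 - (ext0 t v).2) = 1),
      P t := by
    rw [← hiso, ← Finset.filter_filter, ← Finset.filter_filter]
    rw [Finset.sum_filter_add_sum_filter_not]
  rw [hsplit] at hmf
  have hdiff : (((Nat.card H : ℝ) ^ m * (∑ G : SimpleGraph (Fin (m + 1)), wt q G *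
      (sur (Cok ((redLap G).map (Int.cast : ℤ → ZMod N))) H : ℝ)) -
      (alt H : ℝ) * gen m H : ℝ) : ℂ) =
      ∑ t ∈ (univ : Finset (Fin m → AddChar H ℂ × H)).filter
        (fun t => AddSubgroup.closure (Set.range fun i => (t i).2) = ⊤ ∧ ¬
      ∀ u v : Fin (m + 1), ((ext0 t u).1 - (ext0 t v).1) ((ext0 t u).2 - (ext0 t v).2) = 1),
      P t := by
    have : (((Nat.card H : ℝ) ^ m * (∑ G : SimpleGraph (Fin (m + 1)), wt q G *
      (sur (Cok ((redLap G).map (Int.cast : ℤ → ZMod N))) H : ℝ)) -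
      (alt H : ℝ) * gen m H : ℝ) : ℂ) = (Nat.card H : ℂ) ^ m *
        ((∑ G : SimpleGraph (Fin (m + 1)), wt q G *
      (sur (Cok ((redLap G).map (Int.cast : ℤ → ZMod N))) H : ℝ) : ℝ) : ℂ) -
      (alt H : ℂ) * gen m H := by
      push_cast; ring
    rw [this, hmf]; ring
  have hbound : ∀ t : Fin m → AddChar H ℂ × H, ‖P t‖ ≤
      Real.exp (- (q * (1 - q)) * ∑ x : Prs (m + 1), dd (ext0 t x.1.1) (ext0 t x.1.2)) := by
    intro t
    rw [hP]
    simp only
    rw [norm_prod, Finset.mul_sum, Real.exp_sum]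
    refine Finset.prod_le_prod (fun _ _ => norm_nonneg _) fun x _ => ?_
    exact factor_bound q h0 h1 _ (hnorm1 t _ _)
  rw [← Real.norm_eq_abs, ← Complex.norm_real, hdiff]
  refine (norm_sum_le _ _).trans ?_
  refine (Finset.sum_le_sum fun t _ => hbound t).trans ?_
  -- inject
  have hinj : Function.Injective (fun t : Fin m → AddChar H ℂ × H => ext0 t) := by
    intro t t' htt
    ext1 i
    have := congrFun htt (Fin.castSucc i)
    simpa [ext0] using this
  rw [← Finset.sum_image (s := (univ : Finset (Fin m → AddChar H ℂ × H)).filter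
        (fun t => AddSubgroup.closure (Set.range fun i => (t i).2) = ⊤ ∧ ¬
      ∀ u v : Fin (m + 1), ((ext0 t u).1 - (ext0 t v).1) ((ext0 t u).2 - (ext0 t v).2) = 1))
      (g := fun t => ext0 t)
      (f := fun t => Real.exp (- (q * (1 - q)) * ∑ x : Prs (m + 1), dd (t x.1.1) (t x.1.2)))
      (fun a _ b _ hab => hinj hab)]
  refine Finset.sum_le_sum_of_subset_of_nonneg ?_ fun _ _ _ => (Real.exp_pos _).le
  intro t' ht'
  rw [Finset.mem_image] at ht'
  obtain ⟨t, ht, rfl⟩ := ht'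
  rw [Finset.mem_filter] at ht ⊢
  refine ⟨mem_univ _, ?_⟩
  obtain ⟨-, -, h3⟩ := ht
  push Not at h3
  obtain ⟨u, v, huv⟩ := h3
  refine ⟨u, v, fun h4 => huv ?_⟩
  refine eq_one_of_re (hnorm1 t u v) ?_
  unfold dd at h4
  linarith

/-- The moments of the sandpile group converge above the threshold -/
theorem lap_moment (p : ℕ) [Fact p.Prime] (e : ℕ) (H : Type) [AddCommGroup H] [Finite H]
    (hH : ∀ x : H, p ^ e • x = 0) (q : ℕ → ℝ) (hq : ∀ n, 0 < q n ∧ q n < 1)
    (hlim : Tendsto (fun n : ℕ => n * (q n * (1 - q n)) - Real.log n) atTop atTop) :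
    Tendsto (fun m : ℕ => ∑ G : SimpleGraph (Fin (m + 1)), wt (q (m + 1)) G *
      (sur (Cok ((redLap G).map (Int.cast : ℤ → ZMod (p ^ e)))) H : ℝ)) atTop (𝓝 (alt H)) := by
  classical
  haveI : NeZero (p ^ e) := ⟨pow_ne_zero _ (Fact.out : p.Prime).ne_zero⟩
  haveI : Fintype H := Fintype.ofFinite H
  set h := Nat.card H with hh
  have hpos : 1 ≤ h := Nat.card_pos
  have hposR : (0 : ℝ) < h := by exact_mod_cast hpos
  have hcard : Fintype.card (AddChar H ℂ × H) = h ^ 2 := by
    rw [Fintype.card_prod, AddChar.card_eq, hh, Nat.card_eq_fintype_card, sq]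
  have d0 : ∀ x y : AddChar H ℂ × H, 0 ≤ dd x y := by
    intro x y
    have h1 := Complex.re_le_norm ((x.1 - y.1) (x.2 - y.2))
    rw [addChar_norm] at h1
    unfold dd; linarith
  have d2 : ∀ x y : AddChar H ℂ × H, dd x y ≤ 2 := by
    intro x y
    have h1 := (Complex.abs_re_le_norm ((x.1 - y.1) (x.2 - y.2)))
    rw [addChar_norm, abs_le] at h1
    unfold dd; linarith [h1.1]
  have dsymm : ∀ x y : AddChar H ℂ × H, dd x y = dd y x := by
    intro x y
    unfold dd
    have h1 : (x.1 - y.1) (x.2 - y.2) = (y.1 - x.1) (y.2 - x.2) := by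
      rw [← neg_sub y.1 x.1, ← neg_sub y.2 x.2, AddChar.neg_apply, neg_neg]
    rw [h1]
  have drefl : ∀ x : AddChar H ℂ × H, dd x x = 0 := by
    intro x; unfold dd; simp
  have hiff : ∀ x y : AddChar H ℂ × H, dd x y = 0 → (x.1 - y.1) (x.2 - y.2) = 1 := by
    intro x y hxy
    refine eq_one_of_re (addChar_norm _ _) ?_
    unfold dd at hxy; linarith
  have hrem := remainder_tendsto (AddChar H ℂ × H) h hpos hcard dd d0 d2 dsymm drefl
    (fun S hS => (iso_set H S fun x hx y hy => hiff x y (hS x hx y hy)).1)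
    (fun S hS hSc => (iso_set H S fun x hx y hy => hiff x y (hS x hx y hy)).2 hSc)
    (fun n => q n * (1 - q n)) (fun n => mul_nonneg (hq n).1.le (by linarith [(hq n).2])) hlim
  have hrem2 := (hrem.comp (tendsto_add_atTop_nat 1)).const_mul (h : ℝ)
  rw [mul_zero] at hrem2
  have hgen := (gen_tendsto H).const_mul (alt H : ℝ)
  rw [mul_one] at hgen
  rw [← sub_zero ((alt H : ℕ) : ℝ)] 
  have hdiff : Tendsto (fun m : ℕ => (∑ G : SimpleGraph (Fin (m + 1)), wt (q (m + 1)) G *
      (sur (Cok ((redLap G).map (Int.cast : ℤ → ZMod (p ^ e)))) H : ℝ)) -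
      (alt H : ℝ) * ((gen m H : ℝ) / (Nat.card H : ℝ) ^ m)) atTop (𝓝 0) := by
    refine squeeze_zero_norm (fun m => ?_) hrem2
    have he := moment_error (m := m) (N := p ^ e) (q (m + 1)) (hq _).1.le (hq _).2.le H hH
    simp only [Function.comp]
    rw [Real.norm_eq_abs]
    have hpm : (0 : ℝ) < (h : ℝ) ^ m := by positivity
    have e1 : (∑ G : SimpleGraph (Fin (m + 1)), wt (q (m + 1)) G *
      (sur (Cok ((redLap G).map (Int.cast : ℤ → ZMod (p ^ e)))) H : ℝ)) -
      (alt H : ℝ) * ((gen m H : ℝ) / (Nat.card H : ℝ) ^ m) =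
      ((Nat.card H : ℝ) ^ m * (∑ G : SimpleGraph (Fin (m + 1)), wt (q (m + 1)) G *
      (sur (Cok ((redLap G).map (Int.cast : ℤ → ZMod (p ^ e)))) H : ℝ)) -
      (alt H : ℝ) * gen m H) / (h : ℝ) ^ m := by
      rw [← hh]; field_simp
    rw [e1, abs_div, abs_of_pos hpm]
    refine (div_le_div_of_nonneg_right he hpm.le).trans (le_of_eq ?_)
    rw [inv_pow, pow_succ]
    field_simp
  have := hdiff.add hgen
  rw [zero_add] at this
  rw [sub_zero]
  refine this.congr fun m => ?_
  ring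

end Sand
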