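import Pool.Agent.Helper793.Sand.Mass2

set_option maxHeartbeats 4000000
set_option linter.style.haveILetI false

open Finset Filter Topology

namespace Sand

/-- `q` is `p`-universal -/
def PUniversal (p : ℕ) [Fact p.Prime] (q : ℕ → ℝ) : Prop :=
  ∀ (H : Type) [AddCommGroup H] [Finite H], (∀ x : H, ∃ k : ℕ, p ^ k • x = 0) →
    Tendsto (fun n => prob (n + 1) (q (n + 1)) fun G => G.Connected ∧
      Nonempty (AddCommGroup.primaryComponent (Crit G) p ≃+ H)) atTop (𝓝 (mu p H))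

/-- the law of the `p`-part converges to `μ_p` along the numbers of vertices in `S` -/
def PUniversalOn (p : ℕ) [Fact p.Prime] (q : ℕ → ℝ) (S : Set ℕ) : Prop :=
  ∀ (H : Type) [AddCommGroup H] [Finite H], (∀ x : H, ∃ k : ℕ, p ^ k • x = 0) →
    Tendsto (fun n => prob (n + 1) (q (n + 1)) fun G => G.Connected ∧
      Nonempty (AddCommGroup.primaryComponent (Crit G) p ≃+ H))
      (atTop ⊓ 𝓟 {n | n + 1 ∈ S}) (𝓝 (mu p H))

lemma universal_iff_on (p : ℕ) [Fact p.Prime] (q : ℕ → ℝ) :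
    PUniversal p q ↔ PUniversalOn p q Set.univ := by
  unfold PUniversal PUniversalOn
  simp

lemma PUniversal.on {p : ℕ} [Fact p.Prime] {q : ℕ → ℝ} (h : PUniversal p q) (S : Set ℕ) :
    PUniversalOn p q S := fun H _ _ hH => (h H hH).mono_left inf_le_left

lemma mu_congr (p : ℕ) {G H : Type} [AddCommGroup G] [AddCommGroup H] (e : G ≃+ H) :
    mu p G = mu p H := by
  unfold mu
  rw [symPerf_congr e, autCard_congr e, Nat.card_congr e.toEquiv]

/-- Main positive theorem. -/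
theorem universal_of (p : ℕ) [Fact p.Prime] (q : ℕ → ℝ) (hq : ∀ n, 0 < q n ∧ q n < 1)
    (hlim : Tendsto (fun n : ℕ => n * (q n * (1 - q n)) - Real.log n) atTop atTop) :
    PUniversal p q := by
  intro H _ _ hH
  obtain ⟨r, lam, hlam, ⟨ε⟩⟩ := exists_Gp p H hH
  have h1 := law_tendsto p q hq hlim lam (univ.sup lam + 1) hlam
    (fun a => Nat.lt_succ_of_le (Finset.le_sup (f := lam) (mem_univ a))) (by omega)
  rw [mu_congr p ε]
  refine h1.congr fun m => ?_
  congr 1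
  funext G
  refine propext (and_congr Iff.rfl ⟨fun ⟨f⟩ => ⟨f.trans ε.symm⟩, fun ⟨f⟩ => ⟨f.trans ε⟩⟩)

lemma prob_mono2 {n : ℕ} {q : ℝ} (h0 : 0 ≤ q) (h1 : q ≤ 1) {P Q : SimpleGraph (Fin n) → Prop}
    (h : ∀ G, P G → Q G) : prob n q P ≤ prob n q Q := by
  classical
  rw [prob_eq, prob_eq]
  refine Finset.sum_le_sum fun G _ => ?_
  by_cases hP : P G
  · rw [if_pos hP, if_pos (h G hP)]
  · rw [if_neg hP]
    split_ifs
    · exact wt_nonneg q h0 h1 G
    · exact le_rfl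

lemma bad_mass (p : ℕ) [Fact p.Prime] (R e m : ℕ) (q : ℝ) (h0 : 0 ≤ q) (h1 : q ≤ 1) :
    prob (m + 1) q (fun G => ¬ G.Connected ∨
      ∃ f : Crit G →+ (Fin R → ZMod p), Function.Surjective f) +
    ∑ c : Cls p R e, prob (m + 1) q (fun G => G.Connected ∧
      Nonempty (AddCommGroup.primaryComponent (Crit G) p ≃+ IG p (rp c))) ≤ 1 := by
  classical
  simp_rw [prob_eq]
  rw [Finset.sum_comm, ← Finset.sum_add_distrib, ← wt_sum (n := m + 1) q]
  refine Finset.sum_le_sum fun G _ => ?_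
  have hw := wt_nonneg q h0 h1 G
  by_cases hbad : ¬ G.Connected ∨ ∃ f : Crit G →+ (Fin R → ZMod p), Function.Surjective f
  · rw [if_pos hbad, Finset.sum_eq_zero, add_zero]
    intro c _
    rw [if_neg]
    rintro ⟨hc, ⟨f⟩⟩
    rcases hbad with h | ⟨g, hg⟩
    · exact h hc
    · haveI : Finite (Crit G) := (crit_finite_iff G).2 hc
      have h2 := primary_sur p (Crit G) R g hg
      refine no_sur p (rp c) ((g.comp (AddCommGroup.primaryComponent (Crit G) p).subtype).comp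
        f.symm.toAddMonoidHom) ?_
      exact h2.comp f.symm.surjective
  · rw [if_neg hbad, zero_add]
    by_cases hex : ∃ c : Cls p R e, G.Connected ∧
        Nonempty (AddCommGroup.primaryComponent (Crit G) p ≃+ IG p (rp c))
    · obtain ⟨c, hc⟩ := hex
      rw [Finset.sum_eq_single c]
      · rw [if_pos hc]
      · intro c' _ hne
        rw [if_neg]
        intro hc'
        obtain ⟨-, ⟨f⟩⟩ := hc
        obtain ⟨-, ⟨f'⟩⟩ := hc'
        apply hne
        have h3 : (IS p R e).r (rp c') (rp c) := ⟨f'.symm.trans f⟩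
        have h4 := Quotient.sound (s := IS p R e) h3
        rw [rp, rp, Quotient.out_eq, Quotient.out_eq] at h4
        exact h4
      · intro h; exact absurd (mem_univ c) h
    · push Not at hex
      rw [Finset.sum_eq_zero]
      · exact hw
      · intro c _
        rw [if_neg]
        rintro ⟨h2, ⟨f⟩⟩
        exact (hex c h2).false f

lemma neg_mass (p : ℕ) [Fact p.Prime] (q : ℕ → ℝ) (hq : ∀ n, 0 < q n ∧ q n < 1)
    (S : Set ℕ) (hU : PUniversalOn p q S) (R : ℕ) (ε : ℝ) (hε : 0 < ε) :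
    ∀ᶠ m : ℕ in (atTop ⊓ 𝓟 {n | n + 1 ∈ S}), prob (m + 1) (q (m + 1)) (fun G => ¬ G.Connected ∨
      ∃ f : Crit G →+ (Fin R → ZMod p), Function.Surjective f) ≤ rho p R + ε := by
  have hp : (1 : ℝ) < p := by exact_mod_cast (Fact.out : p.Prime).one_lt
  obtain ⟨e0, he0⟩ := exists_pow_lt_of_lt_one (show (0 : ℝ) < ε / 2 by linarith)
    (show (1 / (p : ℝ)) < 1 by rw [div_lt_one (by linarith)]; exact hp)
  set e := e0 + 1 with he
  have hsum : Tendsto (fun m => ∑ c : Cls p R e, prob (m + 1) (q (m + 1)) (fun G => G.Connected ∧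
      Nonempty (AddCommGroup.primaryComponent (Crit G) p ≃+ IG p (rp c))))
      (atTop ⊓ 𝓟 {n | n + 1 ∈ S}) (𝓝 (∑ c : Cls p R e, mu p (IG p (rp c)))) := by
    refine tendsto_finset_sum _ fun c _ => ?_
    haveI := Gp_finite p (fun a => ((rp c).2.1 a : ℕ))
    refine hU (IG p (rp c)) fun x => ⟨e, ?_⟩
    exact Gp_killed p _ e (fun a => ((rp c).2.1 a).2.le) x
  have hmass := mu_mass p R e (by omega)
  have hev := hsum.eventually (lt_mem_nhds
    (show (∑ c : Cls p R e, mu p (IG p (rp c))) - ε / 2 < _ by linarith))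
  filter_upwards [hev] with m hm
  have hb := bad_mass p R e m (q (m + 1)) (hq _).1.le (hq _).2.le
  have h2 : 1 / (p : ℝ) ^ (e - 1) < ε / 2 := by
    rw [he, Nat.add_sub_cancel, ← one_div_pow]; exact he0
  linarith

lemma rho_le (p : ℕ) [Fact p.Prime] (R : ℕ) : rho p R ≤ 2 / 2 ^ prN R := by
  have h := tl_gl_lower p R (Fact.out : p.Prime).two_le
  have hp2 : (2 : ℝ) ≤ p := by exact_mod_cast (Fact.out : p.Prime).two_le
  have hp : (0 : ℝ) < p := by linarith
  have hgl : (0 : ℝ) < gl p R := by exact_mod_cast gl_pos p R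
  unfold rho
  rw [div_le_div_iff₀ hgl (by positivity)]
  have h1 : (p : ℝ) ^ (R * R) = (p : ℝ) ^ prN R * (p : ℝ) ^ prN R * (p : ℝ) ^ R := by
    rw [← prN_eq R, ← pow_add, ← pow_add]; congr 1; omega
  have h2 : (2 : ℝ) ^ prN R ≤ (p : ℝ) ^ prN R := pow_le_pow_left₀ (by norm_num) hp2 _
  have h3 : (1 : ℝ) ≤ (3 / 4 : ℝ) ^ R * (p : ℝ) ^ R := by
    rw [← mul_pow]
    exact one_le_pow₀ (by linarith)
  calc (p : ℝ) ^ prN R * 2 ^ prN R ≤ (p : ℝ) ^ prN R * (p : ℝ) ^ prN R * 1 := by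
        rw [mul_one]; exact mul_le_mul_of_nonneg_left h2 (by positivity)
    _ ≤ (p : ℝ) ^ prN R * (p : ℝ) ^ prN R * ((3 / 4 : ℝ) ^ R * (p : ℝ) ^ R) :=
        mul_le_mul_of_nonneg_left h3 (by positivity)
    _ = 2 * ((1 / 2) * (3 / 4 : ℝ) ^ R * (p : ℝ) ^ (R * R)) := by rw [h1]; ring
    _ ≤ 2 * (gl p R : ℝ) := by linarith

end Sand
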