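import Pool.Agent.Helper793.Sand.Neg

set_option maxHeartbeats 4000000
set_option linter.style.haveILetI false

open Finset Filter Topology

namespace Sand

/-- the numerical comparison -/
lemma numeric (κ : ℝ) (hκ : 0 < κ) (hκ1 : κ ≤ 1) : ∃ R : ℕ,
    (2 : ℝ) / 2 ^ prN R < (κ / (8 * ((R + 2 : ℕ) : ℝ))) ^ (R + 2) / (((R + 2 : ℕ) : ℝ) + 1) := by
  -- choose N large
  have h1 : Tendsto (fun N : ℕ => (8 * (4 * (N : ℝ) + 2) / κ) / 2 ^ N) atTop (𝓝 0) := by
    have ha := tendsto_pow_const_div_const_pow_of_one_lt 1 (r := (2 : ℝ)) (by norm_num)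
    have hb := tendsto_pow_const_div_const_pow_of_one_lt 0 (r := (2 : ℝ)) (by norm_num)
    have hc := (ha.const_mul (32 / κ)).add (hb.const_mul (16 / κ))
    simp only [pow_one, pow_zero, mul_zero, add_zero] at hc
    refine hc.congr fun N => ?_
    field_simp
    ring
  have h2 : ∀ᶠ N : ℕ in atTop, (8 * (4 * (N : ℝ) + 2) / κ) / 2 ^ N < 1 :=
    h1.eventually (gt_mem_nhds one_pos)
  obtain ⟨N, hN, hN3⟩ := (h2.and (eventually_ge_atTop 3)).exists
  rw [div_lt_one (by positivity)] at hN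
  refine ⟨4 * N, ?_⟩
  have hpr : prN (4 * N) = 8 * N * N - 2 * N := by
    have := prN_eq (4 * N)
    have e1 : 4 * N * (4 * N) = 16 * (N * N) := by ring
    have e2 : 8 * N * N = 8 * (N * N) := by ring
    have e3 : N ≤ N * N := Nat.le_mul_self N
    omega
  set A : ℝ := 8 * ((4 * N + 2 : ℕ) : ℝ) / κ with hA
  have hA0 : 0 < A := by rw [hA]; positivity
  have hA2 : A ≤ 2 ^ N := by
    rw [hA]; push_cast; linarith
  have hA3 : ((4 * N + 2 : ℕ) : ℝ) + 1 ≤ 2 ^ N := by
    have h5 : ((4 * N + 2 : ℕ) : ℝ) + 1 ≤ A := by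
      rw [hA, le_div_iff₀ hκ]
      push_cast
      have : (0 : ℝ) ≤ N := by positivity
      nlinarith
    linarith
  have hEq : (κ / (8 * ((4 * N + 2 : ℕ) : ℝ))) ^ (4 * N + 2) / (((4 * N + 2 : ℕ) : ℝ) + 1) =
      1 / (A ^ (4 * N + 2) * (((4 * N + 2 : ℕ) : ℝ) + 1)) := by
    have : κ / (8 * ((4 * N + 2 : ℕ) : ℝ)) = A⁻¹ := by rw [hA, inv_div]
    rw [this, inv_pow]
    field_simp
  rw [hEq, div_lt_div_iff₀ (by positivity) (by positivity), one_mul]
  calc 2 * (A ^ (4 * N + 2) * (((4 * N + 2 : ℕ) : ℝ) + 1))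
      ≤ 2 * ((2 ^ N) ^ (4 * N + 2) * 2 ^ N) := by
        refine mul_le_mul_of_nonneg_left ?_ (by norm_num)
        exact mul_le_mul (pow_le_pow_left₀ hA0.le hA2 _) hA3 (by positivity) (by positivity)
    _ = 2 ^ (N * (4 * N + 2) + N + 1) := by
        rw [← pow_mul]; ring
    _ < 2 ^ prN (4 * N) := by
        refine pow_lt_pow_right₀ (by norm_num) ?_
        rw [hpr]
        have e1 : N * (4 * N + 2) = 4 * (N * N) + 2 * N := by ring
        have e2 : 8 * N * N = 8 * (N * N) := by ring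
        have e3 : 3 * N ≤ N * N := Nat.mul_le_mul_right N hN3
        omega

lemma rho_tendsto : Tendsto (fun R : ℕ => (2 : ℝ) / 2 ^ prN R) atTop (𝓝 0) := by
  have h1 : Tendsto prN atTop atTop := by
    refine tendsto_atTop_mono' atTop (f₁ := fun R => R) ?_ tendsto_id
    filter_upwards [eventually_ge_atTop 3] with R hR
    have := prN_eq R
    have h3 : 3 * R ≤ R * R := Nat.mul_le_mul_right R hR
    omega
  have h2 := (tendsto_pow_atTop_nhds_zero_of_lt_one (r := (1 / 2 : ℝ)) (by norm_num)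
    (by norm_num)).comp h1
  have h3 := h2.const_mul 2
  rw [mul_zero] at h3
  refine h3.congr fun R => ?_
  simp only [Function.comp, one_div, inv_pow]
  rfl

/-- necessary condition for sparse graphs (valid for every sequence) -/
theorem sparse_necessary (p : ℕ) [Fact p.Prime] (q : ℕ → ℝ) (hq : ∀ n, 0 < q n ∧ q n < 1)
    (hU : PUniversal p q) : Tendsto (fun n : ℕ => n * q n - Real.log n) atTop atTop := by
  by_contra hnot
  rw [tendsto_atTop] at hnot
  push Not at hnot
  obtain ⟨C, hC⟩ := hnot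
  obtain ⟨n0, hn0⟩ := isolated_lower 1 le_rfl C
  set c : ℝ := (min 1 (Real.exp (-C - 1)) / (8 * ((1 : ℕ) : ℝ))) ^ 1 / (((1 : ℕ) : ℝ) + 1) with hc
  have hcpos : 0 < c := by
    have : 0 < min 1 (Real.exp (-C - 1)) := lt_min one_pos (Real.exp_pos _)
    positivity
  obtain ⟨R, hR⟩ := (rho_tendsto.eventually (gt_mem_nhds (show 0 < c / 2 by linarith))).exists
  have hneg := neg_mass p q hq Set.univ (hU.on _) R (c / 4) (by linarith)
  have hS : {n : ℕ | n + 1 ∈ (Set.univ : Set ℕ)} = Set.univ := by ext; simp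
  rw [hS, principal_univ, inf_top_eq, eventually_atTop] at hneg
  obtain ⟨m0, hm0⟩ := hneg
  obtain ⟨n, hn, hnC⟩ := (frequently_atTop.1 hC) (max n0 (m0 + 2))
  obtain ⟨m, rfl⟩ : ∃ m, n = m + 1 := ⟨n - 1, by
    have := le_max_right n0 (m0 + 2); omega⟩
  have hm : m0 ≤ m := by have := le_max_right n0 (m0 + 2); omega
  have hm1 : 1 ≤ m := by have := le_max_right n0 (m0 + 2); omega
  have h1 := hn0 (m + 1) (le_trans (le_max_left _ _) hn) (q (m + 1)) (hq _).1 (hq _).2 hnC.le
  have h2 := hm0 m hm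
  have h3 := rho_le p R
  have h4 : prob (m + 1) (q (m + 1))
      (fun G => ∃ S : Finset (Fin (m + 1)), S.card = 1 ∧ ∀ v ∈ S, ∀ w, ¬ G.Adj v w) ≤
      prob (m + 1) (q (m + 1)) (fun G => ¬ G.Connected ∨
      ∃ f : Crit G →+ (Fin R → ZMod p), Function.Surjective f) := by
    refine prob_mono2 (hq _).1.le (hq _).2.le fun G hG => ?_
    obtain ⟨S, hS, hiso⟩ := hG
    left
    intro hcon
    obtain ⟨v, rfl⟩ := Finset.card_eq_one.1 hS
    haveI : Nontrivial (Fin (m + 1)) := Fin.nontrivial_iff_two_le.2 (by omega)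
    obtain ⟨w, hw⟩ := hcon.preconnected.exists_adj_of_nontrivial v
    exact hiso v (mem_singleton_self v) w hw
  linarith

/-- complementation -/
lemma prob_compl (n : ℕ) (q : ℝ) (P : SimpleGraph (Fin n) → Prop) :
    prob n q P = prob n (1 - q) (fun G => P Gᶜ) := by
  classical
  rw [prob_eq, prob_eq]
  refine Fintype.sum_equiv (Equiv.mk (fun G : SimpleGraph (Fin n) => Gᶜ) (fun G => Gᶜ)
    (fun G => compl_compl G) (fun G => compl_compl G)) _ _ fun G => ?_
  simp only [Equiv.coe_fn_mk]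
  rw [compl_compl]
  have : wt q G = wt (1 - q) Gᶜ := by
    rw [wt_eq, wt_eq]
    refine Finset.prod_congr rfl fun x _ => ?_
    have hne : x.1.1 ≠ x.1.2 := x.2.ne
    by_cases h : G.Adj x.1.1 x.1.2
    · rw [if_pos h, if_neg]
      · ring
      · rw [SimpleGraph.compl_adj]; exact fun h2 => h2.2 h
    · rw [if_neg h, if_pos]
      rw [SimpleGraph.compl_adj]; exact ⟨hne, h⟩
  rw [this]

/-- necessary condition for dense graphs along the multiples of `p` -/
theorem dense_necessary_on (p : ℕ) [Fact p.Prime] (q : ℕ → ℝ) (hq : ∀ n, 0 < q n ∧ q n < 1)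
    (hU : PUniversalOn p q {n | p ∣ n}) :
    Tendsto (fun n : ℕ => n * (1 - q n) - Real.log n) (atTop ⊓ 𝓟 {n | p ∣ n}) atTop := by
  by_contra hnot
  rw [tendsto_atTop] at hnot
  push Not at hnot
  obtain ⟨C, hC⟩ := hnot
  have hκ : 0 < min 1 (Real.exp (-C - 1)) := lt_min one_pos (Real.exp_pos _)
  obtain ⟨R, hR⟩ := numeric (min 1 (Real.exp (-C - 1))) hκ (min_le_left _ _)
  obtain ⟨n0, hn0⟩ := isolated_lower (R + 2) (by omega) C
  set c : ℝ := (min 1 (Real.exp (-C - 1)) / (8 * ((R + 2 : ℕ) : ℝ))) ^ (R + 2) /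
    (((R + 2 : ℕ) : ℝ) + 1) with hc
  have hneg := neg_mass p q hq _ hU R ((c - 2 / 2 ^ prN R) / 2) (by linarith)
  rw [eventually_inf_principal, eventually_atTop] at hneg
  obtain ⟨m0, hm0⟩ := hneg
  have hC2 : ∃ᶠ n : ℕ in atTop, p ∣ n ∧ n * (1 - q n) - Real.log n < C := by
    rw [frequently_inf_principal] at hC
    exact hC
  obtain ⟨k, hk, hkp, hkC⟩ := (frequently_atTop.1 hC2) (max n0 (m0 + 2))
  have hp := (Fact.out : p.Prime).pos
  obtain ⟨m, rfl⟩ : ∃ m, k = m + 1 := ⟨k - 1, by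
    have := le_max_right n0 (m0 + 2); omega⟩
  have hm : m0 ≤ m := by have := le_max_right n0 (m0 + 2); omega
  have h1 := hn0 (m + 1) (by have := le_max_left n0 (m0 + 2); omega) (1 - q (m + 1))
    (by linarith [(hq (m + 1)).2]) (by linarith [(hq (m + 1)).1]) hkC.le
  have h2 := hm0 m hm hkp
  have h3 := rho_le p R
  have h4 : prob (m + 1) (1 - q (m + 1))
      (fun G => ∃ S : Finset (Fin (m + 1)), S.card = R + 2 ∧ ∀ v ∈ S, ∀ w, ¬ G.Adj v w) ≤
      prob (m + 1) (q (m + 1)) (fun G => ¬ G.Connected ∨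
      ∃ f : Crit G →+ (Fin R → ZMod p), Function.Surjective f) := by
    rw [prob_compl (m + 1) (q (m + 1))]
    refine prob_mono2 (by linarith [(hq (m + 1)).2]) (by linarith [(hq (m + 1)).1])
      fun G hG => ?_
    obtain ⟨S, hS, hiso⟩ := hG
    right
    refine dom_sur p hkp Gᶜ R S hS fun v hv w hw => ?_
    rw [SimpleGraph.compl_adj]
    exact ⟨hw.symm, hiso v hv w⟩
  linarith

theorem dense_necessary (p : ℕ) [Fact p.Prime] (q : ℕ → ℝ) (hq : ∀ n, 0 < q n ∧ q n < 1)
    (hU : PUniversal p q) :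
    Tendsto (fun k : ℕ => ((p * k : ℕ) : ℝ) * (1 - q (p * k)) - Real.log ((p * k : ℕ) : ℝ))
      atTop atTop := by
  have h1 := dense_necessary_on p q hq (hU.on _)
  have h2 : Tendsto (fun k : ℕ => p * k) atTop (atTop ⊓ 𝓟 {n | p ∣ n}) := by
    refine tendsto_inf.2 ⟨?_, ?_⟩
    · exact tendsto_id.const_mul_atTop' (Fact.out : p.Prime).pos
    · rw [tendsto_principal]
      exact Eventually.of_forall fun k => dvd_mul_right p k
  exact h1.comp h2

/-- dense necessary condition for monotone sequences -/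
theorem dense_mono (p : ℕ) [Fact p.Prime] (q : ℕ → ℝ) (hq : ∀ n, 0 < q n ∧ q n < 1)
    (hmono : Monotone q) (hU : PUniversal p q) :
    Tendsto (fun n : ℕ => n * (1 - q n) - Real.log n) atTop atTop := by
  have h1 := dense_necessary p q hq hU
  have hp := (Fact.out : p.Prime).pos
  have h2 : Tendsto (fun n : ℕ => n / p + 1) atTop atTop := by
    refine Tendsto.comp (tendsto_add_atTop_nat 1) ?_
    exact Nat.tendsto_div_const_atTop hp.ne'
  have h3 := tendsto_atTop_add_const_right _ (-(p : ℝ)) (h1.comp h2)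
  refine tendsto_atTop_mono' _ ?_ h3
  filter_upwards [eventually_ge_atTop 1] with n hn
  simp only [Function.comp]
  set n' := p * (n / p + 1) with hn'
  have e1 : n ≤ n' := by
    rw [hn', mul_add, mul_one]
    have := Nat.div_add_mod n p
    have := Nat.mod_lt n hp
    omega
  have e2 : n' ≤ n + p := by
    rw [hn', mul_add, mul_one]
    have := Nat.mul_div_le n p
    omega
  have e3 : (n : ℝ) ≤ n' := by exact_mod_cast e1
  have e4 : (n' : ℝ) ≤ n + p := by exact_mod_cast e2
  have e5 : q n ≤ q n' := hmono e1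
  have e6 : Real.log n ≤ Real.log n' := Real.log_le_log (by exact_mod_cast hn) e3
  have e7 := (hq n').1
  have e8 := (hq n').2
  have e9 : (n : ℝ) * (1 - q n') ≤ n * (1 - q n) :=
    mul_le_mul_of_nonneg_left (by linarith) (by positivity)
  have e10 : ((n' : ℝ) - n) * (1 - q n') ≤ p := by
    have : ((n' : ℝ) - n) * (1 - q n') ≤ ((n' : ℝ) - n) * 1 :=
      mul_le_mul_of_nonneg_left (by linarith) (by linarith)
    linarith
  linarith

/-- `nq - log n → ∞` and `q → 0` give `nq(1-q) - log n → ∞` -/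
lemma sparse_suff (q : ℕ → ℝ) (hq : ∀ n, 0 < q n ∧ q n < 1) (l : Filter ℕ) (hl : l ≤ atTop)
    (h0 : Tendsto q l (𝓝 0))
    (h : Tendsto (fun n : ℕ => n * q n - Real.log n) l atTop) :
    Tendsto (fun n : ℕ => n * (q n * (1 - q n)) - Real.log n) l atTop := by
  -- `f ≥ min (f0 - 1) (log n)` eventually
  have hlog : Tendsto (fun n : ℕ => Real.log n) l atTop :=
    (Real.tendsto_log_atTop.comp tendsto_natCast_atTop_atTop).mono_left hl
  have hlog2 : Tendsto (fun n : ℕ => 9 * Real.log n ^ 2 / n) atTop (𝓝 0) := by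
    have h1 : Tendsto (fun x : ℝ => Real.log x ^ 2 / (1 * x + 0)) atTop (𝓝 0) :=
      Real.tendsto_pow_log_div_mul_add_atTop 1 0 2 one_ne_zero
    have h2 := (h1.comp tendsto_natCast_atTop_atTop).const_mul 9
    rw [mul_zero] at h2
    refine h2.congr fun n => ?_
    simp only [Function.comp]
    ring
  have hmin : Tendsto (fun n : ℕ => min ((n * q n - Real.log n) + (-1)) (Real.log n)) l atTop :=
    tendsto_atTop.2 fun b => by
      filter_upwards [tendsto_atTop.1 (tendsto_atTop_add_const_right _ (-1) h) b,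
        tendsto_atTop.1 hlog b] with n h1 h2
      exact le_min h1 h2
  refine tendsto_atTop_mono' _ ?_ hmin
  filter_upwards [hl (hlog2.eventually (gt_mem_nhds one_pos)), h0.eventually
    (gt_mem_nhds (show (0 : ℝ) < 1 / 3 by norm_num)), hl (eventually_ge_atTop 1)] with n h1 h2 h3
  have hn : (0 : ℝ) < n := by exact_mod_cast h3
  have hq0 := (hq n).1
  rcases le_total (n * q n) (3 * Real.log n) with hc | hc
  · refine (min_le_left _ _).trans ?_
    have h4 : n * (q n * q n) ≤ 1 := by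
      have h5 : n * (q n * q n) = (n * q n) ^ 2 / n := by field_simp
      have h6 : (n * q n) ^ 2 ≤ (3 * Real.log n) ^ 2 := pow_le_pow_left₀ (by positivity) hc 2
      rw [h5, div_le_iff₀ hn]
      rw [div_lt_iff₀ hn] at h1
      nlinarith
    nlinarith
  · refine (min_le_right _ _).trans ?_
    have h4 : n * q n * (1 - q n) ≥ n * q n * (2 / 3) :=
      mul_le_mul_of_nonneg_left (by linarith) (by positivity)
    nlinarith

lemma dense_suff (q : ℕ → ℝ) (hq : ∀ n, 0 < q n ∧ q n < 1) (l : Filter ℕ) (hl : l ≤ atTop)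
    (h0 : Tendsto q l (𝓝 1))
    (h : Tendsto (fun n : ℕ => n * (1 - q n) - Real.log n) l atTop) :
    Tendsto (fun n : ℕ => n * (q n * (1 - q n)) - Real.log n) l atTop := by
  have h1 : Tendsto (fun n => 1 - q n) l (𝓝 0) := by
    have := h0.const_sub 1
    rwa [sub_self] at this
  have := sparse_suff (fun n => 1 - q n)
    (fun n => ⟨by linarith [(hq n).2], by linarith [(hq n).1]⟩) l hl h1 h
  refine this.congr fun n => ?_
  ring

/-- sufficiency along a set of numbers of vertices -/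
theorem universal_on (p : ℕ) [Fact p.Prime] (q : ℕ → ℝ) (hq : ∀ n, 0 < q n ∧ q n < 1)
    (S : Set ℕ) (h : Tendsto (fun n : ℕ => n * (q n * (1 - q n)) - Real.log n)
      (atTop ⊓ 𝓟 S) atTop) : PUniversalOn p q S := by
  classical
  set q' : ℕ → ℝ := fun n => if n ∈ S then q n else 1 / 2 with hq'
  have hq'1 : ∀ n, 0 < q' n ∧ q' n < 1 := by
    intro n
    rw [hq']
    simp only
    split_ifs
    · exact hq n
    · norm_num
  have hlim : Tendsto (fun n : ℕ => n * (q' n * (1 - q' n)) - Real.log n) atTop atTop := by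
    have hh : Tendsto (fun n : ℕ => (n : ℝ) / 4 - Real.log n) atTop atTop := by
      have h1 : Tendsto (fun x : ℝ => x / 4 - Real.log x) atTop atTop := by
        have h2 : Tendsto (fun x : ℝ => x / 8) atTop atTop :=
          tendsto_id.atTop_div_const (by norm_num)
        refine tendsto_atTop_mono' _ ?_ h2
        filter_upwards [Real.isLittleO_log_id_atTop.bound (show (0 : ℝ) < 1 / 8 by norm_num),
          eventually_ge_atTop 0] with x hx hx0
        rw [Real.norm_eq_abs, Real.norm_eq_abs, id, abs_of_nonneg hx0] at hx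
        have := le_abs_self (Real.log x)
        linarith
      exact h1.comp tendsto_natCast_atTop_atTop
    rw [tendsto_atTop] at hh h ⊢
    intro b
    have hb := h b
    rw [eventually_inf_principal] at hb
    filter_upwards [hb, hh b] with n h1 h2
    rw [hq']
    simp only
    split_ifs with h3
    · exact h1 h3
    · have : (n : ℝ) * (1 / 2 * (1 - 1 / 2)) = n / 4 := by ring
      rw [this]; exact h2
  have hU := universal_of p q' hq'1 hlim
  intro H _ _ hH
  refine ((hU H hH).mono_left inf_le_left).congr' ?_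
  rw [EventuallyEq, eventually_inf_principal]
  refine Eventually.of_forall fun n hn => ?_
  have hn' : n + 1 ∈ S := hn
  have : q' (n + 1) = q (n + 1) := by
    rw [hq']; simp only; rw [if_pos hn']
  rw [this]

/-- the profile version of the dense necessary condition -/
theorem dense_profile (p : ℕ) [Fact p.Prime] (q : ℕ → ℝ) (hq : ∀ n, 0 < q n ∧ q n < 1)
    (c : EReal) (hc : Tendsto (fun n : ℕ => ((n * (1 - q n) - Real.log n : ℝ) : EReal)) atTop (𝓝 c))
    (hU : PUniversal p q) :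
    Tendsto (fun n : ℕ => n * (1 - q n) - Real.log n) atTop atTop := by
  have h1 := dense_necessary p q hq hU
  have h2 : Tendsto (fun k : ℕ => p * k) atTop atTop :=
    tendsto_id.const_mul_atTop' (Fact.out : p.Prime).pos
  have h3 := hc.comp h2
  have h4 : Tendsto (fun k : ℕ => ((((p * k : ℕ) : ℝ) * (1 - q (p * k)) -
      Real.log ((p * k : ℕ) : ℝ) : ℝ) : EReal)) atTop (𝓝 ⊤) := by
    exact EReal.tendsto_coe_atTop.comp h1
  have h5 : c = ⊤ := tendsto_nhds_unique h3 h4
  rw [h5] at hc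
  rw [EReal.tendsto_nhds_top_iff_real] at hc
  rw [tendsto_atTop]
  intro b
  filter_upwards [hc b] with n hn
  exact (EReal.coe_lt_coe_iff.1 hn).le

theorem sand_result (p : ℕ) [Fact p.Prime] (q : ℕ → ℝ) (hq : ∀ n, 0 < q n ∧ q n < 1) :
    (Tendsto q atTop (𝓝 0) →
      (PUniversal p q ↔ Tendsto (fun n : ℕ => n * q n - Real.log n) atTop atTop)) ∧
    (Tendsto q atTop (𝓝 1) →
      (Monotone q ∨ ∃ c : EReal,
        Tendsto (fun n : ℕ => ((n * (1 - q n) - Real.log n : ℝ) : EReal)) atTop (𝓝 c)) →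
      (PUniversal p q ↔ Tendsto (fun n : ℕ => n * (1 - q n) - Real.log n) atTop atTop)) ∧
    (Tendsto q atTop (𝓝 1) →
      (Tendsto (fun n : ℕ => n * (1 - q n) - Real.log n) atTop atTop → PUniversal p q) ∧
      (PUniversalOn p q {n | p ∣ n} ↔
        Tendsto (fun n : ℕ => n * (1 - q n) - Real.log n) (atTop ⊓ 𝓟 {n | p ∣ n}) atTop)) ∧
    (Tendsto (fun n : ℕ => n * (q n * (1 - q n)) - Real.log n) atTop atTop →
      PUniversal p q) :=
  ⟨fun h0 => ⟨sparse_necessary p q hq,
    fun h => universal_of p q hq (sparse_suff q hq _ le_rfl h0 h)⟩,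
   fun h1 hm => ⟨fun hU => hm.elim (fun hm => dense_mono p q hq hm hU)
      (fun ⟨c, hc⟩ => dense_profile p q hq c hc hU),
    fun h => universal_of p q hq (dense_suff q hq _ le_rfl h1 h)⟩,
   fun h1 => ⟨fun h => universal_of p q hq (dense_suff q hq _ le_rfl h1 h),
    dense_necessary_on p q hq, fun h => universal_on p q hq _
      (dense_suff q hq _ inf_le_left (h1.mono_left inf_le_left) h)⟩,
   universal_of p q hq⟩

end Sand
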