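import Pool.Agent.Helper793.Sand.Struct
import Pool.Agent.Helper793.Sand.Mom2

set_option maxHeartbeats 4000000
set_option linter.style.haveILetI false

open Finset Filter Topology

namespace Sand

open Classical in
lemma event_sum (p : ℕ) [Fact p.Prime] (e m : ℕ) (he : 1 ≤ e) (q : ℝ)
    (H : Type) [AddCommGroup H] [Finite H] (hH : ∀ x : H, p ^ (e - 1) • x = 0) :
    prob (m + 1) q (fun G => G.Connected ∧
      Nonempty (AddCommGroup.primaryComponent (Crit G) p ≃+ H)) =
    ∑ G : SimpleGraph (Fin (m + 1)), wt q G *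
      (if Nonempty (Cok ((redLap G).map (Int.cast : ℤ → ZMod (p ^ e))) ≃+ H)
        then (1 : ℝ) else 0) := by
  rw [prob_eq]
  refine Finset.sum_congr rfl fun G _ => ?_
  have h1 : (G.Connected ∧ Nonempty (AddCommGroup.primaryComponent (Crit G) p ≃+ H)) ↔
      Nonempty (Cok ((redLap G).map (Int.cast : ℤ → ZMod (p ^ e))) ≃+ H) := by
    rw [← crit_finite_iff G]
    exact cok_event_iff p e m he (redLap G) H hH
  by_cases h : Nonempty (Cok ((redLap G).map (Int.cast : ℤ → ZMod (p ^ e))) ≃+ H)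
  · rw [if_pos (h1.2 h), if_pos h, mul_one]
  · rw [if_neg (fun h2 => h (h1.1 h2)), if_neg h, mul_zero]

lemma Cok_finite {N m : ℕ} [NeZero N] (M : Matrix (Fin m) (Fin m) (ZMod N)) : Finite (Cok M) :=
  Finite.of_surjective _ (Submodule.Quotient.mk_surjective _)

lemma Cok_killed {N m : ℕ} [NeZero N] (M : Matrix (Fin m) (Fin m) (ZMod N)) (x : Cok M) :
    N • x = 0 := by
  obtain ⟨y, rfl⟩ := Submodule.Quotient.mk_surjective _ x
  rw [← Submodule.Quotient.mk_smul]
  have : N • y = 0 := by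
    ext i
    rw [Pi.smul_apply, nsmul_eq_mul, Pi.zero_apply]
    simp
  rw [this, Submodule.Quotient.mk_zero]

/-- the moments of a uniform symmetric matrix -/
lemma sym_moment (N m : ℕ) [NeZero N] (H : Type) [AddCommGroup H] [Finite H]
    (hH : ∀ x : H, N • x = 0)
    [Fintype {M : Matrix (Fin m) (Fin m) (ZMod N) // M.IsSymm}] :
    ∑ M : {M : Matrix (Fin m) (Fin m) (ZMod N) // M.IsSymm},
      (1 / (Nsym N m : ℝ)) * (sur (Cok M.1) H : ℝ) =
    (alt H : ℝ) * ((gen m H : ℝ) / (Nat.card H : ℝ) ^ m) := by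
  classical
  haveI : Fintype H := Fintype.ofFinite H
  have hN : (Nsym N m : ℝ) ≠ 0 := by exact_mod_cast (Nsym_pos N m).ne'
  have hHc : (Nat.card H : ℝ) ^ m ≠ 0 := by
    have : 0 < Nat.card H := Nat.card_pos
    positivity
  have h1 : ∀ M : {M : Matrix (Fin m) (Fin m) (ZMod N) // M.IsSymm}, (sur (Cok M.1) H : ℝ) =
      ∑ f ∈ (univ : Finset (Fin m → H)).filter
        (fun f => AddSubgroup.closure (Set.range f) = ⊤),
        (if ∀ j, ∑ i, (M.1 i j).val • f i = 0 then (1 : ℝ) else 0) := by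
    intro M
    rw [sur_cok N m _ H hH, Nat.card_eq_fintype_card, Fintype.card_subtype, ← Finset.filter_filter,
      Finset.card_filter]
    push_cast
    rfl
  simp_rw [h1]
  rw [← Finset.mul_sum, Finset.sum_comm]
  have h2 : ∀ f ∈ (univ : Finset (Fin m → H)).filter
        (fun f => AddSubgroup.closure (Set.range f) = ⊤),
      ∑ M : {M : Matrix (Fin m) (Fin m) (ZMod N) // M.IsSymm},
        (if ∀ j, ∑ i, (M.1 i j).val • f i = 0 then (1 : ℝ) else 0) =
      (Nsym N m : ℝ) * alt H / (Nat.card H : ℝ) ^ m := by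
    intro f hf
    rw [Finset.mem_filter] at hf
    have h3 := sym_count N m H hH f hf.2
    rw [eq_div_iff hHc]
    have h4 : ∑ M : {M : Matrix (Fin m) (Fin m) (ZMod N) // M.IsSymm},
        (if ∀ j, ∑ i, (M.1 i j).val • f i = 0 then (1 : ℝ) else 0) =
        (Nat.card {M : Matrix (Fin m) (Fin m) (ZMod N) // M.IsSymm ∧
          ∀ j, ∑ i, (M i j).val • f i = 0} : ℝ) := by
      rw [← Finset.sum_filter, Finset.sum_const, nsmul_eq_mul, mul_one]
      congr 1
      rw [← Fintype.card_subtype, ← Nat.card_eq_fintype_card]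
      refine Nat.card_congr ?_
      exact Equiv.subtypeSubtypeEquivSubtypeInter
        (fun M : Matrix (Fin m) (Fin m) (ZMod N) => M.IsSymm)
        (fun M => ∀ j, ∑ i, (M i j).val • f i = 0)
    rw [h4]
    exact_mod_cast h3
  rw [Finset.sum_congr rfl h2, Finset.sum_const, nsmul_eq_mul]
  have h5 : ((univ : Finset (Fin m → H)).filter
        (fun f => AddSubgroup.closure (Set.range f) = ⊤)).card = gen m H := by
    rw [← Fintype.card_subtype, ← Nat.card_eq_fintype_card]
    rfl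
  rw [h5]
  field_simp

/-- Main positive theorem in exact form: for a type `λ`. -/
theorem law_tendsto (p : ℕ) [Fact p.Prime] (q : ℕ → ℝ) (hq : ∀ n, 0 < q n ∧ q n < 1)
    (hlim : Tendsto (fun n : ℕ => n * (q n * (1 - q n)) - Real.log n) atTop atTop)
    {r : ℕ} (lam : Fin r → ℕ) (e : ℕ)
    (hlam : ∀ a, 1 ≤ lam a) (he : ∀ a, lam a < e) (he1 : 1 ≤ e) :
    Tendsto (fun m : ℕ => prob (m + 1) (q (m + 1)) (fun G => G.Connected ∧
      Nonempty (AddCommGroup.primaryComponent (Crit G) p ≃+ Gp p lam))) atTop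
      (𝓝 ((symPerf (Gp p lam) : ℝ) / (Nat.card (Gp p lam) * Nat.card (Gp p lam ≃+ Gp p lam)) *
        ∏' j : ℕ, (1 - 1 / (p : ℝ) ^ (2 * j + 1)))) := by
  classical
  haveI : NeZero (p ^ e) := ⟨pow_ne_zero _ (Fact.out : p.Prime).ne_zero⟩
  haveI := Gp_finite p lam
  haveI hMfin : ∀ m, Fintype {M : Matrix (Fin m) (Fin m) (ZMod (p ^ e)) // M.IsSymm} := fun m => by
    haveI : Finite (Matrix (Fin m) (Fin m) (ZMod (p ^ e))) := by
      unfold Matrix; infer_instance
    exact Fintype.ofFinite _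
  have hAut : 0 < Nat.card (Gp p lam ≃+ Gp p lam) := by
    haveI : Finite (Gp p lam ≃+ Gp p lam) :=
      Finite.of_injective (fun f => (f : Gp p lam → Gp p lam)) DFunLike.coe_injective
    haveI : Nonempty (Gp p lam ≃+ Gp p lam) := ⟨AddEquiv.refl _⟩
    exact Nat.card_pos
  have hAutR : (0 : ℝ) < Nat.card (Gp p lam ≃+ Gp p lam) := by exact_mod_cast hAut
  -- `a`
  set a : ℕ → ℝ := fun m => ∑ G : SimpleGraph (Fin (m + 1)), wt (q (m + 1)) G *
    ind (Cok ((redLap G).map (Int.cast : ℤ → ZMod (p ^ e)))) (Gp p lam) with ha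
  set b : ℕ → ℝ := fun m => ∑ M : {M : Matrix (Fin m) (Fin m) (ZMod (p ^ e)) // M.IsSymm},
    (1 / (Nsym (p ^ e) m : ℝ)) * ind (Cok M.1) (Gp p lam) with hb
  set U : ℕ → ℕ → ℝ := fun k m => ∑ G : SimpleGraph (Fin (m + 1)), wt (q (m + 1)) G *
    Bk p lam (Cok ((redLap G).map (Int.cast : ℤ → ZMod (p ^ e)))) k with hU
  set V : ℕ → ℕ → ℝ := fun k m => ∑ M : {M : Matrix (Fin m) (Fin m) (ZMod (p ^ e)) // M.IsSymm},
    (1 / (Nsym (p ^ e) m : ℝ)) * Bk p lam (Cok M.1) k with hV
  have hUlim : ∀ k, Tendsto (U k) atTop (𝓝 (Lk p lam k)) := by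
    intro k
    refine Bk_tendsto p lam (fun m => SimpleGraph (Fin (m + 1))) (fun m G => wt (q (m + 1)) G)
      (fun m G => Cok ((redLap G).map (Int.cast : ℤ → ZMod (p ^ e)))) ?_ k
    intro i δ
    haveI := Ex_finite p lam δ
    exact lap_moment p e (Ex p lam δ) (Ex_killed p lam δ e he he1) q hq hlim
  have hVlim : ∀ k, Tendsto (V k) atTop (𝓝 (Lk p lam k)) := by
    intro k
    refine Bk_tendsto p lam
      (fun m => {M : Matrix (Fin m) (Fin m) (ZMod (p ^ e)) // M.IsSymm})
      (fun m M => 1 / (Nsym (p ^ e) m : ℝ)) (fun m M => Cok M.1) ?_ k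
    intro i δ
    haveI := Ex_finite p lam δ
    have h1 := (gen_tendsto (Ex p lam δ)).const_mul (alt (Ex p lam δ) : ℝ)
    rw [mul_one] at h1
    refine h1.congr fun m => ?_
    rw [sym_moment (p ^ e) m (Ex p lam δ) (Ex_killed p lam δ e he he1)]
  have hkill : ∀ (m : ℕ) (M : Matrix (Fin m) (Fin m) (ZMod (p ^ e))) (x : Cok M),
      ∃ k : ℕ, p ^ k • x = 0 := fun m M x => ⟨e, Cok_killed M x⟩
  have hblim : Tendsto b atTop (𝓝 ((symPerf (Gp p lam) : ℝ) / Nat.card (Gp p lam) *
        ∏' j : ℕ, (1 - 1 / (p : ℝ) ^ (2 * j + 1)))) := by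
    refine (psym_tendsto p lam e hlam he he1).congr fun m => ?_
    rw [hb]
    simp only
    rw [← Finset.mul_sum]
    unfold ind psym
    rw [← Finset.sum_filter, Finset.sum_const, nsmul_eq_mul]
    have h2 : (((univ : Finset {M : Matrix (Fin m) (Fin m) (ZMod (p ^ e)) // M.IsSymm}).filter
        (fun M => Nonempty (Cok M.1 ≃+ Gp p lam))).card : ℝ) =
        (Nat.card {M : Matrix (Fin m) (Fin m) (ZMod (p ^ e)) // M.IsSymm ∧
          Nonempty (Cok M ≃+ Gp p lam)} : ℝ) := by
      congr 1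
      rw [← Fintype.card_subtype, ← Nat.card_eq_fintype_card]
      refine Nat.card_congr ?_
      exact Equiv.subtypeSubtypeEquivSubtypeInter
        (fun M : Matrix (Fin m) (Fin m) (ZMod (p ^ e)) => M.IsSymm)
        (fun M => Nonempty (Cok M ≃+ Gp p lam))
    rw [h2]
    ring
  have halim : Tendsto a atTop (𝓝 ((symPerf (Gp p lam) : ℝ) / Nat.card (Gp p lam) *
        ∏' j : ℕ, (1 - 1 / (p : ℝ) ^ (2 * j + 1)))) := by
    refine squeeze_law p lam hlam a b U V hUlim hVlim ?_ ?_ ?_ ?_ _ hblim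
    · intro k hk m
      refine Finset.sum_le_sum fun G _ => ?_
      haveI := Cok_finite ((redLap G).map (Int.cast : ℤ → ZMod (p ^ e)))
      exact mul_le_mul_of_nonneg_left
        ((ind_sandwich p lam hlam _ (hkill m _) k).1 hk) (wt_nonneg _ (hq _).1.le (hq _).2.le G)
    · intro k hk m
      refine Finset.sum_le_sum fun G _ => ?_
      haveI := Cok_finite ((redLap G).map (Int.cast : ℤ → ZMod (p ^ e)))
      exact mul_le_mul_of_nonneg_left
        ((ind_sandwich p lam hlam _ (hkill m _) k).2 hk) (wt_nonneg _ (hq _).1.le (hq _).2.le G)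
    · intro k hk m
      refine Finset.sum_le_sum fun M _ => ?_
      haveI := Cok_finite M.1
      exact mul_le_mul_of_nonneg_left
        ((ind_sandwich p lam hlam _ (hkill m _) k).1 hk) (by positivity)
    · intro k hk m
      refine Finset.sum_le_sum fun M _ => ?_
      haveI := Cok_finite M.1
      exact mul_le_mul_of_nonneg_left
        ((ind_sandwich p lam hlam _ (hkill m _) k).2 hk) (by positivity)
  have hfin := halim.div_const (Nat.card (Gp p lam ≃+ Gp p lam) : ℝ)
  have h3 : (symPerf (Gp p lam) : ℝ) / (Nat.card (Gp p lam) *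
      Nat.card (Gp p lam ≃+ Gp p lam)) * ∏' j : ℕ, (1 - 1 / (p : ℝ) ^ (2 * j + 1)) =
      (symPerf (Gp p lam) : ℝ) / Nat.card (Gp p lam) *
        (∏' j : ℕ, (1 - 1 / (p : ℝ) ^ (2 * j + 1))) / Nat.card (Gp p lam ≃+ Gp p lam) := by
    have : (Nat.card (Gp p lam) : ℝ) ≠ 0 := by
      have : 0 < Nat.card (Gp p lam) := Nat.card_pos
      positivity
    field_simp
  rw [h3]
  refine hfin.congr fun m => ?_
  rw [event_sum p e m he1 (q (m + 1)) (Gp p lam)
    (Gp_killed p lam (e - 1) (fun a => by have := he a; omega)), ha]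
  simp only
  rw [Finset.sum_div]
  refine Finset.sum_congr rfl fun G _ => ?_
  unfold ind
  split_ifs
  · field_simp
  · simp

end Sand
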