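import Pool.Agent.Helper793.Sand.Symm2

set_option maxHeartbeats 4000000
set_option linter.style.haveILetI false

open Finset Filter Topology

namespace Sand

/-- structure theorem -/
lemma exists_Gp (p : ℕ) [Fact p.Prime] (H : Type) [AddCommGroup H] [Finite H]
    (hH : ∀ x : H, ∃ k : ℕ, p ^ k • x = 0) :
    ∃ (r : ℕ) (lam : Fin r → ℕ), (∀ a, 1 ≤ lam a) ∧ Nonempty (H ≃+ Gp p lam) := by
  classical
  obtain ⟨ι, hι, n, hn, ⟨e⟩⟩ := AddCommGroup.equiv_directSum_zmod_of_finite' H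
  have e1 : H ≃+ ((i : ι) → ZMod (n i)) := e.trans (DirectSum.addEquivProd (fun i => ZMod (n i)))
  have hn2 : ∀ i, ∃ j, 1 ≤ j ∧ n i = p ^ j := by
    intro i
    obtain ⟨k, hk⟩ := hH (e1.symm (Pi.single i 1))
    have h1 : p ^ k • (Pi.single i 1 : (i : ι) → ZMod (n i)) = 0 := by
      have := congrArg e1 hk
      rwa [map_nsmul, map_zero, AddEquiv.apply_symm_apply] at this
    have h2 := congrFun h1 i
    rw [Pi.smul_apply, Pi.single_eq_same, nsmul_eq_mul, mul_one, Pi.zero_apply] at h2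
    have h3 : n i ∣ p ^ k := (ZMod.natCast_eq_zero_iff _ _).1 h2
    obtain ⟨j, hj, hj2⟩ := (Nat.dvd_prime_pow (Fact.out : p.Prime)).1 h3
    refine ⟨j, ?_, hj2⟩
    by_contra h0
    have : j = 0 := by omega
    rw [this, pow_zero] at hj2
    have := hn i
    omega
  choose j hj1 hj2 using hn2
  let r := Fintype.card ι
  let ε : ι ≃ Fin r := Fintype.equivFin ι
  refine ⟨r, fun a => j (ε.symm a), fun a => hj1 _, ⟨e1.trans ?_⟩⟩
  have e2 : ((i : ι) → ZMod (n i)) ≃+ ((a : Fin r) → ZMod (n (ε.symm a))) :=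
    { Equiv.piCongrLeft' (fun i => ZMod (n i)) ε with
      map_add' := fun x y => by ext a; rfl }
  refine e2.trans ?_
  exact AddEquiv.piCongrRight fun a => (ZMod.ringEquivCongr (hj2 (ε.symm a))).toAddEquiv

lemma Gp_finite (p : ℕ) [Fact p.Prime] {r : ℕ} (lam : Fin r → ℕ) : Finite (Gp p lam) := by
  haveI : ∀ a, NeZero (p ^ lam a) := fun a => ⟨pow_ne_zero _ (Fact.out : p.Prime).ne_zero⟩
  infer_instance

lemma Gp_killed (p : ℕ) [Fact p.Prime] {r : ℕ} (lam : Fin r → ℕ) (e : ℕ) (he : ∀ a, lam a ≤ e)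
    (x : Gp p lam) : p ^ e • x = 0 := by
  ext a
  rw [Pi.smul_apply, nsmul_eq_mul, Pi.zero_apply]
  have : ((p ^ e : ℕ) : ZMod (p ^ lam a)) = 0 :=
    (ZMod.natCast_eq_zero_iff _ _).2 (pow_dvd_pow p (he a))
  rw [this, zero_mul]

lemma Ex_killed (p : ℕ) [Fact p.Prime] {r i : ℕ} (lam : Fin r → ℕ) (δ : Fin r → Fin i → ZMod p)
    (e : ℕ) (he : ∀ a, lam a < e) (he1 : 1 ≤ e) (x : Ex p lam δ) : p ^ e • x = 0 := by
  induction x using QuotientAddGroup.induction_on with
  | H z =>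
    obtain ⟨k, w⟩ := z
    rw [← QuotientAddGroup.mk_nsmul, QuotientAddGroup.eq_zero_iff]
    refine ⟨fun a => k a * (p : ℤ) ^ (e - lam a), ?_⟩
    show ((fun a => (k a * (p : ℤ) ^ (e - lam a)) * (p : ℤ) ^ lam a),
      - ∑ a, (k a * (p : ℤ) ^ (e - lam a)) • δ a) = p ^ e • (k, w)
    have h0 : ∀ c : ℕ, 1 ≤ c → ∀ y : Fin i → ZMod p, ((p : ℤ) ^ c) • y = 0 := by
      intro c hc y
      ext b
      rw [Pi.smul_apply, zsmul_eq_mul, Pi.zero_apply]
      push_cast
      rw [show c = (c - 1) + 1 by omega, pow_succ, CharP.cast_eq_zero, mul_zero, zero_mul]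
    ext a
    · show (k a * (p : ℤ) ^ (e - lam a)) * (p : ℤ) ^ lam a = (p ^ e • k) a
      rw [mul_assoc, ← pow_add, Nat.sub_add_cancel (he a).le, Pi.smul_apply, nsmul_eq_mul]
      push_cast; ring
    · have h2 : - ∑ a, (k a * (p : ℤ) ^ (e - lam a)) • δ a = 0 := by
        rw [neg_eq_zero]
        refine Finset.sum_eq_zero fun a _ => ?_
        rw [mul_smul, h0 _ (by have := he a; omega), smul_zero]
      have h3 : p ^ e • w = 0 := by
        have := h0 e he1 w
        rw [← this, ← natCast_zsmul]; push_cast; rfl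
      show (- ∑ a, (k a * (p : ℤ) ^ (e - lam a)) • δ a) a = (p ^ e • w) a
      rw [h2, h3]

lemma Ex_finite (p : ℕ) [Fact p.Prime] {r i : ℕ} (lam : Fin r → ℕ) (δ : Fin r → Fin i → ZMod p) :
    Finite (Ex p lam δ) := by
  haveI : NeZero p := ⟨(Fact.out : p.Prime).ne_zero⟩
  haveI : ∀ a, NeZero (p ^ lam a) := fun a => ⟨pow_ne_zero _ (Fact.out : p.Prime).ne_zero⟩
  -- every class has a representative with bounded entries
  refine Finite.of_surjective (fun z : ((a : Fin r) → Fin (p ^ lam a)) × (Fin i → ZMod p) =>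
    (QuotientAddGroup.mk (s := (relHom p lam δ).range) ((fun a => ((z.1 a : ℕ) : ℤ)), z.2) :
      Ex p lam δ)) ?_
  intro x
  induction x using QuotientAddGroup.induction_on with
  | H y =>
    obtain ⟨k, w⟩ := y
    refine ⟨(fun a => ⟨(k a % (p ^ lam a : ℕ)).toNat, ?_⟩,
      w + ∑ a, (k a / (p ^ lam a : ℕ)) • δ a), ?_⟩
    · have h1 : (0 : ℤ) < ((p ^ lam a : ℕ) : ℤ) := by
        exact_mod_cast Nat.pos_of_ne_zero (NeZero.ne (p ^ lam a))
      have h2 := Int.emod_lt_of_pos (k a) h1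
      have h3 := Int.emod_nonneg (k a) h1.ne'
      omega
    · simp only
      rw [QuotientAddGroup.eq]
      refine ⟨fun a => k a / (p ^ lam a : ℕ), ?_⟩
      show ((fun a => (k a / (p ^ lam a : ℕ)) * (p : ℤ) ^ lam a),
        - ∑ a, (k a / (p ^ lam a : ℕ)) • δ a) = _
      ext a
      · show (k a / (p ^ lam a : ℕ)) * (p : ℤ) ^ lam a =
          - (((k a % (p ^ lam a : ℕ)).toNat : ℕ) : ℤ) + k a
        have h1 : (0 : ℤ) < ((p ^ lam a : ℕ) : ℤ) := by
          exact_mod_cast Nat.pos_of_ne_zero (NeZero.ne (p ^ lam a))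
        have h3 := Int.emod_nonneg (k a) h1.ne'
        rw [Int.toNat_of_nonneg h3]
        have h4 := Int.emod_add_mul_ediv (k a) ((p ^ lam a : ℕ) : ℤ)
        push_cast at h4 ⊢
        linarith
      · show (- ∑ a, (k a / (p ^ lam a : ℕ)) • δ a) a =
          (- (w + ∑ a, (k a / (p ^ lam a : ℕ)) • δ a) + w) a
        rw [neg_add, add_right_comm, neg_add_cancel, zero_add]

end Sand
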