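import Pool.Agent.Helper793.Sand.J7a
import Pool.Agent.Helper793.Sand.J7b
import Pool.Agent.Helper793.Sand.J7c
import Pool.Agent.Helper793.Sand.J1
import Pool.Agent.Helper793.Sand.J2
import Pool.Agent.Helper793.Sand.J4
import Pool.Agent.Helper793.Sand.J5
import Pool.Agent.Helper793.Sand.J6a
import Pool.Agent.Helper793.Sand.J6b
import Pool.Agent.Helper793.Sand.J6c
import Pool.Agent.Helper793.Sand.J6d
import Pool.Agent.Helper793.Sand.J6e
import Pool.Agent.Helper793.Sand.J8
import Pool.Agent.Helper793.Sand.J9
import Pool.Agent.Helper793.Sand.J10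
import Pool.Agent.Helper793.Sand.J11a
import Pool.Agent.Helper793.Sand.J11b
import Pool.Agent.Helper793.Sand.J11c
import Pool.Agent.Helper793.Sand.J12
import Pool.Agent.Helper793.Sand.J16
import Pool.Agent.Helper793.Sand.JISO
import Pool.Agent.Helper793.Sand.JDOM
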