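import Pool.Agent.Helper793.Sand.Fam

set_option maxHeartbeats 4000000
set_option linter.style.haveILetI false

open Finset Filter Topology

namespace Sand

/-- number of symmetric matrices -/
noncomputable def Nsym (N m : ℕ) : ℕ :=
  Nat.card {M : Matrix (Fin m) (Fin m) (ZMod N) // M.IsSymm}

/-- law of the cokernel of a uniform symmetric matrix over `ℤ/N` -/
noncomputable def psym (N m : ℕ) (H : Type) [AddCommGroup H] : ℝ :=
  (Nat.card {M : Matrix (Fin m) (Fin m) (ZMod N) // M.IsSymm ∧ Nonempty (Cok M ≃+ H)} : ℝ) /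
    Nsym N m

lemma Nsym_pos (N m : ℕ) [NeZero N] : 0 < Nsym N m := by
  haveI : Nonempty {M : Matrix (Fin m) (Fin m) (ZMod N) // M.IsSymm} :=
    ⟨⟨0, Matrix.isSymm_zero⟩⟩
  haveI : Finite (Matrix (Fin m) (Fin m) (ZMod N)) := by
    unfold Matrix; infer_instance
  exact Nat.card_pos

lemma card_Gp (p : ℕ) [Fact p.Prime] {r : ℕ} (lam : Fin r → ℕ) :
    Nat.card (Gp p lam) = p ^ (∑ a, lam a) := by
  rw [Nat.card_pi]
  simp [Nat.card_zmod, Finset.prod_pow_eq_pow_sum]

lemma max_min_sum {m : ℕ} (lt : Fin m → ℕ) :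
    (∑ x ∈ (univ : Finset (Fin m × Fin m)).filter (fun x => x.1 ≤ x.2), max (lt x.1) (lt x.2)) +
      (∑ x ∈ (univ : Finset (Fin m × Fin m)).filter (fun x => x.1 < x.2), min (lt x.1) (lt x.2)) =
    m * ∑ i, lt i := by
  have h1 : (∑ x ∈ (univ : Finset (Fin m × Fin m)).filter (fun x => x.1 ≤ x.2),
      max (lt x.1) (lt x.2)) +
      (∑ x ∈ (univ : Finset (Fin m × Fin m)).filter (fun x => x.1 < x.2),
        min (lt x.1) (lt x.2)) =
      ∑ i : Fin m, ∑ j : Fin m, (((if i < j then lt i else 0) + (if i = j then lt i else 0)) +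
        (if i < j then lt j else 0)) := by
    rw [Finset.sum_filter, Finset.sum_filter, ← Finset.sum_add_distrib, Fintype.sum_prod_type]
    refine Finset.sum_congr rfl fun i _ => Finset.sum_congr rfl fun j _ => ?_
    simp only
    rcases lt_trichotomy i j with h | h | h
    · simp only [h, h.le, h.ne, if_true, if_false]
      rcases le_total (lt i) (lt j) with h2 | h2 <;> simp [h2] <;> omega
    · subst h; simp
    · simp [not_lt.2 h.le, not_le.2 h, h.ne']
  rw [h1]
  have h2 : ∑ i : Fin m, ∑ j : Fin m, (((if i < j then lt i else 0) +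
      (if i = j then lt i else 0)) + (if i < j then lt j else 0)) =
      ∑ i : Fin m, ∑ j : Fin m, (((if i < j then lt i else 0) +
      (if i = j then lt i else 0)) + (if j < i then lt i else 0)) := by
    simp_rw [Finset.sum_add_distrib]
    congr 1
    rw [Finset.sum_comm]
  rw [h2]
  have h3 : ∀ i j : Fin m, (((if i < j then lt i else 0) +
      (if i = j then lt i else 0)) + (if j < i then lt i else 0)) = lt i := by
    intro i j
    rcases lt_trichotomy i j with h | h | h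
    · simp [h, h.ne, not_lt.2 h.le]
    · subst h; simp
    · simp [not_lt.2 h.le, h, h.ne']
  simp_rw [h3]
  simp [Finset.mul_sum]

lemma le_min_sum {m : ℕ} (lt : Fin m → ℕ) :
    (∑ x ∈ (univ : Finset (Fin m × Fin m)).filter (fun x => x.1 ≤ x.2), min (lt x.1) (lt x.2)) =
      (∑ x ∈ (univ : Finset (Fin m × Fin m)).filter (fun x => x.1 < x.2), min (lt x.1) (lt x.2)) +
      ∑ i, lt i := by
  have h0 : ∑ i, lt i = ∑ i : Fin m, ∑ j : Fin m, if i = j then lt i else 0 := by simp
  rw [h0, Finset.sum_filter, Finset.sum_filter, Fintype.sum_prod_type, Fintype.sum_prod_type,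
    ← Finset.sum_add_distrib]
  refine Finset.sum_congr rfl fun i _ => ?_
  rw [← Finset.sum_add_distrib]
  refine Finset.sum_congr rfl fun j _ => ?_
  simp only
  rcases lt_trichotomy i j with h | h | h
  · simp [h, h.le, h.ne]
  · subst h; simp
  · simp [not_lt.2 h.le, not_le.2 h, h.ne']

lemma alt_mul_max (p : ℕ) [Fact p.Prime] {m : ℕ} (lt : Fin m → ℕ) :
    (alt (Gp p lt) : ℝ) * (p : ℝ) ^ (∑ x ∈ (univ : Finset (Fin m × Fin m)).filter
      (fun x => x.1 ≤ x.2), max (lt x.1) (lt x.2)) = (Nat.card (Gp p lt) : ℝ) ^ m := by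
  rw [alt_Gp, card_Gp]
  push_cast
  rw [← pow_add, ← pow_mul, add_comm, max_min_sum, mul_comm]

/-- exact law of the cokernel of a symmetric matrix -/
lemma psym_exact (p : ℕ) [Fact p.Prime] (e m : ℕ) (lt : Fin m → ℕ) (hlt : ∀ i, lt i < e) :
    psym (p ^ e) m (Gp p lt) * (Nat.card (Gp p lt ≃+ Gp p lt) : ℝ) =
      ((gen m (Gp p lt) : ℝ) / (Nat.card (Gp p lt) : ℝ) ^ m) * alt (Gp p lt) *
      ∏ l ∈ range e, sig p ((univ : Finset (Fin m)).filter (fun i => lt i = l)).card := by
  haveI : NeZero (p ^ e) := ⟨pow_ne_zero _ (Fact.out : p.Prime).ne_zero⟩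
  have hp : (p : ℝ) ≠ 0 := by exact_mod_cast (Fact.out : p.Prime).ne_zero
  have h1 := ker_count p e m lt (fun i => (hlt i).le)
  have h2 := range_count p e m lt hlt
  have h3 := alt_mul_max p lt
  have hN : (Nsym (p ^ e) m : ℝ) ≠ 0 := by exact_mod_cast (Nsym_pos (p ^ e) m).ne'
  have hG : (Nat.card (Gp p lt) : ℝ) ^ m ≠ 0 := by
    rw [card_Gp]; push_cast; positivity
  set P := (p : ℝ) ^ (∑ x ∈ (univ : Finset (Fin m × Fin m)).filter
      (fun x => x.1 ≤ x.2), max (lt x.1) (lt x.2)) with hP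
  have hP0 : P ≠ 0 := pow_ne_zero _ hp
  set R := Nat.card {M : Matrix (Fin m) (Fin m) (ZMod (p ^ e)) // M.IsSymm ∧
        LinearMap.range M.mulVecLin =
          LinearMap.range (Matrix.diagonal fun i => ((p : ZMod (p ^ e)) ^ lt i)).mulVecLin} with hR
  set A := Nat.card {M : Matrix (Fin m) (Fin m) (ZMod (p ^ e)) // M.IsSymm ∧
        Nonempty (Cok M ≃+ Gp p lt)} with hA
  have h1' : (A : ℝ) * (Nat.card (Gp p lt ≃+ Gp p lt) : ℝ) = (gen m (Gp p lt) : ℝ) * R := by
    exact_mod_cast h1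
  have h4 : psym (p ^ e) m (Gp p lt) = A / Nsym (p ^ e) m := rfl
  rw [h4, div_mul_eq_mul_div, h1']
  have h2' : (R : ℝ) = Nsym (p ^ e) m *
      (∏ l ∈ range e, sig p ((univ : Finset (Fin m)).filter (fun i => lt i = l)).card) / P := by
    rw [eq_div_iff hP0]; exact h2
  rw [h2', ← h3]
  have ha : (alt (Gp p lt) : ℝ) ≠ 0 := by
    intro h; rw [h, zero_mul] at h3; exact hG h3.symm
  field_simp

end Sand
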