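import Pool.Agent.Helper793.Sand.Symm

set_option maxHeartbeats 4000000
set_option linter.style.haveILetI false

open Finset Filter Topology

namespace Sand

lemma gen_congr {G H : Type} [AddCommGroup G] [AddCommGroup H] (e : G ≃+ H) (m : ℕ) :
    gen m G = gen m H := by
  unfold gen
  refine Nat.card_congr ?_
  refine Equiv.subtypeEquiv (Equiv.piCongrRight fun _ => e.toEquiv) ?_
  intro f
  have h : Set.range ((Equiv.piCongrRight fun _ : Fin m => e.toEquiv) f) =
      e.toAddMonoidHom '' Set.range f := by
    ext x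
    simp [Set.mem_range]
  rw [h, ← AddMonoidHom.map_closure]
  constructor
  · intro h2; rw [h2]
    ext x
    simp only [AddSubgroup.mem_map, AddSubgroup.mem_top, true_and, iff_true]
    exact ⟨e.symm x, by simp⟩
  · intro h2
    ext x
    simp only [AddSubgroup.mem_top, iff_true]
    have : e x ∈ AddSubgroup.map e.toAddMonoidHom (AddSubgroup.closure (Set.range f)) := by
      rw [h2]; trivial
    obtain ⟨y, hy, hxy⟩ := this
    have : y = x := e.injective hxy
    rwa [← this]

/-- transport of characters along an isomorphism -/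
noncomputable def charCongr {G H : Type} [AddCommGroup G] [AddCommGroup H] (e : G ≃+ H) :
    AddChar G ℂ ≃+ AddChar H ℂ where
  toFun ψ := ψ.compAddMonoidHom e.symm.toAddMonoidHom
  invFun ψ := ψ.compAddMonoidHom e.toAddMonoidHom
  left_inv ψ := by ext x; simp
  right_inv ψ := by ext x; simp
  map_add' ψ φ := by ext x; simp

lemma alt_congr {G H : Type} [AddCommGroup G] [AddCommGroup H] (e : G ≃+ H) :
    alt G = alt H := by
  unfold alt
  refine Nat.card_congr ?_
  refine Equiv.subtypeEquiv
    { toFun := fun α => (charCongr e).toAddMonoidHom.comp (α.comp e.symm.toAddMonoidHom)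
      invFun := fun α => (charCongr e).symm.toAddMonoidHom.comp (α.comp e.toAddMonoidHom)
      left_inv := fun α => by ext x y; simp
      right_inv := fun α => by ext x y; simp } ?_
  intro α
  simp only [Equiv.coe_fn_mk, AddMonoidHom.coe_comp, Function.comp, AddEquiv.toAddMonoidHom_eq_coe,
    AddMonoidHom.coe_coe, charCongr, AddEquiv.coe_mk, Equiv.coe_fn_mk,
    AddChar.compAddMonoidHom_apply]
  constructor
  · intro h x
    exact h _
  · intro h x
    have := h (e x)
    simpa using this

lemma symPerf_congr {G H : Type} [AddCommGroup G] [AddCommGroup H] (e : G ≃+ H) :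
    symPerf G = symPerf H := by
  unfold symPerf
  refine Nat.card_congr ?_
  refine Equiv.subtypeEquiv
    { toFun := fun α => (charCongr e).toAddMonoidHom.comp (α.comp e.symm.toAddMonoidHom)
      invFun := fun α => (charCongr e).symm.toAddMonoidHom.comp (α.comp e.toAddMonoidHom)
      left_inv := fun α => by ext x y; simp
      right_inv := fun α => by ext x y; simp } ?_
  intro α
  have hb : Function.Bijective α ↔ Function.Bijective
      ((charCongr e).toAddMonoidHom.comp (α.comp e.symm.toAddMonoidHom)) := by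
    have : (((charCongr e).toAddMonoidHom.comp (α.comp e.symm.toAddMonoidHom) : H →+ _) :
      H → AddChar H ℂ) = (charCongr e) ∘ α ∘ e.symm := rfl
    rw [this, Function.Bijective.of_comp_iff' (charCongr e).bijective,
      Function.Bijective.of_comp_iff _ e.symm.bijective]
  simp only [Equiv.coe_fn_mk]
  rw [← hb]
  refine and_congr ?_ Iff.rfl
  simp only [AddMonoidHom.coe_comp, Function.comp, AddEquiv.toAddMonoidHom_eq_coe,
    AddMonoidHom.coe_coe, charCongr, AddEquiv.coe_mk, Equiv.coe_fn_mk,
    AddChar.compAddMonoidHom_apply]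
  constructor
  · intro h x y
    exact h _ _
  · intro h x y
    have := h (e x) (e y)
    simpa using this

lemma autCard_congr {G H : Type} [AddCommGroup G] [AddCommGroup H] (e : G ≃+ H) :
    Nat.card (G ≃+ G) = Nat.card (H ≃+ H) := by
  refine Nat.card_congr ?_
  exact {
    toFun := fun f => e.symm.trans (f.trans e)
    invFun := fun f => e.trans (f.trans e.symm)
    left_inv := fun f => by ext x; simp
    right_inv := fun f => by ext x; simp }

lemma psym_congr {G H : Type} [AddCommGroup G] [AddCommGroup H] (e : G ≃+ H) (N m : ℕ) :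
    psym N m G = psym N m H := by
  unfold psym
  congr 2
  refine Nat.card_congr (Equiv.subtypeEquivRight fun M => and_congr Iff.rfl ?_)
  exact ⟨fun ⟨f⟩ => ⟨f.trans e⟩, fun ⟨f⟩ => ⟨f.trans e.symm⟩⟩

/-- padding by trivial factors -/
lemma Gp_append (p : ℕ) [Fact p.Prime] {r : ℕ} (lam : Fin r → ℕ) (k : ℕ) :
    Nonempty (Gp p (Fin.append lam (fun _ : Fin k => 0)) ≃+ Gp p lam) := by
  refine ⟨?_⟩
  have hk : ∀ a : Fin k, (Fin.append lam (fun _ : Fin k => 0)) (Fin.natAdd r a) = 0 := by
    intro a; simp
  have hr : ∀ a : Fin r, (Fin.append lam (fun _ : Fin k => 0)) (Fin.castAdd k a) = lam a := by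
    intro a; simp
  refine AddEquiv.ofBijective (AddMonoidHom.mk' (fun x a =>
    (ZMod.ringEquivCongr (congrArg (p ^ ·) (hr a))) (x (Fin.castAdd k a))) ?_) ⟨?_, ?_⟩
  · intro x y; ext a; simp
  · intro x y hxy
    ext i
    refine Fin.addCases (fun a => ?_) (fun a => ?_) i
    · have := congrFun hxy a
      simp only [AddMonoidHom.mk'_apply] at this
      exact (ZMod.ringEquivCongr _).injective this
    · have h0 : p ^ (Fin.append lam (fun _ : Fin k => 0)) (Fin.natAdd r a) = 1 := by
        rw [hk]; simp
      have : Subsingleton (ZMod (p ^ (Fin.append lam (fun _ : Fin k => 0)) (Fin.natAdd r a))) := by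
        rw [h0]; infer_instance
      exact Subsingleton.elim _ _
  · intro y
    refine ⟨fun i => Fin.addCases (motive := fun i =>
      ZMod (p ^ (Fin.append lam (fun _ : Fin k => 0)) i))
      (fun a => (ZMod.ringEquivCongr (congrArg (p ^ ·) (hr a))).symm (y a)) (fun a => 0) i, ?_⟩
    ext a
    simp

lemma level_append {r : ℕ} (lam : Fin r → ℕ) (hlam : ∀ a, 1 ≤ lam a) (k l : ℕ) :
    ((univ : Finset (Fin (r + k))).filter
      (fun i => Fin.append lam (fun _ : Fin k => 0) i = l)).card =
    if l = 0 then k else ((univ : Finset (Fin r)).filter (fun a => lam a = l)).card := by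
  rw [Finset.card_filter, Fin.sum_univ_add]
  simp only [Fin.append_left, Fin.append_right]
  by_cases h : l = 0
  · subst h
    have : ∀ a, ¬ lam a = 0 := fun a h => by have := hlam a; omega
    simp [this]
  · have h3 : ¬ (0 = l) := fun h2 => h h2.symm
    rw [if_neg h, ← Finset.card_filter]
    simp [h3]

/-- limit of the exact law -/
theorem psym_tendsto (p : ℕ) [Fact p.Prime] {r : ℕ} (lam : Fin r → ℕ) (e : ℕ)
    (hlam : ∀ a, 1 ≤ lam a) (he : ∀ a, lam a < e) (he1 : 1 ≤ e) :
    Tendsto (fun m => psym (p ^ e) m (Gp p lam) * (Nat.card (Gp p lam ≃+ Gp p lam) : ℝ)) atTop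
      (𝓝 ((symPerf (Gp p lam) : ℝ) / Nat.card (Gp p lam) *
        ∏' j : ℕ, (1 - 1 / (p : ℝ) ^ (2 * j + 1)))) := by
  rw [← tendsto_add_atTop_iff_nat r]
  have hp : (p : ℝ) ≠ 0 := by exact_mod_cast (Fact.out : p.Prime).ne_zero
  have hfin : Finite (Gp p lam) := by
    haveI : ∀ a, NeZero (p ^ lam a) := fun a => ⟨pow_ne_zero _ (Fact.out : p.Prime).ne_zero⟩
    infer_instance
  have h1 : ∀ k : ℕ, psym (p ^ e) (k + r) (Gp p lam) * (Nat.card (Gp p lam ≃+ Gp p lam) : ℝ) =
      ((gen (k + r) (Gp p lam) : ℝ) / (Nat.card (Gp p lam) : ℝ) ^ (k + r)) * alt (Gp p lam) *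
      (sig p k * ∏ l ∈ Finset.Ico 1 e,
        sig p ((univ : Finset (Fin r)).filter (fun a => lam a = l)).card) := by
    intro k
    rw [add_comm k r]
    have hlt : ∀ i, Fin.append lam (fun _ : Fin k => 0) i < e := by
      intro i
      refine Fin.addCases (fun a => ?_) (fun a => ?_) i
      · simpa using he a
      · simp; omega
    have h2 := psym_exact p e (r + k) (Fin.append lam (fun _ : Fin k => 0)) hlt
    obtain ⟨ε⟩ := Gp_append p lam k
    rw [psym_congr ε, autCard_congr ε, gen_congr ε, alt_congr ε, Nat.card_congr ε.toEquiv] at h2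
    rw [h2]
    congr 1
    rw [Finset.range_eq_Ico, Finset.prod_eq_prod_Ico_succ_bot (by omega)]
    rw [level_append lam hlam]
    simp only [if_true, zero_add]
    congr 1
    refine Finset.prod_congr rfl fun l hl => ?_
    rw [level_append lam hlam, if_neg (by have := (Finset.mem_Ico.1 hl).1; omega)]
  simp_rw [h1]
  have h3 : ((symPerf (Gp p lam) : ℝ) / Nat.card (Gp p lam) *
        ∏' j : ℕ, (1 - 1 / (p : ℝ) ^ (2 * j + 1))) =
      1 * alt (Gp p lam) * ((∏' j : ℕ, (1 - 1 / (p : ℝ) ^ (2 * j + 1))) *
        ∏ l ∈ Finset.Ico 1 e,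
        sig p ((univ : Finset (Fin r)).filter (fun a => lam a = l)).card) := by
    rw [symPerf_Gp p lam e hlam he, le_min_sum, pow_add, card_Gp, alt_Gp]
    push_cast
    field_simp
  rw [h3]
  refine Tendsto.mul (Tendsto.mul_const _ ?_) (Tendsto.mul_const _ (sig_tendsto p))
  exact (tendsto_add_atTop_iff_nat (f := fun m => (gen m (Gp p lam) : ℝ) /
    (Nat.card (Gp p lam) : ℝ) ^ m) r).2 (gen_tendsto (Gp p lam))

end Sand
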